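import Pool.Agent.Lib.MP_b7851d_lc.Steps

/-!
# Word equations: blocks, and short paths
-/

namespace Pool.Agent.QuadEq

/-! ### A general lemma on short paths -/

/-- Exactly `m` steps of a relation. -/
def Iter {σ : Type*} (r : σ → σ → Prop) : ℕ → σ → σ → Prop
  | 0, a, b => a = b
  | m + 1, a, b => ∃ c, r a c ∧ Iter r m c b

theorem Iter.trans {σ : Type*} {r : σ → σ → Prop} : ∀ {m n : ℕ} {a b c : σ}, Iter r m a b →
    Iter r n b c → Iter r (m + n) a c
  | 0, n, a, b, c, h, h' => by
    obtain rfl : a = b := h
    rwa [Nat.zero_add]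
  | m + 1, n, a, b, c, ⟨d, hd, h⟩, h' => by
    rw [Nat.add_right_comm]
    exact ⟨d, hd, h.trans h'⟩

theorem Iter.split {σ : Type*} {r : σ → σ → Prop} : ∀ {m n : ℕ} {a b : σ}, Iter r (m + n) a b →
    ∃ c, Iter r m a c ∧ Iter r n c b
  | 0, n, a, b, h => ⟨a, rfl, by rwa [Nat.zero_add] at h⟩
  | m + 1, n, a, b, h => by
    rw [Nat.add_right_comm] at h
    obtain ⟨d, hd, h⟩ := h
    obtain ⟨c, h1, h2⟩ := Iter.split h
    exact ⟨c, ⟨d, hd, h1⟩, h2⟩

theorem exists_iter {σ : Type*} {r : σ → σ → Prop} {a b : σ} (h : Relation.ReflTransGen r a b) :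
    ∃ m, Iter r m a b := by
  induction h using Relation.ReflTransGen.head_induction_on with
  | refl => exact ⟨0, rfl⟩
  | head h1 _ ih =>
    obtain ⟨m, hm⟩ := ih
    exact ⟨m + 1, _, h1, hm⟩

theorem short_path {σ τ : Type*} {r : σ → σ → Prop} {a b : σ} (h : Relation.ReflTransGen r a b)
    (inv : σ → Prop) (ha : inv a) (hinv : ∀ s s', inv s → r s s' → inv s') (code : σ → τ)
    (T : Finset τ) (hT : ∀ s, inv s → code s ∈ T)
    (hinj : ∀ s s', inv s → inv s' → code s = code s' → s = s') :
    ∃ m < T.card, Iter r m a b := by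
  classical
  have hex := exists_iter h
  refine ⟨Nat.find hex, ?_, Nat.find_spec hex⟩
  set m := Nat.find hex with hm
  have hmin : ∀ k, Iter r k a b → m ≤ k := fun k hk => Nat.find_min' hex hk
  have hinv' : ∀ k s, Iter r k a s → inv s := by
    intro k s hk
    have : ∀ k s s', inv s → Iter r k s s' → inv s' := by
      intro k
      induction k with
      | zero => intro s s' hs h; obtain rfl : s = s' := h; exact hs
      | succ k ih =>
        rintro s s' hs ⟨c, h1, h2⟩
        exact ih c s' (hinv s c hs h1) h2
    exact this k a s ha hk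
  have hc : ∀ i : Fin (m + 1), ∃ c, Iter r i.val a c ∧ Iter r (m - i.val) c b := by
    intro i
    apply Iter.split
    rw [Nat.add_sub_cancel' (Nat.lt_succ_iff.mp i.isLt)]
    exact Nat.find_spec hex
  choose c hc1 hc2 using hc
  have hci : Function.Injective c := by
    have key : ∀ i j : Fin (m + 1), i.val < j.val → c i ≠ c j := by
      intro i j hij e
      have h1 := (hc1 i).trans (e ▸ hc2 j)
      have h2 := hmin _ h1
      have := j.isLt
      omega
    intro i j e
    by_contra hne
    rcases Nat.lt_or_gt_of_ne (fun h => hne (Fin.ext h)) with h | h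
    · exact key i j h e
    · exact key j i h e.symm
  have hcard : (Finset.univ : Finset (Fin (m + 1))).card ≤ T.card :=
    Finset.card_le_card_of_injOn (fun i => code (c i))
      (fun i _ => hT _ (hinv' _ _ (hc1 i)))
      (fun i _ j _ e => hci (hinj _ _ (hinv' _ _ (hc1 i)) (hinv' _ _ (hc1 j)) e))
  rw [Finset.card_univ, Fintype.card_fin] at hcard
  omega

/-! ### Items -/

variable {L : Type} [DecidableEq L] {V : L → Bool}

/-- The word of a list of items; an item is a variable followed by a word of constants. -/
def unp (P : List (L × List L)) : List L := P.flatMap fun t => t.1 :: t.2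

/-- All items are a variable and a word of constants. -/
def Ok (V : L → Bool) (P : List (L × List L)) : Prop :=
  ∀ t ∈ P, V t.1 = true ∧ ∀ c ∈ t.2, V c = false

omit [DecidableEq L] in
theorem unp_cons (t : L × List L) (P : List (L × List L)) : unp (t :: P) = t.1 :: (t.2 ++ unp P) := by
  simp [unp]

omit [DecidableEq L] in
theorem exists_parse (V : L → Bool) (w : List L) :
    ∃ g P, w = g ++ unp P ∧ (∀ c ∈ g, V c = false) ∧ Ok V P := by
  induction w with
  | nil => exact ⟨[], [], rfl, by simp, by simp [Ok]⟩
  | cons l w ih =>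
    obtain ⟨g, P, h1, h2, h3⟩ := ih
    by_cases hl : V l = true
    · refine ⟨[], (l, g) :: P, ?_, by simp, ?_⟩
      · rw [unp_cons, h1]; rfl
      · intro t ht
        rcases List.mem_cons.mp ht with rfl | ht
        · exact ⟨hl, h2⟩
        · exact h3 t ht
    · refine ⟨l :: g, P, by rw [h1]; rfl, ?_, h3⟩
      intro c hc
      rcases List.mem_cons.mp hc with rfl | hc
      · simpa using hl
      · exact h2 c hc

/-- Insertion of the item `t` before every occurrence of an item of the variable `x`. -/
def ins (x : L) (t : L × List L) (P : List (L × List L)) : List (L × List L) :=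
  P.flatMap fun s => if s.1 = x then [t, s] else [s]

omit [DecidableEq L] in
theorem countP_unp {P : List (L × List L)} (hP : Ok V P) : (unp P).countP V = P.length := by
  induction P with
  | nil => rfl
  | cons t P ih =>
    have ht := hP t List.mem_cons_self
    rw [unp_cons, List.countP_cons, List.countP_append, ih fun s hs => hP s (List.mem_cons_of_mem _ hs),
      List.length_cons, if_pos ht.1, List.countP_eq_zero.mpr fun c hc => by simpa using ht.2 c hc]
    omega

theorem unp_ins {x : L} (hx : V x = true) (t : L × List L) {P : List (L × List L)} (hP : Ok V P) :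
    unp (ins x t P) = sub x (t.1 :: t.2 ++ [x]) (unp P) := by
  induction P with
  | nil => rfl
  | cons s P ih =>
    have hs := hP s List.mem_cons_self
    have hs2 : x ∉ s.2 := fun h => by
      have := hs.2 x h
      rw [hx] at this
      exact absurd this (by simp)
    have h1 : ins x t (s :: P) = (if s.1 = x then [t, s] else [s]) ++ ins x t P := by
      simp [ins]
    have h2 : ∀ A B : List (L × List L), unp (A ++ B) = unp A ++ unp B := by
      intro A B; simp [unp]
    rw [h1, h2, ih fun s hs => hP s (List.mem_cons_of_mem _ hs), unp_cons, sub_cons, sub_append,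
      sub_eq_self hs2]
    by_cases h : s.1 = x
    · rw [if_pos h, if_pos h, unp_cons, unp_cons]
      simp [h, unp]
    · rw [if_neg h, if_neg h, unp_cons]
      simp [unp]

theorem mem_ins {x : L} {t s : L × List L} {P : List (L × List L)} (h : s ∈ ins x t P) :
    s = t ∨ s ∈ P := by
  unfold ins at h
  rw [List.mem_flatMap] at h
  obtain ⟨a, ha, h⟩ := h
  by_cases hx : a.1 = x
  · rw [if_pos hx] at h
    rcases List.mem_cons.mp h with h | h
    · exact Or.inl h
    · rw [List.mem_singleton] at h
      exact Or.inr (h ▸ ha)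
  · rw [if_neg hx, List.mem_singleton] at h
    exact Or.inr (h ▸ ha)

/-- A block step: the first item of the second list is moved. -/
inductive TMove : List (L × List L) × List (L × List L) → List (L × List L) × List (L × List L) →
    Prop
  | mk {x y : L} {a w : List L} {P Q : List (L × List L)} (hxy : x ≠ y) :
      TMove ((x, a) :: P, (y, w) :: Q) ((x, a) :: ins x (y, w) P, ins x (y, w) Q)

/-- A block step. -/
def Move (S S' : List (L × List L) × List (L × List L)) : Prop :=
  TMove S S' ∨ TMove S.swap S'.swap

/-- The equation of a pair of lists of items. -/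
def unpE (S : List (L × List L) × List (L × List L)) : List L × List L := (unp S.1, unp S.2)

variable {S S' : List (L × List L) × List (L × List L)}

theorem TMove.mv (h : TMove S S') (h1 : Ok V S.1) (h2 : Ok V S.2) : Mv V (unpE S) (unpE S') := by
  cases h with
  | @mk x y a w P Q hxy =>
    have hx := (h1 _ List.mem_cons_self).1
    have hy := h2 _ List.mem_cons_self
    have hP : Ok V P := fun s hs => h1 s (List.mem_cons_of_mem _ hs)
    have hQ : Ok V Q := fun s hs => h2 s (List.mem_cons_of_mem _ hs)
    have ha : x ∉ a := fun h => by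
      have := (h1 _ List.mem_cons_self).2 x h
      simp only at hx
      rw [hx] at this
      exact absurd this (by simp)
    have hw : x ∉ y :: w := fun h => by
      rcases List.mem_cons.mp h with h | h
      · exact hxy h
      · have := hy.2 x h
        simp only at hx
        rw [hx] at this
        exact absurd this (by simp)
    have := Mv.run (A := a ++ unp P) (B := unp Q) hx hw
    unfold unpE
    simp only at hx ⊢
    rw [unp_cons, unp_cons, unp_cons, unp_ins hx _ hP, unp_ins hx _ hQ]
    rw [sub_append, sub_eq_self ha] at this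
    exact this

theorem TMove.mem (h : TMove S S') {s : L × List L} (hs : s ∈ S'.1 ++ S'.2) : s ∈ S.1 ++ S.2 := by
  cases h with
  | @mk x y a w P Q hxy =>
    simp only [List.mem_append, List.mem_cons] at hs ⊢
    rcases hs with (hs | hs) | hs
    · exact Or.inl (Or.inl hs)
    · rcases mem_ins hs with hs | hs
      · exact Or.inr (Or.inl hs)
      · exact Or.inl (Or.inr hs)
    · rcases mem_ins hs with hs | hs
      · exact Or.inr (Or.inl hs)
      · exact Or.inr (Or.inr hs)

theorem TMove.ne_nil (h : TMove S S') : S.1 ≠ [] := by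
  cases h; simp

theorem Move.mv (h : Move S S') (h1 : Ok V S.1) (h2 : Ok V S.2) : Mv V (unpE S) (unpE S') := by
  rcases h with h | h
  · exact h.mv h1 h2
  · exact (h.mv h2 h1).swap

theorem Move.mem (h : Move S S') {s : L × List L} (hs : s ∈ S'.1 ++ S'.2) : s ∈ S.1 ++ S.2 := by
  rcases h with h | h
  · exact h.mem hs
  · have := h.mem (s := s) (by simpa [or_comm] using hs)
    simpa [or_comm] using this

theorem Move.swap (h : Move S S') : Move S.swap S'.swap := by
  rcases h with h | h
  · exact Or.inr h
  · exact Or.inl h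

/-! ### The number of block states -/

/-- The finite set of codes of block states. -/
noncomputable def codes (N : ℕ) : Finset (List (Fin N) × List (Fin N)) :=
  (List.finite_length_le (Fin N) N).toFinset ×ˢ (List.finite_length_le (Fin N) N).toFinset

theorem Move.inv {I : List (L × List L)} {N : ℕ} (h : Move S S')
    (hS : Ok V S.1 ∧ Ok V S.2 ∧ Quad V (unpE S) ∧ S.1.length + S.2.length ≤ N ∧
      ∀ s ∈ S.1 ++ S.2, s ∈ I) :
    Ok V S'.1 ∧ Ok V S'.2 ∧ Quad V (unpE S') ∧ S'.1.length + S'.2.length ≤ N ∧
      ∀ s ∈ S'.1 ++ S'.2, s ∈ I := by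
  obtain ⟨h1, h2, h3, h4, h5⟩ := hS
  have hm := h.mv h1 h2
  have hok : ∀ s ∈ S'.1 ++ S'.2, V s.1 = true ∧ ∀ c ∈ s.2, V c = false := by
    intro s hs
    have := h.mem hs
    rcases List.mem_append.mp this with h | h
    · exact h1 s h
    · exact h2 s h
  have h1' : Ok V S'.1 := fun s hs => hok s (List.mem_append_left _ hs)
  have h2' : Ok V S'.2 := fun s hs => hok s (List.mem_append_right _ hs)
  refine ⟨h1', h2', hm.quad h3, ?_, fun s hs => h5 s (h.mem hs)⟩
  rw [← countP_unp h1', ← countP_unp h2']
  rw [← countP_unp h1, ← countP_unp h2] at h4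
  have := (hm.subperm h3).countP_le V
  rw [List.countP_append, List.countP_append] at this
  exact this.trans h4

theorem short_block_path {N : ℕ} (h : Relation.ReflTransGen Move S S')
    (h1 : Ok V S.1) (h2 : Ok V S.2) (h3 : Quad V (unpE S)) (h4 : S.1.length + S.2.length ≤ N) :
    ∃ m < (codes N).card, Iter Move m S S' := by
  set I := S.1 ++ S.2 with hI
  rcases Nat.eq_zero_or_pos N with hN | hN
  · subst hN
    have e1 : S.1 = [] := List.length_eq_zero_iff.mp (by omega)
    have e2 : S.2 = [] := List.length_eq_zero_iff.mp (by omega)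
    refine ⟨0, Finset.card_pos.mpr ⟨([], []), ?_⟩, ?_⟩
    · simp [codes]
    · show S = S'
      rcases Relation.ReflTransGen.cases_head h with h | ⟨c, hc, _⟩
      · exact h
      · exfalso
        rcases hc with hc | hc
        · exact hc.ne_nil e1
        · exact hc.ne_nil e2
  have hidx : ∀ s ∈ I, I.idxOf s < N := fun s hs =>
    (List.idxOf_lt_length_iff.mpr hs).trans_le (by rw [hI, List.length_append]; exact h4)
  let idx : L × List L → Fin N := fun s => ⟨I.idxOf s % N, Nat.mod_lt _ hN⟩
  have hinj : ∀ s ∈ I, ∀ s' ∈ I, idx s = idx s' → s = s' := by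
    intro s hs s' hs' e
    have := congrArg Fin.val e
    simp only [idx] at this
    rw [Nat.mod_eq_of_lt (hidx s hs), Nat.mod_eq_of_lt (hidx s' hs')] at this
    exact List.idxOf_inj hs |>.mp this
  refine short_path h (fun S => Ok V S.1 ∧ Ok V S.2 ∧ Quad V (unpE S) ∧
      S.1.length + S.2.length ≤ N ∧ ∀ s ∈ S.1 ++ S.2, s ∈ I) ⟨h1, h2, h3, h4, fun s hs => hs⟩
    (fun s s' hs hm => Move.inv hm hs) (fun S => (S.1.map idx, S.2.map idx)) (codes N) ?_ ?_
  · rintro S ⟨-, -, -, h, -⟩
    unfold codes
    rw [Finset.mem_product, Set.Finite.mem_toFinset, Set.Finite.mem_toFinset]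
    simp only [Set.mem_ofPred_eq, List.length_map]
    omega
  · rintro S S' ⟨-, -, -, -, h⟩ ⟨-, -, -, -, h'⟩ e
    have key : ∀ A B : List (L × List L), (∀ s ∈ A, s ∈ I) → (∀ s ∈ B, s ∈ I) →
        A.map idx = B.map idx → A = B := by
      intro A
      induction A with
      | nil =>
        intro B _ _ e
        exact (List.map_eq_nil_iff.mp e.symm).symm
      | cons a A ih =>
        intro B hA hB e
        cases B with
        | nil => simp at e
        | cons b B =>
          rw [List.map_cons, List.map_cons, List.cons.injEq] at e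
          rw [hinj a (hA a List.mem_cons_self) b (hB b List.mem_cons_self) e.1,
            ih B (fun s hs => hA s (List.mem_cons_of_mem _ hs))
              (fun s hs => hB s (List.mem_cons_of_mem _ hs)) e.2]
    have e1 := congrArg Prod.fst e
    have e2 := congrArg Prod.snd e
    exact Prod.ext (key _ _ (fun s hs => h s (List.mem_append_left _ hs))
      (fun s hs => h' s (List.mem_append_left _ hs)) e1)
      (key _ _ (fun s hs => h s (List.mem_append_right _ hs))
      (fun s hs => h' s (List.mem_append_right _ hs)) e2)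

theorem rch_of_iter {m : ℕ} (h : Iter Move m S S') (h1 : Ok V S.1) (h2 : Ok V S.2)
    (h3 : Quad V (unpE S)) : Rch V m (unpE S) (unpE S') := by
  induction m generalizing S with
  | zero => obtain rfl : S = S' := h; exact Rch.refl 0 _
  | succ m ih =>
    obtain ⟨T, hT, h⟩ := h
    obtain ⟨h1', h2', h3', -, -⟩ := Move.inv (N := S.1.length + S.2.length) (I := S.1 ++ S.2) hT
      ⟨h1, h2, h3, le_rfl, fun s hs => hs⟩
    exact Rch.step (hT.mv h1 h2) (ih h h1' h2' h3')

end Pool.Agent.QuadEq
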