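import Pool.Agent.Lib.MP_b7851d_lc.Poly

/-!
# Word equations: the definitions of the problem, and their translation
-/

namespace Pool.Agent.QuadEq

/-- A letter: `Sum.inl a` is the terminal letter (constant) number `a`, and `Sum.inr x` is the
variable number `x`. -/
abbrev Letter : Type := ℕ ⊕ ℕ

/-- A word equation `lhs = rhs`. -/
structure WordEq where
  /-- the left-hand side -/
  lhs : List Letter
  /-- the right-hand side -/
  rhs : List Letter

/-- The image of a word under the morphism which fixes the constants and maps the variable `x` to
the word `h x` of constants. -/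
def image (h : ℕ → List ℕ) (w : List Letter) : List ℕ :=
  w.flatMap fun l => match l with
    | Sum.inl a => [a]
    | Sum.inr x => h x

namespace WordEq

variable (E : WordEq)

/-- The length of the equation. -/
def length : ℕ := (E.lhs ++ E.rhs).length

/-- Every variable occurs at most twice in total. -/
def IsQuadratic : Prop :=
  ∀ x : ℕ, (E.lhs ++ E.rhs).countP (fun l => decide (l = Sum.inr x)) ≤ 2

/-- The set of variables which occur in the equation. -/
def vars : Finset ℕ := ((E.lhs ++ E.rhs).filterMap Sum.getRight?).toFinset

/-- `h` is a solution with values in the words over the alphabet `S`. -/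
def IsSolution (S : Set ℕ) (h : ℕ → List ℕ) : Prop :=
  (∀ x, ∀ a ∈ h x, a ∈ S) ∧ image h E.lhs = image h E.rhs

/-- `S` is a possible alphabet of the equation: it contains all constants of the equation. -/
def IsAlphabet (S : Set ℕ) : Prop := ∀ a : ℕ, Sum.inl a ∈ E.lhs ++ E.rhs → a ∈ S

/-- The bits of a letter: a bit which tells whether it is a variable, and the binary expansion of
the number (least significant bits first). -/
def code : Letter → List Bool
  | Sum.inl a => false :: a.bits
  | Sum.inr x => true :: x.bits

/-- The encoding of equations as words over a four-letter alphabet (bits `some (some b)`, comma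
`some none`, equality sign `none`): every letter is written as a comma followed by its bits. -/
def encode : List (Option (Option Bool)) :=
  (E.lhs.flatMap fun l => some none :: (code l).map fun b => some (some b)) ++
    none :: (E.rhs.flatMap fun l => some none :: (code l).map fun b => some (some b))

end WordEq

/-! ### Translation -/

theorem binVal_tail (l : Letter) :
    PolyTime.binVal (WordEq.code l).tail = (match l with | Sum.inl a => a | Sum.inr x => x) := by
  cases l with
  | inl a => exact PolyTime.binVal_bits a
  | inr x => exact PolyTime.binVal_bits x

theorem code_injective : Function.Injective WordEq.code := by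
  intro l l' h
  have h1 := binVal_tail l
  have h2 := binVal_tail l'
  rw [h] at h1
  rw [h1] at h2
  cases l with
  | inl a =>
    cases l' with
    | inl b => simp only at h2; rw [h2]
    | inr y => simp [WordEq.code] at h
  | inr x =>
    cases l' with
    | inl b => simp [WordEq.code] at h
    | inr y => simp only at h2; rw [h2]

/-- The equation with bit lists as letters. -/
def tr (E : WordEq) : List (List Bool) × List (List Bool) :=
  (E.lhs.map WordEq.code, E.rhs.map WordEq.code)

theorem encode_eq (E : WordEq) : E.encode = encE (tr E) := by
  unfold WordEq.encode encE encW tr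
  rw [List.flatMap_map, List.flatMap_map]

theorem exists_of_isV {l : Letter} (h : isV (WordEq.code l) = true) : ∃ x, l = Sum.inr x := by
  cases l with
  | inl a => simp [WordEq.code, isV] at h
  | inr x => exact ⟨x, rfl⟩

theorem count_map_eq {M L : Type} [DecidableEq M] [DecidableEq L] {f : M → L}
    (hf : Function.Injective f) (w : List M) (m : M) :
    (w.map f).count (f m) = w.countP fun a => decide (a = m) := by
  induction w with
  | nil => rfl
  | cons a w ih =>
    rw [List.map_cons, List.count_cons, List.countP_cons, ih]
    by_cases h : a = m
    · simp [h]
    · simp [h, hf.eq_iff]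

theorem count_eq_zero_of_not_mem {L : Type} [DecidableEq L] {w : List L} {l : L} (h : l ∉ w) :
    w.count l = 0 := List.count_eq_zero_of_not_mem h

theorem quad_tr {E : WordEq} (hE : E.IsQuadratic) : Quad isV (tr E) := by
  intro l hl
  unfold tr
  rw [← List.map_append]
  by_cases h : l ∈ (E.lhs ++ E.rhs).map WordEq.code
  · obtain ⟨l', -, rfl⟩ := List.mem_map.mp h
    obtain ⟨x, rfl⟩ := exists_of_isV hl
    rw [count_map_eq code_injective]
    exact hE x
  · rw [count_eq_zero_of_not_mem h]
    omega

theorem card_vars_tr (E : WordEq) : (vars isV (tr E)).card ≤ E.vars.card := by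
  refine (Finset.card_le_card ?_).trans (Finset.card_image_le
    (s := E.vars) (f := fun x => WordEq.code (Sum.inr x)))
  intro l hl
  rw [mem_vars] at hl
  obtain ⟨h, hv⟩ := hl
  have h' : l ∈ (E.lhs ++ E.rhs).map WordEq.code := by
    rw [List.map_append, List.mem_append]
    exact h
  obtain ⟨l', hl', rfl⟩ := List.mem_map.mp h'
  obtain ⟨x, rfl⟩ := exists_of_isV hv
  refine Finset.mem_image.mpr ⟨x, ?_, rfl⟩
  unfold WordEq.vars
  rw [List.mem_toFinset, List.mem_filterMap]
  exact ⟨_, hl', rfl⟩

theorem solves_of_solution {E : WordEq} {S : Set ℕ} {h : ℕ → List ℕ} (hh : E.IsSolution S h) :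
    ∃ h', Solves isV h' (tr E) := by
  refine ⟨fun l => (h (PolyTime.binVal l.tail)).map fun a => WordEq.code (Sum.inl a), ?_⟩
  have key : ∀ w : List Letter, ev isV
      (fun l => (h (PolyTime.binVal l.tail)).map fun a => WordEq.code (Sum.inl a))
      (w.map WordEq.code) = (image h w).map fun a => WordEq.code (Sum.inl a) := by
    intro w
    induction w with
    | nil => rfl
    | cons l w ih =>
      rw [List.map_cons, ev_cons, ih]
      unfold image
      rw [List.flatMap_cons, List.map_append]
      congr 1
      cases l with
      | inl a => rfl
      | inr x =>
        have h1 : isV (WordEq.code (Sum.inr x)) = true := rfl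
        rw [if_pos h1, binVal_tail]
  unfold Solves tr
  simp only
  rw [key, key, hh.2]

open Classical in
/-- Reading a letter; foreign letters are erased. -/
noncomputable def rd (S : Set ℕ) (l : List Bool) : List ℕ :=
  if isV l = false ∧ PolyTime.binVal l.tail ∈ S then [PolyTime.binVal l.tail] else []

theorem solution_of_solves {E : WordEq} {S : Set ℕ} (hS : E.IsAlphabet S)
    {h' : List Bool → List (List Bool)} (hh : Solves isV h' (tr E)) :
    E.IsSolution S (fun x => (h' (WordEq.code (Sum.inr x))).flatMap (rd S)) := by
  have key : ∀ w : List Letter, (∀ a : ℕ, Sum.inl a ∈ w → a ∈ S) →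
      image (fun x => (h' (WordEq.code (Sum.inr x))).flatMap (rd S)) w =
        (ev isV h' (w.map WordEq.code)).flatMap (rd S) := by
    intro w hw
    induction w with
    | nil => rfl
    | cons l w ih =>
      rw [List.map_cons, ev_cons, List.flatMap_append, ← ih fun a ha => hw a (by simp [ha])]
      unfold image
      rw [List.flatMap_cons]
      congr 1
      cases l with
      | inl a =>
        have h1 : isV (WordEq.code (Sum.inl a)) = false := rfl
        have h2 : a ∈ S := hw a (by simp)
        rw [if_neg (by rw [h1]; simp)]
        simp only [List.flatMap_cons, List.flatMap_nil, List.append_nil]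
        unfold rd
        rw [binVal_tail, if_pos ⟨h1, h2⟩]
      | inr x =>
        have h1 : isV (WordEq.code (Sum.inr x)) = true := rfl
        rw [if_pos h1]
  refine ⟨?_, ?_⟩
  · intro x a ha
    rw [List.mem_flatMap] at ha
    obtain ⟨l, -, ha⟩ := ha
    unfold rd at ha
    split_ifs at ha with h1
    · rw [List.mem_singleton] at ha
      rw [ha]; exact h1.2
    · simp at ha
  · have := hh
    unfold Solves tr at this
    simp only at this
    rw [key _ fun a ha => hS a (List.mem_append_left _ ha),
      key _ fun a ha => hS a (List.mem_append_right _ ha), this]

theorem length_rd (S : Set ℕ) (w : List (List Bool)) : (w.flatMap (rd S)).length ≤ w.length := by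
  induction w with
  | nil => simp
  | cons l w ih =>
    rw [List.flatMap_cons, List.length_append, List.length_cons]
    have : (rd S l).length ≤ 1 := by
      unfold rd
      split_ifs <;> simp
    omega

theorem length_tr (E : WordEq) : ((tr E).1 ++ (tr E).2).length = E.length := by
  unfold tr WordEq.length
  rw [List.length_append, List.length_map, List.length_map, List.length_append]

end Pool.Agent.QuadEq
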