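import Pool.Agent.Lib.MP_b7851d_lc.VerifyP
import Pool.Agent.Lib.MP_b7851d_lc.WordEq

/-!
# Breaks of an equation
-/

namespace Pool.Agent.QuadEq

namespace WordEq

/-- The list of the letters which follow the occurrences of `x` in the word `w`; `none` stands for
the end of the word. -/
def followers (x : ℕ) : List ℕ → List (Option ℕ)
  | [] => []
  | y :: w => if y = x then w.head? :: followers x w else followers x w

variable (E : WordEq)

/-- The skeleton of one side `w` of the equation: the word of the occurrences of those variables
which occur exactly twice in the equation; all other letters are dropped. -/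
def skeleton (w : List Letter) : List ℕ :=
  (w.filterMap Sum.getRight?).filter fun x =>
    decide ((E.lhs ++ E.rhs).countP (fun l => decide (l = Sum.inr x)) = 2)

/-- The variable `x` is a break: it occurs exactly twice, and in the skeletons of the two sides the
two occurrences have different followers. -/
def IsBreak (x : ℕ) : Prop := ∃ o o' : Option ℕ, o ≠ o' ∧
  followers x (E.skeleton E.lhs) ++ followers x (E.skeleton E.rhs) = [o, o']

open Classical in
/-- The number of breaks. -/
noncomputable def breaks : ℕ := (E.vars.filter fun x => E.IsBreak x).card

end WordEq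

/-- The code of a variable. -/
def cv (x : ℕ) : List Bool := WordEq.code (Sum.inr x)

theorem cv_injective : Function.Injective cv := fun _ _ h => Sum.inr_injective (code_injective h)

theorem fol_map (x : ℕ) (w : List ℕ) :
    fol (cv x) (w.map cv) = (WordEq.followers x w).map (Option.map cv) := by
  induction w with
  | nil => rfl
  | cons y w ih =>
    rw [List.map_cons, fol, WordEq.followers, ih]
    by_cases h : y = x
    · rw [if_pos (by rw [h]), if_pos h, List.map_cons]
      congr 1
      cases w <;> rfl
    · rw [if_neg fun e => h (cv_injective e), if_neg h]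

theorem card_fm_filter {L : Type} [DecidableEq L] (V : L → Bool) (E : List L × List L) {z : L}
    (h : dbl V E z = true) :
    Multiset.card (fm (E.1.filter (dbl V E)) (E.2.filter (dbl V E)) z) = 2 := by
  rw [card_fm, ← List.filter_append, List.count_filter h]
  unfold dbl at h
  rw [Bool.and_eq_true, decide_eq_true_eq] at h
  exact h.2

theorem dbl_tr (E : WordEq) (l : Letter) : dbl isV (tr E) (WordEq.code l) =
    (isV (WordEq.code l) && decide ((E.lhs ++ E.rhs).countP (fun l' => decide (l' = l)) = 2)) := by
  have h := count_map_eq code_injective (E.lhs ++ E.rhs) l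
  unfold dbl tr
  simp only
  rw [← List.map_append, h]

theorem filter_skeleton (E : WordEq) (w : List Letter) :
    (w.map WordEq.code).filter (dbl isV (tr E)) = (E.skeleton w).map cv := by
  unfold WordEq.skeleton
  induction w with
  | nil => rfl
  | cons l w ih =>
    rw [List.map_cons, List.filter_cons, ih]
    cases l with
    | inl a =>
      have h1 : dbl isV (tr E) (WordEq.code (Sum.inl a)) = false := rfl
      rw [h1, if_neg (by simp)]
      rw [List.filterMap_cons]
      rfl
    | inr x =>
      have h1 : dbl isV (tr E) (WordEq.code (Sum.inr x)) =
          decide ((E.lhs ++ E.rhs).countP (fun l' => decide (l' = Sum.inr x)) = 2) := by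
        rw [dbl_tr]
        rfl
      rw [h1, List.filterMap_cons]
      simp only [Sum.getRight?_inr]
      rw [List.filter_cons]
      split_ifs
      · rfl
      · rfl

theorem badE_tr_le (E : WordEq) : badE isV (tr E) ≤ E.breaks := by
  classical
  unfold badE WordEq.breaks
  have e1 : (tr E).1.filter (dbl isV (tr E)) = (E.skeleton E.lhs).map cv := filter_skeleton E E.lhs
  have e2 : (tr E).2.filter (dbl isV (tr E)) = (E.skeleton E.rhs).map cv := filter_skeleton E E.rhs
  rw [e1, e2]
  have hmem : ∀ {x : ℕ} {w : List Letter}, x ∈ E.skeleton w → Sum.inr x ∈ w ∧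
      (E.lhs ++ E.rhs).countP (fun l => decide (l = Sum.inr x)) = 2 := by
    intro x w hx
    unfold WordEq.skeleton at hx
    rw [List.mem_filter, List.mem_filterMap, decide_eq_true_eq] at hx
    obtain ⟨⟨l, hl, hx⟩, hc⟩ := hx
    refine ⟨?_, hc⟩
    cases l with
    | inl a => simp at hx
    | inr y => simp only [Sum.getRight?_inr, Option.some.injEq] at hx; rw [← hx]; exact hl
  refine (Finset.card_le_card (t := (E.vars.filter fun x => E.IsBreak x).image cv) ?_).trans
    Finset.card_image_le
  intro z hz
  unfold badS at hz
  rw [Finset.mem_filter, List.mem_toFinset, ← List.map_append, List.mem_map] at hz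
  obtain ⟨⟨x, hx, rfl⟩, hbad⟩ := hz
  have hx' : Sum.inr x ∈ E.lhs ++ E.rhs ∧
      (E.lhs ++ E.rhs).countP (fun l => decide (l = Sum.inr x)) = 2 := by
    rcases List.mem_append.mp hx with hx | hx
    · exact ⟨List.mem_append_left _ (hmem hx).1, (hmem hx).2⟩
    · exact ⟨List.mem_append_right _ (hmem hx).1, (hmem hx).2⟩
  refine Finset.mem_image.mpr ⟨x, Finset.mem_filter.mpr ⟨?_, ?_⟩, rfl⟩
  · unfold WordEq.vars
    rw [List.mem_toFinset, List.mem_filterMap]
    exact ⟨_, hx'.1, rfl⟩
  · have h1 : dbl isV (tr E) (cv x) = true := by
      unfold cv
      rw [dbl_tr, Bool.and_eq_true, decide_eq_true_eq]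
      exact ⟨rfl, hx'.2⟩
    have hcard := card_fm_filter isV (tr E) h1
    rw [e1, e2] at hcard
    have hfm : fm ((E.skeleton E.lhs).map cv) ((E.skeleton E.rhs).map cv) (cv x) =
        (((WordEq.followers x (E.skeleton E.lhs) ++
          WordEq.followers x (E.skeleton E.rhs)).map (Option.map cv) :
            List (Option (List Bool))) : Multiset (Option (List Bool))) := by
      unfold fm
      rw [fol_map, fol_map, List.map_append, ← Multiset.coe_add]
    rw [hfm, Multiset.coe_card, List.length_map] at hcard
    obtain ⟨o, o', ho⟩ := List.length_eq_two.mp hcard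
    refine ⟨o, o', ?_, ho⟩
    rintro rfl
    refine hbad (Or.inl ⟨o.map cv, ?_⟩)
    rw [hfm, ho]
    rfl

/-! ### Sizes -/

open Pool.Agent.PolyTime

theorem size_letter (l : List Bool) : size l ≤ 4 * l.length + 1 := by
  have := size_list_le (l := l) (B := 3) fun b _ => size_bool b
  omega

theorem encode_length_letter (E : WordEq) {l : Letter} (h : l ∈ E.lhs ++ E.rhs) :
    (WordEq.code l).length ≤ E.encode.length := by
  have key : ∀ {w : List Letter}, l ∈ w → (WordEq.code l).length ≤
      (w.flatMap fun l => (some none :: (WordEq.code l).map fun b => some (some b) :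
        List (Option (Option Bool)))).length := by
    intro w hw
    induction w with
    | nil => simp at hw
    | cons a w ih =>
      rw [List.flatMap_cons, List.length_append, List.length_cons, List.length_map]
      rcases List.mem_cons.mp hw with rfl | hw
      · omega
      · have := ih hw
        omega
  unfold WordEq.encode
  rw [List.length_append, List.length_cons]
  rcases List.mem_append.mp h with h | h
  · have := key h; omega
  · have := key h; omega

theorem length_le_encode (E : WordEq) : E.length ≤ E.encode.length := by
  have key : ∀ w : List Letter, w.length ≤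
      (w.flatMap fun l => (some none :: (WordEq.code l).map fun b => some (some b) :
        List (Option (Option Bool)))).length := by
    intro w
    induction w with
    | nil => simp
    | cons a w ih =>
      rw [List.flatMap_cons, List.length_append, List.length_cons, List.length_cons]
      omega
  unfold WordEq.length WordEq.encode
  rw [List.length_append, List.length_append, List.length_cons]
  have h1 := key E.lhs
  have h2 := key E.rhs
  omega

/-- The verifier on bits. -/
def verifyB (E : List (List Bool) × List (List Bool)) (c : List Bool) : Bool :=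
  verify E (unbits Cert c)

theorem verifyB_complete {d : ℕ} {E : WordEq} (hq : E.IsQuadratic) (hb : E.breaks ≤ d)
    (hs : ∃ h, Solves isV h (tr E)) : ∃ c : List Bool, verifyB (tr E) c = true ∧
      c.length ≤ bC d (4 * E.encode.length + 1) := by
  have hlen : len (tr E) ≤ 4 * E.encode.length + 1 := by
    unfold len
    rw [length_tr]
    have := length_le_encode E
    omega
  have hl : ∀ l ∈ (tr E).1 ++ (tr E).2, size l ≤ 4 * E.encode.length + 1 := by
    intro l hl
    unfold tr at hl
    rw [← List.map_append, List.mem_map] at hl
    obtain ⟨l', hl', rfl⟩ := hl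
    have := encode_length_letter E hl'
    have := size_letter (WordEq.code l')
    omega
  obtain ⟨c, h1, h2⟩ := exists_cert (quad_tr hq) ((badE_tr_le E).trans hb) hlen hl hs
  refine ⟨bits c, ?_, by rw [bits_length]; exact h2⟩
  unfold verifyB
  rw [unbits_bits]
  exact h1

end Pool.Agent.QuadEq
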