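import Pool.Agent.Lib.MP_b7851d_lc.Pigeon
import Pool.Agent.Lib.MP_b7851d_lc.Blocks

/-!
# Bulk moves of regular states: pairs of words with the same letters, each letter once
-/

namespace Pool.Agent.QuadEq

open List Equiv

variable {α : Type*}

/-- A bulk move: the word before the other occurrence of a first letter is rotated. -/
inductive Bk : List α × List α → List α × List α → Prop
  | top (x : α) (P U W Q : List α) : Bk (x :: P, U ++ W ++ x :: Q) (x :: P, W ++ U ++ x :: Q)
  | bot (y : α) (P U W Q : List α) : Bk (U ++ W ++ y :: P, y :: Q) (W ++ U ++ y :: P, y :: Q)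

theorem Bk.swap {s t : List α × List α} (h : Bk s t) : Bk s.swap t.swap := by
  cases h with
  | top x P U W Q => exact Bk.bot x Q U W P
  | bot y P U W Q => exact Bk.top y Q U W P

theorem Bk.symm {s t : List α × List α} (h : Bk s t) : Bk t s := by
  cases h with
  | top x P U W Q => exact Bk.top x P W U Q
  | bot y P U W Q => exact Bk.bot y P W U Q

theorem Bk.perm {s t : List α × List α} (h : Bk s t) : s.1 ~ t.1 ∧ s.2 ~ t.2 := by
  cases h with
  | top x P U W Q => exact ⟨List.Perm.refl _, List.Perm.append_right _ List.perm_append_comm⟩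
  | bot y P U W Q => exact ⟨List.Perm.append_right _ List.perm_append_comm, List.Perm.refl _⟩

theorem Bk.last {s t : List α × List α} (h : Bk s t) :
    t.1.getLast? = s.1.getLast? ∧ t.2.getLast? = s.2.getLast? := by
  have e : ∀ (A B : List α) (x : α) (C : List α), (A ++ x :: C).getLast? = (B ++ x :: C).getLast? := by
    intro A B x C
    rw [List.getLast?_append_cons, List.getLast?_append_cons]
  cases h with
  | top x P U W Q => exact ⟨rfl, e _ _ _ _⟩
  | bot y P U W Q => exact ⟨e _ _ _ _, rfl⟩

/-- A regular state. -/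
structure Rg (s : List α × List α) : Prop where
  n1 : s.1.Nodup
  n2 : s.2.Nodup
  p : s.1 ~ s.2

theorem Bk.rg {s t : List α × List α} (h : Bk s t) (hs : Rg s) : Rg t :=
  ⟨h.perm.1.nodup_iff.mp hs.n1, h.perm.2.nodup_iff.mp hs.n2,
    (h.perm.1.symm.trans hs.p).trans h.perm.2⟩

theorem Rg.swap {s : List α × List α} (hs : Rg s) : Rg s.swap := ⟨hs.n2, hs.n1, hs.p.symm⟩

section inv

variable [DecidableEq α]

/-- The product of the cycle before `x` and the cycle of the rest. -/
def gb (x : α) (Q : List α) : Perm α :=
  formPerm (Q.takeWhile (fun z => decide (z ≠ x))) * formPerm (Q.dropWhile (fun z => decide (z ≠ x)))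

theorem gb_eq {x : α} {U Q : List α} (h : x ∉ U) :
    gb x (U ++ x :: Q) = formPerm U * formPerm (x :: Q) := by
  have h1 : ∀ z ∈ U, decide (z ≠ x) = true := by
    intro z hz
    simp only [ne_eq, decide_eq_true_eq]
    rintro rfl
    exact h hz
  unfold gb
  rw [List.takeWhile_append_of_pos h1, List.dropWhile_append_of_pos h1]
  simp

/-- The invariant. -/
def Lam : List α × List α → Perm α
  | ([], _) => 1
  | (x :: P, Q) => (gb x Q)⁻¹ * formPerm (x :: P)

theorem lam_sym {x y : α} {V P Q : List α} (hs : Rg ((x :: V) ++ y :: P, y :: Q)) :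
    Lam ((x :: V) ++ y :: P, y :: Q) =
      (formPerm (y :: Q))⁻¹ * (formPerm (x :: V) * formPerm (y :: P)) := by
  have n1 := hs.n1
  have n2 := hs.n2
  simp only at n1 n2
  have hxy : x ≠ y := by
    rintro rfl
    simp at n1
  have hx : x ∈ Q := by
    have : x ∈ y :: Q := hs.p.subset (by simp)
    rcases List.mem_cons.mp this with h | h
    · exact absurd h hxy
    · exact h
  obtain ⟨U, Q₂, rfl⟩ := List.append_of_mem hx
  have hxU : x ∉ y :: U := by
    intro h
    have : ((y :: U) ++ x :: Q₂).Nodup := n2
    rw [List.nodup_append] at this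
    exact this.2.2 x h x List.mem_cons_self rfl
  have e1 : Lam ((x :: V) ++ y :: P, y :: (U ++ x :: Q₂)) =
      (gb x ((y :: U) ++ x :: Q₂))⁻¹ * formPerm ((x :: V) ++ y :: P) := rfl
  have e2 : y :: (U ++ x :: Q₂) = (y :: U) ++ (x :: Q₂) := rfl
  rw [e1, gb_eq hxU, e2, formPerm_two U Q₂ n2, formPerm_two V P n1, mul_inv_rev (swap y x),
    swap_inv, swap_comm y x]
  simp only [mul_assoc]

theorem Bk.lam {s t : List α × List α} (h : Bk s t) (hs : Rg s) : Lam t = Lam s := by
  cases h with
  | top x P U W Q =>
    have n2 := hs.n2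
    simp only at n2
    have hx : x ∉ U ++ W := by
      intro h
      rw [List.nodup_append] at n2
      exact n2.2.2 x h x List.mem_cons_self rfl
    have hx' : x ∉ W ++ U := by simpa [or_comm] using hx
    have hn : (U ++ W).Nodup := (List.nodup_append.mp n2).1
    show (gb x (W ++ U ++ x :: Q))⁻¹ * _ = (gb x (U ++ W ++ x :: Q))⁻¹ * _
    rw [gb_eq hx, gb_eq hx', List.formPerm_eq_of_isRotated hn List.isRotated_append]
  | bot y P U W Q =>
    cases U with
    | nil => simp
    | cons u U =>
      cases W with
      | nil => simp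
      | cons w W =>
        have ht := (Bk.bot y P (u :: U) (w :: W) Q).rg hs
        have e1 : (u :: U) ++ (w :: W) ++ y :: P = (u :: (U ++ w :: W)) ++ y :: P := by simp
        have e2 : (w :: W) ++ (u :: U) ++ y :: P = (w :: (W ++ u :: U)) ++ y :: P := by simp
        rw [e1] at hs
        rw [e2] at ht
        rw [e1, e2, lam_sym hs, lam_sym ht]
        have hn : ((u :: U) ++ (w :: W)).Nodup := by
          have := hs.n1
          simp only at this
          rw [← e1] at this
          exact (List.nodup_append.mp this).1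
        have e3 : u :: (U ++ w :: W) = (u :: U) ++ (w :: W) := rfl
        have e4 : w :: (W ++ u :: U) = (w :: W) ++ (u :: U) := rfl
        rw [e3, e4, List.formPerm_eq_of_isRotated hn List.isRotated_append]

/-- At a standard state the invariant gives the permutation of the pair of cyclic words. -/
theorem lam_std {f e : α} {Z Q : List α} (hs : Rg (f :: (Z ++ [e]), Q ++ [f])) :
    mu (Z ++ [e], Q) = Lam (f :: (Z ++ [e]), Q ++ [f]) * swap e f := by
  have n1 := hs.n1
  have n2 := hs.n2
  simp only at n1 n2
  have hf : f ∉ Q := by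
    intro h
    rw [List.nodup_append] at n2
    exact n2.2.2 f h f List.mem_cons_self rfl
  show (formPerm Q)⁻¹ * formPerm (Z ++ [e]) = (gb f (Q ++ [f]))⁻¹ * formPerm (f :: (Z ++ [e])) * _
  have h1 : (formPerm (f :: (Z ++ [e])))⁻¹ f = e := by
    rw [Perm.inv_eq_iff_eq]
    exact (List.formPerm_cons_concat_apply_last f e Z).symm
  rw [gb_eq hf, formPerm_del n1 (by simp), h1]
  simp [mul_assoc]

end inv

end Pool.Agent.QuadEq
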