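import Pool.Agent.Lib.MP_b7851d_lc.Steps

/-!
# Skeletons: two words in which every letter occurs exactly twice in total
-/

namespace Pool.Agent.QuadEq

variable {L : Type} [DecidableEq L]

/-- The list of the letters which follow the occurrences of `z` in the word; `none` is the end. -/
def fol (z : L) : List L → List (Option L)
  | [] => []
  | a :: w => if a = z then w.head? :: fol z w else fol z w

/-- The followers of `z` in a pair of words. -/
def fm (P Q : List L) (z : L) : Multiset (Option L) := (fol z P : Multiset (Option L)) + fol z Q

/-- The letter `z` is good: its two followers are equal, or they are the two first letters. -/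
def GoodL (P Q : List L) (z : L) : Prop := (∃ u, fm P Q z = {u, u}) ∨ fm P Q z = {P.head?, Q.head?}

open Classical in
/-- The set of bad letters. -/
noncomputable def badS (P Q : List L) : Finset L := (P ++ Q).toFinset.filter fun z => ¬ GoodL P Q z

/-- Every letter occurs exactly twice. -/
def Full (P Q : List L) : Prop := ∀ z ∈ P ++ Q, (P ++ Q).count z = 2

theorem fol_cons_self (z : L) (w : List L) : fol z (z :: w) = w.head? :: fol z w := by
  rw [fol, if_pos rfl]

theorem fol_cons_ne {z a : L} (h : a ≠ z) (w : List L) : fol z (a :: w) = fol z w := by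
  rw [fol, if_neg h]

theorem length_fol (z : L) (w : List L) : (fol z w).length = w.count z := by
  induction w with
  | nil => rfl
  | cons a w ih =>
    by_cases h : a = z
    · subst h; rw [fol_cons_self, List.length_cons, ih, List.count_cons_self]
    · rw [fol_cons_ne h, ih, List.count_cons_of_ne h]

theorem count_tail_le (x : L) (w : List L) : w.tail.count x ≤ w.count x :=
  (List.tail_sublist w).count_le x

theorem count_head_tail (x : L) (w : List L) :
    (if w.head? = some x then 1 else 0) + w.tail.count x = w.count x := by
  cases w with
  | nil => simp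
  | cons a w =>
    rw [List.head?_cons, List.tail_cons]
    by_cases h : a = x
    · subst h; rw [if_pos rfl, List.count_cons_self]; omega
    · rw [if_neg (by simpa using h), List.count_cons_of_ne h]; omega

theorem count_fol (x z : L) (w : List L) :
    Multiset.count (some x) (fol z w : Multiset (Option L)) ≤ w.tail.count x := by
  induction w with
  | nil => simp [fol]
  | cons a w ih =>
    rw [List.tail_cons]
    have h2 := count_head_tail x w
    by_cases h : a = z
    · subst h
      rw [fol_cons_self, ← Multiset.cons_coe, Multiset.count_cons]
      by_cases h3 : w.head? = some x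
      · rw [if_pos h3] at h2; rw [if_pos h3.symm]; omega
      · rw [if_neg h3] at h2; rw [if_neg (fun e => h3 e.symm)]; omega
    · rw [fol_cons_ne h]
      exact ih.trans (count_tail_le x w)

theorem count_fol_add {x z z' : L} (hz : z ≠ z') (w : List L) :
    Multiset.count (some x) (fol z w : Multiset (Option L)) +
      Multiset.count (some x) (fol z' w : Multiset (Option L)) ≤ w.tail.count x := by
  induction w with
  | nil => simp [fol]
  | cons a w ih =>
    rw [List.tail_cons]
    have h2 := count_head_tail x w
    have h5 := count_tail_le x w
    have key : ∀ {z z' : L}, a = z → z ≠ z' →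
        Multiset.count (some x) (fol z w : Multiset (Option L)) +
        Multiset.count (some x) (fol z' w : Multiset (Option L)) ≤ w.tail.count x →
        Multiset.count (some x) (fol z (a :: w) : Multiset (Option L)) +
        Multiset.count (some x) (fol z' (a :: w) : Multiset (Option L)) ≤ w.count x := by
      intro z z' h hz ih
      subst h
      rw [fol_cons_self, fol_cons_ne hz, ← Multiset.cons_coe, Multiset.count_cons]
      by_cases h3 : w.head? = some x
      · rw [if_pos h3] at h2; rw [if_pos h3.symm]; omega
      · rw [if_neg h3] at h2; rw [if_neg (fun e => h3 e.symm)]; omega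
    by_cases h : a = z
    · exact key h hz ih
    · by_cases h' : a = z'
      · have := key h' hz.symm (by omega)
        omega
      · rw [fol_cons_ne h, fol_cons_ne h']
        omega

variable {P Q : List L} {x y z : L}

theorem card_fm (P Q : List L) (z : L) : Multiset.card (fm P Q z) = (P ++ Q).count z := by
  unfold fm
  rw [Multiset.card_add, Multiset.coe_card, Multiset.coe_card, length_fol, length_fol,
    List.count_append]

theorem count_fm (P Q : List L) (x z : L) :
    (fm P Q z).count (some x) ≤ P.tail.count x + Q.tail.count x := by
  unfold fm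
  rw [Multiset.count_add]
  exact Nat.add_le_add (count_fol x z P) (count_fol x z Q)

theorem count_fm_add (P Q : List L) (x : L) {z z' : L} (hz : z ≠ z') :
    (fm P Q z).count (some x) + (fm P Q z').count (some x) ≤ P.tail.count x + Q.tail.count x := by
  unfold fm
  rw [Multiset.count_add, Multiset.count_add]
  have h1 := count_fol_add (x := x) hz P
  have h2 := count_fol_add (x := x) hz Q
  omega

/-! ### The block step -/

/-- The change of the followers. -/
def chg (x y : L) (o : Option L) : Option L := if o = some x then some y else o

theorem head_sub2 (w : List L) : (sub x [y, x] w).head? = chg x y w.head? := by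
  cases w with
  | nil => rfl
  | cons a w =>
    rw [sub_cons]
    unfold chg
    by_cases h : a = x
    · simp [h]
    · simp [h]

theorem fol_sub_ne (hz : y ≠ z) (w : List L) :
    fol z (sub x [y, x] w) = (fol z w).map (chg x y) := by
  induction w with
  | nil => rfl
  | cons a w ih =>
    rw [sub_cons]
    by_cases h : a = x
    · subst h
      rw [if_pos rfl, List.cons_append, List.cons_append, List.nil_append, fol_cons_ne hz]
      by_cases h2 : a = z
      · subst h2; rw [fol_cons_self, fol_cons_self, head_sub2, ih]; rfl
      · rw [fol_cons_ne h2, fol_cons_ne h2, ih]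
    · rw [if_neg h, List.singleton_append]
      by_cases h2 : a = z
      · subst h2; rw [fol_cons_self, fol_cons_self, head_sub2, ih]; rfl
      · rw [fol_cons_ne h2, fol_cons_ne h2, ih]

theorem fol_sub_y (hxy : x ≠ y) (w : List L) :
    (fol y (sub x [y, x] w) : Multiset (Option L)) =
      Multiset.map (chg x y) (fol y w) + Multiset.replicate (w.count x) (some x) := by
  induction w with
  | nil => simp [fol]
  | cons a w ih =>
    rw [sub_cons]
    by_cases h : a = x
    · subst h
      rw [if_pos rfl, List.cons_append, List.cons_append, List.nil_append, fol_cons_self,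
        fol_cons_ne hxy, fol_cons_ne hxy, List.count_cons_self, Multiset.replicate_succ,
        ← Multiset.cons_coe, ih, List.head?_cons, Multiset.add_cons]
    · rw [if_neg h, List.singleton_append, List.count_cons_of_ne h]
      by_cases h2 : a = y
      · subst h2
        rw [fol_cons_self, fol_cons_self, head_sub2, ← Multiset.cons_coe, ih, ← Multiset.cons_coe,
          Multiset.map_cons, Multiset.cons_add]
      · rw [fol_cons_ne h2, fol_cons_ne h2, ih]

theorem good_tmove {A B : List L} (hxy : x ≠ y) (hF : Full (x :: A) (y :: B))
    (hz : GoodL (x :: A) (y :: B) z) : GoodL (x :: sub x [y, x] A) (sub x [y, x] B) z := by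
  have hx : A.count x + B.count x = 1 := by
    have := hF x (by simp)
    rw [List.count_append, List.count_cons_self, List.count_cons_of_ne hxy.symm] at this
    omega
  have hcx : ∀ z, (fm (x :: A) (y :: B) z).count (some x) ≤ 1 := fun z => by
    have := count_fm (x :: A) (y :: B) x z
    rw [List.tail_cons, List.tail_cons] at this
    omega
  have hu : ∀ u, fm (x :: A) (y :: B) z = {u, u} → u ≠ some x := by
    rintro u h rfl
    have := hcx z
    rw [h] at this
    simp at this
  by_cases hzy : y = z
  · subst hzy
    have h1 : fm (x :: A) (y :: B) y = B.head? ::ₘ ((fol y A : Multiset (Option L)) + fol y B) := by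
      unfold fm
      rw [fol_cons_ne hxy, fol_cons_self, ← Multiset.cons_coe, Multiset.add_cons]
    have h2 : fm (x :: sub x [y, x] A) (sub x [y, x] B) y =
        some x ::ₘ Multiset.map (chg x y)
          ((fol y A : Multiset (Option L)) + (fol y B : Multiset (Option L))) := by
      unfold fm
      rw [fol_cons_ne hxy, fol_sub_y hxy, fol_sub_y hxy, Multiset.map_add,
        ← Multiset.singleton_add]
      have h3 : Multiset.replicate (A.count x) (some x) + Multiset.replicate (B.count x) (some x) =
          ({some x} : Multiset (Option L)) := by
        rw [← Multiset.replicate_add, hx, Multiset.replicate_one]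
      rw [← h3]
      abel
    have h4 : Multiset.card ((fol y A : Multiset (Option L)) + (fol y B : Multiset (Option L))) =
        1 := by
      have := card_fm (x :: A) (y :: B) y
      rw [hF y (by simp), h1, Multiset.card_cons] at this
      omega
    obtain ⟨v, hv⟩ := Multiset.card_eq_one.mp h4
    rw [hv] at h1 h2
    rw [Multiset.map_singleton] at h2
    right
    rw [h2, List.head?_cons, head_sub2]
    have h5 : fm (x :: A) (y :: B) y = {B.head?, v} := h1
    rcases hz with ⟨u, hz⟩ | hz
    · have h6 := hu u hz
      rw [h5] at hz
      have h7 : B.head? = u := by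
        have : B.head? ∈ ({u, u} : Multiset (Option L)) := by rw [← hz]; simp
        simpa using this
      have h8 : v = u := by
        have : v ∈ ({u, u} : Multiset (Option L)) := by rw [← hz]; simp
        simpa using this
      rw [h7, h8]
      rfl
    · rw [h5, List.head?_cons, List.head?_cons] at hz
      have h6 : B.head? ∈ ({some x, some y} : Multiset (Option L)) := by rw [← hz]; simp
      rw [Multiset.insert_eq_cons, Multiset.mem_cons, Multiset.mem_singleton] at h6
      rcases h6 with h6 | h6
      · rw [h6] at hz ⊢
        have h7 : v = some y := by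
          rw [Multiset.insert_eq_cons, Multiset.insert_eq_cons, Multiset.cons_inj_right,
            Multiset.singleton_inj] at hz
          exact hz
        rw [h7]
        unfold chg
        rw [if_pos rfl, if_neg (by simpa using hxy.symm)]
        rfl
      · rw [h6] at hz ⊢
        have h7 : v = some x := by
          rw [Multiset.pair_comm (some x) (some y), Multiset.insert_eq_cons,
            Multiset.insert_eq_cons, Multiset.cons_inj_right, Multiset.singleton_inj] at hz
          exact hz
        rw [h7]
        unfold chg
        rw [if_pos rfl, if_neg (by simpa using hxy.symm)]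
        rfl
  · have h1 : fm (x :: sub x [y, x] A) (sub x [y, x] B) z =
        (fm (x :: A) (y :: B) z).map (chg x y) := by
      unfold fm
      rw [Multiset.map_add, Multiset.map_coe, Multiset.map_coe, ← fol_sub_ne hzy,
        fol_cons_ne hzy, fol_sub_ne hzy]
      congr 2
      · by_cases h2 : x = z
        · subst h2
          rw [fol_cons_self, head_sub2, fol_sub_ne hzy, sub_cons, if_pos rfl, List.cons_append,
            List.cons_append, List.nil_append, fol_cons_ne hzy, fol_cons_self, head_sub2,
            fol_sub_ne hzy]
        · rw [fol_cons_ne h2, sub_cons, if_pos rfl, List.cons_append,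
            List.cons_append, List.nil_append, fol_cons_ne hzy, fol_cons_ne h2]
    rcases hz with ⟨u, hz⟩ | hz
    · left
      refine ⟨u, ?_⟩
      rw [h1, hz]
      have := hu u hz
      simp [chg, this]
    · left
      refine ⟨some y, ?_⟩
      rw [h1, hz]
      simp only [List.head?_cons, Multiset.insert_eq_cons, Multiset.map_cons,
        Multiset.map_singleton]
      unfold chg
      rw [if_pos rfl, if_neg (by simpa using hxy.symm)]

/-! ### Removal of a letter -/

theorem head_erase {w : List L} (h : w.head? ≠ some x) : (sub x [] w).head? = w.head? := by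
  cases w with
  | nil => rfl
  | cons a w =>
    have h2 : a ≠ x := fun e => h (by rw [e]; rfl)
    rw [sub_cons, if_neg h2]
    rfl

theorem erase_cons_self (w : List L) : sub x [] (x :: w) = sub x [] w := by
  rw [sub_cons, if_pos rfl]
  rfl

theorem erase_cons_ne {a : L} (h : a ≠ x) (w : List L) : sub x [] (a :: w) = a :: sub x [] w := by
  rw [sub_cons, if_neg h]
  rfl

theorem fol_erase (hz : z ≠ x) {w : List L} (h : some x ∉ fol z w) :
    fol z (sub x [] w) = fol z w := by
  induction w with
  | nil => rfl
  | cons a w ih =>
    by_cases ha : a = x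
    · subst ha
      rw [fol_cons_ne (fun e => hz e.symm)] at h ⊢
      rw [erase_cons_self, ih h]
    · rw [erase_cons_ne ha]
      by_cases h2 : a = z
      · subst h2
        rw [fol_cons_self] at h
        rw [fol_cons_self, fol_cons_self, ih fun e => h (List.mem_cons_of_mem _ e),
          head_erase fun e => h (by rw [e]; exact List.mem_cons_self)]
      · rw [fol_cons_ne h2] at h
        rw [fol_cons_ne h2, fol_cons_ne h2, ih h]

theorem fol_erase' (hz : z ≠ x) : ∀ (n : ℕ) (w : List L), w.length ≤ n → w.head? ≠ some x →
    (∀ z', z' ≠ z → some x ∉ fol z' w) →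
    (fol z (sub x [] w) : Multiset (Option L)) =
      Multiset.filter (· ≠ some x) (fol z w : Multiset (Option L)) + fol x w := by
  intro n
  induction n using Nat.strong_induction_on with
  | _ n ih =>
    intro w hn hhd hall
    cases w with
    | nil => simp [fol]
    | cons a w =>
      have ha : a ≠ x := fun e => hhd (by rw [e]; rfl)
      rw [erase_cons_ne ha, fol_cons_ne ha]
      cases w with
      | nil =>
        by_cases h2 : a = z
        · subst h2; simp [fol]
        · simp [fol, h2]
      | cons b w =>
        by_cases hb : b = x
        · subst hb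
          have haz : a = z := by
            by_contra h
            exact hall a h (by rw [fol_cons_self]; exact List.mem_cons_self)
          subst haz
          have hw : w.head? ≠ some b := fun e =>
            hall b ha.symm (by rw [fol_cons_ne ha, fol_cons_self, e]; exact List.mem_cons_self)
          rw [List.length_cons, List.length_cons] at hn
          have := ih w.length (by omega) w le_rfl hw (fun z' hz' e => hall z' hz' (by
            rw [fol_cons_ne hz'.symm]
            by_cases h3 : b = z'
            · subst h3; rw [fol_cons_self]; exact List.mem_cons_of_mem _ e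
            · rwa [fol_cons_ne h3]))
          rw [erase_cons_self, fol_cons_self, ← Multiset.cons_coe, this, head_erase hw,
            fol_cons_self, ← Multiset.cons_coe, List.head?_cons,
            Multiset.filter_cons_of_neg _ (by simp), fol_cons_ne ha.symm, fol_cons_self,
            ← Multiset.cons_coe, Multiset.add_cons]
        · rw [List.length_cons] at hn
          have hw : (b :: w).head? ≠ some x := by simpa using hb
          have := ih (b :: w).length (by omega) (b :: w) le_rfl hw (fun z' hz' e => hall z' hz' (by
            by_cases h3 : a = z'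
            · subst h3; rw [fol_cons_self]; exact List.mem_cons_of_mem _ e
            · rwa [fol_cons_ne h3]))
          by_cases h2 : a = z
          · subst h2
            rw [fol_cons_self, ← Multiset.cons_coe, this, head_erase hw, fol_cons_self,
              ← Multiset.cons_coe, Multiset.filter_cons_of_pos (p := fun o => o ≠ some x) _ hw,
              Multiset.cons_add]
          · rw [fol_cons_ne h2, fol_cons_ne h2, this]

theorem not_mem_of_count {z : L} (h : (fm P Q z).count (some x) = 0) :
    some x ∉ fol z P ∧ some x ∉ fol z Q := by
  unfold fm at h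
  rw [Multiset.count_add] at h
  constructor
  · intro h2
    have := Multiset.count_pos.mpr (Multiset.mem_coe.mpr h2)
    omega
  · intro h2
    have := Multiset.count_pos.mpr (Multiset.mem_coe.mpr h2)
    omega

theorem fm_erase (hz : z ≠ x) (h : (fm P Q z).count (some x) = 0) :
    fm (sub x [] P) (sub x [] Q) z = fm P Q z := by
  obtain ⟨h1, h2⟩ := not_mem_of_count h
  unfold fm
  rw [fol_erase hz h1, fol_erase hz h2]

theorem fm_erase' (hz : z ≠ x) (hP : P.head? ≠ some x) (hQ : Q.head? ≠ some x)
    (hall : ∀ z', z' ≠ z → (fm P Q z').count (some x) = 0) :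
    fm (sub x [] P) (sub x [] Q) z =
      Multiset.filter (· ≠ some x) (fm P Q z) + fm P Q x := by
  unfold fm
  rw [fol_erase' hz _ P le_rfl hP fun z' h => (not_mem_of_count (hall z' h)).1,
    fol_erase' hz _ Q le_rfl hQ fun z' h => (not_mem_of_count (hall z' h)).2,
    Multiset.filter_add]
  abel

/-- The exceptional letters: they become good if `x` is good. -/
theorem good_exc1 (hF : Full P Q) (hx : x ∈ P ++ Q) (hz : z ≠ x)
    (hm : fm P Q z = {some x, some x}) (hgx : GoodL P Q x) :
    GoodL (sub x [] P) (sub x [] Q) z := by
  have hcz : (fm P Q z).count (some x) = 2 := by rw [hm]; simp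
  have h1 := count_fm P Q x z
  have h2 := count_head_tail x P
  have h3 := count_head_tail x Q
  have h4 := hF x hx
  rw [List.count_append] at h4
  have hP : P.head? ≠ some x := fun e => by rw [if_pos e] at h2; omega
  have hQ : Q.head? ≠ some x := fun e => by rw [if_pos e] at h3; omega
  rw [if_neg hP] at h2
  rw [if_neg hQ] at h3
  have hall : ∀ z', z' ≠ z → (fm P Q z').count (some x) = 0 := fun z' hz' => by
    have := count_fm_add P Q x hz'.symm
    omega
  have h5 := fm_erase' hz hP hQ hall
  rw [hm] at h5
  have h6 : Multiset.filter (· ≠ some x) ({some x, some x} : Multiset (Option L)) = 0 := by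
    rw [Multiset.filter_eq_nil]
    intro a ha
    simp at ha
    simp [ha]
  rw [h6, zero_add] at h5
  rcases hgx with ⟨u, hu⟩ | hu
  · exact Or.inl ⟨u, by rw [h5, hu]⟩
  · exact Or.inr (by rw [h5, hu, head_erase hP, head_erase hQ])

theorem fm_swap (P Q : List L) (z : L) : fm P Q z = fm Q P z := by
  unfold fm
  exact add_comm _ _

theorem goodL_swap (h : GoodL P Q z) : GoodL Q P z := by
  rcases h with ⟨u, h⟩ | h
  · exact Or.inl ⟨u, by rw [← fm_swap, h]⟩
  · exact Or.inr (by rw [← fm_swap, h, Multiset.pair_comm])

theorem Full.swap (h : Full P Q) : Full Q P := by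
  intro z hz
  have := h z (by simpa [or_comm] using hz)
  rw [List.count_append] at this ⊢
  omega

theorem good_exc2 {P₁ : List L} (hF : Full (x :: P₁) Q) (hz : z ≠ x)
    (hm : fm (x :: P₁) Q z = {some x, Q.head?}) (hQ : Q.head? ≠ some x)
    (hgx : GoodL (x :: P₁) Q x) :
    GoodL (sub x [] (x :: P₁)) (sub x [] Q) z := by
  have hcz : (fm (x :: P₁) Q z).count (some x) = 1 := by
    rw [hm, Multiset.insert_eq_cons, Multiset.count_cons_self, Multiset.count_singleton,
      if_neg hQ.symm]
  have h1 := hF x (by simp)
  rw [List.count_append, List.count_cons_self] at h1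
  have h3 := count_head_tail x Q
  rw [if_neg hQ] at h3
  have hall : ∀ z', z' ≠ z → (fm (x :: P₁) Q z').count (some x) = 0 := fun z' hz' => by
    have := count_fm_add (x :: P₁) Q x hz'.symm
    rw [List.tail_cons] at this
    omega
  have hfx : fm (x :: P₁) Q x = P₁.head? ::ₘ fm P₁ Q x := by
    unfold fm
    rw [fol_cons_self, ← Multiset.cons_coe, Multiset.cons_add]
  have hfz : ∀ z', z' ≠ x → fm (x :: P₁) Q z' = fm P₁ Q z' := fun z' h => by
    unfold fm
    rw [fol_cons_ne h.symm]
  have hx0 := hall x hz.symm
  have hP : P₁.head? ≠ some x := fun e => by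
    rw [hfx, e, Multiset.count_cons_self] at hx0
    omega
  have hall' : ∀ z', z' ≠ z → (fm P₁ Q z').count (some x) = 0 := fun z' h => by
    have h5 := hall z' h
    by_cases h6 : z' = x
    · subst h6
      rw [hfx, Multiset.count_cons_of_ne hP.symm] at h5
      exact h5
    · rwa [hfz z' h6] at h5
  have h5 := fm_erase' hz hP hQ hall'
  rw [← hfz z hz, hm] at h5
  have h6 : Multiset.filter (· ≠ some x) ({some x, Q.head?} : Multiset (Option L)) =
      {Q.head?} := by
    rw [Multiset.insert_eq_cons, Multiset.filter_cons_of_neg _ (by simp), Multiset.filter_singleton,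
      if_pos hQ]
  rw [h6] at h5
  have hc : Multiset.card (fm (x :: P₁) Q x) = 2 := by rw [card_fm]; exact hF x (by simp)
  rw [hfx, Multiset.card_cons] at hc
  obtain ⟨v, hv⟩ := Multiset.card_eq_one.mp (show Multiset.card (fm P₁ Q x) = 1 by omega)
  rw [hv] at h5 hfx
  right
  rw [erase_cons_self, head_erase hP, head_erase hQ, h5]
  rcases hgx with ⟨u, hu⟩ | hu
  · rw [hfx] at hu
    have h7 : P₁.head? = u := by
      have : P₁.head? ∈ ({u, u} : Multiset (Option L)) := by rw [← hu]; simp
      simpa using this
    have h8 : v = u := by
      have : v ∈ ({u, u} : Multiset (Option L)) := by rw [← hu]; simp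
      simpa using this
    rw [h7, h8, Multiset.singleton_add, Multiset.insert_eq_cons, ← Multiset.insert_eq_cons,
      Multiset.pair_comm]
    rfl
  · exfalso
    rw [hu, List.head?_cons, Multiset.insert_eq_cons, Multiset.count_cons_self] at hx0
    omega

theorem bad_erase (hF : Full P Q) (hx : x ∈ P ++ Q) :
    (badS (sub x [] P) (sub x [] Q)).card ≤ (badS P Q).card := by
  classical
  -- the exceptional letters
  have hexc : ∀ z, z ≠ x → GoodL P Q z → ¬ GoodL (sub x [] P) (sub x [] Q) z →
      ¬ GoodL P Q x ∧ (fm P Q z = {some x, some x} ∨
        (fm P Q z = {some x, Q.head?} ∧ P.head? = some x ∧ Q.head? ≠ some x) ∨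
        (fm P Q z = {some x, P.head?} ∧ Q.head? = some x ∧ P.head? ≠ some x)) := by
    intro z hz hg hng
    rcases hg with ⟨u, hu⟩ | hu
    · by_cases h1 : u = some x
      · subst h1
        exact ⟨fun h => hng (good_exc1 hF hx hz hu h), Or.inl hu⟩
      · exfalso
        apply hng
        left
        refine ⟨u, ?_⟩
        rw [fm_erase hz, hu]
        rw [hu]
        simp [Ne.symm h1]
    · by_cases hP : P.head? = some x
      · by_cases hQ : Q.head? = some x
        · exfalso
          have h1 := count_fm P Q x z
          have h2 := count_head_tail x P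
          have h3 := count_head_tail x Q
          have h4 := hF x hx
          rw [if_pos hP] at h2
          rw [if_pos hQ] at h3
          rw [List.count_append] at h4
          rw [hu, hP, hQ] at h1
          simp at h1
          omega
        · rw [hP] at hu
          refine ⟨fun h => ?_, Or.inr (Or.inl ⟨hu, hP, hQ⟩)⟩
          cases P with
          | nil => simp at hP
          | cons a P₁ =>
            rw [List.head?_cons, Option.some.injEq] at hP
            subst hP
            exact hng (good_exc2 hF hz hu hQ h)
      · by_cases hQ : Q.head? = some x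
        · rw [hQ, Multiset.pair_comm] at hu
          refine ⟨fun h => ?_, Or.inr (Or.inr ⟨hu, hQ, hP⟩)⟩
          cases Q with
          | nil => simp at hQ
          | cons a Q₁ =>
            rw [List.head?_cons, Option.some.injEq] at hQ
            subst hQ
            exact hng (goodL_swap (good_exc2 hF.swap hz (by rw [fm_swap, hu]) hP (goodL_swap h)))
        · exfalso
          apply hng
          right
          rw [fm_erase hz, hu, head_erase hP, head_erase hQ]
          rw [hu, Multiset.insert_eq_cons, Multiset.count_cons, Multiset.count_singleton,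
            if_neg (Ne.symm hP), if_neg (Ne.symm hQ)]
  have huniq : ∀ z z', z ≠ x → z' ≠ x → GoodL P Q z → ¬ GoodL (sub x [] P) (sub x [] Q) z →
      GoodL P Q z' → ¬ GoodL (sub x [] P) (sub x [] Q) z' → z = z' := by
    intro z z' hz hz' h1 h2 h1' h2'
    by_contra hne
    have h3 := count_fm_add P Q x hne
    have h4 := count_head_tail x P
    have h5 := count_head_tail x Q
    have h6 := hF x hx
    rw [List.count_append] at h6
    have hc : ∀ z, z ≠ x → GoodL P Q z → ¬ GoodL (sub x [] P) (sub x [] Q) z →
        (fm P Q z).count (some x) = 2 ∨ ((fm P Q z).count (some x) = 1 ∧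
          P.tail.count x + Q.tail.count x = 1) := by
      intro z hz h1 h2
      rcases (hexc z hz h1 h2).2 with h | ⟨h, hP, hQ⟩ | ⟨h, hQ, hP⟩
      · left; rw [h]; simp
      · right
        rw [if_pos hP] at h4
        rw [if_neg hQ] at h5
        refine ⟨?_, by omega⟩
        rw [h, Multiset.insert_eq_cons, Multiset.count_cons_self, Multiset.count_singleton,
          if_neg (Ne.symm hQ)]
      · right
        rw [if_neg hP] at h4
        rw [if_pos hQ] at h5
        refine ⟨?_, by omega⟩
        rw [h, Multiset.insert_eq_cons, Multiset.count_cons_self, Multiset.count_singleton,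
          if_neg (Ne.symm hP)]
    have h7 := hc z hz h1 h2
    have h8 := hc z' hz' h1' h2'
    omega
  have hmem : ∀ z, z ∈ badS (sub x [] P) (sub x [] Q) → z ≠ x ∧ z ∈ P ++ Q ∧
      ¬ GoodL (sub x [] P) (sub x [] Q) z := by
    intro z hz
    unfold badS at hz
    rw [Finset.mem_filter, List.mem_toFinset] at hz
    obtain ⟨h1, h2⟩ := hz
    rw [← sub_append] at h1
    have hzx : z ≠ x := fun e => not_mem_sub_nil (e ▸ h1)
    refine ⟨hzx, ?_, h2⟩
    have h3 : 0 < (sub x [] (P ++ Q)).count z := List.count_pos_iff.mpr h1
    rw [count_sub, if_neg hzx, List.count_nil, mul_zero, add_zero] at h3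
    exact List.count_pos_iff.mp h3
  by_cases hex : ∃ z0, z0 ≠ x ∧ GoodL P Q z0 ∧ ¬ GoodL (sub x [] P) (sub x [] Q) z0
  · obtain ⟨z0, h1, h2, h3⟩ := hex
    have hxb : x ∈ badS P Q := by
      unfold badS
      rw [Finset.mem_filter, List.mem_toFinset]
      exact ⟨hx, (hexc z0 h1 h2 h3).1⟩
    have hsub : badS (sub x [] P) (sub x [] Q) ⊆ insert z0 ((badS P Q).erase x) := by
      intro z hz
      obtain ⟨h4, h5, h6⟩ := hmem z hz
      rw [Finset.mem_insert, Finset.mem_erase]
      by_cases h7 : GoodL P Q z
      · exact Or.inl (huniq z z0 h4 h1 h7 h6 h2 h3)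
      · right
        refine ⟨h4, ?_⟩
        unfold badS
        rw [Finset.mem_filter, List.mem_toFinset]
        exact ⟨h5, h7⟩
    have h8 := Finset.card_le_card hsub
    have h9 := Finset.card_insert_le z0 ((badS P Q).erase x)
    rw [Finset.card_erase_of_mem hxb] at h9
    have h10 : 0 < (badS P Q).card := Finset.card_pos.mpr ⟨x, hxb⟩
    omega
  · push Not at hex
    apply Finset.card_le_card
    intro z hz
    obtain ⟨h4, h5, h6⟩ := hmem z hz
    unfold badS
    rw [Finset.mem_filter, List.mem_toFinset]
    exact ⟨h5, fun h => h6 (hex z h4 h)⟩

theorem bad_tmove {A B : List L} (hxy : x ≠ y) (hF : Full (x :: A) (y :: B)) :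
    (badS (x :: sub x [y, x] A) (sub x [y, x] B)).card ≤ (badS (x :: A) (y :: B)).card := by
  classical
  apply Finset.card_le_card
  intro z hz
  unfold badS at hz ⊢
  rw [Finset.mem_filter, List.mem_toFinset] at hz ⊢
  refine ⟨?_, fun h => hz.2 (good_tmove hxy hF h)⟩
  have h1 := hz.1
  rw [List.cons_append, List.mem_cons, List.mem_append] at h1
  rw [List.cons_append, List.mem_cons, List.mem_append]
  have h2 : ∀ w : List L, z ∈ sub x [y, x] w → z = y ∨ z = x ∨ z ∈ w := by
    intro w hw
    unfold sub at hw
    rw [List.mem_flatMap] at hw
    obtain ⟨a, ha, h3⟩ := hw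
    by_cases h4 : a = x
    · rw [if_pos h4] at h3
      simp at h3
      tauto
    · rw [if_neg h4, List.mem_singleton] at h3
      exact Or.inr (Or.inr (h3 ▸ ha))
  rcases h1 with h1 | h1 | h1
  · exact Or.inl h1
  · rcases h2 _ h1 with h | h | h
    · exact Or.inr (Or.inr (h ▸ List.mem_cons_self))
    · exact Or.inl h
    · exact Or.inr (Or.inl h)
  · rcases h2 _ h1 with h | h | h
    · exact Or.inr (Or.inr (h ▸ List.mem_cons_self))
    · exact Or.inl h
    · exact Or.inr (Or.inr (List.mem_cons_of_mem _ h))

theorem badS_swap (P Q : List L) : badS Q P = badS P Q := by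
  classical
  ext z
  unfold badS
  rw [Finset.mem_filter, Finset.mem_filter, List.mem_toFinset, List.mem_toFinset]
  constructor
  · rintro ⟨h1, h2⟩
    exact ⟨by simpa [or_comm] using h1, fun h => h2 (goodL_swap h)⟩
  · rintro ⟨h1, h2⟩
    exact ⟨by simpa [or_comm] using h1, fun h => h2 (goodL_swap h)⟩

end Pool.Agent.QuadEq
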