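import Pool.Agent.Lib.MP_b7851d_lc.Slp
import Pool.Agent.Lib.MP_b7851d_lc.Skeleton

/-!
# Token states, and the number of their types
-/

namespace Pool.Agent.QuadEq

/-- A token state: two lists of tokens. -/
@[ext] structure TSt (N : ℕ) where
  /-- the first list -/
  top : List (Fin N)
  /-- the second list -/
  bot : List (Fin N)

variable {N : ℕ}

/-- All tokens of a state. -/
def TSt.all (A : TSt N) : List (Fin N) := A.top ++ A.bot

/-- The state with the two lists exchanged. -/
def TSt.swap (A : TSt N) : TSt N := ⟨A.bot, A.top⟩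

/-- Insertion of `s` before every occurrence of `u`. -/
def insT (u s : Fin N) (l : List (Fin N)) : List (Fin N) :=
  l.flatMap fun r => if r = u then [s, r] else [r]

/-- A step of the token states in which the first token of the second list is moved; `τ` gives the
other token of the same variable. -/
inductive TokT (τ : Fin N → Fin N) : TSt N → TSt N → Prop
  | mk {t s : Fin N} {P Q : List (Fin N)} (h : s ≠ τ t) :
      TokT τ ⟨t :: P, s :: Q⟩ ⟨t :: insT (τ t) s P, insT (τ t) s Q⟩

/-- A step of the token states. -/
def Tok (τ : Fin N → Fin N) (A B : TSt N) : Prop := TokT τ A B ∨ TokT τ A.swap B.swap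

theorem insT_cons (u s r : Fin N) (l : List (Fin N)) :
    insT u s (r :: l) = (if r = u then [s, r] else [r]) ++ insT u s l := by
  simp [insT]

theorem insT_append (u s : Fin N) (l l' : List (Fin N)) :
    insT u s (l ++ l') = insT u s l ++ insT u s l' := by
  simp [insT]

theorem insT_perm (u s : Fin N) (l : List (Fin N)) :
    (insT u s l).Perm (List.replicate (l.count u) s ++ l) := by
  induction l with
  | nil => simp [insT]
  | cons r l ih =>
    rw [insT_cons]
    by_cases h : r = u
    · subst h
      rw [if_pos rfl, List.count_cons_self, List.replicate_succ]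
      simp only [List.cons_append, List.nil_append]
      refine List.Perm.cons s ?_
      exact (List.Perm.cons r ih).trans (List.perm_middle.symm)
    · rw [if_neg h, List.count_cons_of_ne h]
      exact (List.Perm.cons r ih).trans (List.perm_middle.symm)

/-- The group of the relabellings. -/
def cent (τ : Fin N → Fin N) : Subgroup (Equiv.Perm (Fin N)) where
  carrier := {g | ∀ t, g (τ t) = τ (g t)}
  mul_mem' := by
    intro g h hg hh t
    rw [Equiv.Perm.mul_apply, Equiv.Perm.mul_apply, hh t, hg (h t)]
  one_mem' := fun t => rfl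
  inv_mem' := by
    intro g hg t
    apply g.injective
    rw [hg (g⁻¹ t), Equiv.Perm.inv_def, Equiv.apply_symm_apply, Equiv.apply_symm_apply]

theorem cent_apply {τ : Fin N → Fin N} (g : cent τ) (t : Fin N) : g.1 (τ t) = τ (g.1 t) := g.2 t

instance (τ : Fin N → Fin N) : MulAction (cent τ) (TSt N) where
  smul g A := ⟨A.top.map g.1, A.bot.map g.1⟩
  one_smul A := by
    show (⟨A.top.map (1 : Equiv.Perm (Fin N)), A.bot.map (1 : Equiv.Perm (Fin N))⟩ : TSt N) = A
    ext1 <;> simp
  mul_smul g h A := by
    show (⟨A.top.map ((g.1 * h.1 : Equiv.Perm (Fin N))), A.bot.map ((g.1 * h.1 : Equiv.Perm (Fin N)))⟩ :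
      TSt N) = ⟨(A.top.map h.1).map g.1, (A.bot.map h.1).map g.1⟩
    ext1 <;> simp

theorem smul_top {τ : Fin N → Fin N} (g : cent τ) (A : TSt N) : (g • A).top = A.top.map g.1 := rfl

theorem smul_bot {τ : Fin N → Fin N} (g : cent τ) (A : TSt N) : (g • A).bot = A.bot.map g.1 := rfl

theorem smul_all {τ : Fin N → Fin N} (g : cent τ) (A : TSt N) : (g • A).all = A.all.map g.1 := by
  unfold TSt.all
  rw [smul_top, smul_bot, List.map_append]

theorem insT_map {τ : Fin N → Fin N} (g : cent τ) (u s : Fin N) (l : List (Fin N)) :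
    (insT u s l).map g.1 = insT (g.1 u) (g.1 s) (l.map g.1) := by
  induction l with
  | nil => rfl
  | cons r l ih =>
    rw [insT_cons, List.map_cons, insT_cons, List.map_append, ih]
    congr 1
    by_cases h : r = u
    · subst h; rw [if_pos rfl, if_pos rfl]; rfl
    · rw [if_neg h, if_neg fun e => h (g.1.injective e)]; rfl

theorem TokT.smul {τ : Fin N → Fin N} (g : cent τ) {A B : TSt N} (h : TokT τ A B) :
    TokT τ (g • A) (g • B) := by
  cases h with
  | @mk t s P Q h =>
    have h' : g.1 s ≠ τ (g.1 t) := by
      rw [← cent_apply g t]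
      exact fun e => h (g.1.injective e)
    have := TokT.mk (P := P.map g.1) (Q := Q.map g.1) h'
    have e1 : g • (⟨t :: P, s :: Q⟩ : TSt N) = ⟨g.1 t :: P.map g.1, g.1 s :: Q.map g.1⟩ := rfl
    have e2 : g • (⟨t :: insT (τ t) s P, insT (τ t) s Q⟩ : TSt N) =
        ⟨g.1 t :: (insT (τ t) s P).map g.1, (insT (τ t) s Q).map g.1⟩ := rfl
    rw [e1, e2, insT_map, insT_map, cent_apply]
    exact this

theorem Tok.smul {τ : Fin N → Fin N} (g : cent τ) {A B : TSt N} (h : Tok τ A B) :
    Tok τ (g • A) (g • B) := by
  rcases h with h | h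
  · exact Or.inl (h.smul g)
  · exact Or.inr (h.smul g)

/-! ### Names -/

variable {L : Type} [DecidableEq L]

/-- `nm` gives names to the tokens such that exactly the two tokens of a pair have the same name. -/
def Naming (τ : Fin N → Fin N) (nm : Fin N → L) : Prop := ∀ s t, nm s = nm t ↔ s = t ∨ s = τ t

/-- An involution without fixed points. -/
def Invol (τ : Fin N → Fin N) : Prop := ∀ t, τ (τ t) = t ∧ τ t ≠ t

variable {τ : Fin N → Fin N} {nm : Fin N → L}

theorem insT_names (hnm : Naming τ nm) {t s : Fin N} {P : List (Fin N)}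
    (ht : t ∉ P) : (insT (τ t) s P).map nm = sub (nm t) [nm s, nm t] (P.map nm) := by
  induction P with
  | nil => rfl
  | cons r P ih =>
    rw [insT_cons, List.map_cons, sub_cons, List.map_append,
      ih fun h => ht (List.mem_cons_of_mem _ h)]
    congr 1
    have hr : r ≠ t := fun e => ht (e ▸ List.mem_cons_self)
    by_cases h : r = τ t
    · have h2 : nm r = nm t := (hnm r t).mpr (Or.inr h)
      rw [if_pos h, if_pos h2]
      simp [h2]
    · have h2 : nm r ≠ nm t := fun e => by
        rcases (hnm r t).mp e with e | e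
        · exact hr e
        · exact h e
      rw [if_neg h, if_neg h2]
      rfl

/-- The list contains every token exactly once. -/
def Cpl (A : TSt N) : Prop := A.all.Nodup ∧ ∀ t, t ∈ A.all

theorem count_names (hτ : Invol τ) (hnm : Naming τ nm) {l : List (Fin N)} (hl : l.Nodup)
    (hm : ∀ t, t ∈ l) (t : Fin N) : (l.map nm).count (nm t) = 2 := by
  have h1 : ∀ l : List (Fin N), (l.map nm).count (nm t) =
      (l.filter fun s => decide (nm s = nm t)).length := by
    intro l
    induction l with
    | nil => rfl
    | cons a l ih =>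
      rw [List.map_cons, List.count_cons, ih, List.filter_cons]
      by_cases h : nm a = nm t
      · simp [h]
      · simp [h]
  rw [h1, ← List.toFinset_card_of_nodup (hl.filter _)]
  have h2 : (l.filter fun s => decide (nm s = nm t)).toFinset = {t, τ t} := by
    ext s
    simp only [List.mem_toFinset, List.mem_filter, decide_eq_true_eq, Finset.mem_insert,
      Finset.mem_singleton]
    exact ⟨fun h => (hnm s t).mp h.2, fun h => ⟨hm s, (hnm s t).mpr h⟩⟩
  rw [h2, Finset.card_pair (hτ t).2.symm]

theorem Cpl.full (hτ : Invol τ) (hnm : Naming τ nm) {A : TSt N} (hA : Cpl A) :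
    Full (A.top.map nm) (A.bot.map nm) := by
  intro z hz
  rw [← List.map_append] at hz ⊢
  obtain ⟨t, _, rfl⟩ := List.mem_map.mp hz
  exact count_names hτ hnm hA.1 hA.2 t

theorem Cpl.swap {A : TSt N} (hA : Cpl A) : Cpl A.swap := by
  have hp : A.all.Perm A.swap.all := List.perm_append_comm
  exact ⟨hp.nodup_iff.mp hA.1, fun t => hp.mem_iff.mp (hA.2 t)⟩

theorem TokT.cpl (hτ : Invol τ) {A B : TSt N} (h : TokT τ A B) (hA : Cpl A) : Cpl B := by
  cases h with
  | @mk t s P Q h =>
    obtain ⟨h1, h2⟩ := hA
    have e : (⟨t :: P, s :: Q⟩ : TSt N).all = t :: (P ++ s :: Q) := rfl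
    rw [e] at h1
    have h2' : ∀ r, r ∈ t :: (P ++ s :: Q) := h2
    have hp1 : (t :: (P ++ s :: Q)).Perm (t :: s :: (P ++ Q)) :=
      List.Perm.cons t List.perm_middle
    have hnd := hp1.nodup_iff.mp h1
    have hc : (P ++ Q).count (τ t) = 1 := by
      have hmem := hp1.mem_iff.mp (h2' (τ t))
      rw [List.mem_cons, List.mem_cons] at hmem
      rcases hmem with hmem | hmem | hmem
      · exact absurd hmem (hτ t).2
      · exact absurd hmem.symm h
      · exact List.count_eq_one_of_mem
          ((List.nodup_cons.mp (List.nodup_cons.mp hnd).2).2) hmem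
    have hp2 : (t :: s :: (P ++ Q)).Perm
        (⟨t :: insT (τ t) s P, insT (τ t) s Q⟩ : TSt N).all := by
      have e2 : (⟨t :: insT (τ t) s P, insT (τ t) s Q⟩ : TSt N).all =
          t :: insT (τ t) s (P ++ Q) := by
        rw [insT_append]; rfl
      rw [e2]
      refine List.Perm.cons t ?_
      have := insT_perm (τ t) s (P ++ Q)
      rw [hc] at this
      exact this.symm
    have hp := hp1.trans hp2
    exact ⟨hp.nodup_iff.mp h1, fun r => hp.mem_iff.mp (h2' r)⟩

theorem Tok.cpl (hτ : Invol τ) {A B : TSt N} (h : Tok τ A B) (hA : Cpl A) : Cpl B := by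
  rcases h with h | h
  · exact h.cpl hτ hA
  · exact (h.cpl hτ hA.swap).swap

theorem TokT.bad (hτ : Invol τ) (hnm : Naming τ nm) {A B : TSt N} (h : TokT τ A B) (hA : Cpl A) :
    (badS (B.top.map nm) (B.bot.map nm)).card ≤ (badS (A.top.map nm) (A.bot.map nm)).card := by
  have hF := hA.full hτ hnm
  cases h with
  | @mk t s P Q h =>
    have e : (⟨t :: P, s :: Q⟩ : TSt N).all = t :: (P ++ s :: Q) := rfl
    have h1 : (t :: (P ++ s :: Q)).Nodup := hA.1
    rw [List.nodup_cons] at h1
    have ht : t ∉ P ∧ t ∉ Q ∧ t ≠ s := by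
      have := h1.1
      simp only [List.mem_append, List.mem_cons, not_or] at this
      exact ⟨this.1, this.2.2, this.2.1⟩
    have hxy : nm t ≠ nm s := fun e => by
      rcases (hnm s t).mp e.symm with e | e
      · exact ht.2.2 e.symm
      · exact h e
    show (badS ((t :: insT (τ t) s P).map nm) ((insT (τ t) s Q).map nm)).card ≤
      (badS ((t :: P).map nm) ((s :: Q).map nm)).card
    rw [List.map_cons, insT_names hnm ht.1, insT_names hnm ht.2.1, List.map_cons,
      List.map_cons]
    exact bad_tmove hxy hF

theorem Tok.bad (hτ : Invol τ) (hnm : Naming τ nm) {A B : TSt N} (h : Tok τ A B) (hA : Cpl A) :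
    (badS (B.top.map nm) (B.bot.map nm)).card ≤ (badS (A.top.map nm) (A.bot.map nm)).card := by
  rcases h with h | h
  · exact h.bad hτ hnm hA
  · have := h.bad hτ hnm hA.swap
    rw [← badS_swap (B.top.map nm), ← badS_swap (A.top.map nm)]
    exact this

/-- The invariant: complete, with at most `D` bad names. -/
def TInv (L : Type) [DecidableEq L] (τ : Fin N → Fin N) (D : ℕ) (A : TSt N) : Prop :=
  Cpl A ∧ ∃ nm : Fin N → L, Naming τ nm ∧ (badS (A.top.map nm) (A.bot.map nm)).card ≤ D

theorem Tok.inv (hτ : Invol τ) {D : ℕ} {A B : TSt N} (h : Tok τ A B) (hA : TInv L τ D A) :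
    TInv L τ D B := by
  obtain ⟨h1, nm, h2, h3⟩ := hA
  exact ⟨h.cpl hτ h1, nm, h2, (h.bad hτ h2 h1).trans h3⟩

theorem TInv.smul {D : ℕ} {A : TSt N} (g : cent τ) (hA : TInv L τ D A) : TInv L τ D (g • A) := by
  obtain ⟨h1, nm, h2, h3⟩ := hA
  refine ⟨⟨?_, ?_⟩, fun t => nm (g.1⁻¹ t), ?_, ?_⟩
  · rw [smul_all]
    exact h1.1.map g.1.injective
  · intro t
    rw [smul_all, List.mem_map]
    exact ⟨g.1⁻¹ t, h1.2 _, by simp⟩
  · intro s t
    show nm (g.1⁻¹ s) = nm (g.1⁻¹ t) ↔ _
    rw [h2]
    have : τ (g.1⁻¹ t) = g.1⁻¹ (τ t) := (cent_apply g⁻¹ t).symm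
    rw [this]
    constructor
    · rintro (h | h)
      · exact Or.inl (g.1⁻¹.injective h)
      · exact Or.inr (g.1⁻¹.injective h)
    · rintro (h | h)
      · exact Or.inl (by rw [h])
      · exact Or.inr (by rw [h])
  · rw [smul_top, smul_bot, List.map_map, List.map_map]
    have : (fun t => nm (g.1⁻¹ t)) ∘ g.1 = nm := by
      funext t
      show nm (g.1⁻¹ (g.1 t)) = nm t
      rw [Equiv.Perm.inv_def, Equiv.symm_apply_apply]
    rw [this]
    exact h3

/-! ### Adjacency -/

/-- `u` follows `t` in the list. -/
def AdjL (l : List (Fin N)) (t u : Fin N) : Prop := ∃ a b, l = a ++ t :: u :: b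

theorem mem_fol {l : List (Fin N)} {t u : Fin N} : some u ∈ fol t l ↔ AdjL l t u := by
  induction l with
  | nil =>
    simp only [fol, List.not_mem_nil, false_iff]
    rintro ⟨a, b, h⟩
    simp at h
  | cons r l ih =>
    constructor
    · intro h
      by_cases hr : r = t
      · subst hr
        rw [fol_cons_self, List.mem_cons] at h
        rcases h with h | h
        · cases l with
          | nil => simp at h
          | cons v l =>
            rw [List.head?_cons, Option.some.injEq] at h
            subst h
            exact ⟨[], l, rfl⟩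
        · obtain ⟨a, b, h⟩ := ih.mp h
          exact ⟨r :: a, b, by rw [h]; rfl⟩
      · rw [fol_cons_ne hr] at h
        obtain ⟨a, b, h⟩ := ih.mp h
        exact ⟨r :: a, b, by rw [h]; rfl⟩
    · rintro ⟨a, b, h⟩
      cases a with
      | nil =>
        rw [List.nil_append, List.cons.injEq] at h
        obtain ⟨rfl, rfl⟩ := h
        rw [fol_cons_self]
        exact List.mem_cons_self
      | cons c a =>
        rw [List.cons_append, List.cons.injEq] at h
        have h2 := ih.mpr ⟨a, b, h.2⟩
        by_cases hr : r = t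
        · subst hr
          rw [fol_cons_self]
          exact List.mem_cons_of_mem _ h2
        · rwa [fol_cons_ne hr]

/-- `u` follows `t` in the state. -/
def AdjA (A : TSt N) (t u : Fin N) : Prop := AdjL A.top t u ∨ AdjL A.bot t u

theorem AdjA.all {A : TSt N} {t u : Fin N} (h : AdjA A t u) : AdjL A.all t u := by
  unfold TSt.all
  rcases h with ⟨a, b, h⟩ | ⟨a, b, h⟩
  · exact ⟨a, b ++ A.bot, by rw [h]; simp⟩
  · exact ⟨A.top ++ a, b, by rw [h]; simp⟩

theorem AdjL.idx {l : List (Fin N)} (hl : l.Nodup) {t u : Fin N} (h : AdjL l t u) :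
    l.idxOf u = l.idxOf t + 1 := by
  obtain ⟨a, b, rfl⟩ := h
  have h1 := List.nodup_append.mp hl
  have ht : t ∉ a := fun h => (h1.2.2 t h t (by simp)) rfl
  have hu : u ∉ a := fun h => (h1.2.2 u h u (by simp)) rfl
  have htu : t ≠ u := by
    have := h1.2.1
    rw [List.nodup_cons] at this
    intro e
    exact this.1 (e ▸ List.mem_cons_self)
  rw [List.idxOf_append_of_notMem ht, List.idxOf_append_of_notMem hu, List.idxOf_cons_self,
    List.idxOf_cons_ne _ htu, List.idxOf_cons_self]

theorem idx_inj {l : List (Fin N)} (hm : ∀ t, t ∈ l) {t u : Fin N}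
    (h : l.idxOf t = l.idxOf u) : t = u := (List.idxOf_inj (hm t)).mp h

/-- The followers of the name of a token. -/
theorem fm_names (hτ : Invol τ) (hnm : Naming τ nm) (l : List (Fin N)) (t : Fin N) :
    (fol (nm t) (l.map nm) : Multiset (Option L)) =
      Multiset.map (Option.map nm) ((fol t l : Multiset (Option (Fin N))) +
        (fol (τ t) l : Multiset (Option (Fin N)))) := by
  induction l with
  | nil => simp [fol]
  | cons r l ih =>
    have hh : (l.map nm).head? = l.head?.map nm := by
      rw [List.head?_map]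
    rw [List.map_cons]
    by_cases h : r = t
    · subst h
      rw [fol_cons_self, fol_cons_self, fol_cons_ne (hτ r).2.symm, ← Multiset.cons_coe, ih, hh,
        ← Multiset.cons_coe, Multiset.cons_add, Multiset.map_cons]
    · by_cases h2 : r = τ t
      · have h3 : nm r = nm t := (hnm r t).mpr (Or.inr h2)
        rw [h3, fol_cons_self, fol_cons_ne h, h2, fol_cons_self, ← Multiset.cons_coe, ih, hh,
          ← Multiset.cons_coe, Multiset.add_cons, Multiset.map_cons]
      · have h3 : nm r ≠ nm t := fun e => by
          rcases (hnm r t).mp e with e | e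
          · exact h e
          · exact h2 e
        rw [fol_cons_ne h3, fol_cons_ne h, fol_cons_ne h2, ih]

theorem exists_fol {A : TSt N} (hA : Cpl A) (t : Fin N) : ∃ o : Option (Fin N),
    (fol t A.top : Multiset (Option (Fin N))) + (fol t A.bot : Multiset (Option (Fin N))) = {o} ∧
      ∀ u, o = some u ↔ AdjA A t u := by
  have h1 : Multiset.card ((fol t A.top : Multiset (Option (Fin N))) +
      (fol t A.bot : Multiset (Option (Fin N)))) = 1 := by
    rw [Multiset.card_add, Multiset.coe_card, Multiset.coe_card, length_fol, length_fol,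
      ← List.count_append]
    exact List.count_eq_one_of_mem hA.1 (hA.2 t)
  obtain ⟨o, ho⟩ := Multiset.card_eq_one.mp h1
  refine ⟨o, ho, fun u => ?_⟩
  unfold AdjA
  rw [← mem_fol, ← mem_fol]
  have h2 : some u ∈ (fol t A.top : Multiset (Option (Fin N))) +
      (fol t A.bot : Multiset (Option (Fin N))) ↔ some u = o := by
    rw [ho, Multiset.mem_singleton]
  rw [Multiset.mem_add, Multiset.mem_coe, Multiset.mem_coe] at h2
  rw [h2]
  exact eq_comm

/-- If the followers of the two tokens have the same name, then they are the two tokens of a pair. -/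
theorem adj_partner (hτ : Invol τ) (hnm : Naming τ nm) {A : TSt N} (hA : Cpl A) {t u : Fin N}
    {o : Option L} (ho : fm (A.top.map nm) (A.bot.map nm) (nm t) = {o, o}) (h : AdjA A t u) :
    AdjA A (τ t) (τ u) := by
  obtain ⟨p, hp, hp'⟩ := exists_fol hA t
  obtain ⟨q, hq, hq'⟩ := exists_fol hA (τ t)
  have h1 : fm (A.top.map nm) (A.bot.map nm) (nm t) = {p.map nm, q.map nm} := by
    unfold fm
    rw [fm_names hτ hnm, fm_names hτ hnm, ← Multiset.map_add]
    have : (fol t A.top : Multiset (Option (Fin N))) + (fol (τ t) A.top : Multiset (Option (Fin N))) +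
        ((fol t A.bot : Multiset (Option (Fin N))) + (fol (τ t) A.bot : Multiset (Option (Fin N)))) =
        ({p} : Multiset (Option (Fin N))) + {q} := by
      rw [← hp, ← hq]
      abel
    rw [this, Multiset.map_add, Multiset.map_singleton, Multiset.map_singleton]
    rfl
  rw [h1] at ho
  have hpo : p.map nm = o := by
    have : p.map nm ∈ ({o, o} : Multiset (Option L)) := by rw [← ho]; simp
    simpa using this
  have hqo : q.map nm = o := by
    have : q.map nm ∈ ({o, o} : Multiset (Option L)) := by rw [← ho]; simp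
    simpa using this
  have hpu := (hp' u).mpr h
  subst hpu
  rw [← hpo] at hqo
  cases q with
  | none => simp at hqo
  | some v =>
    rw [Option.map_some, Option.map_some, Option.some.injEq] at hqo
    have hv := (hq' v).mp rfl
    rcases (hnm v u).mp hqo with e | e
    · exfalso
      subst e
      have h3 := h.all.idx hA.1
      have h4 := hv.all.idx hA.1
      exact (hτ t).2 (idx_inj hA.2 (by omega)).symm
    · rwa [e] at hv

/-- A start is a token without a predecessor which is compatible with the pairing. -/
def IsStart (τ : Fin N → Fin N) (A : TSt N) (u : Fin N) : Prop :=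
  ¬ ∃ t, AdjA A t u ∧ AdjA A (τ t) (τ u)

theorem head_or_adj {l : List (Fin N)} {u : Fin N} (hu : u ∈ l) :
    l.head? = some u ∨ ∃ t, AdjL l t u := by
  obtain ⟨a, b, rfl⟩ := List.append_of_mem hu
  rcases List.eq_nil_or_concat a with rfl | ⟨a', t, rfl⟩
  · exact Or.inl rfl
  · exact Or.inr ⟨t, a', b, by simp⟩

open Classical in
/-- The number of names with different followers. -/
theorem card_break {P Q : List L} {D : ℕ} (hF : Full P Q) (hD : (badS P Q).card ≤ D) :
    ((P ++ Q).toFinset.filter fun z => ¬ ∃ o, fm P Q z = {o, o}).card ≤ D + 1 := by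
  classical
  set Z := (P ++ Q).toFinset.filter fun z => ¬ ∃ o, fm P Q z = {o, o} with hZ
  have hsub : Z \ badS P Q ⊆ Z.filter fun z => fm P Q z = {P.head?, Q.head?} := by
    intro z hz
    rw [Finset.mem_sdiff] at hz
    rw [Finset.mem_filter]
    refine ⟨hz.1, ?_⟩
    by_contra hne
    apply hz.2
    have hz1 := hz.1
    rw [hZ, Finset.mem_filter] at hz1
    unfold badS
    rw [Finset.mem_filter]
    refine ⟨hz1.1, ?_⟩
    rintro (h | h)
    · exact hz1.2 h
    · exact hne h
  have hone : (Z.filter fun z => fm P Q z = {P.head?, Q.head?}).card ≤ 1 := by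
    rw [Finset.card_le_one]
    intro z hz z' hz'
    rw [Finset.mem_filter] at hz hz'
    by_contra hne
    have hz1 := hz.1
    rw [hZ, Finset.mem_filter] at hz1
    have hPQ : P.head? ≠ Q.head? := fun e => hz1.2 ⟨_, by rw [hz.2, e]⟩
    have key : ∀ x, (P.head? = some x ∨ Q.head? = some x) → False := by
      intro x hx
      have hx1 : 1 ≤ (fm P Q z).count (some x) := by
        rw [hz.2]
        apply Multiset.count_pos.mpr
        rcases hx with hx | hx
        · rw [hx]; simp
        · rw [hx]; simp
      have hx2 : 1 ≤ (fm P Q z').count (some x) := by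
        rw [hz'.2]
        apply Multiset.count_pos.mpr
        rcases hx with hx | hx
        · rw [hx]; simp
        · rw [hx]; simp
      have h3 := count_fm_add P Q x hne
      have h4 := count_head_tail x P
      have h5 := count_head_tail x Q
      have hxm : x ∈ P ++ Q := by
        rw [List.mem_append]
        rcases hx with hx | hx
        · exact Or.inl (List.mem_of_head? hx)
        · exact Or.inr (List.mem_of_head? hx)
      have h6 := hF x hxm
      rw [List.count_append] at h6
      rcases hx with hx | hx
      · rw [if_pos hx] at h4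
        omega
      · rw [if_pos hx] at h5
        omega
    cases hP : P.head? with
    | some x => exact key x (Or.inl hP)
    | none =>
      cases hQ : Q.head? with
      | some x => exact key x (Or.inr hQ)
      | none => exact hPQ (hP.trans hQ.symm)
  have h1 : Z.card ≤ (Z \ badS P Q).card + (badS P Q).card := by
    have := Finset.card_le_card (s := Z) (t := (Z \ badS P Q) ∪ badS P Q) (by
      intro z hz
      rw [Finset.mem_union, Finset.mem_sdiff]
      tauto)
    exact this.trans (Finset.card_union_le _ _)
  have h2 := Finset.card_le_card hsub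
  omega

open Classical in
theorem card_starts (hτ : Invol τ) {D : ℕ} {A : TSt N} (hA : TInv L τ D A) :
    (Finset.univ.filter fun u => IsStart τ A u).card ≤ 2 * D + 4 := by
  classical
  obtain ⟨hc, nm, hnm, hbad⟩ := hA
  have hF := hc.full hτ hnm
  set Z := ((A.top.map nm) ++ (A.bot.map nm)).toFinset.filter
    fun z => ¬ ∃ o, fm (A.top.map nm) (A.bot.map nm) z = {o, o} with hZ
  have hZc : Z.card ≤ D + 1 := card_break hF hbad
  -- tokens with a name in `Z`
  set Bk := (Finset.univ : Finset (Fin N)).filter fun t => nm t ∈ Z with hBk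
  have hBc : Bk.card ≤ 2 * (D + 1) := by
    have h1 : Bk ⊆ Z.biUnion fun z => Finset.univ.filter fun t => nm t = z := by
      intro t ht
      rw [hBk, Finset.mem_filter] at ht
      rw [Finset.mem_biUnion]
      exact ⟨nm t, ht.2, by simp⟩
    refine (Finset.card_le_card h1).trans ((Finset.card_biUnion_le_card_mul _ _ 2 ?_).trans ?_)
    · intro z _
      by_cases hz : ∃ t₀, nm t₀ = z
      · obtain ⟨t₀, rfl⟩ := hz
        refine (Finset.card_le_card (t := {t₀, τ t₀}) ?_).trans Finset.card_le_two
        intro t ht
        rw [Finset.mem_filter] at ht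
        rw [Finset.mem_insert, Finset.mem_singleton]
        exact (hnm t t₀).mp ht.2
      · rw [Finset.filter_eq_empty_iff.mpr fun t _ h => hz ⟨t, h⟩]
        simp
    · rw [mul_comm]
      exact Nat.mul_le_mul_left 2 hZc
  -- heads
  set Hd := (Finset.univ : Finset (Fin N)).filter fun u =>
    A.top.head? = some u ∨ A.bot.head? = some u with hHd
  have hHc : Hd.card ≤ 2 := by
    have : Hd ⊆ (A.top.head?.toFinset ∪ A.bot.head?.toFinset) := by
      intro u hu
      rw [hHd, Finset.mem_filter] at hu
      rw [Finset.mem_union, Option.mem_toFinset, Option.mem_toFinset]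
      exact hu.2
    refine (Finset.card_le_card this).trans ((Finset.card_union_le _ _).trans ?_)
    have h1 : ∀ o : Option (Fin N), o.toFinset.card ≤ 1 := by
      intro o; cases o <;> simp
    have := h1 A.top.head?
    have := h1 A.bot.head?
    omega
  have hpred : ∀ u, IsStart τ A u → u ∉ Hd → ∃ t ∈ Bk, AdjA A t u := by
    intro u hu hh
    rw [hHd, Finset.mem_filter] at hh
    have hadj : ∃ t, AdjA A t u := by
      have hm := hc.2 u
      unfold TSt.all at hm
      rcases List.mem_append.mp hm with hm | hm
      · rcases head_or_adj hm with h | ⟨t, h⟩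
        · exact absurd ⟨Finset.mem_univ _, Or.inl h⟩ hh
        · exact ⟨t, Or.inl h⟩
      · rcases head_or_adj hm with h | ⟨t, h⟩
        · exact absurd ⟨Finset.mem_univ _, Or.inr h⟩ hh
        · exact ⟨t, Or.inr h⟩
    obtain ⟨t, ht⟩ := hadj
    refine ⟨t, ?_, ht⟩
    rw [hBk, Finset.mem_filter, hZ, Finset.mem_filter]
    refine ⟨Finset.mem_univ _, ?_, ?_⟩
    · rw [List.mem_toFinset, ← List.map_append]
      exact List.mem_map_of_mem (hc.2 t)
    · rintro ⟨o, ho⟩
      exact hu ⟨t, ht, adj_partner hτ hnm hc ho ht⟩
  have hsub : ((Finset.univ.filter fun u => IsStart τ A u) \ Hd).card ≤ Bk.card := by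
    have hex : ∀ u : Fin N, ∃ t, (u ∈ (Finset.univ.filter fun u => IsStart τ A u) \ Hd →
        t ∈ Bk ∧ AdjA A t u) := by
      intro u
      by_cases h : u ∈ (Finset.univ.filter fun u => IsStart τ A u) \ Hd
      · rw [Finset.mem_sdiff, Finset.mem_filter] at h
        obtain ⟨t, h1, h2⟩ := hpred u h.1.2 h.2
        exact ⟨t, fun _ => ⟨h1, h2⟩⟩
      · exact ⟨u, fun h' => absurd h' h⟩
    choose f hf using hex
    refine Finset.card_le_card_of_injOn f (fun u hu => (hf u hu).1) ?_
    intro u hu v hv e
    have h1 := (hf u hu).2.all.idx hc.1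
    have h2 := (hf v hv).2.all.idx hc.1
    rw [e] at h1
    exact idx_inj hc.2 (by omega)
  have h1 : (Finset.univ.filter fun u => IsStart τ A u).card ≤
      ((Finset.univ.filter fun u => IsStart τ A u) \ Hd).card + Hd.card := by
    have := Finset.card_le_card (s := Finset.univ.filter fun u => IsStart τ A u)
      (t := ((Finset.univ.filter fun u => IsStart τ A u) \ Hd) ∪ Hd) (by
      intro z hz
      rw [Finset.mem_union, Finset.mem_sdiff]
      tauto)
    exact this.trans (Finset.card_union_le _ _)
  omega

/-! ### Codes of the orbits -/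

/-- The position of a token. -/
def posF (A : TSt N) (u : Fin N) : Fin N :=
  ⟨A.all.idxOf u % N, Nat.mod_lt _ (Nat.zero_lt_of_lt u.isLt)⟩

open Classical in
/-- The list of the positions of the starts and of their partners. -/
noncomputable def codeL (τ : Fin N → Fin N) (A : TSt N) : List (Fin N × Fin N) :=
  (A.all.filter fun u => decide (IsStart τ A u)).map fun u => (posF A u, posF A (τ u))

/-- The code of a token state. -/
noncomputable def codeT (τ : Fin N → Fin N) (K : ℕ) (A : TSt N) :
    Fin (N + 1) × (Fin K → Option (Fin N × Fin N)) :=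
  (⟨A.top.length % (N + 1), Nat.mod_lt _ (Nat.succ_pos N)⟩, fun i => (codeL τ A)[i.val]?)

theorem Cpl.length {A : TSt N} (hA : Cpl A) : A.all.length = N := by
  have h1 : A.all.toFinset = Finset.univ := by
    ext t; simp [hA.2 t]
  have h2 := List.toFinset_card_of_nodup hA.1
  rw [h1, Finset.card_univ, Fintype.card_fin] at h2
  exact h2.symm

theorem Cpl.posF_val {A : TSt N} (hA : Cpl A) (u : Fin N) : (posF A u).val = A.all.idxOf u := by
  unfold posF
  have h1 := List.idxOf_lt_length_iff.mpr (hA.2 u)
  rw [hA.length] at h1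
  exact Nat.mod_eq_of_lt h1

theorem length_codeL (hτ : Invol τ) {D : ℕ} {A : TSt N} (hA : TInv L τ D A) :
    (codeL τ A).length ≤ 2 * D + 4 := by
  classical
  unfold codeL
  rw [List.length_map, ← List.toFinset_card_of_nodup (hA.1.1.filter _)]
  refine (Finset.card_le_card ?_).trans (card_starts hτ hA)
  intro u hu
  rw [List.mem_toFinset, List.mem_filter, decide_eq_true_eq] at hu
  rw [Finset.mem_filter]
  exact ⟨Finset.mem_univ _, hu.2⟩

/-- The position of the partner as a function of the position. -/
theorem partner_pos {A B : TSt N} (hA : Cpl A) (hB : Cpl B)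
    (hcode : codeL τ A = codeL τ B) : ∀ (i : ℕ) (u v : Fin N), A.all.idxOf u = i →
      B.all.idxOf v = i → A.all.idxOf (τ u) = B.all.idxOf (τ v) := by
  classical
  have hst : ∀ {A B : TSt N}, Cpl A → Cpl B → codeL τ A = codeL τ B → ∀ u v : Fin N,
      A.all.idxOf u = B.all.idxOf v → IsStart τ A u →
        A.all.idxOf (τ u) = B.all.idxOf (τ v) := by
    intro A B hA hB hcode u v huv hu
    have h1 : (posF A u, posF A (τ u)) ∈ codeL τ A := by
      unfold codeL
      exact List.mem_map_of_mem (List.mem_filter.mpr ⟨hA.2 u, by simpa using hu⟩)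
    rw [hcode] at h1
    unfold codeL at h1
    obtain ⟨w, _, hw⟩ := List.mem_map.mp h1
    rw [Prod.mk.injEq] at hw
    have h2 := congrArg Fin.val hw.1
    have h3 := congrArg Fin.val hw.2
    rw [hA.posF_val, hB.posF_val] at h2 h3
    have : w = v := idx_inj hB.2 (by omega)
    subst this
    exact h3.symm
  intro i
  induction i using Nat.strong_induction_on with
  | _ i ih =>
    intro u v hu hv
    by_cases h1 : IsStart τ A u
    · exact hst hA hB hcode u v (by omega) h1
    · by_cases h2 : IsStart τ B v
      · exact (hst hB hA hcode.symm v u (by omega) h2).symm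
      · unfold IsStart at h1 h2
        push Not at h1 h2
        obtain ⟨t, ht1, ht2⟩ := h1
        obtain ⟨s, hs1, hs2⟩ := h2
        have e1 := ht1.all.idx hA.1
        have e2 := ht2.all.idx hA.1
        have e3 := hs1.all.idx hB.1
        have e4 := hs2.all.idx hB.1
        have := ih (A.all.idxOf t) (by omega) t s rfl (by omega)
        omega

theorem codeL_of_codeT {D : ℕ} (hτ : Invol τ) {A B : TSt N} (hA : TInv L τ D A)
    (hB : TInv L τ D B) (h : codeT τ (2 * D + 4) A = codeT τ (2 * D + 4) B) :
    codeL τ A = codeL τ B ∧ A.top.length = B.top.length := by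
  unfold codeT at h
  rw [Prod.mk.injEq] at h
  obtain ⟨h1, h2⟩ := h
  refine ⟨?_, ?_⟩
  · apply List.ext_getElem?
    intro i
    rcases Nat.lt_or_ge i (2 * D + 4) with hi | hi
    · exact congrFun h2 ⟨i, hi⟩
    · rw [List.getElem?_eq_none ((length_codeL hτ hA).trans hi),
        List.getElem?_eq_none ((length_codeL hτ hB).trans hi)]
  · have h3 := congrArg Fin.val h1
    simp only at h3
    have hlt : ∀ {A : TSt N}, Cpl A → A.top.length < N + 1 := fun {A} hA => by
      have := hA.length
      unfold TSt.all at this
      rw [List.length_append] at this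
      omega
    rwa [Nat.mod_eq_of_lt (hlt hA.1), Nat.mod_eq_of_lt (hlt hB.1)] at h3

theorem orbit_of_code {D : ℕ} (hτ : Invol τ) {A B : TSt N} (hA : TInv L τ D A)
    (hB : TInv L τ D B) (h : codeT τ (2 * D + 4) A = codeT τ (2 * D + 4) B) :
    ∃ g : cent τ, A = g • B := by
  obtain ⟨hcode, hlen⟩ := codeL_of_codeT hτ hA hB h
  have hAl := hA.1.length
  have hBl := hB.1.length
  -- the token at a position
  have hget : ∀ (C : TSt N), Cpl C → ∀ i (hi : i < C.all.length),
      C.all.idxOf (C.all[i]) = i := fun C hC i hi => List.Nodup.idxOf_getElem hC.1 i hi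
  have hidx : ∀ (C : TSt N), Cpl C → ∀ u, C.all.idxOf u < C.all.length := fun C hC u =>
    List.idxOf_lt_length_iff.mpr (hC.2 u)
  let f : Fin N → Fin N := fun u => A.all[B.all.idxOf u]'(by
    have := hidx B hB.1 u; omega)
  let f' : Fin N → Fin N := fun u => B.all[A.all.idxOf u]'(by
    have := hidx A hA.1 u; omega)
  have hf : ∀ u, A.all.idxOf (f u) = B.all.idxOf u := fun u => hget A hA.1 _ _
  have hf' : ∀ u, B.all.idxOf (f' u) = A.all.idxOf u := fun u => hget B hB.1 _ _
  let g : Equiv.Perm (Fin N) :=
    { toFun := f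
      invFun := f'
      left_inv := fun u => idx_inj hB.1.2 (by rw [hf', hf])
      right_inv := fun u => idx_inj hA.1.2 (by rw [hf, hf']) }
  have hg : ∀ t, g (τ t) = τ (g t) := by
    intro t
    apply idx_inj hA.1.2
    show A.all.idxOf (f (τ t)) = A.all.idxOf (τ (f t))
    rw [hf]
    exact (partner_pos hA.1 hB.1 hcode _ (f t) t rfl (hf t).symm).symm
  have hall : A.all = B.all.map g := by
    apply List.ext_getElem
    · rw [List.length_map]; omega
    · intro i h1 h2
      rw [List.getElem_map]
      apply idx_inj hA.1.2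
      rw [hget A hA.1]
      show i = A.all.idxOf (f _)
      rw [hf, hget B hB.1]
  refine ⟨⟨g, hg⟩, ?_⟩
  have h1 : A.top = A.all.take A.top.length := by
    unfold TSt.all; rw [List.take_left]
  have h2 : A.bot = A.all.drop A.top.length := by
    unfold TSt.all; rw [List.drop_left]
  have h3 : B.top = B.all.take B.top.length := by
    unfold TSt.all; rw [List.take_left]
  have h4 : B.bot = B.all.drop B.top.length := by
    unfold TSt.all; rw [List.drop_left]
  ext1
  · show A.top = B.top.map g
    rw [h1, hall, hlen, h3, List.map_take]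
    simp
  · show A.bot = B.bot.map g
    rw [h2, hall, hlen, h4, List.map_drop]

/-- The setting of the token states. -/
theorem tok_setting (hτ : Invol τ) (D : ℕ) :
    Setting (cent τ) (Tok τ) (TInv L τ D) (codeT τ (2 * D + 4)) Finset.univ where
  equiv g _ _ h := h.smul g
  invr _ _ ha h := h.inv hτ ha
  invg g _ ha := ha.smul g
  mem _ _ := Finset.mem_univ _
  orb _ _ ha hb h := orbit_of_code hτ ha hb h

/-- The number of codes. -/
def ncodes (N D : ℕ) : ℕ := (N + 1) * (N * N + 1) ^ (2 * D + 4)

theorem card_codes (N D : ℕ) :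
    (Finset.univ : Finset (Fin (N + 1) × (Fin (2 * D + 4) → Option (Fin N × Fin N)))).card =
      ncodes N D := by
  rw [Finset.card_univ, Fintype.card_prod, Fintype.card_fin, Fintype.card_fun, Fintype.card_option,
    Fintype.card_prod, Fintype.card_fin, Fintype.card_fin]
  rfl

/-- A bound for the order of the group. -/
theorem card_cent (τ : Fin N → Fin N) (s : Finset (cent τ)) : s.card ≤ 2 ^ (N * N) := by
  classical
  have h1 : s.card ≤ Fintype.card (Fin N → Fin N) := by
    rw [← Finset.card_univ]
    refine Finset.card_le_card_of_injOn (fun g => (g.1 : Fin N → Fin N))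
      (fun _ _ => Finset.mem_univ _) ?_
    intro g _ g' _ e
    apply Subtype.ext
    apply Equiv.ext
    intro t
    exact congrFun e t
  rw [Fintype.card_fun, Fintype.card_fin] at h1
  refine h1.trans ?_
  have h2 : N ≤ 2 ^ N := Nat.lt_two_pow_self.le
  calc N ^ N ≤ (2 ^ N) ^ N := Nat.pow_le_pow_left h2 N
    _ = 2 ^ (N * N) := by rw [← pow_mul]

/-- Every reachable pair of token states has a short derivation. -/
theorem tok_cost (hτ : Invol τ) {D : ℕ} {A B : TSt N} (hA : TInv L τ D A)
    (h : Relation.ReflTransGen (Tok τ) A B) :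
    Ext (cent τ) (Tok τ) [] (ncodes N D * (ocost (N * N) (ncodes N D) + 3)) A B := by
  classical
  have := reach_cost (tok_setting (L := L) hτ D) (card_cent τ) hA h
  rwa [card_codes] at this

end Pool.Agent.QuadEq
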