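import Pool.Agent.Lib.MP_b7851d_lc.Progress
import Pool.Agent.Lib.MP_b7851d_lc.Tokens

/-!
# Certificates, and their soundness
-/

namespace Pool.Agent.QuadEq

/-! ### Derivations with numbered tokens -/

/-- A pair of lists of numbered tokens. -/
abbrev NSt : Type := List ℕ × List ℕ

/-- An entry of a derivation: a fact and a table of a relabelling. -/
abbrev Entry : Type := (NSt × NSt) × List ℕ

/-- Insertion of `s` before every occurrence of `u`. -/
def insN (u s : ℕ) (l : List ℕ) : List ℕ := l.flatMap fun r => if r = u then [s, r] else [r]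

/-- A step of the token states. -/
def stepN (τ : List ℕ) (A : NSt) : List NSt :=
  match A.1 with
  | [] => []
  | t :: P => match A.2 with
    | [] => []
    | s :: Q => if s = τ.getD t 0 then [] else
        [(t :: insN (τ.getD t 0) s P, insN (τ.getD t 0) s Q)]

/-- All steps of the token states. -/
def stepsN (τ : List ℕ) (A : NSt) : List NSt :=
  stepN τ A ++ (stepN τ (A.2, A.1)).map fun B => (B.2, B.1)

/-- Relabelling of a state. -/
def mapN (φ : List ℕ) (A : NSt) : NSt :=
  (A.1.map fun t => φ.getD t 0, A.2.map fun t => φ.getD t 0)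

/-- All tokens are smaller than `N`. -/
def wfN (N : ℕ) (A : NSt) : Bool := (A.1.all fun t => decide (t < N)) && A.2.all fun t => decide (t < N)

/-- The list has no duplicates. -/
def nodupN (l : List ℕ) : Bool :=
  l.all fun a => decide ((l.filter fun b => decide (b = a)).length = 1)

/-- The table is the table of a permutation of the numbers less than `N` which commutes with `τ`. -/
def permOK (N : ℕ) (τ φ : List ℕ) : Bool :=
  decide (φ.length = N) && (nodupN φ && ((List.range N).all fun t =>
    decide (φ.getD t 0 < N) && decide (φ.getD (τ.getD t 0) 0 = τ.getD (φ.getD t 0) 0)))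

/-- The entry is justified by the entries in `D`. -/
def justOK (N : ℕ) (τ : List ℕ) (D : List Entry) (e : Entry) : Bool :=
  (wfN N e.1.1 && wfN N e.1.2) &&
  (((stepsN τ e.1.1).any fun B => decide (B = e.1.2)) || (decide (e.1.1 = e.1.2) ||
  ((D.any fun e₁ => D.any fun e₂ => decide (e₁.1.1 = e.1.1) &&
    (decide (e₁.1.2 = e₂.1.1) && decide (e₂.1.2 = e.1.2))) ||
  (permOK N τ e.2 && ((D.any fun e₁ => decide (mapN e.2 e₁.1.1 = e.1.1) &&
    decide (mapN e.2 e₁.1.2 = e.1.2)) || (decide (mapN e.2 e.1.2 = e.1.1) &&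
    D.any fun e₁ => decide (e₁.1.1 = e.1.2) && decide (e₁.1.2 = e.1.1)))))))

/-- All entries of the derivation are justified by the later ones. -/
def valOK (N : ℕ) (τ : List ℕ) (D : List Entry) : Bool :=
  (List.range D.length).all fun i =>
    justOK N τ (D.drop (i + 1)) (D.getD i ((([], []), ([], [])), []))

theorem valOK_cons {N : ℕ} {τ : List ℕ} {e : Entry} {D : List Entry} :
    valOK N τ (e :: D) = (justOK N τ D e && valOK N τ D) := by
  unfold valOK
  rw [List.length_cons, List.range_succ_eq_map, List.all_cons, List.all_map]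
  rfl

/-- Reachability of states with numbered tokens. -/
def ReachN (τ : List ℕ) : NSt → NSt → Prop := Relation.ReflTransGen fun A B => B ∈ stepsN τ A

theorem nodupN_iff {l : List ℕ} : nodupN l = true ↔ l.Nodup := by
  unfold nodupN
  rw [List.all_eq_true, List.nodup_iff_count_eq_one]
  have h : ∀ a, (l.filter fun b => decide (b = a)).length = l.count a := by
    intro a
    rw [List.count, List.countP_eq_length_filter]
    congr 1
  simp only [h, decide_eq_true_eq]

theorem insN_append (u s : ℕ) (l l' : List ℕ) : insN u s (l ++ l') = insN u s l ++ insN u s l' := by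
  simp [insN]

theorem insN_cons (u s r : ℕ) (l : List ℕ) :
    insN u s (r :: l) = (if r = u then [s, r] else [r]) ++ insN u s l := by
  simp [insN]

theorem wfN_iff {N : ℕ} {A : NSt} : wfN N A = true ↔ ∀ t ∈ A.1 ++ A.2, t < N := by
  unfold wfN
  rw [Bool.and_eq_true, List.all_eq_true, List.all_eq_true]
  simp only [decide_eq_true_eq, List.mem_append]
  constructor
  · rintro ⟨h1, h2⟩ t (h | h)
    · exact h1 t h
    · exact h2 t h
  · exact fun h => ⟨fun t ht => h t (Or.inl ht), fun t ht => h t (Or.inr ht)⟩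

theorem mem_insN {u s r : ℕ} {l : List ℕ} (h : r ∈ insN u s l) : r = s ∨ r ∈ l := by
  unfold insN at h
  rw [List.mem_flatMap] at h
  obtain ⟨a, ha, h⟩ := h
  by_cases hx : a = u
  · rw [if_pos hx] at h
    rcases List.mem_cons.mp h with h | h
    · exact Or.inl h
    · rw [List.mem_singleton] at h
      exact Or.inr (h ▸ ha)
  · rw [if_neg hx, List.mem_singleton] at h
    exact Or.inr (h ▸ ha)

theorem mem_stepN {τ : List ℕ} {A B : NSt} : B ∈ stepN τ A ↔ ∃ t s P Q, A = (t :: P, s :: Q) ∧
    s ≠ τ.getD t 0 ∧ B = (t :: insN (τ.getD t 0) s P, insN (τ.getD t 0) s Q) := by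
  obtain ⟨A1, A2⟩ := A
  constructor
  · intro h
    cases A1 with
    | nil => simp [stepN] at h
    | cons t P =>
      cases A2 with
      | nil => simp [stepN] at h
      | cons s Q =>
        unfold stepN at h
        simp only at h
        by_cases hs : s = τ.getD t 0
        · rw [if_pos hs] at h; simp at h
        · rw [if_neg hs, List.mem_singleton] at h
          exact ⟨t, s, P, Q, rfl, hs, h⟩
  · rintro ⟨t, s, P, Q, h, hs, rfl⟩
    rw [h]
    unfold stepN
    simp only
    rw [if_neg hs]
    exact List.mem_singleton_self _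

theorem mem_stepsN {τ : List ℕ} {A B : NSt} :
    B ∈ stepsN τ A ↔ B ∈ stepN τ A ∨ B.swap ∈ stepN τ A.swap := by
  unfold stepsN
  rw [List.mem_append, List.mem_map]
  constructor
  · rintro (h | ⟨C, h, rfl⟩)
    · exact Or.inl h
    · exact Or.inr h
  · rintro (h | h)
    · exact Or.inl h
    · exact Or.inr ⟨B.swap, h, rfl⟩

theorem stepN_mem {τ : List ℕ} {A B : NSt} (h : B ∈ stepN τ A) {r : ℕ} (hr : r ∈ B.1 ++ B.2) :
    r ∈ A.1 ++ A.2 := by
  obtain ⟨t, s, P, Q, rfl, _, rfl⟩ := mem_stepN.mp h
  simp only [List.mem_append, List.mem_cons] at hr ⊢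
  rcases hr with (hr | hr) | hr
  · exact Or.inl (Or.inl hr)
  · rcases mem_insN hr with hr | hr
    · exact Or.inr (Or.inl hr)
    · exact Or.inl (Or.inr hr)
  · rcases mem_insN hr with hr | hr
    · exact Or.inr (Or.inl hr)
    · exact Or.inr (Or.inr hr)

theorem stepsN_mem {τ : List ℕ} {A B : NSt} (h : B ∈ stepsN τ A) {r : ℕ}
    (hr : r ∈ B.1 ++ B.2) : r ∈ A.1 ++ A.2 := by
  rcases mem_stepsN.mp h with h | h
  · exact stepN_mem h hr
  · have := stepN_mem h (r := r) (by simpa [or_comm] using hr)
    simpa [or_comm] using this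

theorem ReachN.mem {τ : List ℕ} {A B : NSt} (h : ReachN τ A B) {r : ℕ}
    (hr : r ∈ B.1 ++ B.2) : r ∈ A.1 ++ A.2 := by
  induction h with
  | refl => exact hr
  | tail _ h ih => exact ih (stepsN_mem h hr)

/-- The properties of a relabelling. -/
structure PermOK (N : ℕ) (τ φ : List ℕ) : Prop where
  len : φ.length = N
  nodup : φ.Nodup
  lt : ∀ t < N, φ.getD t 0 < N
  comm : ∀ t < N, φ.getD (τ.getD t 0) 0 = τ.getD (φ.getD t 0) 0

theorem permOK_iff {N : ℕ} {τ φ : List ℕ} : permOK N τ φ = true ↔ PermOK N τ φ := by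
  unfold permOK
  rw [Bool.and_eq_true, Bool.and_eq_true, decide_eq_true_eq, nodupN_iff, List.all_eq_true]
  constructor
  · rintro ⟨h1, h2, h3⟩
    refine ⟨h1, h2, fun t ht => ?_, fun t ht => ?_⟩
    · have := h3 t (List.mem_range.mpr ht)
      rw [Bool.and_eq_true, decide_eq_true_eq, decide_eq_true_eq] at this
      exact this.1
    · have := h3 t (List.mem_range.mpr ht)
      rw [Bool.and_eq_true, decide_eq_true_eq, decide_eq_true_eq] at this
      exact this.2
  · rintro ⟨h1, h2, h3, h4⟩
    refine ⟨h1, h2, fun t ht => ?_⟩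
    rw [Bool.and_eq_true, decide_eq_true_eq, decide_eq_true_eq]
    exact ⟨h3 t (List.mem_range.mp ht), h4 t (List.mem_range.mp ht)⟩

theorem PermOK.inj {N : ℕ} {τ φ : List ℕ} (h : PermOK N τ φ) {s t : ℕ} (hs : s < N) (ht : t < N)
    (e : φ.getD s 0 = φ.getD t 0) : s = t := by
  have hs' : s < φ.length := by rw [h.len]; exact hs
  have ht' : t < φ.length := by rw [h.len]; exact ht
  rw [List.getD_eq_getElem _ _ hs', List.getD_eq_getElem _ _ ht'] at e
  exact (List.Nodup.getElem_inj_iff h.nodup).mp e

theorem insN_map {N : ℕ} {φ : List ℕ} {u s : ℕ} {l : List ℕ}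
    (hu : u < N) (hl : ∀ r ∈ l, r < N)
    (hinj : ∀ s < N, ∀ t < N, φ.getD s 0 = φ.getD t 0 → s = t) :
    (insN u s l).map (fun t => φ.getD t 0) =
      insN (φ.getD u 0) (φ.getD s 0) (l.map fun t => φ.getD t 0) := by
  induction l with
  | nil => rfl
  | cons r l ih =>
    rw [insN_cons, List.map_cons, insN_cons, List.map_append,
      ih fun r hr => hl r (List.mem_cons_of_mem _ hr)]
    congr 1
    have hr := hl r List.mem_cons_self
    by_cases h : r = u
    · rw [if_pos h, if_pos (by rw [h])]
      rfl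
    · rw [if_neg h, if_neg fun e => h (hinj r hr u hu e)]
      rfl

theorem stepN_map {N : ℕ} {τ φ : List ℕ} (hφ : PermOK N τ φ) (hτ : ∀ t < N, τ.getD t 0 < N)
    {A B : NSt} (hA : ∀ t ∈ A.1 ++ A.2, t < N) (h : B ∈ stepN τ A) :
    mapN φ B ∈ stepN τ (mapN φ A) := by
  obtain ⟨t, s, P, Q, rfl, hs, rfl⟩ := mem_stepN.mp h
  have ht : t < N := hA t (by simp)
  have hsN : s < N := hA s (by simp)
  have hP : ∀ r ∈ P, r < N := fun r hr => hA r (by simp [hr])
  have hQ : ∀ r ∈ Q, r < N := fun r hr => hA r (by simp [hr])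
  have hinj : ∀ s < N, ∀ t < N, φ.getD s 0 = φ.getD t 0 → s = t := fun s hs t ht e =>
    hφ.inj hs ht e
  refine mem_stepN.mpr ⟨φ.getD t 0, φ.getD s 0, P.map fun t => φ.getD t 0,
    Q.map fun t => φ.getD t 0, rfl, ?_, ?_⟩
  · rw [← hφ.comm t ht]
    exact fun e => hs (hφ.inj hsN (hτ t ht) e)
  · rw [← hφ.comm t ht]
    unfold mapN
    simp only [List.map_cons]
    rw [insN_map (hτ t ht) hP hinj, insN_map (hτ t ht) hQ hinj]

theorem ReachN.map {N : ℕ} {τ φ : List ℕ} (hφ : PermOK N τ φ) (hτ : ∀ t < N, τ.getD t 0 < N)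
    {A B : NSt} (hA : ∀ t ∈ A.1 ++ A.2, t < N) (h : ReachN τ A B) :
    ReachN τ (mapN φ A) (mapN φ B) := by
  induction h with
  | refl => exact Relation.ReflTransGen.refl
  | @tail B C hB hC ih =>
    refine ih.tail ?_
    have hB' : ∀ t ∈ B.1 ++ B.2, t < N := fun t ht => hA t (ReachN.mem hB ht)
    rcases mem_stepsN.mp hC with hC | hC
    · exact mem_stepsN.mpr (Or.inl (stepN_map hφ hτ hB' hC))
    · refine mem_stepsN.mpr (Or.inr ?_)
      exact stepN_map (A := B.swap) (B := C.swap) hφ hτ
        (fun t ht => hB' t (by simpa [or_comm] using ht)) hC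

/-- The reversal rule. -/
theorem ReachN.rev {N : ℕ} {τ φ : List ℕ} (hφ : PermOK N τ φ) (hτ : ∀ t < N, τ.getD t 0 < N)
    {A : NSt} (hA : ∀ t ∈ A.1 ++ A.2, t < N) (h : ReachN τ A (mapN φ A)) :
    ReachN τ (mapN φ A) A := by
  let f : Fin N → Fin N := fun t => ⟨φ.getD t.val 0, hφ.lt t.val t.isLt⟩
  have hf : Function.Injective f := fun s t e => Fin.ext (hφ.inj s.isLt t.isLt (congrArg Fin.val e))
  let g : Equiv.Perm (Fin N) := Equiv.ofBijective f (Finite.injective_iff_bijective.mp hf)
  have hg : ∀ t, (g t).val = φ.getD t.val 0 := fun t => rfl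
  have hwf : ∀ A : NSt, (∀ t ∈ A.1 ++ A.2, t < N) → ∀ t ∈ (mapN φ A).1 ++ (mapN φ A).2, t < N := by
    intro A hA t ht
    unfold mapN at ht
    rw [← List.map_append, List.mem_map] at ht
    obtain ⟨s, hs, rfl⟩ := ht
    exact hφ.lt s (hA s hs)
  have hwfk : ∀ k, ∀ t ∈ ((mapN φ)^[k] A).1 ++ ((mapN φ)^[k] A).2, t < N := by
    intro k
    induction k with
    | zero => exact hA
    | succ k ih =>
      rw [Function.iterate_succ_apply']
      exact hwf _ ih
  have hk : ∀ k, ReachN τ (mapN φ A) ((mapN φ)^[k + 1] A) := by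
    intro k
    induction k with
    | zero => exact Relation.ReflTransGen.refl
    | succ k ih =>
      have h1 : ReachN τ ((mapN φ)^[k + 1] A) ((mapN φ)^[k + 2] A) := by
        have : ∀ k, ReachN τ ((mapN φ)^[k] A) ((mapN φ)^[k + 1] A) := by
          intro k
          induction k with
          | zero => exact h
          | succ k ih =>
            rw [Function.iterate_succ_apply', Function.iterate_succ_apply' _ (k + 1)]
            exact ReachN.map hφ hτ (hwfk k) ih
        exact this (k + 1)
      exact ih.trans h1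
  have hord : 0 < orderOf g := orderOf_pos g
  have hid : (mapN φ)^[orderOf g] A = A := by
    have h1 : ∀ k (t : Fin N), ((fun t => φ.getD t 0)^[k] t.val) = ((g ^ k) t).val := by
      intro k
      induction k with
      | zero => intro t; rfl
      | succ k ih =>
        intro t
        rw [Function.iterate_succ_apply', ih, pow_succ', Equiv.Perm.mul_apply, hg]
    have h2 : ∀ t < N, ((fun t => φ.getD t 0)^[orderOf g] t) = t := by
      intro t ht
      have := h1 (orderOf g) ⟨t, ht⟩
      rw [pow_orderOf_eq_one] at this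
      exact this
    have h3 : ∀ (k : ℕ) (A : NSt), (mapN φ)^[k] A =
        (A.1.map ((fun t => φ.getD t 0)^[k]), A.2.map ((fun t => φ.getD t 0)^[k])) := by
      intro k
      induction k with
      | zero => intro A; simp
      | succ k ih =>
        intro A
        rw [Function.iterate_succ_apply', ih]
        unfold mapN
        simp only [List.map_map]
        rw [Function.iterate_succ']
    rw [h3]
    have h4 : ∀ l : List ℕ, (∀ t ∈ l, t < N) → l.map ((fun t => φ.getD t 0)^[orderOf g]) = l := by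
      intro l hl
      conv_rhs => rw [← List.map_id l]
      exact List.map_congr_left fun t ht => h2 t (hl t ht)
    rw [h4 A.1 fun t ht => hA t (List.mem_append_left _ ht),
      h4 A.2 fun t ht => hA t (List.mem_append_right _ ht)]
  have := hk (orderOf g - 1)
  rw [Nat.sub_add_cancel hord, hid] at this
  exact this

/-- Soundness of the derivations. -/
theorem valOK_sound {N : ℕ} {τ : List ℕ} (hτ : ∀ t < N, τ.getD t 0 < N) : ∀ {D : List Entry},
    valOK N τ D = true → ∀ e ∈ D, (∀ t ∈ e.1.1.1 ++ e.1.1.2, t < N) ∧ ReachN τ e.1.1 e.1.2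
  | [], _, e, he => by simp at he
  | e' :: D, h, e, he => by
    rw [valOK_cons, Bool.and_eq_true] at h
    have ih := valOK_sound hτ h.2
    rcases List.mem_cons.mp he with rfl | he
    · have h1 := h.1
      unfold justOK at h1
      rw [Bool.and_eq_true, Bool.and_eq_true, wfN_iff, wfN_iff] at h1
      obtain ⟨⟨hw1, hw2⟩, h1⟩ := h1
      refine ⟨hw1, ?_⟩
      rw [Bool.or_eq_true, Bool.or_eq_true, Bool.or_eq_true, Bool.and_eq_true,
        Bool.or_eq_true] at h1
      rcases h1 with h1 | h1 | h1 | ⟨hp, h1 | h1⟩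
      · obtain ⟨B, hB, h1⟩ := List.any_eq_true.mp h1
        rw [decide_eq_true_eq] at h1
        subst h1
        exact Relation.ReflTransGen.single hB
      · rw [decide_eq_true_eq] at h1
        rw [h1]
        exact Relation.ReflTransGen.refl
      · obtain ⟨e₁, he₁, h1⟩ := List.any_eq_true.mp h1
        obtain ⟨e₂, he₂, h1⟩ := List.any_eq_true.mp h1
        rw [Bool.and_eq_true, Bool.and_eq_true, decide_eq_true_eq, decide_eq_true_eq,
          decide_eq_true_eq] at h1
        obtain ⟨h2, h3, h4⟩ := h1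
        have r1 := (ih e₁ he₁).2
        have r2 := (ih e₂ he₂).2
        rw [h2, h3] at r1
        rw [h4] at r2
        exact r1.trans r2
      · obtain ⟨e₁, he₁, h1⟩ := List.any_eq_true.mp h1
        rw [Bool.and_eq_true, decide_eq_true_eq, decide_eq_true_eq] at h1
        rw [← h1.1, ← h1.2]
        exact ReachN.map (permOK_iff.mp hp) hτ (ih e₁ he₁).1 (ih e₁ he₁).2
      · rw [Bool.and_eq_true, decide_eq_true_eq] at h1
        obtain ⟨h2, h1⟩ := h1
        obtain ⟨e₁, he₁, h1⟩ := List.any_eq_true.mp h1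
        rw [Bool.and_eq_true, decide_eq_true_eq, decide_eq_true_eq] at h1
        have r1 := (ih e₁ he₁).2
        rw [h1.1, h1.2, ← h2] at r1
        rw [← h2]
        exact ReachN.rev (permOK_iff.mp hp) hτ hw2 r1
    · exact ih e he

end Pool.Agent.QuadEq
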