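import Pool.Agent.Lib.MP_b7851d_lc.Progress

/-!
# Pairs of cyclic words and common block transpositions
-/

namespace Pool.Agent.QuadEq

open List

/-- A common block transposition of two cyclic words, or an equality of cyclic words. -/
inductive Sw {α : Type*} : List α × List α → List α × List α → Prop
  | sw {Z Q Z' Q' : List α} (a b c : α) {A₁ A₂ A₃ B₁ B₂ B₃ : List α}
      (h1 : Z ~r (a :: A₁) ++ (b :: A₂) ++ (c :: A₃))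
      (h2 : Q ~r (a :: B₁) ++ (b :: B₂) ++ (c :: B₃))
      (h3 : (b :: A₂) ++ (a :: A₁) ++ (c :: A₃) ~r Z')
      (h4 : (a :: B₁) ++ (c :: B₃) ++ (b :: B₂) ~r Q') : Sw (Z, Q) (Z', Q')
  | rot {Z Q Z' Q' : List α} (h1 : Z ~r Z') (h2 : Q ~r Q') : Sw (Z, Q) (Z', Q')

variable {α : Type*}

theorem Sw.perm {s t : List α × List α} (h : Sw s t) : s.1 ~ t.1 ∧ s.2 ~ t.2 := by
  cases h with
  | @sw Z Q Z' Q' a b c A₁ A₂ A₃ B₁ B₂ B₃ h1 h2 h3 h4 =>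
    constructor
    · refine (h1.perm.trans ?_).trans h3.perm
      exact List.Perm.append_right _ List.perm_append_comm
    · refine (h2.perm.trans ?_).trans h4.perm
      rw [List.append_assoc, List.append_assoc]
      exact List.Perm.append_left _ List.perm_append_comm
  | rot h1 h2 => exact ⟨h1.perm, h2.perm⟩

theorem Chn.perm {n : ℕ} {s t : List α × List α} (h : Chn Sw n s t) : s.1 ~ t.1 ∧ s.2 ~ t.2 := by
  induction h with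
  | refl => exact ⟨List.Perm.refl _, List.Perm.refl _⟩
  | step h1 _ ih => exact ⟨h1.perm.1.trans ih.1, h1.perm.2.trans ih.2⟩

theorem Sw.symm {s t : List α × List α} (h : Sw s t) : Sw t s := by
  cases h with
  | @sw Z Q Z' Q' a b c A₁ A₂ A₃ B₁ B₂ B₃ h1 h2 h3 h4 =>
    refine Sw.sw b a c (A₁ := A₂) (A₂ := A₁) (A₃ := A₃) (B₁ := B₂) (B₂ := B₁) (B₃ := B₃) h3.symm
      (h4.symm.trans ?_) h1.symm ?_
    · rw [List.append_assoc (b :: B₂)]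
      exact List.isRotated_append
    · refine List.IsRotated.trans ?_ h2.symm
      rw [List.append_assoc (b :: B₂), List.append_assoc (a :: B₁)]
      rw [← List.append_assoc]
      exact List.isRotated_append
  | rot h1 h2 => exact Sw.rot h1.symm h2.symm

theorem Chn.symm {α : Type*} {R : α → α → Prop} (hR : ∀ a b, R a b → R b a) {n : ℕ} {s t : α}
    (h : Chn R n s t) : Chn R n t s := by
  induction h with
  | refl => exact Chn.refl _ _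
  | step h1 _ ih => exact ih.trans (Chn.single (hR _ _ h1))

/-- The word in which every letter is followed by its tail. -/
def ex (τ : α → List α) (l : List α) : List α := l.flatMap fun v => v :: τ v

theorem ex_nil (τ : α → List α) : ex τ [] = [] := rfl

theorem ex_cons (τ : α → List α) (v : α) (l : List α) : ex τ (v :: l) = v :: (τ v ++ ex τ l) := by
  simp [ex]

theorem ex_append (τ : α → List α) (l l' : List α) : ex τ (l ++ l') = ex τ l ++ ex τ l' := by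
  simp [ex]

theorem ex_congr {τ σ : α → List α} {l : List α} (h : ∀ v ∈ l, τ v = σ v) : ex τ l = ex σ l := by
  induction l with
  | nil => rfl
  | cons v l ih =>
    rw [ex_cons, ex_cons, h v List.mem_cons_self, ih fun u hu => h u (List.mem_cons_of_mem _ hu)]

theorem ex_rot (τ : α → List α) {l l' : List α} (h : l ~r l') : ex τ l ~r ex τ l' := by
  obtain ⟨n, rfl⟩ := h
  rw [List.rotate_eq_drop_append_take_mod, ex_append]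
  conv_lhs => rw [← List.take_append_drop (n % l.length) l, ex_append]
  exact List.isRotated_append

theorem Sw.lift (τ σ : α → List α) {s t : List α × List α} (h : Sw s t) :
    Sw (ex τ s.1, ex σ s.2) (ex τ t.1, ex σ t.2) := by
  cases h with
  | @sw Z Q Z' Q' a b c A₁ A₂ A₃ B₁ B₂ B₃ h1 h2 h3 h4 =>
    refine Sw.sw a b c (A₁ := τ a ++ ex τ A₁) (A₂ := τ b ++ ex τ A₂) (A₃ := τ c ++ ex τ A₃)
      (B₁ := σ a ++ ex σ B₁) (B₂ := σ b ++ ex σ B₂) (B₃ := σ c ++ ex σ B₃) ?_ ?_ ?_ ?_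
    · have := ex_rot τ h1
      rwa [ex_append, ex_append, ex_cons, ex_cons, ex_cons] at this
    · have := ex_rot σ h2
      rwa [ex_append, ex_append, ex_cons, ex_cons, ex_cons] at this
    · have := ex_rot τ h3
      rwa [ex_append, ex_append, ex_cons, ex_cons, ex_cons] at this
    · have := ex_rot σ h4
      rwa [ex_append, ex_append, ex_cons, ex_cons, ex_cons] at this
  | rot h1 h2 => exact Sw.rot (ex_rot τ h1) (ex_rot σ h2)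

theorem chn_lift (τ σ : α → List α) {n : ℕ} {s t : List α × List α} (h : Chn Sw n s t) :
    Chn Sw n (ex τ s.1, ex σ s.2) (ex τ t.1, ex σ t.2) := by
  induction h with
  | refl => exact Chn.refl _ _
  | step h1 _ ih => exact Chn.step (h1.lift τ σ) ih

theorem exists_tails [DecidableEq α] : ∀ (l Q : List α) (w : α), l <+ Q → (w :: l).Nodup →
    ∃ τ : α → List α, w :: Q = ex τ (w :: l)
  | [], Q, w, _, _ => ⟨fun _ => Q, by rw [ex_cons, ex_nil, List.append_nil]⟩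
  | v :: l, Q, w, h, hn => by
    obtain ⟨r₁, r₂, h1, h2, h3⟩ := List.cons_sublist_iff.mp h
    obtain ⟨s, t, rfl⟩ := List.append_of_mem h2
    obtain ⟨τ, hτ⟩ := exists_tails l (t ++ r₂) v (h3.trans (List.sublist_append_right _ _))
      (List.nodup_cons.mp hn).2
    refine ⟨Function.update τ w s, ?_⟩
    rw [ex_cons, Function.update_self, ex_congr (σ := τ), ← hτ, h1]
    · simp
    · intro u hu
      rw [Function.update_of_ne]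
      rintro rfl
      exact (List.nodup_cons.mp hn).1 hu

theorem exists_tails_end [DecidableEq α] {l Q : List α} {w q : α} (h : l <+ Q)
    (hn : (w :: (l ++ [q])).Nodup) :
    ∃ τ : α → List α, w :: (Q ++ [q]) = ex τ (w :: (l ++ [q])) ∧ τ q = [] := by
  have hn' : ((w :: l) ++ [q]).Nodup := hn
  obtain ⟨h1, -, h2⟩ := List.nodup_append.mp hn'
  obtain ⟨τ, hτ⟩ := exists_tails l Q w h h1
  refine ⟨Function.update τ q [], ?_, Function.update_self ..⟩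
  have : w :: (l ++ [q]) = (w :: l) ++ [q] := rfl
  rw [this, ex_append, ex_congr (σ := τ), ← hτ, ex_cons, Function.update_self, ex_nil]
  · simp
  · intro u hu
    rw [Function.update_of_ne]
    rintro rfl
    exact h2 _ hu _ List.mem_cons_self rfl

/-- The letter `q` can be brought before the letter `p` on the second cyclic word. -/
def Aim (p q : α) (s : List α × List α) : Prop :=
  ∃ Z' R, Chn Sw 4 s (p :: Z', p :: (R ++ [q]))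

theorem Aim.of_rot {p q : α} {s t : List α × List α} (h : Sw s t)
    (h' : ∃ Z' R, Chn Sw 3 t (p :: Z', p :: (R ++ [q]))) : Aim p q s := by
  obtain ⟨Z', R, h'⟩ := h'
  exact ⟨Z', R, Chn.step h h'⟩

/-- Small patterns lift. -/
theorem aim_of_pat [DecidableEq α] {w p q : α} {l m Q Z z r : List α} (hl : l <+ Q) (hm : m <+ Z)
    (hQ : (w :: (Q ++ [q])).Nodup) (hZ : (w :: Z).Nodup)
    (hc : Chn Sw 3 (w :: m, w :: (l ++ [q])) (p :: z, p :: (r ++ [q]))) :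
    ∃ Z' R, Chn Sw 3 (w :: Z, w :: (Q ++ [q])) (p :: Z', p :: (R ++ [q])) := by
  obtain ⟨τ, hτ⟩ := exists_tails m Z w hm (hZ.sublist (hm.cons_cons w))
  obtain ⟨σ, hσ, hσq⟩ := exists_tails_end (q := q) hl
    (hQ.sublist ((hl.append (List.Sublist.refl [q])).cons_cons w))
  have := chn_lift τ σ hc
  simp only at this
  rw [← hτ, ← hσ] at this
  refine ⟨τ p ++ ex τ z, σ p ++ ex σ r, ?_⟩
  rw [ex_cons] at this
  have e : ex σ (p :: (r ++ [q])) = p :: (σ p ++ ex σ r ++ [q]) := by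
    rw [ex_cons, ex_append, ex_cons, hσq, ex_nil]
    simp
  rwa [e] at this

/-! ### The small patterns -/

theorem pat2ia (d p q r w : α) :
    Chn Sw 3 ([w, r, q, p, d], [w, d, r, p, q]) ([p, r, w, q, d], p :: ([w, r, d] ++ [q])) :=
  Chn.step (Sw.sw (Z' := [r, q, d, w, p]) (Q' := [d, p, q, w, r]) d r p (A₁ := [w]) (A₂ := [q])
    (A₃ := []) (B₁ := []) (B₂ := []) (B₃ := [q, w])
    ⟨4, rfl⟩ ⟨1, rfl⟩ ⟨0, rfl⟩ ⟨0, rfl⟩)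
    (Chn.step (Sw.sw (Z' := [p, r, w, q, d]) (Q' := [p, w, r, d, q]) p q w (A₁ := [r]) (A₂ := [d])
    (A₃ := []) (B₁ := []) (B₂ := []) (B₃ := [r, d])
    ⟨4, rfl⟩ ⟨1, rfl⟩ ⟨2, rfl⟩ ⟨0, rfl⟩)
    (Chn.refl 1 _))

theorem pat2ib (d p q r w x : α) :
    Chn Sw 3 ([w, q, r, x, p, d], [w, d, r, p, x, q]) ([p, r, w, q, x, d], p :: ([w, r, d, x] ++ [q])) :=
  Chn.step (Sw.sw (Z' := [r, x, d, w, q, p]) (Q' := [d, p, x, q, w, r]) d r p (A₁ := [w, q]) (A₂ := [x])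
    (A₃ := []) (B₁ := []) (B₂ := []) (B₃ := [x, q, w])
    ⟨5, rfl⟩ ⟨1, rfl⟩ ⟨0, rfl⟩ ⟨0, rfl⟩)
    (Chn.step (Sw.sw (Z' := [p, r, w, q, x, d]) (Q' := [p, w, r, d, x, q]) p x w (A₁ := [r]) (A₂ := [d])
    (A₃ := [q]) (B₁ := []) (B₂ := [q]) (B₃ := [r, d])
    ⟨5, rfl⟩ ⟨1, rfl⟩ ⟨2, rfl⟩ ⟨0, rfl⟩)
    (Chn.refl 1 _))

theorem pat2iia (d p q r w : α) :
    Chn Sw 3 ([w, q, r, p, d], [w, r, d, p, q]) ([p, w, r, q, d], p :: ([r, w, d] ++ [q])) :=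
  Chn.step (Sw.sw (Z' := [q, d, w, r, p]) (Q' := [d, p, r, q, w]) d q r (A₁ := [w]) (A₂ := [])
    (A₃ := [p]) (B₁ := [p]) (B₂ := [w]) (B₃ := [])
    ⟨4, rfl⟩ ⟨2, rfl⟩ ⟨0, rfl⟩ ⟨0, rfl⟩)
    (Chn.step (Sw.sw (Z' := [p, w, r, q, d]) (Q' := [p, r, w, d, q]) p q w (A₁ := []) (A₂ := [d])
    (A₃ := [r]) (B₁ := [r]) (B₂ := []) (B₃ := [d])
    ⟨4, rfl⟩ ⟨1, rfl⟩ ⟨2, rfl⟩ ⟨0, rfl⟩)
    (Chn.refl 1 _))

theorem pat2iib (d p q r w x : α) :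
    Chn Sw 3 ([w, x, r, q, p, d], [w, r, d, p, x, q]) ([p, w, r, q, x, d], p :: ([r, w, d, x] ++ [q])) :=
  Chn.step (Sw.sw (Z' := [w, x, d, r, q, p]) (Q' := [d, p, x, q, r, w]) d w r (A₁ := []) (A₂ := [x])
    (A₃ := [q, p]) (B₁ := [p, x, q]) (B₂ := []) (B₃ := [])
    ⟨5, rfl⟩ ⟨2, rfl⟩ ⟨0, rfl⟩ ⟨0, rfl⟩)
    (Chn.step (Sw.sw (Z' := [p, w, r, q, x, d]) (Q' := [p, r, w, d, x, q]) p x r (A₁ := [w]) (A₂ := [d])
    (A₃ := [q]) (B₁ := []) (B₂ := [q]) (B₃ := [w, d])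
    ⟨5, rfl⟩ ⟨1, rfl⟩ ⟨2, rfl⟩ ⟨0, rfl⟩)
    (Chn.refl 1 _))

theorem pat6a (d p q r s w : α) :
    Chn Sw 3 ([w, s, r, q, p, d], [w, r, s, d, p, q]) ([p, r, s, q, w, d], p :: ([s, r, d, w] ++ [q])) :=
  Chn.step (Sw.sw (Z' := [w, s, d, r, q, p]) (Q' := [d, p, q, r, s, w]) d w r (A₁ := []) (A₂ := [s])
    (A₃ := [q, p]) (B₁ := [p, q]) (B₂ := []) (B₃ := [s])
    ⟨5, rfl⟩ ⟨3, rfl⟩ ⟨0, rfl⟩ ⟨0, rfl⟩)
    (Chn.step (Sw.sw (Z' := [q, p, w, d, r, s]) (Q' := [d, p, s, w, q, r]) d q s (A₁ := [r]) (A₂ := [p, w])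
    (A₃ := []) (B₁ := [p]) (B₂ := [r]) (B₃ := [w])
    ⟨2, rfl⟩ ⟨0, rfl⟩ ⟨0, rfl⟩ ⟨0, rfl⟩)
    (Chn.step (Sw.sw (Z' := [p, r, s, q, w, d]) (Q' := [p, s, r, d, w, q]) p w r (A₁ := []) (A₂ := [d])
    (A₃ := [s, q]) (B₁ := [s]) (B₂ := [q]) (B₃ := [d])
    ⟨1, rfl⟩ ⟨1, rfl⟩ ⟨2, rfl⟩ ⟨0, rfl⟩)
    (Chn.refl 0 _)))

theorem pat6b (d p q r s w : α) :
    Chn Sw 3 ([w, q, s, r, p, d], [w, d, r, s, p, q]) ([p, r, w, s, q, d], p :: ([s, w, r, d] ++ [q])) :=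
  Chn.step (Sw.sw (Z' := [r, d, w, q, s, p]) (Q' := [d, p, q, w, r, s]) d r p (A₁ := [w, q, s]) (A₂ := [])
    (A₃ := []) (B₁ := []) (B₂ := [s]) (B₃ := [q, w])
    ⟨5, rfl⟩ ⟨1, rfl⟩ ⟨0, rfl⟩ ⟨0, rfl⟩)
    (Chn.step (Sw.sw (Z' := [q, d, w, s, p, r]) (Q' := [d, p, s, q, w, r]) d q s (A₁ := [w]) (A₂ := [])
    (A₃ := [p, r]) (B₁ := [p]) (B₂ := [w, r]) (B₃ := [])
    ⟨1, rfl⟩ ⟨0, rfl⟩ ⟨0, rfl⟩ ⟨0, rfl⟩)
    (Chn.step (Sw.sw (Z' := [p, r, w, s, q, d]) (Q' := [p, s, w, r, d, q]) p q w (A₁ := [r]) (A₂ := [d])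
    (A₃ := [s]) (B₁ := [s]) (B₂ := []) (B₃ := [r, d])
    ⟨4, rfl⟩ ⟨1, rfl⟩ ⟨2, rfl⟩ ⟨0, rfl⟩)
    (Chn.refl 0 _)))

theorem pat4a (e1 e2 e3 p q w : α) :
    Chn Sw 3 ([w, q, p, e2, e1, e3], [w, e1, e2, e3, p, q]) ([p, w, e1, q, e2, e3], p :: ([e1, w, e3, e2] ++ [q])) :=
  Chn.step (Sw.sw (Z' := [e3, w, e1, q, p, e2]) (Q' := [e1, e2, q, w, e3, p]) e1 e3 q (A₁ := []) (A₂ := [w])
    (A₃ := [p, e2]) (B₁ := [e2]) (B₂ := [p]) (B₃ := [w])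
    ⟨4, rfl⟩ ⟨1, rfl⟩ ⟨0, rfl⟩ ⟨0, rfl⟩)
    (Chn.step (Sw.sw (Z' := [p, w, e1, q, e2, e3]) (Q' := [p, e1, w, e3, e2, q]) e2 w p (A₁ := [e3]) (A₂ := [e1, q])
    (A₃ := []) (B₁ := [q]) (B₂ := [e3]) (B₃ := [e1])
    ⟨5, rfl⟩ ⟨1, rfl⟩ ⟨5, rfl⟩ ⟨2, rfl⟩)
    (Chn.refl 1 _))

theorem pat4b (e1 e2 e3 p q w : α) :
    Chn Sw 3 ([w, q, p, e1, e3, e2], [w, e1, e2, e3, p, q]) ([p, e3, w, e1, q, e2], p :: ([e1, w, e3, e2] ++ [q])) :=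
  Chn.step (Sw.sw (Z' := [e3, e2, w, e1, q, p]) (Q' := [e1, e2, q, w, e3, p]) e1 e3 q (A₁ := []) (A₂ := [e2, w])
    (A₃ := [p]) (B₁ := [e2]) (B₂ := [p]) (B₃ := [w])
    ⟨3, rfl⟩ ⟨1, rfl⟩ ⟨0, rfl⟩ ⟨0, rfl⟩)
    (Chn.step (Sw.sw (Z' := [p, e3, w, e1, q, e2]) (Q' := [p, e1, w, e3, e2, q]) e2 w p (A₁ := []) (A₂ := [e1, q])
    (A₃ := [e3]) (B₁ := [q]) (B₂ := [e3]) (B₃ := [e1])
    ⟨1, rfl⟩ ⟨1, rfl⟩ ⟨4, rfl⟩ ⟨2, rfl⟩)
    (Chn.refl 1 _))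

theorem pat3a (d e1 e2 p q w : α) :
    Chn Sw 3 ([w, e2, e1, q, p, d], [w, d, p, e1, e2, q]) ([p, e2, w, q, e1, d], p :: ([w, e2, d, e1] ++ [q])) :=
  Chn.step (Sw.sw (Z' := [e2, e1, d, w, q, p]) (Q' := [d, p, e1, q, w, e2]) d e2 q (A₁ := [w]) (A₂ := [e1])
    (A₃ := [p]) (B₁ := [p, e1]) (B₂ := []) (B₃ := [w])
    ⟨5, rfl⟩ ⟨1, rfl⟩ ⟨0, rfl⟩ ⟨0, rfl⟩)
    (Chn.step (Sw.sw (Z' := [p, e2, w, q, e1, d]) (Q' := [p, w, e2, d, e1, q]) e1 w p (A₁ := [d]) (A₂ := [q])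
    (A₃ := [e2]) (B₁ := [q]) (B₂ := [e2, d]) (B₃ := [])
    ⟨1, rfl⟩ ⟨2, rfl⟩ ⟨4, rfl⟩ ⟨2, rfl⟩)
    (Chn.refl 1 _))

theorem pat3b (d e1 e2 p q w : α) :
    Chn Sw 3 ([w, e1, q, e2, p, d], [w, d, p, e1, e2, q]) ([p, e1, w, e2, q, d], p :: ([e2, w, e1, d] ++ [q])) :=
  Chn.step (Sw.sw (Z' := [e1, q, d, w, e2, p]) (Q' := [d, p, e2, q, w, e1]) d e1 e2 (A₁ := [w]) (A₂ := [q])
    (A₃ := [p]) (B₁ := [p]) (B₂ := []) (B₃ := [q, w])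
    ⟨5, rfl⟩ ⟨1, rfl⟩ ⟨0, rfl⟩ ⟨0, rfl⟩)
    (Chn.step (Sw.sw (Z' := [p, e1, w, e2, q, d]) (Q' := [p, e2, w, e1, d, q]) p q w (A₁ := [e1]) (A₂ := [d])
    (A₃ := [e2]) (B₁ := [e2]) (B₂ := []) (B₃ := [e1, d])
    ⟨5, rfl⟩ ⟨1, rfl⟩ ⟨2, rfl⟩ ⟨0, rfl⟩)
    (Chn.refl 1 _))

theorem pat3c (d e1 e2 e3 p q w : α) :
    Chn Sw 3 ([w, q, e2, e1, e3, p, d], [w, d, p, e1, e2, e3, q]) ([p, e2, w, q, e3, e1, d], p :: ([w, e2, d, e1, e3] ++ [q])) :=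
  Chn.step (Sw.sw (Z' := [e2, e1, d, w, q, e3, p]) (Q' := [d, p, e1, e3, q, w, e2]) d e2 e3 (A₁ := [w, q]) (A₂ := [e1])
    (A₃ := [p]) (B₁ := [p, e1]) (B₂ := []) (B₃ := [q, w])
    ⟨6, rfl⟩ ⟨1, rfl⟩ ⟨0, rfl⟩ ⟨0, rfl⟩)
    (Chn.step (Sw.sw (Z' := [p, e2, w, q, e3, e1, d]) (Q' := [p, w, e2, d, e1, e3, q]) e1 w p (A₁ := [d]) (A₂ := [q, e3])
    (A₃ := [e2]) (B₁ := [e3, q]) (B₂ := [e2, d]) (B₃ := [])
    ⟨1, rfl⟩ ⟨2, rfl⟩ ⟨5, rfl⟩ ⟨3, rfl⟩)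
    (Chn.refl 1 _))

theorem pat3d (d e1 e2 e3 p q w : α) :
    Chn Sw 3 ([w, q, e1, e3, e2, p, d], [w, d, p, e1, e2, e3, q]) ([p, e1, w, q, e2, e3, d], p :: ([e2, w, e1, d, e3] ++ [q])) :=
  Chn.step (Sw.sw (Z' := [e1, e3, d, w, q, e2, p]) (Q' := [d, p, e2, e3, q, w, e1]) d e1 e2 (A₁ := [w, q]) (A₂ := [e3])
    (A₃ := [p]) (B₁ := [p]) (B₂ := []) (B₃ := [e3, q, w])
    ⟨6, rfl⟩ ⟨1, rfl⟩ ⟨0, rfl⟩ ⟨0, rfl⟩)
    (Chn.step (Sw.sw (Z' := [p, e1, w, q, e2, e3, d]) (Q' := [p, e2, w, e1, d, e3, q]) e3 w p (A₁ := [d]) (A₂ := [q, e2])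
    (A₃ := [e1]) (B₁ := [q]) (B₂ := [e1, d]) (B₃ := [e2])
    ⟨1, rfl⟩ ⟨3, rfl⟩ ⟨5, rfl⟩ ⟨2, rfl⟩)
    (Chn.refl 1 _))
end Pool.Agent.QuadEq
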