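import Pool.Agent.Lib.MP_b7851d_lc.Paths

/-!
# Block paths with few same-side wins are short, and equations with a linear side
-/

namespace Pool.Agent.QuadEq

open List

variable {L : Type} [DecidableEq L] {D V : L → Bool}

omit [DecidableEq L] in
theorem mem_itv_append {A B : List (L × List L)} {v : L} :
    v ∈ itv (A ++ B) ↔ v ∈ itv A ∨ v ∈ itv B := by
  unfold itv
  rw [List.map_append, List.mem_append]

theorem mm_swap_rtg {S S' : List (L × List L) × List (L × List L)}
    (h : Relation.ReflTransGen MM S S') : Relation.ReflTransGen MM S.swap S'.swap := by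
  induction h with
  | refl => exact Relation.ReflTransGen.refl
  | tail _ h ih => exact ih.tail h.swap

/-- Stretches are short. -/
theorem stretch_short {S S' : List (L × List L) × List (L × List L)} (h : Hs D S)
    (hm : Relation.ReflTransGen MM S S') :
    Chn (Mv D) (FI S.1.length + 2) (unpE S) (unpE S') := by
  obtain ⟨P, Q⟩ := S
  have hok1 := h.ok1
  have hok2 := h.ok2
  have htwo := h.two
  simp only at hok1 hok2 htwo
  let m : L → Prop := fun v => v ∈ itv P ∧ v ∈ itv Q
  have hc : ∀ v, m v → (itv P).count v ≤ 1 ∧ (itv Q).count v ≤ 1 := by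
    rintro v ⟨h1, h2⟩
    have h3 := htwo v (List.mem_append_left _ h1)
    have h4 := List.count_pos_iff.mpr h1
    have h5 := List.count_pos_iff.mpr h2
    omega
  obtain ⟨l₁, p, a₁, t₁, e1, b1, c1, d1, g1⟩ := decomp m P fun v hv => (hc v hv).1
  obtain ⟨l₂, q, a₂, t₂, e2, b2, c2, d2, g2⟩ := decomp m Q fun v hv => (hc v hv).2
  have hpq : p ~ q := (List.perm_ext_iff_of_nodup c1 c2).mpr fun v => by
    rw [d1, d2]
    constructor
    · rintro ⟨h1, -⟩; exact ⟨h1, h1.2⟩
    · rintro ⟨h1, -⟩; exact ⟨h1, h1.1⟩
  have k1 : ∀ s, s ∈ l₁ ∨ (∃ v ∈ p, s ∈ t₁ v) → s.1 ∉ itv Q := by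
    rintro s hs hq
    have hP : s.1 ∈ itv P := by
      rw [e1]
      rcases hs with hs | ⟨v, hv, hs⟩
      · exact mem_itv_append.mpr (Or.inl (List.mem_map.mpr ⟨s, hs, rfl⟩))
      · exact mem_itv_append.mpr (Or.inr (List.mem_map.mpr ⟨s, mem_tpI.mpr ⟨v, hv, Or.inr hs⟩,
          rfl⟩))
    rcases hs with hs | ⟨v, hv, hs⟩
    · exact b1 s hs ⟨hP, hq⟩
    · exact g1 v hv s hs ⟨hP, hq⟩
  have k2 : ∀ s, s ∈ l₂ ∨ (∃ v ∈ q, s ∈ t₂ v) → s.1 ∉ itv P := by
    rintro s hs hp
    have hQ : s.1 ∈ itv Q := by
      rw [e2]
      rcases hs with hs | ⟨v, hv, hs⟩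
      · exact mem_itv_append.mpr (Or.inl (List.mem_map.mpr ⟨s, hs, rfl⟩))
      · exact mem_itv_append.mpr (Or.inr (List.mem_map.mpr ⟨s, mem_tpI.mpr ⟨v, hv, Or.inr hs⟩,
          rfl⟩))
    rcases hs with hs | ⟨v, hv, hs⟩
    · exact b2 s hs ⟨hp, hQ⟩
    · exact g2 v hv s hs ⟨hp, hQ⟩
  have hRS : RS D a₁ t₁ a₂ t₂ p q := by
    refine ⟨⟨c1, c2, hpq⟩, ?_, ?_, ?_, ?_⟩
    · intro s hs; exact hok1 s (by rw [e1]; exact List.mem_append_right _ hs)
    · intro s hs; exact hok2 s (by rw [e2]; exact List.mem_append_right _ hs)
    · intro v hv s hs hm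
      apply k1 s (Or.inr ⟨v, hv, hs⟩)
      rw [e2]
      exact mem_itv_append.mpr (Or.inr hm)
    · intro v hv s hs hm
      apply k2 s (Or.inr ⟨v, hv, hs⟩)
      rw [e1]
      exact mem_itv_append.mpr (Or.inr hm)
  have hlen : p.length ≤ P.length := by
    have h1 : p ⊆ itv P := fun v hv => ((d1 v).mp hv).2
    have h2 := (c1.subperm h1).length_le
    unfold itv at h2
    rwa [List.length_map] at h2
  have hqlen : q.length = p.length := hpq.length_eq.symm
  have hFI := FI_mono hlen
  simp only
  by_cases hl1 : l₁ = []
  · by_cases hl2 : l₂ = []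
    · rw [hl1, List.nil_append] at e1
      rw [hl2, List.nil_append] at e2
      rw [e1, e2] at hm ⊢
      rw [e1] at hFI
      exact (reg_short hRS hm).mono (by omega)
    · rw [hl1, List.nil_append] at e1
      have h1 := mm_swap_rtg hm
      rw [Prod.swap_prod_mk, e1, e2] at h1
      have h2 := lead_short hRS.swap (fun s hs => hok2 s (by rw [e2]; exact List.mem_append_left _ hs))
        hl2 (fun s hs => by
          have := k2 s (Or.inl hs)
          rwa [e1] at this) h1
      have h3 := chn_swap h2
      rw [e1, e2]
      rw [e1] at hFI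
      refine Chn.mono ?_ (show FI q.length + 2 ≤ FI (tpI a₁ t₁ p).length + 2 by rw [hqlen]; omega)
      exact h3
  · by_cases hl2 : l₂ = []
    · rw [hl2, List.nil_append] at e2
      rw [e1, e2] at hm ⊢
      rw [e1] at hFI
      exact (lead_short hRS (fun s hs => hok1 s (by rw [e1]; exact List.mem_append_left _ hs)) hl1
        (fun s hs => by
          have := k1 s (Or.inl hs)
          rwa [e2] at this) hm).mono (by omega)
    · have hno : ∀ T, ¬ MM (P, Q) T := by
        have key : ∀ {A B : List (L × List L) × List (L × List L)}, MB A B →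
            ∃ s Q', A.2 = s :: Q' ∧ s.1 ∈ itv A.1 := by
          intro A B hm
          cases hm with
          | mk hxy hy => exact ⟨_, _, rfl, List.mem_cons_of_mem _ hy⟩
        rintro T (hT | hT)
        · obtain ⟨s, Q', h1, h2⟩ := key hT
          simp only at h1 h2
          rw [e2] at h1
          cases hl : l₂ with
          | nil => exact hl2 hl
          | cons s' l₂' =>
            rw [hl, List.cons_append, List.cons.injEq] at h1
            exact k2 s (Or.inl (by rw [hl, h1.1]; exact List.mem_cons_self)) h2
        · obtain ⟨s, Q', h1, h2⟩ := key hT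
          simp only [Prod.swap_prod_mk] at h1 h2
          rw [e1] at h1
          cases hl : l₁ with
          | nil => exact hl1 hl
          | cons s' l₁' =>
            rw [hl, List.cons_append, List.cons.injEq] at h1
            exact k1 s (Or.inl (by rw [hl, h1.1]; exact List.mem_cons_self)) h2
      rcases Relation.ReflTransGen.cases_head hm with h1 | ⟨T, h1, -⟩
      · rw [← h1]; exact Chn.refl _ _
      · exact absurd h1 (hno T)

/-- Block paths with at most `K` steps which are not mixed. -/
inductive Pth : ℕ → List (L × List L) × List (L × List L) →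
    List (L × List L) × List (L × List L) → Prop
  | base {K : ℕ} {S S' : List (L × List L) × List (L × List L)}
      (h : Relation.ReflTransGen MM S S') : Pth K S S'
  | step {K : ℕ} {S S₁ S₂ S' : List (L × List L) × List (L × List L)}
      (h : Relation.ReflTransGen MM S S₁) (h1 : Move S₁ S₂) (h2 : Pth K S₂ S') :
      Pth (K + 1) S S'

theorem Hs.mm_rtg {S S' : List (L × List L) × List (L × List L)} (h : Hs D S)
    (hm : Relation.ReflTransGen MM S S') :
    Hs D S' ∧ S'.1.length + S'.2.length = S.1.length + S.2.length := by
  induction hm with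
  | refl => exact ⟨h, rfl⟩
  | tail _ hm ih =>
    obtain ⟨h1, h2⟩ := ih.1.move hm.move
    exact ⟨h1, h2.trans ih.2⟩

/-- Paths with few same-side wins are short. -/
theorem pth_short {K N : ℕ} {S S' : List (L × List L) × List (L × List L)} (hp : Pth K S S')
    (h : Hs D S) (hN : S.1.length + S.2.length ≤ N) :
    Chn (Mv D) ((K + 1) * (FI N + 3)) (unpE S) (unpE S') := by
  induction hp with
  | @base K S S' hm =>
    have h1 := stretch_short h hm
    have h2 : FI S.1.length ≤ FI N := FI_mono (by omega)
    refine h1.mono ?_
    have : 1 * (FI N + 3) ≤ (K + 1) * (FI N + 3) := Nat.mul_le_mul_right _ (by omega)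
    omega
  | @step K S S₁ S₂ S' hm h1 h2 ih =>
    have h3 := stretch_short h hm
    have h4 : FI S.1.length ≤ FI N := FI_mono (by omega)
    obtain ⟨h5, h6⟩ := h.mm_rtg hm
    obtain ⟨h7, h8⟩ := h5.move h1
    have h9 := ih h7 (by omega)
    have h10 := h3.trans (Chn.step (h1.mv h5.ok1 h5.ok2) h9)
    refine h10.mono ?_
    have : (K + 1 + 1) * (FI N + 3) = (K + 1) * (FI N + 3) + (FI N + 3) := by ring
    omega

/-- If no letter occurs twice in the second list, then the number of same-side wins is at most the
length of the second list. -/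
theorem onesided_pth : ∀ (k : ℕ) (S S' : List (L × List L) × List (L × List L)), Hs D S →
    (itv S.2).Nodup → S.2.length = k → Relation.ReflTransGen Move S S' → Pth k S S' := by
  intro k
  induction k using Nat.strong_induction_on with
  | _ k ih =>
    intro S S' hS hn hk hm
    -- one step
    have key : ∀ {S T : List (L × List L) × List (L × List L)}, Hs D S → (itv S.2).Nodup →
        Move S T → (itv T.2).Nodup ∧ (MM S T ∨ T.2.length < S.2.length) ∧
          T.2.length ≤ S.2.length := by
      intro S T hS hn hm
      rcases hm with hm | hm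
      · cases hm with
        | @mk x y a w P Q hxy =>
          have htwo := hS.two
          simp only at htwo
          have e1 : itv ((x, a) :: P) = x :: itv P := rfl
          have e2 : itv ((y, w) :: Q) = y :: itv Q := rfl
          have hn' : (y :: itv Q).Nodup := hn
          simp only [itv_ins, length_ins, List.length_cons]
          by_cases hxQ : x ∈ itv Q
          · obtain ⟨A, B, hAB⟩ := List.append_of_mem hxQ
            rw [hAB] at hn'
            have n2 := (List.nodup_cons.mp hn').2
            rw [List.nodup_append] at n2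
            have m1 : x ∉ A := fun hm => n2.2.2 x hm x List.mem_cons_self rfl
            have m2 : x ∉ B := (List.nodup_cons.mp n2.2.1).1
            have e3 : sub x [y, x] (A ++ x :: B) = A ++ ([y] ++ x :: B) :=
              sub_one (u := [y]) m1 m2
            have hcount : (itv Q).count x = 1 := by
              rw [hAB, List.count_append, List.count_cons_self,
                List.count_eq_zero_of_not_mem m1, List.count_eq_zero_of_not_mem m2]
            refine ⟨?_, Or.inl (Or.inr ?_), by omega⟩
            · have e4 : (y, w).1 = y := rfl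
              rw [hAB, e3]
              have : y :: (A ++ x :: B) ~ A ++ ([y] ++ x :: B) := List.perm_middle.symm
              exact this.nodup_iff.mp hn'
            · exact MB.mk (x := y) (y := x) (a := w) (w := a) (P := Q) (Q := P) hxy.symm hxQ
          · have h0 : (itv Q).count x = 0 := List.count_eq_zero_of_not_mem hxQ
            refine ⟨?_, Or.inr (by omega), by omega⟩
            rw [sub_eq_self hxQ]
            exact (List.nodup_cons.mp hn').2
      · generalize hS0 : S.swap = S0 at hm
        generalize hT0 : T.swap = T0 at hm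
        cases hm with
        | @mk y x w a Q P hxy =>
          have eS : S = ((x, a) :: P, (y, w) :: Q) := by
            have := congrArg Prod.swap hS0
            rwa [Prod.swap_swap] at this
          have eT : T = (ins y (x, a) P, (y, w) :: ins y (x, a) Q) := by
            have := congrArg Prod.swap hT0
            rwa [Prod.swap_swap] at this
          subst eS eT
          have htwo := hS.two
          simp only at htwo
          have hn' : (y :: itv Q).Nodup := hn
          have hyQ : y ∉ itv Q := (List.nodup_cons.mp hn').1
          have e1 : ins y (x, a) Q = Q := ins_self hyQ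
          simp only [e1]
          refine ⟨hn, Or.inl (Or.inl ?_), le_rfl⟩
          have h1 := htwo y (by simp [itv])
          have e2 : itv ((x, a) :: P) = x :: itv P := rfl
          have e3 : itv ((y, w) :: Q) = y :: itv Q := rfl
          rw [e2, e3, List.count_cons_self, List.count_eq_zero_of_not_mem hyQ,
            List.count_cons_of_ne hxy.symm] at h1
          have hyP : y ∈ itv P := List.count_pos_iff.mp (by omega)
          have := MB.mk (x := x) (y := y) (a := a) (w := w) (P := P) (Q := Q) hxy.symm hyP
          rw [e1] at this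
          exact this
    -- split the path at the first step which is not mixed
    have split : ∀ {S : List (L × List L) × List (L × List L)}, Hs D S → (itv S.2).Nodup →
        Relation.ReflTransGen Move S S' → Relation.ReflTransGen MM S S' ∨
        ∃ S₁ S₂, Relation.ReflTransGen MM S S₁ ∧ Move S₁ S₂ ∧ Hs D S₂ ∧ (itv S₂.2).Nodup ∧
          S₂.2.length < S.2.length ∧ Relation.ReflTransGen Move S₂ S' := by
      intro S hS hn hm
      induction hm using Relation.ReflTransGen.head_induction_on with
      | refl => exact Or.inl Relation.ReflTransGen.refl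
      | @head S T h1 h2 ih =>
        obtain ⟨k1, k2, k3⟩ := key hS hn h1
        have hT := (hS.move h1).1
        rcases k2 with k2 | k2
        · rcases ih hT k1 with h3 | ⟨S₁, S₂, h3, h4, h5, h6, h7, h8⟩
          · exact Or.inl (Relation.ReflTransGen.head k2 h3)
          · exact Or.inr ⟨S₁, S₂, Relation.ReflTransGen.head k2 h3, h4, h5, h6, by omega, h8⟩
        · exact Or.inr ⟨S, T, Relation.ReflTransGen.refl, h1, hT, k1, k2, h2⟩
    rcases split hS hn hm with h1 | ⟨S₁, S₂, h3, h4, h5, h6, h7, h8⟩
    · exact Pth.base h1
    · have h9 := ih S₂.2.length (by omega) S₂ S' h5 h6 rfl h8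
      have hmono : ∀ {j l : ℕ} {A B : List (L × List L) × List (L × List L)}, Pth j A B → j ≤ l →
          Pth l A B := by
        intro j l A B hp
        induction hp generalizing l with
        | base h => exact fun _ => Pth.base h
        | @step K S S₁ S₂ S' h1 h2 _ ih =>
          intro hl
          obtain ⟨l', rfl⟩ := Nat.exists_eq_add_of_le hl
          rw [show K + 1 + l' = (K + l') + 1 by omega]
          exact Pth.step h1 h2 (ih (by omega))
      exact hmono (Pth.step h3 h4 h9) (by omega)

end Pool.Agent.QuadEq
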