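import Pool.Agent.Lib.MP_b7851d_lc.LinearEq
import Pool.Agent.Lib.MP_b7851d_lc.Star.Wins

/-!
# From the statement on tokens to certificates of all quadratic equations
-/

namespace Pool.Agent.QuadEq

open List

/-- The statement on tokens: reachable token states can be reached with few same-side wins. -/
def StarStm (K : ℕ → ℕ) : Prop :=
  ∀ (N : ℕ) (iota : Fin N → Fin N) (A B : List (Fin N) × List (Fin N)), Star.OkW iota A →
    (∃ w, Star.execW iota w A = some B) → Star.PathW iota (K (A.1.length + A.2.length)) A B

section tokens

variable {N : ℕ} {τ : Fin N → Fin N}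

theorem insB_eq {u s : Fin N} : ∀ {l : List (Fin N)}, l.Nodup → Star.insB u s l = insT u s l
  | [], _ => rfl
  | a :: l, h => by
    rw [List.nodup_cons] at h
    rw [insT_cons, Star.insB]
    by_cases ha : a = u
    · subst ha
      rw [if_pos rfl, if_pos rfl]
      have : insT a s l = l := by
        have : ∀ l : List (Fin N), a ∉ l → insT a s l = l := by
          intro l hl
          induction l with
          | nil => rfl
          | cons b l ih =>
            rw [List.mem_cons, not_or] at hl
            rw [insT_cons, if_neg fun e => hl.1 e.symm, ih hl.2]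
            rfl
        exact this l h.1
      rw [this]
      rfl
    · rw [if_neg ha, if_neg ha, insB_eq h.2]
      rfl

theorem execW_append (w w' : List Bool) (A : List (Fin N) × List (Fin N)) :
    Star.execW τ (w ++ w') A = (Star.execW τ w A).bind (Star.execW τ w') := by
  induction w generalizing A with
  | nil => rfl
  | cons b w ih =>
    rw [List.cons_append, Star.execW, Star.execW]
    cases Star.stepW τ b A with
    | none => rfl
    | some A' => simp only [Option.bind_some]; exact ih A'

/-- The pair of the two lists. -/
def prS (A : TSt N) : List (Fin N) × List (Fin N) := (A.top, A.bot)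

theorem tokT_step {A B : TSt N} (h : TokT τ A B) (hA : Cpl A) :
    Star.tW τ (prS A) = some (prS B) ∨ B.bot = [] := by
  cases h with
  | @mk t s P Q h =>
    have hn : (t :: (P ++ s :: Q)).Nodup := hA.1
    rw [List.nodup_cons, List.nodup_append, List.nodup_cons] at hn
    by_cases hQ : Q = []
    · right
      subst hQ
      rfl
    · left
      unfold Star.tW prS
      simp only
      rw [if_neg (by simp [h, hQ]), insB_eq hn.2.1, insB_eq hn.2.2.1.2]

theorem tok_step {A B : TSt N} (h : Tok τ A B) (hA : Cpl A) :
    (∃ b, Star.stepW τ b (prS A) = some (prS B)) ∨ B.top = [] ∨ B.bot = [] := by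
  rcases h with h | h
  · rcases tokT_step h hA with h1 | h1
    · exact Or.inl ⟨true, h1⟩
    · exact Or.inr (Or.inr h1)
  · rcases tokT_step h hA.swap with h1 | h1
    · refine Or.inl ⟨false, ?_⟩
      have e : (prS A).swap = prS A.swap := rfl
      unfold Star.stepW Star.bW
      simp only [cond_false]
      rw [e, h1]
      rfl
    · exact Or.inr (Or.inl h1)

theorem tok_rtg {A B : TSt N} (hτ : Invol τ) (h : Relation.ReflTransGen (Tok τ) A B)
    (hA : Cpl A) : Cpl B ∧ ((∃ w, Star.execW τ w (prS A) = some (prS B)) ∨
      ((B.top = [] ∨ B.bot = []) ∧ ∃ C, Cpl C ∧ (∃ w, Star.execW τ w (prS A) = some (prS C)) ∧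
        Tok τ C B)) := by
  induction h with
  | refl => exact ⟨hA, Or.inl ⟨[], rfl⟩⟩
  | @tail B C _ h ih =>
    obtain ⟨hB, ih⟩ := ih
    refine ⟨h.cpl hτ hB, ?_⟩
    rcases ih with ⟨w, hw⟩ | ⟨hB0, -⟩
    · rcases tok_step h hB with ⟨b, hb⟩ | h1
      · left
        refine ⟨w ++ [b], ?_⟩
        rw [execW_append, hw, Option.bind_some, Star.execW, hb]
        rfl
      · exact Or.inr ⟨h1, B, hB, ⟨w, hw⟩, h⟩
    · exfalso
      have key : ∀ {A B : TSt N}, TokT τ A B → A.top ≠ [] ∧ A.bot ≠ [] := by
        intro A B h
        cases h with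
        | mk => simp
      rcases h with h | h
      · have := key h
        rcases hB0 with h1 | h1
        · exact this.1 h1
        · exact this.2 h1
      · have := key h
        rcases hB0 with h1 | h1
        · exact this.2 h1
        · exact this.1 h1

theorem okW_cpl (hτ : Invol τ) {A : TSt N} (hA : Cpl A) : Star.OkW τ (prS A) :=
  ⟨fun x _ => (hτ x).1, fun x _ => (hτ x).2, fun _ _ => hA.2 _, hA.1⟩

end tokens

variable {L : Type} [DecidableEq L] {D V : L → Bool}

theorem Pth.cons {K : ℕ} {S T S' : List (L × List L) × List (L × List L)} (h : MM S T)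
    (hp : Pth K T S') : Pth K S S' := by
  cases hp with
  | base h1 => exact Pth.base (Relation.ReflTransGen.head h h1)
  | step h1 h2 h3 => exact Pth.step (Relation.ReflTransGen.head h h1) h2 h3

theorem Pth.snoc {K : ℕ} {S T S' : List (L × List L) × List (L × List L)} (hp : Pth K S T)
    (h : Move T S') : Pth (K + 1) S S' := by
  induction hp with
  | base h1 => exact (Pth.step h1 h (Pth.base Relation.ReflTransGen.refl) : Pth (_ + 1) _ _)
  | step h1 h2 _ ih => exact Pth.step h1 h2 (ih h)

variable {N : ℕ} {τ : Fin N → Fin N} {it : Fin N → L × List L}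

/-- Steps of the tokens give steps of the items. -/
theorem tW_items (hτ : Invol τ) (hnm : Naming τ fun t => (it t).1)
    {A B : List (Fin N) × List (Fin N)}
    (hA : (A.1 ++ A.2).Nodup) (hc : ∀ t, t ∈ A.1 ++ A.2) (h : Star.tW τ A = some B) :
    TMove (A.1.map it, A.2.map it) (B.1.map it, B.2.map it) ∧
      (¬ Star.Same τ true A → MM (A.1.map it, A.2.map it) (B.1.map it, B.2.map it)) := by
  obtain ⟨P0, Q0⟩ := A
  cases P0 with
  | nil => simp [Star.tW] at h
  | cons t P =>
    cases Q0 with
    | nil => simp [Star.tW] at h
    | cons s Q =>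
      unfold Star.tW at h
      simp only at h
      by_cases hst : s = τ t ∨ Q = []
      · rw [if_pos hst] at h; exact absurd h (by simp)
      · rw [if_neg hst, Option.some.injEq] at h
        subst h
        push Not at hst
        have hn : (t :: (P ++ s :: Q)).Nodup := hA
        rw [List.nodup_cons, List.nodup_append, List.nodup_cons] at hn
        have htP : t ∉ P := fun h => hn.1 (List.mem_append_left _ h)
        have htQ : t ∉ Q := fun h => hn.1 (List.mem_append_right _ (List.mem_cons_of_mem _ h))
        have hts : t ≠ s := fun e => hn.1 (List.mem_append_right _ (e ▸ List.mem_cons_self))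
        have hne : (it t).1 ≠ (it s).1 := by
          intro e
          rcases (hnm s t).mp e.symm with e | e
          · exact hts e.symm
          · exact hst.1 e
        have e1 : (t :: Star.insB (τ t) s P).map it =
            it t :: ins (it t).1 (it s) (P.map it) := by
          rw [List.map_cons, insB_eq hn.2.1, insT_items hnm htP]
        have e2 : (Star.insB (τ t) s Q).map it = ins (it t).1 (it s) (Q.map it) := by
          rw [insB_eq hn.2.2.1.2, insT_items hnm htQ]
        simp only
        rw [e1, e2, List.map_cons, List.map_cons]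
        refine ⟨TMove.mk (x := (it t).1) (y := (it s).1) (a := (it t).2) (w := (it s).2) hne, ?_⟩
        intro hns
        right
        have hxQ : (it t).1 ∈ (Q.map it).map Prod.fst := by
          have h1 : τ t ∉ P := fun h => hns ⟨t, P, s :: Q, rfl, h⟩
          have h2 := hc (τ t)
          simp only [List.cons_append, List.mem_cons, List.mem_append] at h2
          have h3 : (it (τ t)).1 = (it t).1 := (hnm (τ t) t).mpr (Or.inr rfl)
          rcases h2 with h2 | h2 | h2 | h2
          · exact absurd h2 (hτ t).2
          · exact absurd h2 h1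
          · exact absurd h2.symm hst.1
          · rw [← h3]
            exact List.mem_map.mpr ⟨it (τ t), List.mem_map.mpr ⟨τ t, h2, rfl⟩, rfl⟩
        exact MB.mk (x := (it s).1) (y := (it t).1) (a := (it s).2) (w := (it t).2) hne.symm hxQ

theorem tW_tokT {A : TSt N} (hA : Cpl A) {B : List (Fin N) × List (Fin N)}
    (h : Star.tW τ (prS A) = some B) : TokT τ A ⟨B.1, B.2⟩ := by
  obtain ⟨P0, Q0⟩ := A
  cases P0 with
  | nil => simp [Star.tW, prS] at h
  | cons t P =>
    cases Q0 with
    | nil => simp [Star.tW, prS] at h
    | cons s Q =>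
      unfold Star.tW prS at h
      simp only at h
      by_cases hst : s = τ t ∨ Q = []
      · rw [if_pos hst] at h; exact absurd h (by simp)
      · rw [if_neg hst, Option.some.injEq] at h
        subst h
        push Not at hst
        have hn : (t :: (P ++ s :: Q)).Nodup := hA.1
        rw [List.nodup_cons, List.nodup_append, List.nodup_cons] at hn
        simp only
        rw [insB_eq hn.2.1, insB_eq hn.2.2.1.2]
        exact TokT.mk hst.1

/-- Paths of the tokens give paths of the items. -/
theorem pathW_pth (hτ : Invol τ) (hnm : Naming τ fun t => (it t).1) {k : ℕ}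
    {A B : List (Fin N) × List (Fin N)} (h : Star.PathW τ k A B) (hA : Cpl (⟨A.1, A.2⟩ : TSt N)) :
    Pth k (A.1.map it, A.2.map it) (B.1.map it, B.2.map it) := by
  have key : ∀ {b : Bool} {A A' : List (Fin N) × List (Fin N)}, Cpl (⟨A.1, A.2⟩ : TSt N) →
      Star.stepW τ b A = some A' → Cpl (⟨A'.1, A'.2⟩ : TSt N) ∧
        Move (A.1.map it, A.2.map it) (A'.1.map it, A'.2.map it) ∧
        (¬ Star.Same τ b A → MM (A.1.map it, A.2.map it) (A'.1.map it, A'.2.map it)) := by
    intro b A A' hA hb
    cases b with
    | true =>
      have h1 : Star.tW τ A = some A' := hb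
      have h2 := tW_tokT hA h1
      obtain ⟨h3, h4⟩ := tW_items hτ hnm hA.1 hA.2 h1
      exact ⟨h2.cpl hτ hA, Or.inl h3, h4⟩
    | false =>
      unfold Star.stepW Star.bW at hb
      simp only [cond_false] at hb
      obtain ⟨A'', h1, h2⟩ := Option.map_eq_some_iff.mp hb
      have hsw : Cpl (⟨A.swap.1, A.swap.2⟩ : TSt N) := hA.swap
      have h3 := tW_tokT hsw h1
      obtain ⟨h4, h5⟩ := tW_items hτ hnm hsw.1 hsw.2 h1
      have h6 := h3.cpl hτ hsw
      subst h2
      refine ⟨h6.swap, Or.inr h4, ?_⟩
      intro hns
      have h7 := h5 (fun hs => hns (by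
        obtain ⟨x, P, Q, e1, e2⟩ := hs
        exact ⟨x, P, Q, e1, e2⟩))
      exact h7.swap
  induction h with
  | refl => exact Pth.base Relation.ReflTransGen.refl
  | @step k A A' B b hb hs hp ih =>
    obtain ⟨h1, h2, h3⟩ := key hA hb
    exact (ih h1).cons (h3 hs)
  | @win k A A' B b hb hp ih =>
    obtain ⟨h1, h2, h3⟩ := key hA hb
    exact Pth.step Relation.ReflTransGen.refl h2 (ih h1)

/-- All block paths can be replaced by paths with few same-side wins. -/
theorem star_pth {K : ℕ → ℕ} (hK : StarStm K) {S S' : List (L × List L) × List (L × List L)}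
    (hS : Hs D S) (hm : Relation.ReflTransGen Move S S') :
    Pth (K (S.1.length + S.2.length) + 1) S S' := by
  set I := S.1 ++ S.2 with hI
  set N := I.length with hN
  let it : Fin N → L × List L := fun i => I.get i
  have hit : (List.finRange N).map it = I := List.map_get_finRange I
  let A0 : TSt N := ⟨(List.finRange N).take S.1.length, (List.finRange N).drop S.1.length⟩
  have hall : A0.all = List.finRange N := List.take_append_drop _ _
  have hcpl : Cpl A0 := ⟨by rw [hall]; exact List.nodup_finRange N,
    fun t => by rw [hall]; exact List.mem_finRange t⟩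
  have htop : A0.top.map it = S.1 := by
    show ((List.finRange N).take S.1.length).map it = S.1
    rw [List.map_take, hit, hI, List.take_left]
  have hbot : A0.bot.map it = S.2 := by
    show ((List.finRange N).drop S.1.length).map it = S.2
    rw [List.map_drop, hit, hI, List.drop_left]
  have hS0 : itS it A0 = S := Prod.ext htop hbot
  have hcard : ∀ i, (Finset.univ.filter fun j => (it j).1 = (it i).1).card = 2 := by
    intro i
    have h1 := hS.two (it i).1 (by
      have : it i ∈ I := List.get_mem I i
      rw [List.mem_append]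
      rcases List.mem_append.mp this with h | h
      · exact Or.inl (List.mem_map.mpr ⟨_, h, rfl⟩)
      · exact Or.inr (List.mem_map.mpr ⟨_, h, rfl⟩))
    rw [← List.count_append] at h1
    have h2 : itv S.1 ++ itv S.2 = (List.finRange N).map fun i => (it i).1 := by
      have : (List.finRange N).map (fun i => (it i).1) = I.map Prod.fst := by
        rw [← hit, List.map_map]; rfl
      rw [this, hI, List.map_append]
      rfl
    rw [h2, count_map_nodup _ _ _ (List.nodup_finRange N)] at h1
    rwa [show (List.finRange N).toFinset = Finset.univ by ext; simp] at h1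
  obtain ⟨τ, hτ, hnm⟩ := exists_tau (fun i => (it i).1) hcard
  have hnm' : Naming τ fun t => (it t).1 := hnm
  rw [← hS0] at hm
  obtain ⟨A', hr, hcpl', hS'⟩ := rtg_lift hτ hnm' hcpl hm
  have hlen : A0.top.length + A0.bot.length = S.1.length + S.2.length := by
    rw [← htop, ← hbot, List.length_map, List.length_map]
  have main : ∀ C : TSt N, (∃ w, Star.execW τ w (prS A0) = some (prS C)) →
      Pth (K (S.1.length + S.2.length)) (itS it A0) (itS it C) := by
    intro C hC
    have h1 := hK N τ (prS A0) (prS C) (okW_cpl hτ hcpl) hC
    have h2 := pathW_pth hτ hnm' h1 hcpl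
    have e : K ((prS A0).1.length + (prS A0).2.length) = K (S.1.length + S.2.length) := by
      rw [← hlen]; rfl
    rw [e] at h2
    exact h2
  rw [hS', ← hS0]
  have hmono : ∀ {j l : ℕ} {A B : List (L × List L) × List (L × List L)}, Pth j A B → j ≤ l →
      Pth l A B := by
    intro j l A B hp
    induction hp generalizing l with
    | base h => exact fun _ => Pth.base h
    | @step K S S₁ S₂ S' h1 h2 _ ih =>
      intro hl
      obtain ⟨l', rfl⟩ := Nat.exists_eq_add_of_le hl
      rw [show K + 1 + l' = (K + l') + 1 by omega]
      exact Pth.step h1 h2 (ih (by omega))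
  rcases (tok_rtg hτ hr hcpl).2 with h1 | ⟨-, C, hC, h1, h2⟩
  · rw [hS0]
    have := main A' h1
    rw [hS0] at this
    exact hmono this (by omega)
  · have h3 := main C h1
    have h4 : Move (itS it C) (itS it A') := by
      have key : ∀ {A B : TSt N}, TokT τ A B → Cpl A → TMove (itS it A) (itS it B) := by
        intro A B h hA
        cases h with
        | @mk t s P Q h =>
          have hn : (t :: (P ++ s :: Q)).Nodup := hA.1
          rw [List.nodup_cons] at hn
          have htP : t ∉ P := fun h => hn.1 (List.mem_append_left _ h)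
          have htQ : t ∉ Q := fun h => hn.1 (List.mem_append_right _ (List.mem_cons_of_mem _ h))
          have hts : t ≠ s := fun e => hn.1 (List.mem_append_right _ (e ▸ List.mem_cons_self))
          have hne : (it t).1 ≠ (it s).1 := by
            intro e
            rcases (hnm' s t).mp e.symm with e | e
            · exact hts e.symm
            · exact h e
          unfold itS
          simp only [List.map_cons]
          rw [insT_items hnm' htP, insT_items hnm' htQ]
          exact TMove.mk (x := (it t).1) (y := (it s).1) (a := (it t).2) (w := (it s).2) hne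
      rcases h2 with h2 | h2
      · exact Or.inl (key h2 hC)
      · exact Or.inr (key h2 hC.swap)
    rw [hS0] at h3 ⊢
    exact h3.snoc h4

/-- The bound for jumps. -/
def FG (K : ℕ → ℕ) (N : ℕ) : ℕ := (K N + 2) * (FI N + 3)

variable {E F : List L × List L}

theorem jump_all {K : ℕ → ℕ} (hK : StarStm K) (hKm : Monotone K) (h : Jump V E F) {N : ℕ}
    (hN : len E ≤ N) : Chn (Mv V) (FG K N) E F := by
  obtain ⟨S, S', rfl, rfl, h3, h4, h5⟩ := h
  have hs := hs_of_ok h3 h4
  have hlen : S.1.length + S.2.length ≤ N := by
    have h1 := length_unp S.1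
    have h2 := length_unp S.2
    unfold len unpE at hN
    simp only [List.length_append] at hN
    omega
  have h6 := pth_short (star_pth hK hs h5) hs hlen
  refine (h6.weaken fun l hl => dbl_imp hl).mono ?_
  unfold FG
  have := hKm hlen
  exact Nat.mul_le_mul_right _ (by omega)

/-- Chains of links. -/
theorem chn_all {K : ℕ → ℕ} (hK : StarStm K) (hKm : Monotone K) {n N : ℕ} (h : Chn (Lk V) n E F)
    (hq : Quad V E) (hN : len E ≤ N) : Chn (Mv V) (n * (FG K N + 1)) E F := by
  induction h with
  | refl => exact Chn.refl _ _
  | @step n a b c h1 _ ih =>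
    obtain ⟨p1, p2, p3⟩ := h1.pres hq
    have h2 := ih p1 (p3.length_le.trans hN)
    have h3 : Chn (Mv V) (FG K N + 1) a b := by
      rcases h1 with h1 | h1
      · exact (Chn.single h1).mono (by omega)
      · exact (jump_all hK hKm h1 hN).mono (by omega)
    exact (h3.trans h2).mono (by rw [Nat.succ_mul]; omega)

/-- The number of elementary steps. -/
def FT (K : ℕ → ℕ) (N : ℕ) : ℕ := 4 * N * (FG K N + 1)

/-- Every solvable quadratic equation has a short chain of elementary steps. -/
theorem exists_chain_all {K : ℕ → ℕ} (hK : StarStm K) (hKm : Monotone K) (hq : Quad V E) {N : ℕ}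
    (hN : len E ≤ N) (hs : ∃ h, Solves V h E) : Chn (Mv V) (FT K N) E ([], []) :=
  (chn_all hK hKm (exists_chain _ E rfl hq hs) hq hN).mono
    (Nat.mul_le_mul_right _ (Nat.mul_le_mul_left 4 hN))

open Pool.Agent.PolyTime

theorem PB.FT {K : ℕ → ℕ} (hK : PB K) : PB (QuadEq.FT K) := by
  unfold QuadEq.FT QuadEq.FG
  exact ((PB.const 4).mul PB.id).mul (((hK.add (PB.const 2)).mul (PB.FI.add (PB.const 3))).add
    (PB.const 1))

end Pool.Agent.QuadEq
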