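import Pool.Agent.Lib.MP_b7851d_lc.Final

/-!
# Quadratic word equations: membership in NP, from the statement on tokens
-/

namespace Pool.Agent.QuadEq

open Pool.Agent.PolyTime

/-- The encoding of pairs of an equation and a certificate: the two encodings are separated by
`none`. -/
def encodePair (p : WordEq × List Bool) : List (Option (Option (Option Bool))) :=
  p.1.encode.map some ++ none :: p.2.map fun b => some (some (some b))

/-- Membership in NP of all solvable quadratic equations, from the statement on tokens. -/
theorem np_of_star {K : ℕ → ℕ} (hKb : PB K) (hK : StarStm K) :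
    ∃ V : WordEq × List Bool → Bool,
      Nonempty (Turing.TM2ComputableInPolyTime encodePair Computability.encodeBool V) ∧
      (∀ (E : WordEq) (c : List Bool), V (E, c) = true →
        ∀ S : Set ℕ, E.IsAlphabet S → ∃ h, E.IsSolution S h) ∧
      ∃ p : Polynomial ℕ, ∀ E : WordEq, E.IsQuadratic →
        ∀ S : Set ℕ, E.IsAlphabet S → (∃ h, E.IsSolution S h) →
          ∃ c : List Bool, c.length ≤ p.eval E.encode.length ∧ V (E, c) = true := by
  have hdec : ∀ (E : WordEq) (c : List Bool), blocks (encodePair (E, c)) =
      [E.encode, c.map fun b => some (some b)] := by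
    intro E c
    have h1 : (c.map fun b => (some (some (some b)) : Option (Option (Option Bool)))) =
        (c.map fun b => (some (some b) : Option (Option Bool))).map some := by
      rw [List.map_map]
      rfl
    unfold encodePair
    simp only
    rw [h1, blocks_cons, blocks_some]
  let F : List (Option (Option (Option Bool))) → Bool := fun w =>
    verifyB (readE ((blocks w).headD []))
      (((blocks w).tail.headD []).map fun o => decide (o = some (some true)))
  have hF : ∀ (E : WordEq) (c : List Bool), F (encodePair (E, c)) = verifyB (tr E) c := by
    intro E c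
    have h1 : (c.map fun b => (some (some b) : Option (Option Bool))).map
        (fun o => decide (o = some (some true))) = c := by
      rw [List.map_map]
      conv_rhs => rw [← List.map_id c]
      exact List.map_congr_left fun b _ => by cases b <;> rfl
    simp only [F]
    rw [hdec, List.headD_cons, List.tail_cons, List.headD_cons, encode_eq, readE_encE, h1]
  refine ⟨fun p => verifyB (tr p.1) p.2, ?_, ?_, ?_⟩
  · refine PolyFn.toTM2 (F := F) ?_ encodePair _ (fun p => hF p.1 p.2)
    have hb : PolyFn fun w : List (Option (Option (Option Bool))) => blocks w :=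
      PolyFn.blocks PolyFn.id
    refine poly_verify (poly_readE.comp (PolyFn.headD hb (PolyFn.const [])))
      (poly_unbits.comp (PolyFn.map (f := fun _ (o : Option (Option Bool)) =>
        decide (o = some (some true))) ?_ (PolyFn.headD (PolyFn.tail hb) (PolyFn.const []))))
    exact PolyFn.decide_eq PolyFn.snd (PolyFn.const _)
  · intro E c h S hS
    obtain ⟨h', hh⟩ := verify_sound h
    exact ⟨_, solution_of_solves hS hh⟩
  · have hpb : PB fun k => bM (FT K) (4 * k + 1) :=
      (PB.bM (PB.FT hKb)).comp (((PB.const 4).mul PB.id).add (PB.const 1))
    obtain ⟨p, hp⟩ := hpb.2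
    refine ⟨p, ?_⟩
    rintro E hE S - ⟨h, hh⟩
    obtain ⟨c, h1, h2⟩ := verifyB_complete_mv (g := FT K) hE
      fun N hN => exists_chain_all hK hKb.1 (quad_tr hE) hN (solves_of_solution hh)
    exact ⟨c, h2.trans (hp _), h1⟩

end Pool.Agent.QuadEq
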