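import Pool.Agent.Lib.MP_b7851d_lc.FinalNP

/-!
# Reading an equation together with its alphabet, and checking the input
-/

namespace Pool.Agent.QuadEq

open Pool.Agent.PolyTime

variable {γ : Type} [Enc γ]

/-- Every variable occurs at most twice, as a test. -/
def quadB (E : List (List Bool) × List (List Bool)) : Bool :=
  (E.1 ++ E.2).all fun l => !isV l ||
    decide (((E.1 ++ E.2).filter fun l' => decide (l' = l)).length ≤ 2)

/-- Every constant belongs to the list, as a test. -/
def alphB (E : List (List Bool) × List (List Bool)) (A : List (List Bool)) : Bool :=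
  (E.1 ++ E.2).all fun l => isV l || A.any fun a => decide (a = l.tail)

theorem filter_map_code (w : List Letter) (m : Letter) :
    ((w.map WordEq.code).filter fun l' => decide (l' = WordEq.code m)).length =
      w.countP fun l => decide (l = m) := by
  induction w with
  | nil => rfl
  | cons a w ih =>
    rw [List.map_cons, List.filter_cons, List.countP_cons, ← ih]
    by_cases h : a = m
    · subst h
      simp
    · have h' : WordEq.code a ≠ WordEq.code m := fun h' => h (code_injective h')
      simp [h, h']

theorem quadB_iff (E : WordEq) : quadB (tr E) = true ↔ E.IsQuadratic := by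
  have h0 : (tr E).1 ++ (tr E).2 = (E.lhs ++ E.rhs).map WordEq.code := by
    unfold tr
    rw [List.map_append]
  unfold quadB
  rw [List.all_eq_true, h0]
  constructor
  · intro h x
    by_cases hx : Sum.inr x ∈ E.lhs ++ E.rhs
    · have h2 := h _ (List.mem_map_of_mem hx)
      have h3 : isV (WordEq.code (Sum.inr x)) = true := rfl
      rw [h3, Bool.not_true, Bool.false_or, decide_eq_true_eq, filter_map_code] at h2
      exact h2
    · have h2 : (E.lhs ++ E.rhs).countP (fun l => decide (l = Sum.inr x)) = 0 := by
        rw [List.countP_eq_zero]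
        intro l hl h3
        rw [decide_eq_true_eq] at h3
        exact hx (h3 ▸ hl)
      omega
  · intro h l hl
    obtain ⟨l', -, rfl⟩ := List.mem_map.mp hl
    cases l' with
    | inl a => rfl
    | inr x =>
      rw [filter_map_code, Bool.or_eq_true, decide_eq_true_eq]
      exact Or.inr (h x)

theorem alphB_iff (E : WordEq) (A : List ℕ) :
    alphB (tr E) (A.map Nat.bits) = true ↔ E.IsAlphabet {a | a ∈ A} := by
  have h0 : (tr E).1 ++ (tr E).2 = (E.lhs ++ E.rhs).map WordEq.code := by
    unfold tr
    rw [List.map_append]
  unfold alphB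
  rw [List.all_eq_true, h0]
  constructor
  · intro h a ha
    have h2 := h _ (List.mem_map_of_mem ha)
    have h3 : isV (WordEq.code (Sum.inl a)) = false := rfl
    rw [h3, Bool.false_or, List.any_eq_true] at h2
    obtain ⟨b, hb, hb'⟩ := h2
    rw [decide_eq_true_eq] at hb'
    obtain ⟨a', ha', rfl⟩ := List.mem_map.mp hb
    have h4 : a'.bits = a.bits := hb'
    have h5 : a' = a := by rw [← binVal_bits a', h4, binVal_bits]
    rw [← h5]
    exact ha'
  · intro h l hl
    obtain ⟨l', hl', rfl⟩ := List.mem_map.mp hl
    cases l' with
    | inr x => rfl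
    | inl a =>
      rw [Bool.or_eq_true, List.any_eq_true]
      exact Or.inr ⟨a.bits, List.mem_map_of_mem (h a hl'), by simp [WordEq.code]⟩

theorem poly_quadB {E : γ → List (List Bool) × List (List Bool)} (hE : PolyFn E) :
    PolyFn fun c => quadB (E c) := by
  unfold quadB
  have hw : PolyFn fun c => (E c).1 ++ (E c).2 :=
    PolyFn.append (PolyFn.fst.comp hE) (PolyFn.snd.comp hE)
  refine PolyFn.all (p := fun c (l : List Bool) => !isV l ||
    decide ((((E c).1 ++ (E c).2).filter fun l' => decide (l' = l)).length ≤ 2)) ?_ hw
  refine PolyFn.or (PolyFn.not (poly_isV PolyFn.snd)) (PolyFn.decide_le (PolyFn.length ?_)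
    (PolyFn.const 2))
  exact PolyFn.filter (p := fun (c : γ × List Bool) (l' : List Bool) => decide (l' = c.2))
    (PolyFn.decide_eq PolyFn.snd (PolyFn.snd.comp PolyFn.fst)) (hw.comp PolyFn.fst)

theorem poly_alphB {E : γ → List (List Bool) × List (List Bool)} {A : γ → List (List Bool)}
    (hE : PolyFn E) (hA : PolyFn A) : PolyFn fun c => alphB (E c) (A c) := by
  unfold alphB
  have hw : PolyFn fun c => (E c).1 ++ (E c).2 :=
    PolyFn.append (PolyFn.fst.comp hE) (PolyFn.snd.comp hE)
  refine PolyFn.all (p := fun c (l : List Bool) => isV l || (A c).any fun a => decide (a = l.tail))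
    ?_ hw
  refine PolyFn.or (poly_isV PolyFn.snd) ?_
  exact PolyFn.any (p := fun (c : γ × List Bool) (a : List Bool) => decide (a = c.2.tail))
    (PolyFn.decide_eq PolyFn.snd (PolyFn.tail (PolyFn.snd.comp PolyFn.fst)))
    (hA.comp PolyFn.fst)

/-- Reading an equation and an alphabet. -/
def readI (w : List (Option (Option Bool))) :
    (List (List Bool) × List (List Bool)) × List (List Bool) :=
  (((blocks ((blocks w).headD [])).tail, (blocks ((blocks w).tail.headD [])).tail),
    (blocks ((blocks w).tail.tail.headD [])).tail)

theorem readI_enc (E : List (List Bool) × List (List Bool)) (A : List (List Bool)) :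
    readI (encE E ++ none :: encW A) = (E, A) := by
  unfold readI encE
  rw [encW_eq, encW_eq, encW_eq, List.append_assoc, List.cons_append, blocks_cons, blocks_cons,
    blocks_some, List.headD_cons, List.tail_cons, List.headD_cons, List.tail_cons, List.headD_cons,
    blocks_encW, blocks_encW, blocks_encW]
  rfl

theorem poly_readI : PolyFn readI := by
  have h : PolyFn fun w : List (Option (Option Bool)) => blocks w := PolyFn.blocks PolyFn.id
  exact ((PolyFn.tail (PolyFn.blocks (PolyFn.headD h (PolyFn.const [])))).pair
    (PolyFn.tail (PolyFn.blocks (PolyFn.headD (PolyFn.tail h) (PolyFn.const []))))).pair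
    (PolyFn.tail (PolyFn.blocks (PolyFn.headD (PolyFn.tail (PolyFn.tail h)) (PolyFn.const []))))

end Pool.Agent.QuadEq
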