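import Pool.Agent.Lib.MP_b7851d_lc.Reg

/-!
# Regular block states with tails
-/

namespace Pool.Agent.QuadEq

open List

variable {L : Type} {D V : L → Bool}

/-- The items of one word of a regular state: every letter `v` is an item with the tail `a v`
and is followed by the items `t v`. -/
def tpI (a : L → List L) (t : L → List (L × List L)) (p : List L) : List (L × List L) :=
  p.flatMap fun v => (v, a v) :: t v

variable {a a₁ a₂ : L → List L} {t t₁ t₂ : L → List (L × List L)} {p q : List L}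

theorem tpI_append (p p' : List L) : tpI a t (p ++ p') = tpI a t p ++ tpI a t p' := by
  simp [tpI]

theorem tpI_cons (v : L) (p : List L) : tpI a t (v :: p) = (v, a v) :: (t v ++ tpI a t p) := by
  simp [tpI]

theorem unp_append (A B : List (L × List L)) : unp (A ++ B) = unp A ++ unp B := by simp [unp]

theorem mem_unp {P : List (L × List L)} (hP : Ok D P) {y : L} (hy : D y = true) :
    y ∈ unp P ↔ y ∈ P.map Prod.fst := by
  induction P with
  | nil => simp [unp]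
  | cons s P ih =>
    have hs := hP s List.mem_cons_self
    have h1 : y ∉ s.2 := fun h => by
      have := hs.2 y h
      rw [hy] at this
      exact absurd this (by simp)
    rw [unp_cons, List.map_cons, List.mem_cons, List.mem_cons, List.mem_append,
      ih fun s hs => hP s (List.mem_cons_of_mem _ hs)]
    simp [h1]

theorem mem_tpI {s : L × List L} : s ∈ tpI a t p ↔ ∃ v ∈ p, s = (v, a v) ∨ s ∈ t v := by
  unfold tpI
  rw [List.mem_flatMap]
  simp only [List.mem_cons]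

theorem fst_mem_tpI {v : L} (hv : v ∈ p) : v ∈ (tpI a t p).map Prod.fst :=
  List.mem_map.mpr ⟨(v, a v), mem_tpI.mpr ⟨v, hv, Or.inl rfl⟩, rfl⟩

/-- The data of a regular state. -/
structure RS (D : L → Bool) (a₁ : L → List L) (t₁ : L → List (L × List L)) (a₂ : L → List L)
    (t₂ : L → List (L × List L)) (p q : List L) : Prop where
  rg : Rg (p, q)
  ok1 : Ok D (tpI a₁ t₁ p)
  ok2 : Ok D (tpI a₂ t₂ q)
  tt1 : ∀ v ∈ p, ∀ s ∈ t₁ v, s.1 ∉ (tpI a₂ t₂ q).map Prod.fst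
  tt2 : ∀ v ∈ q, ∀ s ∈ t₂ v, s.1 ∉ (tpI a₁ t₁ p).map Prod.fst

theorem RS.swap (h : RS D a₁ t₁ a₂ t₂ p q) : RS D a₂ t₂ a₁ t₁ q p :=
  ⟨h.rg.swap, h.ok2, h.ok1, h.tt2, h.tt1⟩

theorem mem_tpI_perm {p' : List L} (h : p ~ p') {s : L × List L} : s ∈ tpI a t p ↔ s ∈ tpI a t p' := by
  rw [mem_tpI, mem_tpI]
  constructor
  · rintro ⟨v, hv, hs⟩; exact ⟨v, h.subset hv, hs⟩
  · rintro ⟨v, hv, hs⟩; exact ⟨v, h.symm.subset hv, hs⟩

theorem rtg_perm {s t : List L × List L} (h : Relation.ReflTransGen Bk s t) : s.1 ~ t.1 ∧ s.2 ~ t.2 := by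
  induction h with
  | refl => exact ⟨List.Perm.refl _, List.Perm.refl _⟩
  | tail _ h ih => exact ⟨ih.1.trans h.perm.1, ih.2.trans h.perm.2⟩

theorem RS.bk (h : RS D a₁ t₁ a₂ t₂ p q) {s : List L × List L}
    (hb : Relation.ReflTransGen Bk (p, q) s) : RS D a₁ t₁ a₂ t₂ s.1 s.2 := by
  obtain ⟨h1, h2⟩ := rtg_perm hb
  simp only at h1 h2
  have k1 : ∀ {x : L}, x ∈ (tpI a₁ t₁ s.1).map Prod.fst → x ∈ (tpI a₁ t₁ p).map Prod.fst := by
    intro x hx
    obtain ⟨r, hr, rfl⟩ := List.mem_map.mp hx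
    exact List.mem_map.mpr ⟨r, (mem_tpI_perm h1).mpr hr, rfl⟩
  have k2 : ∀ {x : L}, x ∈ (tpI a₂ t₂ s.2).map Prod.fst → x ∈ (tpI a₂ t₂ q).map Prod.fst := by
    intro x hx
    obtain ⟨r, hr, rfl⟩ := List.mem_map.mp hx
    exact List.mem_map.mpr ⟨r, (mem_tpI_perm h2).mpr hr, rfl⟩
  refine ⟨rtg_inv (fun _ _ hs h => h.rg hs) h.rg hb, ?_, ?_, ?_, ?_⟩
  · intro s hs
    exact h.ok1 s ((mem_tpI_perm h1).mpr hs)
  · intro s hs
    exact h.ok2 s ((mem_tpI_perm h2).mpr hs)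
  · intro v hv s hs hsp
    exact h.tt1 v (h1.symm.subset hv) s hs (k2 hsp)
  · intro v hv s hs hsp
    exact h.tt2 v (h2.symm.subset hv) s hs (k1 hsp)

theorem RS.not_tail (h : RS D a₁ t₁ a₂ t₂ p q) {y v : L} (hv : v ∈ p) (hy : y ∈ p) :
    y ∉ (t₁ v).map Prod.fst := by
  intro hm
  obtain ⟨s, hs, rfl⟩ := List.mem_map.mp hm
  exact h.tt1 v hv s hs (fst_mem_tpI (h.rg.p.subset hy))

theorem RS.not_tpI (h : RS D a₁ t₁ a₂ t₂ p q) {y : L} {P : List L} (hP : ∀ v ∈ P, v ∈ p)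
    (hy : y ∈ p) (hyP : y ∉ P) : y ∉ (tpI a₁ t₁ P).map Prod.fst := by
  intro hm
  obtain ⟨s, hs, rfl⟩ := List.mem_map.mp hm
  obtain ⟨v, hv, hs | hs⟩ := mem_tpI.mp hs
  · subst hs; exact hyP hv
  · exact h.not_tail (hP v hv) hy (List.mem_map.mpr ⟨s, hs, rfl⟩)

theorem RS.okP (h : RS D a₁ t₁ a₂ t₂ p q) {P : List L} (hP : ∀ v ∈ P, v ∈ p) :
    Ok D (tpI a₁ t₁ P) := by
  intro s hs
  obtain ⟨v, hv, hs⟩ := mem_tpI.mp hs
  exact h.ok1 s (mem_tpI.mpr ⟨v, hP v hv, hs⟩)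

theorem RS.okT (h : RS D a₁ t₁ a₂ t₂ p q) {v : L} (hv : v ∈ p) : Ok D (t₁ v) := by
  intro s hs
  exact h.ok1 s (mem_tpI.mpr ⟨v, hv, Or.inr hs⟩)

theorem RS.D1 (h : RS D a₁ t₁ a₂ t₂ p q) {v : L} (hv : v ∈ p) : D v = true :=
  (h.ok1 (v, a₁ v) (mem_tpI.mpr ⟨v, hv, Or.inl rfl⟩)).1

theorem RS.na (h : RS D a₁ t₁ a₂ t₂ p q) {v y : L} (hv : v ∈ p) (hy : D y = true) :
    y ∉ a₁ v := by
  intro hm
  have := (h.ok1 (v, a₁ v) (mem_tpI.mpr ⟨v, hv, Or.inl rfl⟩)).2 y hm
  rw [hy] at this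
  exact absurd this (by simp)

variable [DecidableEq L]

theorem ins_self {x : L} {c : L × List L} {P : List (L × List L)} (h : x ∉ P.map Prod.fst) :
    ins x c P = P := by
  induction P with
  | nil => rfl
  | cons s P ih =>
    rw [List.map_cons, List.mem_cons, not_or] at h
    have : ins x c (s :: P) = (if s.1 = x then [c, s] else [s]) ++ ins x c P := by simp [ins]
    rw [this, if_neg (fun e => h.1 e.symm), ih h.2]
    rfl

theorem ins_append {x : L} {c : L × List L} (P Q : List (L × List L)) :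
    ins x c (P ++ Q) = ins x c P ++ ins x c Q := by simp [ins]

theorem ins_one {x : L} {b : List L} {c : L × List L} {X Z : List (L × List L)}
    (hX : x ∉ X.map Prod.fst) (hZ : x ∉ Z.map Prod.fst) :
    ins x c (X ++ (x, b) :: Z) = X ++ c :: (x, b) :: Z := by
  have : ins x c ((x, b) :: Z) = [c, (x, b)] ++ ins x c Z := by simp [ins]
  rw [ins_append, ins_self hX, this, ins_self hZ]
  rfl

theorem sub_one {y : L} {u X Z : List L} (hX : y ∉ X) (hZ : y ∉ Z) :
    sub y (u ++ [y]) (X ++ y :: Z) = X ++ (u ++ y :: Z) := by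
  rw [sub_append, sub_cons, if_pos rfl, sub_eq_self hX, sub_eq_self hZ]
  simp

/-- A bulk move of items is one elementary step. -/
theorem bulk_mv {X Y Z : List (L × List L)} {y : L} {b' : List L} {R : List L}
    (hX : Ok D X) (hY : Ok D Y) (hZ : Ok D Z) (hb : y ∉ b')
    (hy : D y = true) (h1 : y ∉ X.map Prod.fst) (h2 : y ∉ Y.map Prod.fst)
    (h3 : y ∉ Z.map Prod.fst) (h4 : y ∉ R) :
    Mv D (unp (X ++ Y ++ (y, b') :: Z), y :: R) (unp (Y ++ X ++ (y, b') :: Z), y :: R) := by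
  have k1 : y ∉ unp X := fun h => h1 ((mem_unp hX hy).mp h)
  have k2 : y ∉ unp Y := fun h => h2 ((mem_unp hY hy).mp h)
  have k3 : y ∉ unp Z := fun h => h3 ((mem_unp hZ hy).mp h)
  have h5 := Mv.run' (V := D) (A := R) (B := unp Y ++ y :: (b' ++ unp Z)) (u := unp X) hy k1
  rw [sub_one k2 (by simp [hb, k3]), sub_eq_self h4] at h5
  have e1 : unp (X ++ Y ++ (y, b') :: Z) = unp X ++ (unp Y ++ y :: (b' ++ unp Z)) := by
    rw [unp_append, unp_append, unp_cons, List.append_assoc]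
  have e2 : unp (Y ++ X ++ (y, b') :: Z) = unp Y ++ (unp X ++ y :: (b' ++ unp Z)) := by
    rw [unp_append, unp_append, unp_cons, List.append_assoc]
  rw [e1, e2]
  exact h5

/-- The form in which `bulk_mv` is used for regular states: the second word wins. -/
theorem RS.bulk (h : RS D a₁ t₁ a₂ t₂ p q) {y : L} {q' B : List L} {X Y : List (L × List L)}
    (hq : q = y :: q') (hX : Ok D X) (hY : Ok D Y) (h1 : y ∉ X.map Prod.fst)
    (h2 : y ∉ Y.map Prod.fst) (hB : ∀ v ∈ B, v ∈ p) (hyB : y ∉ B) :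
    Mv D (unpE (X ++ Y ++ tpI a₁ t₁ (y :: B), tpI a₂ t₂ q))
      (unpE (Y ++ X ++ tpI a₁ t₁ (y :: B), tpI a₂ t₂ q)) := by
  subst hq
  have hyq : y ∈ y :: q' := List.mem_cons_self
  have hyp : y ∈ p := h.rg.p.symm.subset hyq
  have hy : D y = true := h.D1 hyp
  have hZ : Ok D (t₁ y ++ tpI a₁ t₁ B) := by
    intro s hs
    rcases List.mem_append.mp hs with hs | hs
    · exact h.okT hyp s hs
    · exact h.okP hB s hs
  have hZ2 : y ∉ (t₁ y ++ tpI a₁ t₁ B).map Prod.fst := by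
    rw [List.map_append, List.mem_append, not_or]
    exact ⟨h.not_tail hyp hyp, h.not_tpI hB hyp hyB⟩
  have n2 := h.rg.n2
  simp only at n2
  have hW : Ok D (t₂ y ++ tpI a₂ t₂ q') := by
    intro s hs
    rcases List.mem_append.mp hs with hs | hs
    · exact h.swap.okT hyq s hs
    · exact h.swap.okP (fun v hv => List.mem_cons_of_mem _ hv) s hs
  have hR : y ∉ a₂ y ++ unp (t₂ y ++ tpI a₂ t₂ q') := by
    intro hm
    rcases List.mem_append.mp hm with hm | hm
    · exact h.swap.na hyq hy hm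
    · have := (mem_unp hW hy).mp hm
      rw [List.map_append, List.mem_append] at this
      rcases this with hm | hm
      · exact h.swap.not_tail hyq hyq hm
      · exact h.swap.not_tpI (fun v hv => List.mem_cons_of_mem _ hv) hyq
          (List.nodup_cons.mp n2).1 hm
  have := bulk_mv (D := D) (X := X) (Y := Y) (Z := t₁ y ++ tpI a₁ t₁ B) (y := y)
    (b' := a₁ y) (R := a₂ y ++ unp (t₂ y ++ tpI a₂ t₂ q')) hX hY hZ (h.na hyp hy) hy h1 h2 hZ2 hR
  unfold unpE
  simp only [tpI_cons]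
  rw [unp_cons (y, a₂ y)]
  exact this

theorem RS.mv_bot {y : L} {P U W Q : List L}
    (h : RS D a₁ t₁ a₂ t₂ (U ++ W ++ y :: P) (y :: Q)) :
    Mv D (unpE (tpI a₁ t₁ (U ++ W ++ y :: P), tpI a₂ t₂ (y :: Q)))
      (unpE (tpI a₁ t₁ (W ++ U ++ y :: P), tpI a₂ t₂ (y :: Q))) := by
  have n1 := h.rg.n1
  simp only at n1
  have hyp : y ∈ U ++ W ++ y :: P := by simp
  have m1 : y ∉ U := fun hm => by
    rw [List.nodup_append] at n1
    exact n1.2.2 y (List.mem_append_left _ hm) y List.mem_cons_self rfl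
  have m2 : y ∉ W := fun hm => by
    rw [List.nodup_append] at n1
    exact n1.2.2 y (List.mem_append_right _ hm) y List.mem_cons_self rfl
  have m3 : y ∉ P := (List.nodup_cons.mp (List.nodup_append.mp n1).2.1).1
  have := h.bulk (q' := Q) (B := P) (X := tpI a₁ t₁ U) (Y := tpI a₁ t₁ W) rfl
    (h.okP fun v hv => by simp [hv]) (h.okP fun v hv => by simp [hv])
    (h.not_tpI (fun v hv => by simp [hv]) hyp m1) (h.not_tpI (fun v hv => by simp [hv]) hyp m2)
    (fun v hv => by simp [hv]) m3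
  rw [tpI_append, tpI_append, tpI_append, tpI_append]
  exact this

theorem RS.mv (h : RS D a₁ t₁ a₂ t₂ p q) {s : List L × List L} (hb : Bk (p, q) s) :
    Mv D (unpE (tpI a₁ t₁ p, tpI a₂ t₂ q)) (unpE (tpI a₁ t₁ s.1, tpI a₂ t₂ s.2)) := by
  generalize he : (p, q) = s0 at hb
  cases hb with
  | top x P U W Q =>
    simp only [Prod.mk.injEq] at he
    obtain ⟨rfl, rfl⟩ := he
    exact (RS.mv_bot h.swap).swap
  | bot y P U W Q =>
    simp only [Prod.mk.injEq] at he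
    obtain ⟨rfl, rfl⟩ := he
    exact RS.mv_bot h

/-- Reachable regular states: polynomially many elementary steps. -/
theorem RS.chn (h : RS D a₁ t₁ a₂ t₂ p q) {s : List L × List L}
    (hb : Relation.ReflTransGen Bk (p, q) s) :
    Chn (Mv D) (FI p.length) (unpE (tpI a₁ t₁ p, tpI a₂ t₂ q))
      (unpE (tpI a₁ t₁ s.1, tpI a₂ t₂ s.2)) := by
  have h1 := regular_short hb h.rg
  have key : ∀ {n : ℕ} {s s' : List L × List L}, Chn Bk n s s' → RS D a₁ t₁ a₂ t₂ s.1 s.2 →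
      Chn (Mv D) n (unpE (tpI a₁ t₁ s.1, tpI a₂ t₂ s.2)) (unpE (tpI a₁ t₁ s'.1, tpI a₂ t₂ s'.2)) := by
    intro n s s' hc
    induction hc with
    | refl => exact fun _ => Chn.refl _ _
    | @step n x y z h2 _ ih =>
      intro hs
      exact Chn.step (hs.mv h2) (ih (hs.bk (Relation.ReflTransGen.single h2)))
  exact key h1 h

end Pool.Agent.QuadEq
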