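import Pool.Agent.Lib.MP_b7851d_lc.Main
import Pool.Agent.Lib.PolyTime.Universal
import Pool.Agent.Lib.PolyTime.Words

/-!
# Word equations: the procedure, in polynomial time
-/

namespace Pool.Agent.QuadEq

open Pool.Agent.PolyTime

/-- A letter, given by a list of bits, is a variable if the first bit is `true`. -/
def isV (l : List Bool) : Bool := l.headD false

/-- All results of the erasure of a variable. -/
def erasesL (E : List (List Bool) × List (List Bool)) :
    List (List (List Bool) × List (List Bool)) :=
  ((E.1 ++ E.2).filter fun x => isV x).map fun x => (sub x [] E.1, sub x [] E.2)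

/-- All results of the cancellation of a common prefix. -/
def cancelsL (E : List (List Bool) × List (List Bool)) :
    List (List (List Bool) × List (List Bool)) :=
  ((List.range (E.1.length + 1)).filter fun k => decide (E.1.take k = E.2.take k)).map
    fun k => (E.1.drop k, E.2.drop k)

/-- All results of a run. -/
def runsL (E : List (List Bool) × List (List Bool)) :
    List (List (List Bool) × List (List Bool)) :=
  match E.1 with
  | [] => []
  | x :: A => bif isV x then
      ((List.range (E.2.length + 1)).filter fun k => !((E.2.take k).any fun l => decide (l = x))).map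
        fun k => (x :: sub x (E.2.take k ++ [x]) A, sub x (E.2.take k ++ [x]) (E.2.drop k))
    else []

/-- All results of a step. -/
def movesL (E : List (List Bool) × List (List Bool)) :
    List (List (List Bool) × List (List Bool)) :=
  erasesL E ++ (cancelsL E ++ (runsL E ++ (runsL (E.2, E.1)).map fun F => (F.2, F.1)))

theorem mem_runsL {E F : List (List Bool) × List (List Bool)} :
    F ∈ runsL E ↔ ∃ (A B u : List (List Bool)) (x : List Bool), isV x = true ∧ x ∉ u ∧
      E = (x :: A, u ++ B) ∧ F = (x :: sub x (u ++ [x]) A, sub x (u ++ [x]) B) := by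
  obtain ⟨A0, B0⟩ := E
  cases A0 with
  | nil =>
    simp only [runsL, List.not_mem_nil, false_iff]
    rintro ⟨A, B, u, x, -, -, h, -⟩
    simp at h
  | cons x A =>
    cases hx : isV x with
    | false =>
      simp only [runsL, hx, cond_false, List.not_mem_nil, false_iff]
      rintro ⟨A', B, u, x', hx', -, h, -⟩
      rw [Prod.mk.injEq, List.cons.injEq] at h
      rw [h.1.1, hx'] at hx
      simp at hx
    | true =>
      simp only [runsL, hx, cond_true, List.mem_map, List.mem_filter, List.mem_range]
      constructor
      · rintro ⟨k, ⟨hk, hk'⟩, rfl⟩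
        refine ⟨A, B0.drop k, B0.take k, x, hx, ?_, by rw [List.take_append_drop], rfl⟩
        intro h
        have : ((B0.take k).any fun l => decide (l = x)) = true :=
          List.any_eq_true.mpr ⟨x, h, by simp⟩
        rw [this] at hk'
        simp at hk'
      · rintro ⟨A', B, u, x', hx', hu, h, rfl⟩
        rw [Prod.mk.injEq, List.cons.injEq] at h
        obtain ⟨⟨rfl, rfl⟩, rfl⟩ := h
        refine ⟨u.length, ⟨?_, ?_⟩, ?_⟩
        · rw [List.length_append]; omega
        · rw [List.take_left, Bool.not_eq_true', Bool.eq_false_iff]
          intro h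
          obtain ⟨l, hl, hl'⟩ := List.any_eq_true.mp h
          exact hu ((of_decide_eq_true hl') ▸ hl)
        · rw [List.take_left, List.drop_left]

theorem mem_movesL {E F : List (List Bool) × List (List Bool)} : F ∈ movesL E ↔ Mv isV E F := by
  unfold movesL
  rw [List.mem_append, List.mem_append, List.mem_append, mem_runsL, List.mem_map]
  constructor
  · rintro (h | h | ⟨A, B, u, x, hx, hu, rfl, rfl⟩ | ⟨F', h, rfl⟩)
    · unfold erasesL at h
      rw [List.mem_map] at h
      obtain ⟨x, hx, rfl⟩ := h
      rw [List.mem_filter] at hx
      exact Mv.erase hx.2 hx.1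
    · unfold cancelsL at h
      rw [List.mem_map] at h
      obtain ⟨k, hk, rfl⟩ := h
      rw [List.mem_filter] at hk
      have h2 := of_decide_eq_true hk.2
      have := Mv.cancel (V := isV) (E.1.take k) (E.1.drop k) (E.2.drop k)
      rw [List.take_append_drop] at this
      rw [h2, List.take_append_drop] at this
      exact this
    · exact Mv.run hx hu
    · obtain ⟨A, B, u, x, hx, hu, h1, rfl⟩ := mem_runsL.mp h
      obtain ⟨E1, E2⟩ := E
      rw [Prod.mk.injEq] at h1
      obtain ⟨h1, h2⟩ := h1
      simp only at h1 h2
      subst h1 h2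
      exact Mv.run' hx hu
  · intro h
    cases h with
    | @erase A B x hx hm =>
      left
      unfold erasesL
      exact List.mem_map.mpr ⟨x, List.mem_filter.mpr ⟨hm, hx⟩, rfl⟩
    | cancel u A B =>
      right; left
      unfold cancelsL
      refine List.mem_map.mpr ⟨u.length, List.mem_filter.mpr ⟨?_, ?_⟩, ?_⟩
      · rw [List.mem_range, List.length_append]; omega
      · simp only [List.take_left, decide_true]
      · simp only [List.drop_left]
    | @run A B u x hx hu =>
      right; right; left
      exact ⟨A, B, u, x, hx, hu, rfl, rfl⟩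
    | @run' A B u x hx hu =>
      right; right; right
      exact ⟨_, mem_runsL.mpr ⟨A, B, u, x, hx, hu, rfl, rfl⟩, rfl⟩

/-- The equations reachable in `m` steps. -/
def iterL : ℕ → List (List Bool) × List (List Bool) → List (List (List Bool) × List (List Bool))
  | 0, E => [E]
  | m + 1, E => (movesL E).flatMap fun F => iterL m F

theorem mem_iterL {m : ℕ} {E F : List (List Bool) × List (List Bool)} :
    F ∈ iterL m E ↔ Rch isV m E F := by
  constructor
  · intro h
    induction m generalizing E with
    | zero =>
      rw [iterL, List.mem_singleton] at h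
      exact h ▸ Rch.refl 0 _
    | succ m ih =>
      rw [iterL, List.mem_flatMap] at h
      obtain ⟨G, hG, h⟩ := h
      exact Rch.step (mem_movesL.mp hG) (ih h)
  · intro h
    induction h with
    | refl m E =>
      induction m with
      | zero => rw [iterL, List.mem_singleton]
      | succ m ih =>
        rw [iterL, List.mem_flatMap]
        exact ⟨E, mem_movesL.mpr (Mv.refl E), ih⟩
    | step h1 _ ih =>
      rw [iterL, List.mem_flatMap]
      exact ⟨_, mem_movesL.mpr h1, ih⟩

/-- The procedure with `m` steps. -/
def decE (m : ℕ) (E : List (List Bool) × List (List Bool)) : Bool :=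
  (iterL m E).any fun F => F.1.isEmpty && F.2.isEmpty

theorem decE_iff {m : ℕ} {E : List (List Bool) × List (List Bool)} :
    decE m E = true ↔ Rch isV m E ([], []) := by
  rw [← mem_iterL]
  unfold decE
  rw [List.any_eq_true]
  constructor
  · rintro ⟨F, hF, h⟩
    rw [Bool.and_eq_true, List.isEmpty_iff, List.isEmpty_iff] at h
    have : F = ([], []) := Prod.ext h.1 h.2
    rwa [← this]
  · intro h
    exact ⟨_, h, rfl⟩

variable {γ : Type} [Enc γ]

theorem poly_isV {l : γ → List Bool} (hl : PolyFn l) : PolyFn (fun c => isV (l c)) :=
  PolyFn.headD hl (PolyFn.const false)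

theorem poly_sub {x : γ → List Bool} {u w : γ → List (List Bool)} (hx : PolyFn x) (hu : PolyFn u)
    (hw : PolyFn w) : PolyFn (fun c => sub (x c) (u c) (w c)) :=
  PolyFn.flatMap (f := fun c l => if l = x c then u c else [l])
    (PolyFn.ite (PolyFn.decide_eq PolyFn.snd (hx.comp PolyFn.fst)) (hu.comp PolyFn.fst)
      (PolyFn.cons PolyFn.snd (PolyFn.const []))) hw

theorem poly_erasesL : PolyFn erasesL :=
  PolyFn.map (f := fun (E : List (List Bool) × List (List Bool)) x =>
      (sub x [] E.1, sub x [] E.2))
    ((poly_sub PolyFn.snd (PolyFn.const []) (PolyFn.fst.comp PolyFn.fst)).pair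
      (poly_sub PolyFn.snd (PolyFn.const []) (PolyFn.snd.comp PolyFn.fst)))
    (PolyFn.filter (p := fun _ x => isV x) (poly_isV PolyFn.snd)
      (PolyFn.append PolyFn.fst PolyFn.snd))

theorem poly_cancelsL : PolyFn cancelsL :=
  PolyFn.map (f := fun (E : List (List Bool) × List (List Bool)) k => (E.1.drop k, E.2.drop k))
    ((PolyFn.drop PolyFn.snd (PolyFn.fst.comp PolyFn.fst)).pair
      (PolyFn.drop PolyFn.snd (PolyFn.snd.comp PolyFn.fst)))
    (PolyFn.filter (p := fun (E : List (List Bool) × List (List Bool)) k =>
        decide (E.1.take k = E.2.take k))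
      (PolyFn.decide_eq (PolyFn.take (PolyFn.fst.comp PolyFn.fst) PolyFn.snd)
        (PolyFn.take (PolyFn.snd.comp PolyFn.fst) PolyFn.snd))
      (PolyFn.range (PolyFn.succ (PolyFn.length PolyFn.fst))))

theorem poly_runsL : PolyFn runsL := by
  refine PolyFn.listCase (l := fun E : List (List Bool) × List (List Bool) => E.1)
    (f := fun _ => []) (g := fun E x A => bif isV x then
      ((List.range (E.2.length + 1)).filter fun k => !((E.2.take k).any fun l => decide (l = x))).map
        fun k => (x :: sub x (E.2.take k ++ [x]) A, sub x (E.2.take k ++ [x]) (E.2.drop k))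
    else []) PolyFn.fst (PolyFn.const []) ?_ (fun E h => by unfold runsL; rw [h])
    (fun E x A h => by unfold runsL; rw [h])
  have hx : PolyFn (fun p : (List (List Bool) × List (List Bool)) × List Bool ×
      List (List Bool) => p.2.1) := PolyFn.fst.comp PolyFn.snd
  have hA : PolyFn (fun p : (List (List Bool) × List (List Bool)) × List Bool ×
      List (List Bool) => p.2.2) := PolyFn.snd.comp PolyFn.snd
  have hB : PolyFn (fun p : (List (List Bool) × List (List Bool)) × List Bool ×
      List (List Bool) => p.1.2) := PolyFn.snd.comp PolyFn.fst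
  refine PolyFn.cond (poly_isV hx) ?_ (PolyFn.const [])
  have hx' : PolyFn (fun p : ((List (List Bool) × List (List Bool)) × List Bool ×
      List (List Bool)) × ℕ => p.1.2.1) := hx.comp PolyFn.fst
  have hA' : PolyFn (fun p : ((List (List Bool) × List (List Bool)) × List Bool ×
      List (List Bool)) × ℕ => p.1.2.2) := hA.comp PolyFn.fst
  have hB' : PolyFn (fun p : ((List (List Bool) × List (List Bool)) × List Bool ×
      List (List Bool)) × ℕ => p.1.1.2) := hB.comp PolyFn.fst
  have hu : PolyFn (fun p : ((List (List Bool) × List (List Bool)) × List Bool ×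
      List (List Bool)) × ℕ => p.1.1.2.take p.2) := PolyFn.take hB' PolyFn.snd
  have hux : PolyFn (fun p : ((List (List Bool) × List (List Bool)) × List Bool ×
      List (List Bool)) × ℕ => p.1.1.2.take p.2 ++ [p.1.2.1]) :=
    PolyFn.append hu (PolyFn.cons hx' (PolyFn.const []))
  refine PolyFn.map (f := fun (p : (List (List Bool) × List (List Bool)) × List Bool ×
      List (List Bool)) k => (p.2.1 :: sub p.2.1 (p.1.2.take k ++ [p.2.1]) p.2.2,
        sub p.2.1 (p.1.2.take k ++ [p.2.1]) (p.1.2.drop k))) ?_
    (PolyFn.filter (p := fun (p : (List (List Bool) × List (List Bool)) × List Bool ×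
      List (List Bool)) k => !((p.1.2.take k).any fun l => decide (l = p.2.1))) ?_
      (PolyFn.range (PolyFn.succ (PolyFn.length hB))))
  · exact (PolyFn.cons hx' (poly_sub hx' hux hA')).pair
      (poly_sub hx' hux (PolyFn.drop PolyFn.snd hB'))
  · refine PolyFn.not (PolyFn.any (p := fun (q : ((List (List Bool) × List (List Bool)) ×
      List Bool × List (List Bool)) × ℕ) l => decide (l = q.1.2.1)) ?_ hu)
    exact PolyFn.decide_eq PolyFn.snd (hx'.comp PolyFn.fst)

theorem poly_movesL : PolyFn movesL :=
  PolyFn.append poly_erasesL (PolyFn.append poly_cancelsL (PolyFn.append poly_runsL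
    (PolyFn.map (f := fun (_ : List (List Bool) × List (List Bool))
        (F : List (List Bool) × List (List Bool)) => (F.2, F.1))
      ((PolyFn.snd.comp PolyFn.snd).pair (PolyFn.fst.comp PolyFn.snd))
      (poly_runsL.comp (PolyFn.snd.pair PolyFn.fst)))))

theorem poly_iterL (m : ℕ) : PolyFn (iterL m) := by
  induction m with
  | zero => exact PolyFn.cons PolyFn.id (PolyFn.const [])
  | succ m ih =>
    exact PolyFn.flatMap (f := fun (_ : List (List Bool) × List (List Bool)) F => iterL m F)
      (ih.comp PolyFn.snd) poly_movesL

theorem poly_decE (m : ℕ) : PolyFn (decE m) :=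
  PolyFn.any (p := fun (_ : List (List Bool) × List (List Bool))
      (F : List (List Bool) × List (List Bool)) => F.1.isEmpty && F.2.isEmpty)
    (PolyFn.and (PolyFn.isEmpty (PolyFn.fst.comp PolyFn.snd))
      (PolyFn.isEmpty (PolyFn.snd.comp PolyFn.snd))) (poly_iterL m)

/-! ### The encoding -/

/-- The word of a list of letters. -/
def encW (w : List (List Bool)) : List (Option (Option Bool)) :=
  w.flatMap fun l => some none :: l.map fun b => some (some b)

/-- The word of an equation. -/
def encE (E : List (List Bool) × List (List Bool)) : List (Option (Option Bool)) :=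
  encW E.1 ++ none :: encW E.2

/-- Reading an equation. -/
def readE (w : List (Option (Option Bool))) : List (List Bool) × List (List Bool) :=
  ((blocks ((blocks w).headD [])).tail, (blocks ((blocks w).tail.headD [])).tail)

theorem encW_eq (w : List (List Bool)) :
    encW w = (w.flatMap fun l => none :: l.map some).map some := by
  unfold encW
  rw [List.map_flatMap]
  congr 1
  ext1 l
  simp

theorem blocks_encW (w : List (List Bool)) :
    blocks (w.flatMap fun l => (none :: l.map some : List (Option Bool))) = [] :: w := by
  have key : ∀ (w : List (List Bool)) (v : List Bool),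
      blocks (v.map some ++ w.flatMap fun l => (none :: l.map some : List (Option Bool))) =
        v :: w := by
    intro w
    induction w with
    | nil => intro v; simp [blocks_some]
    | cons l w ih =>
      intro v
      rw [List.flatMap_cons, List.cons_append, blocks_cons, ih]
  exact key w []

theorem readE_encE (E : List (List Bool) × List (List Bool)) : readE (encE E) = E := by
  unfold readE encE
  rw [encW_eq, encW_eq, blocks_cons, blocks_some, List.headD_cons, List.tail_cons, List.headD_cons,
    blocks_encW, blocks_encW]
  rfl

theorem poly_readE : PolyFn readE :=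
  (PolyFn.tail (PolyFn.blocks (PolyFn.headD (PolyFn.blocks PolyFn.id) (PolyFn.const [])))).pair
    (PolyFn.tail (PolyFn.blocks (PolyFn.headD (PolyFn.tail (PolyFn.blocks PolyFn.id))
      (PolyFn.const []))))

end Pool.Agent.QuadEq
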