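import Pool.Agent.Lib.MP_b7851d_lc.Cert
import Pool.Agent.Lib.MP_b7851d_lc.Poly

/-!
# Certificates for jumps
-/

namespace Pool.Agent.QuadEq

/-- The data of a jump: the items, the pairing of the tokens, a derivation and its goal. -/
abbrev JData : Type := List (List (List Bool)) × List ℕ × List Entry × (NSt × NSt)

/-- The variable of a token. -/
def hdT (f : List (List (List Bool))) (t : ℕ) : List Bool := (f.getD t []).headD []

/-- The conditions on the items. -/
def itemsOK (f : List (List (List Bool))) (τ : List ℕ) : Bool :=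
  (List.range f.length).all fun t =>
    (isV (hdT f t) && decide (τ.getD t 0 < f.length)) && (decide (hdT f (τ.getD t 0) = hdT f t) &&
      (List.range f.length).all fun s =>
        (!decide (hdT f s = hdT f t) || (decide (s = t) || decide (s = τ.getD t 0))) &&
          !((f.getD s []).tail.any fun l => decide (l = hdT f t)))

/-- The equation of a state. -/
def instE (f : List (List (List Bool))) (A : NSt) : List (List Bool) × List (List Bool) :=
  (A.1.flatMap fun t => f.getD t [], A.2.flatMap fun t => f.getD t [])

/-- The check of a jump. -/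
def jumpOK (E F : List (List Bool) × List (List Bool)) (J : JData) : Bool :=
  (itemsOK J.1 J.2.1 && nodupN (J.2.2.2.1.1 ++ J.2.2.2.1.2)) &&
    ((valOK J.1.length J.2.1 J.2.2.1 && J.2.2.1.any fun e => decide (e.1 = J.2.2.2)) &&
      (decide (E = instE J.1 J.2.2.2.1) && decide (F = instE J.1 J.2.2.2.2)))

/-- The conditions on the items as a structure. -/
structure ItemsOK (f : List (List (List Bool))) (τ : List ℕ) : Prop where
  var : ∀ t < f.length, isV (hdT f t) = true
  lt : ∀ t < f.length, τ.getD t 0 < f.length
  hd : ∀ t < f.length, hdT f (τ.getD t 0) = hdT f t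
  inj : ∀ t < f.length, ∀ s < f.length, hdT f s = hdT f t → s = t ∨ s = τ.getD t 0
  tail : ∀ t < f.length, ∀ s < f.length, hdT f t ∉ (f.getD s []).tail

theorem itemsOK_iff {f : List (List (List Bool))} {τ : List ℕ} :
    itemsOK f τ = true ↔ ItemsOK f τ := by
  unfold itemsOK
  rw [List.all_eq_true]
  have key : ∀ t, ((isV (hdT f t) && decide (τ.getD t 0 < f.length)) &&
      (decide (hdT f (τ.getD t 0) = hdT f t) && (List.range f.length).all fun s =>
        (!decide (hdT f s = hdT f t) || (decide (s = t) || decide (s = τ.getD t 0))) &&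
          !((f.getD s []).tail.any fun l => decide (l = hdT f t)))) = true ↔
      (isV (hdT f t) = true ∧ τ.getD t 0 < f.length) ∧ (hdT f (τ.getD t 0) = hdT f t ∧
        ∀ s < f.length, (hdT f s = hdT f t → s = t ∨ s = τ.getD t 0) ∧
          hdT f t ∉ (f.getD s []).tail) := by
    intro t
    rw [Bool.and_eq_true, Bool.and_eq_true, Bool.and_eq_true, decide_eq_true_eq, decide_eq_true_eq,
      List.all_eq_true]
    have h2 : ∀ s, ((!decide (hdT f s = hdT f t) || (decide (s = t) || decide (s = τ.getD t 0))) &&
          !((f.getD s []).tail.any fun l => decide (l = hdT f t))) = true ↔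
        (hdT f s = hdT f t → s = t ∨ s = τ.getD t 0) ∧ hdT f t ∉ (f.getD s []).tail := by
      intro s
      rw [Bool.and_eq_true, Bool.or_eq_true, Bool.or_eq_true, Bool.not_eq_true',
        decide_eq_false_iff_not, decide_eq_true_eq, decide_eq_true_eq, Bool.not_eq_true',
        List.any_eq_false]
      refine and_congr ⟨fun h h' => h.resolve_left (fun h'' => h'' h'), fun h => ?_⟩ ?_
      · by_cases h' : hdT f s = hdT f t
        · exact Or.inr (h h')
        · exact Or.inl h'
      · constructor
        · intro h h'
          exact h _ h' (by simp)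
        · intro h l hl hd
          rw [decide_eq_true_eq] at hd
          exact h (hd ▸ hl)
    constructor
    · rintro ⟨h3, h4, h5⟩
      exact ⟨h3, h4, fun s hs => (h2 s).mp (h5 s (List.mem_range.mpr hs))⟩
    · rintro ⟨h3, h4, h5⟩
      exact ⟨h3, h4, fun s hs => (h2 s).mpr (h5 s (List.mem_range.mp hs))⟩
  constructor
  · intro h
    refine ⟨fun t ht => ?_, fun t ht => ?_, fun t ht => ?_, fun t ht s hs => ?_,
      fun t ht s hs => ?_⟩
    · exact ((key t).mp (h t (List.mem_range.mpr ht))).1.1
    · exact ((key t).mp (h t (List.mem_range.mpr ht))).1.2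
    · exact ((key t).mp (h t (List.mem_range.mpr ht))).2.1
    · exact (((key t).mp (h t (List.mem_range.mpr ht))).2.2 s hs).1
    · exact (((key t).mp (h t (List.mem_range.mpr ht))).2.2 s hs).2
  · rintro ⟨h1, h2, h3, h4, h5⟩ t ht
    have ht' := List.mem_range.mp ht
    exact (key t).mpr ⟨⟨h1 t ht', h2 t ht'⟩, h3 t ht', fun s hs => ⟨h4 t ht' s hs, h5 t ht' s hs⟩⟩

variable {f : List (List (List Bool))} {τ : List ℕ}

theorem getD_eq_cons {t : ℕ} (h : isV (hdT f t) = true) : f.getD t [] = hdT f t :: (f.getD t []).tail := by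
  unfold hdT at h ⊢
  cases hf : f.getD t [] with
  | nil => rw [hf] at h; simp [isV] at h
  | cons a l => rfl

theorem sub_inst (hf : ItemsOK f τ) {t s : ℕ} (ht : t < f.length)
    {l : List ℕ} (hl : ∀ r ∈ l, r < f.length) (htl : t ∉ l) :
    sub (hdT f t) (f.getD s [] ++ [hdT f t]) (l.flatMap fun t => f.getD t []) =
      (insN (τ.getD t 0) s l).flatMap fun t => f.getD t [] := by
  induction l with
  | nil => rfl
  | cons r l ih =>
    have hr := hl r List.mem_cons_self
    rw [List.flatMap_cons, sub_append, ih (fun r hr => hl r (List.mem_cons_of_mem _ hr))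
      (fun h => htl (List.mem_cons_of_mem _ h)), insN_cons, List.flatMap_append]
    congr 1
    have hrt : r ≠ t := fun e => htl (e ▸ List.mem_cons_self)
    have e1 := getD_eq_cons (hf.var r hr)
    have htail := hf.tail t ht r hr
    by_cases h : r = τ.getD t 0
    · have h2 : hdT f r = hdT f t := by rw [h]; exact hf.hd t ht
      rw [if_pos h]
      simp only [List.flatMap_cons, List.flatMap_nil, List.append_nil]
      conv_lhs => rw [e1]
      rw [sub_cons, if_pos h2, sub_eq_self htail]
      conv_rhs => rw [e1, h2]
      simp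
    · have h2 : hdT f r ≠ hdT f t := fun e => by
        rcases hf.inj t ht r hr e with e | e
        · exact hrt e
        · exact h e
      rw [if_neg h]
      simp only [List.flatMap_cons, List.flatMap_nil, List.append_nil]
      conv_lhs => rw [e1]
      rw [sub_cons, if_neg h2, sub_eq_self htail]
      conv_rhs => rw [e1]
      rfl

theorem insN_perm (u s : ℕ) (l : List ℕ) :
    (insN u s l).Perm (List.replicate (l.count u) s ++ l) := by
  induction l with
  | nil => simp [insN]
  | cons r l ih =>
    rw [insN_cons]
    by_cases h : r = u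
    · subst h
      rw [if_pos rfl, List.count_cons_self, List.replicate_succ]
      simp only [List.cons_append, List.nil_append]
      refine List.Perm.cons s ?_
      exact (List.Perm.cons r ih).trans (List.perm_middle.symm)
    · rw [if_neg h, List.count_cons_of_ne h]
      exact (List.Perm.cons r ih).trans (List.perm_middle.symm)

theorem stepN_nodup {A B : NSt} (h : B ∈ stepN τ A) (hA : (A.1 ++ A.2).Nodup) :
    (B.1 ++ B.2).Nodup := by
  obtain ⟨t, s, P, Q, rfl, _, rfl⟩ := mem_stepN.mp h
  simp only at hA ⊢
  have hp : (t :: P ++ s :: Q).Perm (t :: s :: (P ++ Q)) := List.Perm.cons t List.perm_middle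
  have h1 := hp.nodup_iff.mp hA
  rw [List.cons_append, ← insN_append]
  rw [List.nodup_cons] at h1 ⊢
  obtain ⟨h2, h3⟩ := h1
  rw [List.nodup_cons] at h3
  constructor
  · intro h
    rcases mem_insN h with h | h
    · exact h2 (h ▸ List.mem_cons_self)
    · exact h2 (List.mem_cons_of_mem _ h)
  · rw [(insN_perm _ _ _).nodup_iff]
    have hc := List.nodup_iff_count_le_one.mp h3.2 (τ.getD t 0)
    rcases Nat.le_one_iff_eq_zero_or_eq_one.mp hc with hc | hc
    · rw [hc]; exact h3.2
    · rw [hc, List.replicate_one, List.singleton_append, List.nodup_cons]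
      exact h3

theorem stepN_mv (hf : ItemsOK f τ) {A B : NSt} (h : B ∈ stepN τ A) (hA : (A.1 ++ A.2).Nodup)
    (hl : ∀ r ∈ A.1 ++ A.2, r < f.length) : Mv isV (instE f A) (instE f B) := by
  obtain ⟨t, s, P, Q, rfl, hst, rfl⟩ := mem_stepN.mp h
  simp only at hA hl
  have ht : t < f.length := hl t (by simp)
  have hs : s < f.length := hl s (by simp)
  have hP : ∀ r ∈ P, r < f.length := fun r hr => hl r (by simp [hr])
  have hQ : ∀ r ∈ Q, r < f.length := fun r hr => hl r (by simp [hr])
  rw [List.cons_append, List.nodup_cons, List.mem_append, List.mem_cons] at hA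
  have htP : t ∉ P := fun h => hA.1 (Or.inl h)
  have hts : t ≠ s := fun h => hA.1 (Or.inr (Or.inl h))
  have htQ : t ∉ Q := fun h => hA.1 (Or.inr (Or.inr h))
  have hxs : hdT f t ∉ f.getD s [] := by
    rw [getD_eq_cons (hf.var s hs)]
    intro h
    rcases List.mem_cons.mp h with h | h
    · rcases hf.inj t ht s hs h.symm with e | e
      · exact hts e.symm
      · exact hst e
    · exact hf.tail t ht s hs h
  have hm := Mv.run (V := isV) (A := (f.getD t []).tail ++ P.flatMap fun t => f.getD t [])
    (B := Q.flatMap fun t => f.getD t []) (hf.var t ht) hxs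
  rw [sub_append, sub_eq_self (hf.tail t ht t ht), sub_inst hf ht hP htP,
    sub_inst hf ht hQ htQ] at hm
  have e1 : instE f (t :: P, s :: Q) = (hdT f t :: ((f.getD t []).tail ++
      P.flatMap fun t => f.getD t []), f.getD s [] ++ Q.flatMap fun t => f.getD t []) := by
    unfold instE
    simp only
    rw [List.flatMap_cons, List.flatMap_cons]
    conv_lhs => rw [getD_eq_cons (hf.var t ht)]
    rfl
  have e2 : instE f (t :: insN (τ.getD t 0) s P, insN (τ.getD t 0) s Q) =
      (hdT f t :: ((f.getD t []).tail ++ (insN (τ.getD t 0) s P).flatMap fun t => f.getD t []),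
        (insN (τ.getD t 0) s Q).flatMap fun t => f.getD t []) := by
    unfold instE
    simp only
    rw [List.flatMap_cons]
    conv_lhs => rw [getD_eq_cons (hf.var t ht)]
    rfl
  rw [e1, e2]
  exact hm

/-- Soundness of the check of a jump. -/
theorem jumpOK_sound {E F : List (List Bool) × List (List Bool)} {J : JData}
    (h : jumpOK E F J = true) : Relation.ReflTransGen (Mv isV) E F := by
  obtain ⟨f, τ, D, G⟩ := J
  unfold jumpOK at h
  simp only at h
  rw [Bool.and_eq_true, Bool.and_eq_true, Bool.and_eq_true, Bool.and_eq_true, Bool.and_eq_true,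
    itemsOK_iff, nodupN_iff, decide_eq_true_eq, decide_eq_true_eq] at h
  obtain ⟨⟨hf, hnd⟩, ⟨hD, hG⟩, rfl, rfl⟩ := h
  obtain ⟨e, he, hG⟩ := List.any_eq_true.mp hG
  rw [decide_eq_true_eq] at hG
  obtain ⟨hlt, hr⟩ := valOK_sound hf.lt hD e he
  rw [hG] at hlt hr
  have key : ∀ B, ReachN τ G.1 B → (B.1 ++ B.2).Nodup ∧
      Relation.ReflTransGen (Mv isV) (instE f G.1) (instE f B) := by
    intro B hB
    induction hB with
    | refl => exact ⟨hnd, Relation.ReflTransGen.refl⟩
    | @tail B C hB hC ih =>
      have hl : ∀ r ∈ B.1 ++ B.2, r < f.length := fun r hr => hlt r (ReachN.mem hB hr)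
      rcases mem_stepsN.mp hC with hC | hC
      · exact ⟨stepN_nodup hC ih.1, ih.2.tail (stepN_mv hf hC ih.1 hl)⟩
      · have hsw : (B.swap.1 ++ B.swap.2).Nodup := by
          have : (B.1 ++ B.2).Perm (B.swap.1 ++ B.swap.2) := List.perm_append_comm
          exact this.nodup_iff.mp ih.1
        have hl' : ∀ r ∈ B.swap.1 ++ B.swap.2, r < f.length := fun r hr =>
          hl r (by simpa [or_comm] using hr)
        refine ⟨?_, ih.2.tail ?_⟩
        · have h1 := stepN_nodup hC hsw
          have : (C.1 ++ C.2).Perm (C.swap.1 ++ C.swap.2) := List.perm_append_comm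
          exact this.nodup_iff.mpr h1
        · exact (stepN_mv hf hC hsw hl').swap
  exact (key G.2 hr).2

end Pool.Agent.QuadEq
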