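import Pool.Agent.Lib.MP_b7851d_lc.Jump

/-!
# Completeness of the certificates for jumps
-/

namespace Pool.Agent.QuadEq

/-! ### Soundness of abstract derivations, and restriction to the invariant -/

section abstract

variable {X : Type*} {G : Type*} [Group G] [MulAction G X] {r : X → X → Prop}

theorem Val.sound [Finite G] (hr : ∀ (g : G) a b, r a b → r (g • a) (g • b)) :
    ∀ {D : List (X × X)}, Val G r D → ∀ p ∈ D, Relation.ReflTransGen r p.1 p.2
  | [], _, p, hp => by simp at hp
  | q :: D, h, p, hp => by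
    have hrt : ∀ (g : G) {a b : X}, Relation.ReflTransGen r a b →
        Relation.ReflTransGen r (g • a) (g • b) := by
      intro g a b h
      induction h with
      | refl => exact Relation.ReflTransGen.refl
      | tail _ h ih => exact ih.tail (hr g _ _ h)
    have ih := Val.sound hr h.2
    rcases List.mem_cons.mp hp with rfl | hp
    · rcases h.1 with h | h | ⟨c, h1, h2⟩ | ⟨g, c, d, h1, h2, h3⟩ | ⟨g, h1, h2⟩
      · exact Relation.ReflTransGen.single h
      · rw [h]
      · exact (ih _ h1).trans (ih _ h2)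
      · rw [h2, h3]
        exact hrt g (ih _ h1)
      · have h3 : Relation.ReflTransGen r p.2 (g • p.2) := by
          have := ih _ h1
          simp only at this
          rwa [h2] at this
        have h4 : ∀ k : ℕ, Relation.ReflTransGen r (g • p.2) (g ^ (k + 1) • p.2) := by
          intro k
          induction k with
          | zero => rw [zero_add, pow_one]
          | succ k ih =>
            have h5 := hrt (g ^ (k + 1)) h3
            rw [← mul_smul, ← pow_succ] at h5
            exact ih.trans h5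
        have h5 := h4 (orderOf g - 1)
        rw [Nat.sub_add_cancel (orderOf_pos g), pow_orderOf_eq_one, one_smul] at h5
        rw [h2]
        exact h5
    · exact ih p hp

variable {T : Type*} {inv : X → Prop} {code : X → T} {F : Finset T}

open Classical in
theorem Val.filter [Finite G] (hS : Setting G r inv code F) : ∀ {D : List (X × X)}, Val G r D →
    Val G r (D.filter fun p => decide (inv p.1))
  | [], _ => trivial
  | q :: D, h => by
    have ih := Val.filter hS h.2
    have hs := Val.sound hS.equiv h.2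
    rw [List.filter_cons]
    by_cases hq : inv q.1
    · rw [if_pos (by simpa using hq)]
      refine ⟨?_, ih⟩
      have hmem : ∀ p ∈ D, inv p.1 → p ∈ D.filter fun p => decide (inv p.1) := fun p hp hi =>
        List.mem_filter.mpr ⟨hp, by simpa using hi⟩
      rcases h.1 with h | h | ⟨c, h1, h2⟩ | ⟨g, c, d, h1, h2, h3⟩ | ⟨g, h1, h2⟩
      · exact Or.inl h
      · exact Or.inr (Or.inl h)
      · exact Or.inr (Or.inr (Or.inl ⟨c, hmem _ h1 hq, hmem _ h2 (hS.inv_rtg hq (hs _ h1))⟩))
      · refine Or.inr (Or.inr (Or.inr (Or.inl ⟨g, c, d, hmem _ h1 ?_, h2, h3⟩)))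
        have := hS.invg g⁻¹ _ hq
        rwa [h2, inv_smul_smul] at this
      · refine Or.inr (Or.inr (Or.inr (Or.inr ⟨g, hmem _ h1 ?_, h2⟩)))
        have := hS.invg g⁻¹ _ hq
        rwa [h2, inv_smul_smul] at this
    · rw [if_neg (by simpa using hq)]
      exact ih

/-- A short derivation in which all states satisfy the invariant. -/
theorem Ext.restrict [Finite G] (hS : Setting G r inv code F) {k : ℕ} {a b : X} (ha : inv a)
    (h : Ext G r [] k a b) : ∃ D : List (X × X), D.length ≤ k ∧ Val G r D ∧ (a, b) ∈ D ∧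
      ∀ p ∈ D, inv p.1 ∧ inv p.2 := by
  classical
  obtain ⟨D', h1, h2, h3⟩ := h
  rw [List.append_nil] at h2 h3
  refine ⟨D'.filter fun p => decide (inv p.1), (List.length_filter_le _ _).trans h1, h2.filter hS,
    List.mem_filter.mpr ⟨h3, by simpa using ha⟩, ?_⟩
  intro p hp
  rw [List.mem_filter, decide_eq_true_eq] at hp
  exact ⟨hp.2, hS.inv_rtg hp.2 (Val.sound hS.equiv h2 p hp.1)⟩

end abstract

/-! ### The pairing of the tokens -/

variable {N : ℕ} {L : Type} [DecidableEq L]

theorem exists_tau (nm : Fin N → L)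
    (h : ∀ i, (Finset.univ.filter fun j => nm j = nm i).card = 2) :
    ∃ τ : Fin N → Fin N, Invol τ ∧ Naming τ nm := by
  have h1 : ∀ i, ∃ j, j ≠ i ∧ (Finset.univ.filter fun j => nm j = nm i) = {i, j} := by
    intro i
    obtain ⟨a, b, hab, he⟩ := Finset.card_eq_two.mp (h i)
    have hi : i ∈ (Finset.univ.filter fun j => nm j = nm i) := by simp
    rw [he, Finset.mem_insert, Finset.mem_singleton] at hi
    rcases hi with rfl | rfl
    · exact ⟨b, hab.symm, he⟩
    · exact ⟨a, hab, by rw [he, Finset.pair_comm]⟩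
  choose τ hτ1 hτ2 using h1
  have hn : Naming τ nm := by
    intro s t
    have : s ∈ (Finset.univ.filter fun j => nm j = nm t) ↔ s ∈ ({t, τ t} : Finset (Fin N)) := by
      rw [hτ2]
    rw [Finset.mem_filter, Finset.mem_insert, Finset.mem_singleton] at this
    simpa using this
  refine ⟨τ, fun t => ⟨?_, hτ1 t⟩, hn⟩
  have h2 : nm (τ (τ t)) = nm t := by
    rw [(hn (τ (τ t)) (τ t)).mpr (Or.inr rfl), (hn (τ t) t).mpr (Or.inr rfl)]
  rcases (hn _ _).mp h2 with h3 | h3
  · exact h3
  · exact absurd h3 (hτ1 (τ t))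

variable {τ : Fin N → Fin N}

/-- The pair of lists of items of a token state. -/
def itS (it : Fin N → L × List L) (A : TSt N) : List (L × List L) × List (L × List L) :=
  (A.top.map it, A.bot.map it)

theorem insT_items {it : Fin N → L × List L} (hnm : Naming τ fun t => (it t).1) {t s : Fin N}
    {P : List (Fin N)} (ht : t ∉ P) :
    (insT (τ t) s P).map it = ins (it t).1 (it s) (P.map it) := by
  induction P with
  | nil => rfl
  | cons r P ih =>
    have h1 : ins (it t).1 (it s) ((r :: P).map it) =
        (if (it r).1 = (it t).1 then [it s, it r] else [it r]) ++ ins (it t).1 (it s) (P.map it) := by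
      simp [ins]
    rw [insT_cons, h1, List.map_append, ih fun h => ht (List.mem_cons_of_mem _ h)]
    congr 1
    have hr : r ≠ t := fun e => ht (e ▸ List.mem_cons_self)
    by_cases h : r = τ t
    · have h2 : (it r).1 = (it t).1 := (hnm r t).mpr (Or.inr h)
      rw [if_pos h, if_pos h2]
      rfl
    · have h2 : (it r).1 ≠ (it t).1 := fun e => by
        rcases (hnm r t).mp e with e | e
        · exact hr e
        · exact h e
      rw [if_neg h, if_neg h2]
      rfl

theorem TMove.lift {it : Fin N → L × List L} (hnm : Naming τ fun t => (it t).1) {A : TSt N}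
    (hA : Cpl A) {S' : List (L × List L) × List (L × List L)} (h : TMove (itS it A) S') :
    ∃ A', TokT τ A A' ∧ S' = itS it A' := by
  generalize hS : itS it A = S at h
  cases h with
  | @mk x y a w P Q hxy =>
    obtain ⟨tp, bt⟩ := A
    unfold itS at hS
    simp only [Prod.mk.injEq] at hS
    obtain ⟨h1, h2⟩ := hS
    cases tp with
    | nil => simp at h1
    | cons t Pt =>
      cases bt with
      | nil => simp at h2
      | cons s Qt =>
        rw [List.map_cons, List.cons.injEq] at h1 h2
        obtain ⟨h3, h4⟩ := h1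
        obtain ⟨h5, h6⟩ := h2
        have hnd : (t :: (Pt ++ s :: Qt)).Nodup := hA.1
        rw [List.nodup_cons] at hnd
        have htP : t ∉ Pt := fun h => hnd.1 (List.mem_append_left _ h)
        have htQ : t ∉ Qt := fun h => hnd.1 (List.mem_append_right _ (List.mem_cons_of_mem _ h))
        have hx : (it t).1 = x := by rw [h3]
        have hy : (it s).1 = y := by rw [h5]
        have hst : s ≠ τ t := fun e => hxy (by
          rw [← hx, ← hy]
          exact ((hnm s t).mpr (Or.inr e)).symm)
        refine ⟨_, TokT.mk hst, ?_⟩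
        unfold itS
        simp only [Prod.mk.injEq, List.map_cons]
        rw [insT_items hnm htP, insT_items hnm htQ, h3, h5, h4, h6]
        exact ⟨rfl, rfl⟩

theorem Move.lift {it : Fin N → L × List L} (hnm : Naming τ fun t => (it t).1) {A : TSt N}
    (hA : Cpl A) {S' : List (L × List L) × List (L × List L)} (h : Move (itS it A) S') :
    ∃ A', Tok τ A A' ∧ S' = itS it A' := by
  rcases h with h | h
  · obtain ⟨A', h1, h2⟩ := h.lift hnm hA
    exact ⟨A', Or.inl h1, h2⟩
  · obtain ⟨A', h1, h2⟩ := TMove.lift (A := A.swap) hnm hA.swap h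
    refine ⟨A'.swap, Or.inr h1, ?_⟩
    have := congrArg Prod.swap h2
    rw [Prod.swap_swap] at this
    exact this

theorem rtg_lift {it : Fin N → L × List L} (hτ : Invol τ) (hnm : Naming τ fun t => (it t).1)
    {A : TSt N} (hA : Cpl A) {S' : List (L × List L) × List (L × List L)}
    (h : Relation.ReflTransGen Move (itS it A) S') :
    ∃ A', Relation.ReflTransGen (Tok τ) A A' ∧ Cpl A' ∧ S' = itS it A' := by
  induction h with
  | refl => exact ⟨A, Relation.ReflTransGen.refl, hA, rfl⟩
  | tail _ h ih =>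
    obtain ⟨A', h1, h2, rfl⟩ := ih
    obtain ⟨A'', h3, h4⟩ := h.lift hnm h2
    exact ⟨A'', h1.tail h3, h3.cpl hτ h2, h4⟩

/-! ### Numbers instead of tokens -/

/-- The state with numbers as tokens. -/
def toN (A : TSt N) : NSt := (A.top.map Fin.val, A.bot.map Fin.val)

/-- The table of a function. -/
def tab (φ : Fin N → Fin N) : List ℕ := List.ofFn fun i => (φ i).val

theorem tab_getD (φ : Fin N → Fin N) (t : Fin N) : (tab φ).getD t.val 0 = (φ t).val := by
  unfold tab
  rw [List.getD_eq_getElem _ _ (by rw [List.length_ofFn]; exact t.isLt), List.getElem_ofFn]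

theorem tab_lt (φ : Fin N → Fin N) : ∀ t ∈ tab φ, t < N := by
  intro t ht
  unfold tab at ht
  rw [List.mem_ofFn] at ht
  obtain ⟨i, rfl⟩ := ht
  exact (φ i).isLt

theorem length_tab (φ : Fin N → Fin N) : (tab φ).length = N := List.length_ofFn

theorem insN_val (u s : Fin N) (l : List (Fin N)) :
    (insT u s l).map Fin.val = insN u.val s.val (l.map Fin.val) := by
  induction l with
  | nil => rfl
  | cons r l ih =>
    rw [insT_cons, List.map_cons, insN_cons, List.map_append, ih]
    congr 1
    by_cases h : r = u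
    · rw [if_pos h, if_pos (by rw [h])]
      rfl
    · rw [if_neg h, if_neg fun e => h (Fin.ext e)]
      rfl

theorem TokT.num {A B : TSt N} (h : TokT τ A B) : toN B ∈ stepN (tab τ) (toN A) := by
  cases h with
  | @mk t s P Q h =>
    refine mem_stepN.mpr ⟨t.val, s.val, P.map Fin.val, Q.map Fin.val, rfl, ?_, ?_⟩
    · rw [tab_getD]
      exact fun e => h (Fin.ext e)
    · rw [tab_getD, ← insN_val, ← insN_val]
      rfl

theorem Tok.num {A B : TSt N} (h : Tok τ A B) : toN B ∈ stepsN (tab τ) (toN A) := by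
  rw [mem_stepsN]
  rcases h with h | h
  · exact Or.inl h.num
  · exact Or.inr h.num

theorem toN_smul (g : cent τ) (A : TSt N) : toN (g • A) = mapN (tab g.1) (toN A) := by
  unfold toN mapN
  simp only [smul_top, smul_bot, List.map_map]
  rw [Prod.mk.injEq]
  constructor
  · apply List.map_congr_left
    intro t _
    exact (tab_getD _ t).symm
  · apply List.map_congr_left
    intro t _
    exact (tab_getD _ t).symm

theorem toN_wf (A : TSt N) : wfN N (toN A) = true := by
  rw [wfN_iff]
  intro t ht
  unfold toN at ht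
  rw [← List.map_append, List.mem_map] at ht
  obtain ⟨s, _, rfl⟩ := ht
  exact s.isLt

theorem permOK_tab (g : cent τ) : permOK N (tab τ) (tab g.1) = true := by
  rw [permOK_iff]
  refine ⟨length_tab _, ?_, ?_, ?_⟩
  · unfold tab
    rw [List.nodup_ofFn]
    intro i j e
    exact g.1.injective (Fin.ext e)
  · intro t ht
    rw [tab_getD _ ⟨t, ht⟩]
    exact (g.1 _).isLt
  · intro t ht
    rw [tab_getD _ ⟨t, ht⟩, tab_getD _ ⟨t, ht⟩, tab_getD, tab_getD, cent_apply]

/-- The entries of a derivation. -/
theorem exists_entries : ∀ {D : List (TSt N × TSt N)}, Val (cent τ) (Tok τ) D →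
    ∃ Ent : List Entry, (Ent.map fun e => e.1) = (D.map fun p => (toN p.1, toN p.2)) ∧
      valOK N (tab τ) Ent = true ∧ ∀ e ∈ Ent, e.2.length ≤ N ∧ ∀ t ∈ e.2, t < N
  | [], _ => ⟨[], rfl, rfl, by simp⟩
  | q :: D, h => by
    obtain ⟨Ent, h1, h2, h3⟩ := exists_entries h.2
    have hmem : ∀ p ∈ D, ∃ e ∈ Ent, e.1 = (toN p.1, toN p.2) := by
      intro p hp
      have : (toN p.1, toN p.2) ∈ Ent.map fun e => e.1 := by
        rw [h1]
        exact List.mem_map_of_mem (f := fun p : TSt N × TSt N => (toN p.1, toN p.2)) hp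
      obtain ⟨e, he, he'⟩ := List.mem_map.mp this
      exact ⟨e, he, he'⟩
    have fin : ∀ φ : List ℕ, (φ.length ≤ N ∧ ∀ t ∈ φ, t < N) →
        justOK N (tab τ) Ent ((toN q.1, toN q.2), φ) = true →
        ∃ Ent : List Entry, (Ent.map fun e => e.1) = ((q :: D).map fun p => (toN p.1, toN p.2)) ∧
          valOK N (tab τ) Ent = true ∧ ∀ e ∈ Ent, e.2.length ≤ N ∧ ∀ t ∈ e.2, t < N := by
      intro φ hφ hj
      refine ⟨((toN q.1, toN q.2), φ) :: Ent, by rw [List.map_cons, List.map_cons, h1], ?_, ?_⟩
      · rw [valOK_cons, hj, h2]; rfl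
      · intro e he
        rcases List.mem_cons.mp he with rfl | he
        · exact hφ
        · exact h3 e he
    have hj : ∀ φ : List ℕ, (((stepsN (tab τ) (toN q.1)).any fun B => decide (B = toN q.2)) = true ∨
        (decide (toN q.1 = toN q.2) = true ∨
        ((Ent.any fun e₁ => Ent.any fun e₂ => decide (e₁.1.1 = toN q.1) &&
          (decide (e₁.1.2 = e₂.1.1) && decide (e₂.1.2 = toN q.2))) = true ∨
        (permOK N (tab τ) φ = true ∧ ((Ent.any fun e₁ => decide (mapN φ e₁.1.1 = toN q.1) &&
          decide (mapN φ e₁.1.2 = toN q.2)) = true ∨ (decide (mapN φ (toN q.2) = toN q.1) = true ∧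
          (Ent.any fun e₁ => decide (e₁.1.1 = toN q.2) && decide (e₁.1.2 = toN q.1)) = true)))))) →
        justOK N (tab τ) Ent ((toN q.1, toN q.2), φ) = true := by
      intro φ h
      unfold justOK
      simp only
      rw [Bool.and_eq_true, Bool.and_eq_true, Bool.or_eq_true, Bool.or_eq_true, Bool.or_eq_true,
        Bool.and_eq_true, Bool.or_eq_true, Bool.and_eq_true]
      exact ⟨⟨toN_wf _, toN_wf _⟩, h⟩
    rcases h.1 with h | h | ⟨c, h4, h5⟩ | ⟨g, c, d, h4, h5, h6⟩ | ⟨g, h4, h5⟩
    · refine fin [] (by simp) (hj _ (Or.inl ?_))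
      exact List.any_eq_true.mpr ⟨_, h.num, by simp⟩
    · refine fin [] (by simp) (hj _ (Or.inr (Or.inl ?_)))
      rw [h]; simp
    · refine fin [] (by simp) (hj _ (Or.inr (Or.inr (Or.inl ?_))))
      obtain ⟨e₁, he₁, h7⟩ := hmem _ h4
      obtain ⟨e₂, he₂, h8⟩ := hmem _ h5
      refine List.any_eq_true.mpr ⟨e₁, he₁, List.any_eq_true.mpr ⟨e₂, he₂, ?_⟩⟩
      rw [h7, h8]
      simp
    · refine fin (tab g.1) ⟨(length_tab _).le, tab_lt _⟩
        (hj _ (Or.inr (Or.inr (Or.inr ⟨permOK_tab g, Or.inl ?_⟩))))
      obtain ⟨e₁, he₁, h7⟩ := hmem _ h4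
      refine List.any_eq_true.mpr ⟨e₁, he₁, ?_⟩
      rw [h7, h5, h6, toN_smul, toN_smul]
      simp
    · refine fin (tab g.1) ⟨(length_tab _).le, tab_lt _⟩
        (hj _ (Or.inr (Or.inr (Or.inr ⟨permOK_tab g, Or.inr ⟨?_, ?_⟩⟩))))
      · rw [h5, toN_smul]
        simp
      · obtain ⟨e₁, he₁, h7⟩ := hmem _ h4
        refine List.any_eq_true.mpr ⟨e₁, he₁, ?_⟩
        rw [h7]
        simp

end Pool.Agent.QuadEq
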