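import Pool.Agent.Lib.MP_b7851d_lc.JumpC

/-!
# Every jump has a certificate
-/

namespace Pool.Agent.QuadEq

theorem filter_unp {L : Type} {p : L → Bool} {P : List (L × List L)} (hP : Ok p P) :
    (unp P).filter p = P.map fun t => t.1 := by
  induction P with
  | nil => rfl
  | cons t P ih =>
    have ht := hP t List.mem_cons_self
    rw [unp_cons, List.filter_cons, if_pos ht.1, List.filter_append,
      ih fun s hs => hP s (List.mem_cons_of_mem _ hs), List.map_cons,
      List.filter_eq_nil_iff.mpr fun c hc => by rw [ht.2 c hc]; simp]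
    rfl

theorem count_map_nodup {L : Type} [DecidableEq L] {N : ℕ} (nm : Fin N → L) (x : L) :
    ∀ l : List (Fin N), l.Nodup →
      (l.map nm).count x = (l.toFinset.filter fun j => nm j = x).card := by
  intro l hl
  induction l with
  | nil => rfl
  | cons a l ih =>
    rw [List.nodup_cons] at hl
    rw [List.map_cons, List.count_cons, ih hl.2, List.toFinset_cons, Finset.filter_insert]
    by_cases h3 : nm a = x
    · rw [if_pos h3, Finset.card_insert_of_notMem (by
        rw [Finset.mem_filter, List.mem_toFinset]; exact fun h => hl.1 h.1)]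
      simp [h3]
    · rw [if_neg h3]
      simp [h3]

/-- The number of facts. -/
def dcost (N D : ℕ) : ℕ := ncodes N D * (ocost (N * N) (ncodes N D) + 3)

theorem jump_cert {E F : List (List Bool) × List (List Bool)} (h : Jump isV E F) {D : ℕ}
    (hb : badE isV E ≤ D) :
    ∃ J : JData, jumpOK E F J = true ∧ J.1.length ≤ len E ∧
      (∀ w ∈ J.1, w.length ≤ len E ∧ ∀ l ∈ w, l ∈ E.1 ++ E.2) ∧
      (J.2.1.length ≤ J.1.length ∧ ∀ t ∈ J.2.1, t < J.1.length) ∧
      J.2.2.1.length ≤ dcost J.1.length D ∧
      (∀ e ∈ J.2.2.1, (e.2.length ≤ J.1.length ∧ ∀ t ∈ e.2, t < J.1.length) ∧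
        ∀ l ∈ [e.1.1.1, e.1.1.2, e.1.2.1, e.1.2.2], l.length ≤ J.1.length ∧
          ∀ t ∈ l, t < J.1.length) ∧
      (∃ e ∈ J.2.2.1, e.1 = J.2.2.2) := by
  obtain ⟨S, S', rfl, rfl, ok1, ok2, hpath⟩ := h
  set E := unpE S with hE
  set V' := dbl isV E with hV'
  set I := S.1 ++ S.2 with hI
  set N := I.length with hN
  let it : Fin N → List Bool × List (List Bool) := fun i => I.get i
  have hit : (List.finRange N).map it = I := List.map_get_finRange I
  have hok : ∀ t ∈ I, V' t.1 = true ∧ ∀ c ∈ t.2, V' c = false := by
    intro t ht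
    rcases List.mem_append.mp ht with ht | ht
    · exact ok1 t ht
    · exact ok2 t ht
  have hiti : ∀ i, V' (it i).1 = true ∧ ∀ c ∈ (it i).2, V' c = false := fun i =>
    hok _ (List.get_mem I i)
  let A0 : TSt N := ⟨(List.finRange N).take S.1.length, (List.finRange N).drop S.1.length⟩
  have hall : A0.all = List.finRange N := List.take_append_drop _ _
  have hcpl : Cpl A0 := ⟨by rw [hall]; exact List.nodup_finRange N,
    fun t => by rw [hall]; exact List.mem_finRange t⟩
  have htop : A0.top.map it = S.1 := by
    show ((List.finRange N).take S.1.length).map it = S.1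
    rw [List.map_take, hit, hI, List.take_left]
  have hbot : A0.bot.map it = S.2 := by
    show ((List.finRange N).drop S.1.length).map it = S.2
    rw [List.map_drop, hit, hI, List.drop_left]
  have hS : itS it A0 = S := Prod.ext htop hbot
  -- the names
  have hskel1 : E.1.filter V' = S.1.map fun t => t.1 := filter_unp ok1
  have hskel2 : E.2.filter V' = S.2.map fun t => t.1 := filter_unp ok2
  have hcard : ∀ i, (Finset.univ.filter fun j => (it j).1 = (it i).1).card = 2 := by
    intro i
    have h1 := count_filter_dbl E (hiti i).1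
    rw [← hV', hskel1, hskel2, ← List.map_append, ← hI, ← hit, List.map_map,
      count_map_nodup _ _ _ (List.nodup_finRange N)] at h1
    rwa [show (List.finRange N).toFinset = Finset.univ by ext; simp] at h1
  obtain ⟨τ, hτ, hnm⟩ := exists_tau (fun i => (it i).1) hcard
  have hnm' : Naming τ fun t => (it t).1 := hnm
  rw [← hS] at hpath
  obtain ⟨A', hr, hcpl', hS'⟩ := rtg_lift hτ hnm' hcpl hpath
  have hinv : TInv (List Bool) τ D A0 := by
    refine ⟨hcpl, fun t => (it t).1, hnm', ?_⟩
    have e1 : A0.top.map (fun t => (it t).1) = E.1.filter V' := by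
      rw [hskel1, ← htop, List.map_map]; rfl
    have e2 : A0.bot.map (fun t => (it t).1) = E.2.filter V' := by
      rw [hskel2, ← hbot, List.map_map]; rfl
    rw [e1, e2]
    exact hb
  obtain ⟨Dl, hl1, hl2, hl3, hl4⟩ :=
    (tok_cost hτ hinv hr).restrict (tok_setting (L := List Bool) hτ D) hinv
  obtain ⟨Ent, he1, he2, he3⟩ := exists_entries hl2
  let f : List (List (List Bool)) := List.ofFn fun i => (it i).1 :: (it i).2
  have hfl : f.length = N := List.length_ofFn
  have hfg : ∀ t : Fin N, f.getD t.val [] = (it t).1 :: (it t).2 := by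
    intro t
    show (List.ofFn fun i => (it i).1 :: (it i).2).getD t.val [] = _
    rw [List.getD_eq_getElem _ _ (by rw [List.length_ofFn]; exact t.isLt), List.getElem_ofFn]
  have hhd : ∀ t : Fin N, hdT f t.val = (it t).1 := by
    intro t
    unfold hdT
    rw [hfg]
    rfl
  have hitems : itemsOK f (tab τ) = true := by
    rw [itemsOK_iff]
    refine ⟨?_, ?_, ?_, ?_, ?_⟩
    · intro t ht
      rw [hfl] at ht
      rw [hhd ⟨t, ht⟩]
      exact dbl_imp (hiti _).1
    · intro t ht
      rw [hfl] at ht ⊢
      rw [tab_getD τ ⟨t, ht⟩]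
      exact (τ _).isLt
    · intro t ht
      rw [hfl] at ht
      rw [tab_getD τ ⟨t, ht⟩, hhd, hhd ⟨t, ht⟩]
      exact (hnm' _ _).mpr (Or.inr rfl)
    · intro t ht s hs h
      rw [hfl] at ht hs
      rw [hhd ⟨t, ht⟩, hhd ⟨s, hs⟩] at h
      rw [tab_getD τ ⟨t, ht⟩]
      rcases (hnm' _ _).mp h with h | h
      · exact Or.inl (congrArg Fin.val h)
      · exact Or.inr (congrArg Fin.val h)
    · intro t ht s hs h
      rw [hfl] at ht hs
      rw [hhd ⟨t, ht⟩, hfg ⟨s, hs⟩, List.tail_cons] at h
      have h1 := (hiti ⟨s, hs⟩).2 _ h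
      rw [(hiti ⟨t, ht⟩).1] at h1
      exact absurd h1 (by simp)
  have hinst : ∀ A : TSt N, instE f (toN A) = unpE (itS it A) := by
    intro A
    have key : ∀ l : List (Fin N), ((l.map Fin.val).flatMap fun t => f.getD t []) =
        unp (l.map it) := by
      intro l
      induction l with
      | nil => rfl
      | cons t l ih =>
        rw [List.map_cons, List.flatMap_cons, ih, List.map_cons, unp_cons, hfg]
        rfl
    unfold instE unpE itS toN
    simp only [key]
  have hNn : N ≤ len E := by
    have h1 : N = (unp S.1).countP V' + (unp S.2).countP V' := by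
      rw [countP_unp ok1, countP_unp ok2, hN, hI, List.length_append]
    have h2 := List.countP_le_length (p := V') (l := unp S.1)
    have h3 := List.countP_le_length (p := V') (l := unp S.2)
    have h4 : len E = (unp S.1).length + (unp S.2).length := by
      rw [hE]; unfold len unpE; simp
    omega
  have hgoal : ∃ e ∈ Ent, e.1 = (toN A0, toN A') := by
    have : (toN A0, toN A') ∈ Ent.map fun e => e.1 := by
      rw [he1]
      exact List.mem_map_of_mem (f := fun p : TSt N × TSt N => (toN p.1, toN p.2)) hl3
    obtain ⟨e, he, he'⟩ := List.mem_map.mp this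
    exact ⟨e, he, he'⟩
  have hlenN : ∀ A : TSt N, Cpl A → ∀ l ∈ [(toN A).1, (toN A).2], l.length ≤ N ∧
      ∀ t ∈ l, t < N := by
    intro A hA l hl
    have h1 := hA.length
    unfold TSt.all at h1
    rw [List.length_append] at h1
    simp only [List.mem_cons, List.not_mem_nil, or_false] at hl
    rcases hl with rfl | rfl
    · refine ⟨?_, ?_⟩
      · show (A.top.map Fin.val).length ≤ N
        rw [List.length_map]; omega
      · intro t ht
        obtain ⟨s, _, rfl⟩ := List.mem_map.mp ht
        exact s.isLt
    · refine ⟨?_, ?_⟩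
      · show (A.bot.map Fin.val).length ≤ N
        rw [List.length_map]; omega
      · intro t ht
        obtain ⟨s, _, rfl⟩ := List.mem_map.mp ht
        exact s.isLt
  refine ⟨(f, tab τ, Ent, (toN A0, toN A')), ?_, ?_, ?_, ?_, ?_, ?_, ?_⟩
  · unfold jumpOK
    simp only
    rw [hfl, hitems, he2, hinst, hinst, hS, ← hS']
    have h1 : nodupN ((toN A0).1 ++ (toN A0).2) = true := by
      rw [nodupN_iff]
      unfold toN
      simp only
      rw [← List.map_append]
      exact hcpl.1.map Fin.val_injective
    rw [h1]
    obtain ⟨e, he, he'⟩ := hgoal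
    have h2 : (Ent.any fun e => decide (e.1 = (toN A0, toN A'))) = true :=
      List.any_eq_true.mpr ⟨e, he, by simpa using he'⟩
    rw [h2]
    simp [hE]
  · simp only
    rw [hfl]
    exact hNn
  · intro w hw
    simp only at hw
    rw [List.mem_ofFn] at hw
    obtain ⟨i, rfl⟩ := hw
    have hmem : it i ∈ I := List.get_mem I i
    have hsub : ∀ P : List (List Bool × List (List Bool)), it i ∈ P →
        ((it i).1 :: (it i).2).Sublist (unp P) := by
      intro P hP
      induction P with
      | nil => simp at hP
      | cons t P ih =>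
        rw [unp_cons]
        rcases List.mem_cons.mp hP with h | h
        · rw [h]
          exact List.Sublist.cons_cons _ (List.sublist_append_left _ _)
        · exact ((ih h).trans (List.sublist_append_right _ _)).trans (List.sublist_cons_self _ _)
    have hsub' : ((it i).1 :: (it i).2).Sublist (E.1 ++ E.2) := by
      rcases List.mem_append.mp hmem with h | h
      · exact (hsub _ h).trans (List.sublist_append_left _ _)
      · exact (hsub _ h).trans (List.sublist_append_right _ _)
    exact ⟨hsub'.length_le, fun l hl => hsub'.subset hl⟩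
  · simp only
    rw [hfl]
    exact ⟨(length_tab τ).le, tab_lt τ⟩
  · simp only
    rw [hfl]
    have h1 := congrArg List.length he1
    rw [List.length_map, List.length_map] at h1
    rw [h1]
    exact hl1
  · intro e he
    simp only at he ⊢
    rw [hfl]
    refine ⟨he3 e he, ?_⟩
    have h1 : e.1 ∈ Ent.map fun e => e.1 := List.mem_map_of_mem (f := fun e : Entry => e.1) he
    rw [he1] at h1
    obtain ⟨p, hp, hpe⟩ := List.mem_map.mp h1
    obtain ⟨hp1, hp2⟩ := hl4 p hp
    rw [← hpe]
    intro l hl
    simp only [List.mem_cons, List.not_mem_nil, or_false] at hl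
    rcases hl with h | h | h | h
    · exact hlenN p.1 hp1.1 l (by rw [h]; simp)
    · exact hlenN p.1 hp1.1 l (by rw [h]; simp)
    · exact hlenN p.2 hp2.1 l (by rw [h]; simp)
    · exact hlenN p.2 hp2.1 l (by rw [h]; simp)
  · exact hgoal

end Pool.Agent.QuadEq
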