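import Pool.Agent.Lib.MP_b7851d_lc.Cyc

/-!
# The key lemma
-/

namespace Pool.Agent.QuadEq

open List

variable {α : Type*}

/-- `b` follows `a` on the cyclic word `l`. -/
def CAdj (a b : α) (l : List α) : Prop := ∃ r, l ~r a :: b :: r

theorem CAdj.of_rot {a b : α} {l l' : List α} (h : l ~r l') (h' : CAdj a b l') : CAdj a b l := by
  obtain ⟨r, hr⟩ := h'
  exact ⟨r, h.trans hr⟩

theorem CAdj.mid (a b : α) (A B : List α) : CAdj a b (A ++ a :: b :: B) :=
  ⟨B ++ A, List.isRotated_append⟩

theorem CAdj.ends (a b : α) (m : List α) : CAdj a b (b :: (m ++ [a])) :=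
  ⟨m, by
    have : b :: (m ++ [a]) = (b :: m) ++ [a] := rfl
    rw [this]
    exact List.isRotated_append⟩

theorem CAdj.inner {a b : α} {l A B : List α} (h : [a, b] <:+: l) : CAdj a b (A ++ l ++ B) := by
  obtain ⟨s, t, rfl⟩ := h
  have : A ++ (s ++ [a, b] ++ t) ++ B = (A ++ s) ++ a :: b :: (t ++ B) := by simp
  rw [this]
  exact CAdj.mid _ _ _ _

/-- If two arrangements of the same letters have no common adjacency and are not reversed, they
contain one of two patterns. -/
theorem agree : ∀ (U V : List α), U.Nodup → U ~ V → (∀ a b, [a, b] <:+: U → ¬ [a, b] <:+: V) →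
    V ≠ U.reverse →
    ∃ e₁ e₂ e₃, [e₁, e₂, e₃] <+ U ∧ ([e₂, e₁, e₃] <+ V ∨ [e₁, e₃, e₂] <+ V)
  | [], V, _, hp, _, hr => by
    exact absurd (List.nil_perm.mp hp) hr
  | u :: U, V, hn, hp, hc, hr => by
    have hu : u ∈ V := hp.subset List.mem_cons_self
    obtain ⟨V₁, V₂, rfl⟩ := List.append_of_mem hu
    have hp' : U ~ V₁ ++ V₂ := by
      have := hp.trans List.perm_middle
      exact (List.perm_cons u).mp this
    have hnU := (List.nodup_cons.mp hn).2
    cases V₂ with
    | nil =>
      rw [List.append_nil] at hp'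
      have h1 : V₁ ≠ U.reverse := by
        rintro rfl
        apply hr
        rw [List.reverse_cons]
      obtain ⟨e₁, e₂, e₃, h2, h3⟩ := agree U V₁ hnU hp' (fun a b h h' => by
        refine hc a b (h.trans (List.suffix_cons u U).isInfix) ?_
        exact h'.trans (List.prefix_append V₁ [u]).isInfix) h1
      refine ⟨e₁, e₂, e₃, h2.trans (List.sublist_cons_self u U), ?_⟩
      rcases h3 with h3 | h3
      · exact Or.inl (h3.trans (List.sublist_append_left _ _))
      · exact Or.inr (h3.trans (List.sublist_append_left _ _))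
    | cons v V₂ =>
      have hv : v ∈ U := hp'.mem_iff.mpr (by simp)
      obtain ⟨U₁, U₂, rfl⟩ := List.append_of_mem hv
      cases U₁ with
      | nil =>
        exfalso
        exact hc u v ⟨[], U₂, rfl⟩ ⟨V₁, V₂, by simp⟩
      | cons c U₁ =>
        have hc1 : c ∈ V₁ ++ v :: V₂ := hp'.subset (by simp)
        have hcv : c ≠ v := by
          rintro rfl
          simp at hnU
        refine ⟨u, c, v, ?_, ?_⟩
        · have : [c, v] <+ c :: U₁ ++ v :: U₂ := by
            have h1 : [c] <+ c :: U₁ := by simp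
            have h2 : [v] <+ v :: U₂ := by simp
            exact h1.append h2
          exact this.cons_cons u
        · rcases List.mem_append.mp hc1 with h | h
          · left
            have h1 : [c] <+ V₁ := List.singleton_sublist.mpr h
            have h2 : [u, v] <+ u :: v :: V₂ := by simp
            exact h1.append h2
          · right
            have h1 : c ∈ V₂ := by
              rcases List.mem_cons.mp h with h | h
              · exact absurd h hcv
              · exact h
            have h2 : [c] <+ V₂ := List.singleton_sublist.mpr h1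
            have h3 : [u, v, c] <+ u :: v :: V₂ := (h2.cons_cons v).cons_cons u
            exact h3.trans (List.sublist_append_right _ _)

/-- The version of `agree` in which the last letter of the first arrangement is used. -/
theorem agree_end {X₀ X' : List α} {q : α} (hn : (X₀ ++ [q]).Nodup) (hp : X₀ ++ [q] ~ X')
    (hc : ∀ a b, [a, b] <:+: X₀ ++ [q] → ¬ [a, b] <:+: X') (hq : ∀ Y, X' ≠ q :: Y) :
    ∃ e₁ e₂, [e₁, e₂] <+ X₀ ∧ ([e₂, e₁, q] <+ X' ∨ [e₁, q, e₂] <+ X') := by
  have hq1 : q ∈ X' := hp.subset (by simp)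
  obtain ⟨Y₁, Y₂, rfl⟩ := List.append_of_mem hq1
  have hn' := hp.nodup_iff.mp hn
  rcases List.eq_nil_or_concat Y₁ with rfl | ⟨Y, a, rfl⟩
  · exact absurd rfl (hq Y₂)
  · rw [List.concat_eq_append] at *
    have haq : a ≠ q := by
      rintro rfl
      simp [List.nodup_append] at hn'
    have ha : a ∈ X₀ := by
      have : a ∈ X₀ ++ [q] := hp.mem_iff.mpr (by simp)
      rcases List.mem_append.mp this with h | h
      · exact h
      · exact absurd (List.mem_singleton.mp h) haq
    obtain ⟨W₁, W₂, rfl⟩ := List.append_of_mem ha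
    cases W₂ with
    | nil =>
      exfalso
      exact hc a q ⟨W₁, [], by simp⟩ ⟨Y, Y₂, by simp⟩
    | cons c W₂ =>
      have hca : c ≠ a := by
        rintro rfl
        simp [List.nodup_append] at hn
      have hcq : c ≠ q := by
        rintro rfl
        simp [List.nodup_append] at hn
      have hcm : c ∈ Y ++ [a] ++ q :: Y₂ := hp.subset (by simp)
      refine ⟨a, c, ?_, ?_⟩
      · have h2 : [a, c] <+ a :: c :: W₂ := by simp
        exact h2.trans (List.sublist_append_right _ _)
      · rcases List.mem_append.mp hcm with h | h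
        · left
          have h1 : c ∈ Y := by
            rcases List.mem_append.mp h with h | h
            · exact h
            · exact absurd (List.mem_singleton.mp h) hca
          have h2 : [c] <+ Y := List.singleton_sublist.mpr h1
          have h3 : [c, a] <+ Y ++ [a] := h2.append (List.Sublist.refl [a])
          have h4 : [q] <+ q :: Y₂ := by simp
          exact h3.append h4
        · right
          have h1 : c ∈ Y₂ := by
            rcases List.mem_cons.mp h with h | h
            · exact absurd h hcq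
            · exact h
          have h2 : [a] <+ Y ++ [a] := List.sublist_append_right _ _
          have h3 : [q, c] <+ q :: Y₂ := (List.singleton_sublist.mpr h1).cons_cons q
          exact h2.append h3

theorem kl_core [DecidableEq α] {w p q : α} {A X₀ B D : List α}
    (hQ : (w :: (A ++ p :: X₀ ++ [q])).Nodup)
    (hp : w :: (A ++ p :: X₀ ++ [q]) ~ w :: (B ++ p :: D)) (hD : D ≠ [])
    (hc : ∀ a b, CAdj a b (w :: (A ++ p :: X₀ ++ [q])) → ¬ CAdj a b (w :: (B ++ p :: D)))
    (hr : ¬ w :: (B ++ p :: D) ~r (w :: (A ++ p :: X₀ ++ [q])).reverse) :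
    ∃ Z' R, Chn Sw 3 (w :: (B ++ p :: D), w :: (A ++ p :: X₀ ++ [q]))
      (p :: Z', p :: (R ++ [q])) := by
  by_contra hno
  have hZ : (w :: (B ++ p :: D)).Nodup := hp.nodup_iff.mp hQ
  have pat : ∀ {l m z r : List α}, l <+ A ++ p :: X₀ → m <+ B ++ p :: D →
      ¬ Chn Sw 3 (w :: m, w :: (l ++ [q])) (p :: z, p :: (r ++ [q])) := by
    intro l m z r hl hm hch
    exact hno (aim_of_pat hl hm hQ hZ hch)
  -- facts from nodup
  have nQ : w ∉ A ∧ w ≠ p ∧ w ∉ X₀ ∧ w ≠ q ∧ A.Nodup ∧ p ∉ A ∧ p ∉ X₀ ∧ p ≠ q ∧ X₀.Nodup ∧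
      q ∉ X₀ ∧ q ∉ A ∧ (∀ a ∈ A, a ∉ X₀) := by
    simp only [List.nodup_cons, List.nodup_append, List.mem_append, List.mem_cons,
      List.append_assoc, List.cons_append, List.not_mem_nil, or_false, not_or, ne_eq,
      List.nodup_nil, and_true, forall_eq_or_imp, forall_eq] at hQ
    obtain ⟨⟨h1, h2, h3, h4⟩, h5, ⟨⟨h6, h7⟩, h8, h9⟩, h10⟩ := hQ
    refine ⟨h1, h2, h3, h4, h5, ?_, h6, h7, h8, ?_, ?_, ?_⟩
    · intro h; exact (h10 p h).1 rfl
    · intro h
      exact h9.2 q h rfl
    · intro h
      have := (h10 q h).2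
      exact this q (Or.inr rfl) rfl
    · intro a ha hx
      exact (h10 a ha).2 a (Or.inl hx) rfl
  obtain ⟨wA, wp, wX, wq, ndA, pA, pX, pq, ndX, qX, qA, AX⟩ := nQ
  have nZ : w ∉ B ∧ w ∉ D ∧ B.Nodup ∧ p ∉ B ∧ p ∉ D ∧ D.Nodup ∧ (∀ b ∈ B, b ∉ D) := by
    simp only [List.nodup_cons, List.nodup_append, List.mem_append, List.mem_cons, not_or, ne_eq,
      forall_eq_or_imp] at hZ
    obtain ⟨⟨h1, h2, h3⟩, h5, ⟨h6, h7⟩, h10⟩ := hZ
    exact ⟨h1, h3, h5, fun h => (h10 p h).1 rfl, h6, h7, fun b hb hd => (h10 b hb).2 b hd rfl⟩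
  obtain ⟨wB, wD, ndB, pB, pD, ndD, BD⟩ := nZ
  have lQ : ∀ v, v ∈ A ∨ v ∈ X₀ ∨ v = q → v ∈ B ∨ v ∈ D := by
    intro v hv
    have h1 : v ∈ w :: (A ++ p :: X₀ ++ [q]) := by
      rcases hv with h | h | h
      · simp [h]
      · simp [h]
      · simp [h]
    have h2 := hp.subset h1
    have h3 : v ≠ w := by
      rintro rfl
      rcases hv with h | h | h
      · exact wA h
      · exact wX h
      · exact wq h
    have h4 : v ≠ p := by
      rintro rfl
      rcases hv with h | h | h
      · exact pA h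
      · exact pX h
      · exact pq h
    simp only [List.mem_cons, List.mem_append, h3, h4, false_or] at h2
    exact h2
  have lZ : ∀ v, v ∈ B ∨ v ∈ D → v ∈ A ∨ v ∈ X₀ ∨ v = q := by
    intro v hv
    have h1 : v ∈ w :: (B ++ p :: D) := by
      rcases hv with h | h
      · simp [h]
      · simp [h]
    have h2 := hp.symm.subset h1
    have h3 : v ≠ w := by
      rintro rfl
      rcases hv with h | h
      · exact wB h
      · exact wD h
    have h4 : v ≠ p := by
      rintro rfl
      rcases hv with h | h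
      · exact pB h
      · exact pD h
    simp only [List.mem_cons, List.mem_append, h3, h4, false_or, List.not_mem_nil, or_false] at h2
    rcases h2 with (h2 | h2) | h2
    · exact Or.inl h2
    · exact Or.inr (Or.inl h2)
    · exact Or.inr (Or.inr h2)
  have s1 : ∀ {l : List α} {a : α}, a ∈ l → [a] <+ l := fun h => List.singleton_sublist.mpr h
  -- the letters of `D` are in `A`
  have f1 : ∀ x ∈ D, x ∉ X₀ ∧ x ≠ q := by
    intro x hx
    constructor
    · intro hx2
      refine pat (l := [p, x]) (m := [p, x]) (z := [w, x]) (r := [w, x])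
        ((((s1 hx2).cons_cons p)).trans (List.sublist_append_right _ _))
        ((((s1 hx).cons_cons p)).trans (List.sublist_append_right _ _)) ?_
      exact (Chn.single (Sw.sw w p x (A₁ := []) (A₂ := []) (A₃ := []) (B₁ := []) (B₂ := [])
        (B₃ := [q]) ⟨0, rfl⟩ ⟨0, rfl⟩ ⟨0, rfl⟩ ⟨3, rfl⟩)).mono (by omega)
    · rintro rfl
      refine pat (l := [p]) (m := [p, x]) (z := [w, x]) (r := [w])
        (((List.Sublist.refl _)).trans (List.sublist_append_right A [p] |>.trans (by simp)))
        ((((s1 hx).cons_cons p)).trans (List.sublist_append_right _ _)) ?_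
      exact (Chn.single (Sw.sw w p x (A₁ := []) (A₂ := []) (A₃ := []) (B₁ := []) (B₂ := [])
        (B₃ := []) ⟨0, rfl⟩ ⟨0, rfl⟩ ⟨0, rfl⟩ ⟨2, rfl⟩)).mono (by omega)
  have f2 : ∀ d ∈ D, d ∈ A := by
    intro d hd
    rcases lZ d (Or.inr hd) with h | h | h
    · exact h
    · exact absurd h (f1 d hd).1
    · exact absurd h (f1 d hd).2
  have f3 : ∀ x, x ∈ X₀ ∨ x = q → x ∈ B := by
    intro x hx
    rcases lQ x (Or.inr hx) with h | h
    · exact h
    · rcases hx with hx | hx
      · exact absurd hx (f1 x h).1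
      · exact absurd hx (f1 x h).2
  have f4 : q ∈ B := f3 q (Or.inr rfl)
  obtain ⟨d₀, hd₀⟩ := List.exists_mem_of_ne_nil D hD
  -- the common letters
  have key : ∀ (r : α) (A₁ A₂ B₁ B₂ : List α), A = A₁ ++ r :: A₂ → B = B₁ ++ r :: B₂ →
      ((∀ d ∈ D, d ∈ A₁) ∧ ∀ x, x ∈ X₀ ∨ x = q → x ∈ B₁) ∨
      ((∀ d ∈ D, d ∈ A₂) ∧ ∀ x, x ∈ X₀ ∨ x = q → x ∈ B₂) := by
    intro r A₁ A₂ B₁ B₂ hA hB
    have hrA : r ∈ A := by rw [hA]; simp
    have hrB : r ∈ B := by rw [hB]; simp
    have gD : ∀ d ∈ D, d ∈ A₁ ∨ d ∈ A₂ := by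
      intro d hd
      have h1 := f2 d hd
      rw [hA] at h1
      rcases List.mem_append.mp h1 with h | h
      · exact Or.inl h
      · rcases List.mem_cons.mp h with h | h
        · subst h; exact absurd hd (BD d hrB)
        · exact Or.inr h
    have gX : ∀ x, x ∈ X₀ ∨ x = q → x ∈ B₁ ∨ x ∈ B₂ := by
      intro x hx
      have h1 := f3 x hx
      rw [hB] at h1
      rcases List.mem_append.mp h1 with h | h
      · exact Or.inl h
      · rcases List.mem_cons.mp h with h | h
        · subst h
          rcases hx with hx | hx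
          · exact absurd hx (AX x hrA)
          · subst hx; exact absurd hrA qA
        · exact Or.inr h
    rcases gX q (Or.inr rfl) with hq | hq
    · -- q before r
      have h1 : ∀ d ∈ D, d ∉ A₂ := by
        intro d hd h
        refine pat (l := [r, d, p]) (m := [q, r, p, d]) ?_ ?_ (pat2iia d p q r w)
        · rw [hA]
          have h3 : [r, d] <+ r :: A₂ := (s1 h).cons_cons r
          have h4 : [p] <+ p :: X₀ := by simp
          exact (h3.trans (List.sublist_append_right _ _)).append h4
        · rw [hB]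
          have h3 : [q] <+ B₁ := s1 hq
          have h4 : [r] <+ r :: B₂ := by simp
          have h5 : [p, d] <+ p :: D := (s1 hd).cons_cons p
          exact (h3.append h4).append h5
      left
      have h2 : ∀ d ∈ D, d ∈ A₁ := fun d hd => (gD d hd).resolve_right (h1 d hd)
      refine ⟨h2, ?_⟩
      intro x hx
      rcases hx with hx | hx
      · rcases gX x (Or.inl hx) with h | h
        · exact h
        · exfalso
          refine pat (l := [d₀, r, p, x]) (m := [q, r, x, p, d₀]) ?_ ?_ (pat2ib d₀ p q r w x)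
          · rw [hA]
            have h3 : [d₀] <+ A₁ := s1 (h2 d₀ hd₀)
            have h4 : [r] <+ r :: A₂ := by simp
            have h5 : [p, x] <+ p :: X₀ := (s1 hx).cons_cons p
            exact (h3.append h4).append h5
          · rw [hB]
            have h3 : [q] <+ B₁ := s1 hq
            have h4 : [r, x] <+ r :: B₂ := (s1 h).cons_cons r
            have h5 : [p, d₀] <+ p :: D := (s1 hd₀).cons_cons p
            exact (h3.append h4).append h5
      · rw [hx]; exact hq
    · -- q after r
      have h1 : ∀ d ∈ D, d ∉ A₁ := by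
        intro d hd h
        refine pat (l := [d, r, p]) (m := [r, q, p, d]) ?_ ?_ (pat2ia d p q r w)
        · rw [hA]
          have h3 : [d] <+ A₁ := s1 h
          have h4 : [r] <+ r :: A₂ := by simp
          have h5 : [p] <+ p :: X₀ := by simp
          exact (h3.append h4).append h5
        · rw [hB]
          have h4 : [r, q] <+ r :: B₂ := (s1 hq).cons_cons r
          have h5 : [p, d] <+ p :: D := (s1 hd).cons_cons p
          exact (h4.trans (List.sublist_append_right _ _)).append h5
      right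
      have h2 : ∀ d ∈ D, d ∈ A₂ := fun d hd => (gD d hd).resolve_left (h1 d hd)
      refine ⟨h2, ?_⟩
      intro x hx
      rcases hx with hx | hx
      · rcases gX x (Or.inl hx) with h | h
        · exfalso
          refine pat (l := [r, d₀, p, x]) (m := [x, r, q, p, d₀]) ?_ ?_ (pat2iib d₀ p q r w x)
          · rw [hA]
            have h4 : [r, d₀] <+ r :: A₂ := (s1 (h2 d₀ hd₀)).cons_cons r
            have h5 : [p, x] <+ p :: X₀ := (s1 hx).cons_cons p
            exact (h4.trans (List.sublist_append_right _ _)).append h5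
          · rw [hB]
            have h3 : [x] <+ B₁ := s1 h
            have h4 : [r, q] <+ r :: B₂ := (s1 hq).cons_cons r
            have h5 : [p, d₀] <+ p :: D := (s1 hd₀).cons_cons p
            exact (h3.append h4).append h5
        · exact h
      · rw [hx]; exact hq
  -- the first letter of `A` is not in `B`
  obtain ⟨a₀, A', hA'⟩ : ∃ a A', A = a :: A' := by
    cases hA : A with
    | nil =>
      have h1 := f2 d₀ hd₀
      rw [hA] at h1
      exact absurd h1 (by simp)
    | cons a A' => exact ⟨a, A', rfl⟩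
  have ga₀ : a₀ ∉ B := by
    intro hb
    obtain ⟨B₁, B₂, hB⟩ := List.append_of_mem hb
    rcases key a₀ [] A' B₁ B₂ hA' hB with ⟨h1, -⟩ | ⟨h1, h2⟩
    · exact absurd (h1 d₀ hd₀) (by simp)
    · cases hB1 : B₁ with
      | nil =>
        rw [hB1] at hB
        refine hc w a₀ ?_ ?_
        · rw [hA']; exact CAdj.mid w a₀ [] _
        · rw [hB]; exact CAdj.mid w a₀ [] _
      | cons b₀ B₁' =>
        rw [hB1] at hB
        have hbne : b₀ ≠ a₀ := by
          rintro rfl
          rw [hB] at ndB
          simp at ndB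
        have hbB : b₀ ∈ B := by rw [hB]; simp
        have hbB2 : b₀ ∉ B₂ := by
          intro h
          rw [hB] at ndB
          simp [h] at ndB
        have hbA : b₀ ∈ A' := by
          rcases lZ b₀ (Or.inl hbB) with h | h
          · rw [hA'] at h
            rcases List.mem_cons.mp h with h | h
            · exact absurd h hbne
            · exact h
          · exact absurd (h2 b₀ h) hbB2
        obtain ⟨A₁', A₂', hA''⟩ := List.append_of_mem hbA
        rcases key b₀ (a₀ :: A₁') A₂' [] (B₁' ++ a₀ :: B₂) (by rw [hA', hA'']; rfl)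
          (by rw [hB]; rfl) with ⟨-, h3⟩ | ⟨h3, -⟩
        · exact absurd (h3 q (Or.inr rfl)) (by simp)
        · refine pat (l := [a₀, b₀, d₀, p]) (m := [b₀, a₀, q, p, d₀]) ?_ ?_ (pat6a d₀ p q a₀ b₀ w)
          · rw [hA', hA'']
            have h4 : [b₀, d₀] <+ b₀ :: A₂' := (s1 (h3 d₀ hd₀)).cons_cons b₀
            have h5 : [p] <+ p :: X₀ := by simp
            exact ((h4.trans (List.sublist_append_right _ _)).cons_cons a₀).append h5
          · rw [hB]
            have h4 : [a₀, q] <+ a₀ :: B₂ := (s1 (h2 q (Or.inr rfl))).cons_cons a₀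
            have h5 : [p, d₀] <+ p :: D := (s1 hd₀).cons_cons p
            exact ((h4.trans (List.sublist_append_right _ _)).cons_cons b₀).append h5
  -- the last letter of `A` is not in `B`
  obtain ⟨a₁, A'', hA''⟩ : ∃ a A'', A = A'' ++ [a] := by
    rcases List.eq_nil_or_concat A with h | ⟨L, b, h⟩
    · rw [h] at hA'; exact absurd hA' (by simp)
    · exact ⟨b, L, by rw [h, List.concat_eq_append]⟩
  have ga₁ : a₁ ∉ B := by
    intro hb
    obtain ⟨B₁, B₂, hB⟩ := List.append_of_mem hb
    rcases key a₁ A'' [] B₁ B₂ hA'' hB with ⟨h1, h2⟩ | ⟨h1, -⟩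
    · rcases List.eq_nil_or_concat B₂ with hB2 | ⟨B₂', b₁, hB2⟩
      · rw [hB2] at hB
        refine hc a₁ p ?_ ?_
        · rw [hA'']
          have : w :: (A'' ++ [a₁] ++ p :: X₀ ++ [q]) = (w :: A'') ++ a₁ :: p :: (X₀ ++ [q]) := by
            simp
          rw [this]; exact CAdj.mid _ _ _ _
        · rw [hB]
          have : w :: (B₁ ++ a₁ :: [] ++ p :: D) = (w :: B₁) ++ a₁ :: p :: D := by simp
          rw [this]; exact CAdj.mid _ _ _ _
      · rw [List.concat_eq_append] at hB2
        rw [hB2] at hB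
        have hbne : b₁ ≠ a₁ := by
          rintro rfl
          rw [hB] at ndB
          simp [List.nodup_append] at ndB
        have hbB : b₁ ∈ B := by rw [hB]; simp
        have hbB1 : b₁ ∉ B₁ := by
          intro h
          rw [hB] at ndB
          simp only [List.nodup_append] at ndB
          exact ndB.2.2 b₁ h b₁ (by simp) rfl
        have hbA : b₁ ∈ A'' := by
          rcases lZ b₁ (Or.inl hbB) with h | h
          · rw [hA''] at h
            rcases List.mem_append.mp h with h | h
            · exact h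
            · exact absurd (List.mem_singleton.mp h) hbne
          · exact absurd (h2 b₁ h) hbB1
        obtain ⟨A₁', A₂', hA3⟩ := List.append_of_mem hbA
        rcases key b₁ A₁' (A₂' ++ [a₁]) (B₁ ++ a₁ :: B₂') [] (by rw [hA'', hA3]; simp)
          (by rw [hB]; simp) with ⟨h3, -⟩ | ⟨-, h3⟩
        · refine pat (l := [d₀, b₁, a₁, p]) (m := [q, a₁, b₁, p, d₀]) ?_ ?_
            (pat6b d₀ p q b₁ a₁ w)
          · rw [hA'', hA3]
            have h4 : [d₀, b₁] <+ A₁' ++ b₁ :: A₂' :=
              (s1 (h3 d₀ hd₀)).append (by simp : [b₁] <+ b₁ :: A₂')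
            have h5 : [p] <+ p :: X₀ := by simp
            exact (h4.append (List.Sublist.refl [a₁])).append h5
          · rw [hB]
            have h4 : [q] <+ B₁ := s1 (h2 q (Or.inr rfl))
            have h6 : [a₁, b₁] <+ a₁ :: (B₂' ++ [b₁]) :=
              (List.sublist_append_right B₂' [b₁]).cons_cons a₁
            have h5 : [p, d₀] <+ p :: D := (s1 hd₀).cons_cons p
            exact (h4.append h6).append h5
        · exact absurd (h3 q (Or.inr rfl)) (by simp)
    · exact absurd (h1 d₀ hd₀) (by simp)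
  have da₀ : a₀ ∈ D := by
    rcases lQ a₀ (Or.inl (by rw [hA']; simp)) with h | h
    · exact absurd h ga₀
    · exact h
  have da₁ : a₁ ∈ D := by
    rcases lQ a₁ (Or.inl (by rw [hA'']; simp)) with h | h
    · exact absurd h ga₁
    · exact h
  have gR : ∀ r ∈ A, r ∉ B := by
    intro r hr1 hr2
    obtain ⟨A₁, A₂, hA⟩ := List.append_of_mem hr1
    obtain ⟨B₁, B₂, hB⟩ := List.append_of_mem hr2
    rw [hA] at ndA
    rcases key r A₁ A₂ B₁ B₂ hA hB with ⟨h1, -⟩ | ⟨h1, -⟩
    · have h2 := h1 a₁ da₁
      have h3 : a₁ ∈ A₂ ∨ a₁ = r := by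
        rcases List.eq_nil_or_concat A₂ with h | ⟨L, b, h⟩
        · rw [h, hA''] at hA
          right
          have := List.append_inj' hA rfl
          simpa using this.2
        · rw [List.concat_eq_append] at h
          rw [h, hA''] at hA
          left
          have h4 : A₁ ++ r :: (L ++ [b]) = (A₁ ++ r :: L) ++ [b] := by simp
          rw [h4] at hA
          have h5 := (List.append_inj' hA rfl).2
          rw [h]
          simp only [List.cons.injEq, and_true] at h5
          simp [h5]
      rw [List.nodup_append] at ndA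
      rcases h3 with h3 | h3
      · exact ndA.2.2 a₁ h2 a₁ (List.mem_cons_of_mem _ h3) rfl
      · exact ndA.2.2 a₁ h2 r List.mem_cons_self h3
    · have h2 := h1 a₀ da₀
      have h3 : a₀ ∈ A₁ ∨ a₀ = r := by
        cases hA1 : A₁ with
        | nil =>
          rw [hA1, hA'] at hA
          right
          simp only [List.nil_append, List.cons.injEq] at hA
          exact hA.1
        | cons c L =>
          rw [hA1, hA'] at hA
          left
          simp only [List.cons_append, List.cons.injEq] at hA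
          rw [hA.1]
          exact List.mem_cons_self
      rw [List.nodup_append] at ndA
      rcases h3 with h3 | h3
      · exact ndA.2.2 a₀ h3 a₀ (List.mem_cons_of_mem _ h2) rfl
      · rw [h3] at h2
        exact (List.nodup_cons.mp ndA.2.1).1 h2
  have pAD : A ~ D := by
    refine (List.perm_ext_iff_of_nodup ndA ndD).mpr fun v => ⟨fun h => ?_, f2 v⟩
    rcases lQ v (Or.inl h) with h1 | h1
    · exact absurd h1 (gR v h)
    · exact h1
  have ndXq : (X₀ ++ [q]).Nodup := by
    rw [List.nodup_append]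
    refine ⟨ndX, by simp, ?_⟩
    rintro a ha b hb rfl
    rw [List.mem_singleton.mp hb] at ha
    exact qX ha
  have pXB : X₀ ++ [q] ~ B := by
    refine (List.perm_ext_iff_of_nodup ndXq ndB).mpr fun v => ⟨fun h => ?_, fun h => ?_⟩
    · exact f3 v (by simpa using h)
    · rcases lZ v (Or.inl h) with h1 | h1 | h1
      · exact absurd h (gR v h1)
      · simp [h1]
      · simp [h1]
  -- the case `D ≠ A.reverse`
  have hDr : D = A.reverse := by
    by_contra hne
    obtain ⟨e₁, e₂, e₃, h1, h2⟩ := agree A D ndA pAD (fun a b h h' => by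
      refine hc a b ?_ ?_
      · have := CAdj.inner (A := [w]) (B := p :: X₀ ++ [q]) h
        simpa using this
      · have := CAdj.inner (A := w :: (B ++ [p])) (B := []) h'
        simpa using this) hne
    have h3 : [e₁, e₂, e₃, p] <+ A ++ p :: X₀ := h1.append (by simp : [p] <+ p :: X₀)
    rcases h2 with h2 | h2
    · exact pat (l := [e₁, e₂, e₃, p]) (m := [q, p, e₂, e₁, e₃]) h3
        ((s1 f4).append (h2.cons_cons p)) (pat4a e₁ e₂ e₃ p q w)
    · exact pat (l := [e₁, e₂, e₃, p]) (m := [q, p, e₁, e₃, e₂]) h3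
        ((s1 f4).append (h2.cons_cons p)) (pat4b e₁ e₂ e₃ p q w)
  have hdA : [d₀] <+ A := s1 (f2 d₀ hd₀)
  have hpd : [p, d₀] <+ p :: D := (s1 hd₀).cons_cons p
  obtain ⟨B', hB'⟩ : ∃ Y, B = q :: Y := by
    by_contra hne
    push Not at hne
    obtain ⟨e₁, e₂, h1, h2⟩ := agree_end ndXq pXB (fun a b h h' => by
      refine hc a b ?_ ?_
      · have := CAdj.inner (A := w :: (A ++ [p])) (B := []) h
        simpa using this
      · have := CAdj.inner (A := [w]) (B := p :: D) h'
        simpa using this) hne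
    have h3 : [d₀, p, e₁, e₂] <+ A ++ p :: X₀ := hdA.append (h1.cons_cons p)
    rcases h2 with h2 | h2
    · exact pat (l := [d₀, p, e₁, e₂]) (m := [e₂, e₁, q, p, d₀]) h3 (h2.append hpd)
        (pat3a d₀ e₁ e₂ p q w)
    · exact pat (l := [d₀, p, e₁, e₂]) (m := [e₁, q, e₂, p, d₀]) h3 (h2.append hpd)
        (pat3b d₀ e₁ e₂ p q w)
  rw [hB'] at pXB
  have pX' : X₀ ~ B' := by
    have h1 : q :: X₀ ~ q :: B' := (List.perm_append_singleton q X₀).symm.trans pXB
    exact (List.perm_cons q).mp h1
  have hBr : B' = X₀.reverse := by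
    by_contra hne
    obtain ⟨e₁, e₂, e₃, h1, h2⟩ := agree X₀ B' ndX pX' (fun a b h h' => by
      refine hc a b ?_ ?_
      · have := CAdj.inner (A := w :: (A ++ [p])) (B := [q]) h
        simpa using this
      · rw [hB']
        have := CAdj.inner (A := [w, q]) (B := p :: D) h'
        simpa using this) hne
    have h3 : [d₀, p, e₁, e₂, e₃] <+ A ++ p :: X₀ := hdA.append (h1.cons_cons p)
    rcases h2 with h2 | h2
    · refine pat (l := [d₀, p, e₁, e₂, e₃]) (m := [q, e₂, e₁, e₃, p, d₀]) h3 ?_
        (pat3c d₀ e₁ e₂ e₃ p q w)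
      rw [hB']
      exact (h2.cons_cons q).append hpd
    · refine pat (l := [d₀, p, e₁, e₂, e₃]) (m := [q, e₁, e₃, e₂, p, d₀]) h3 ?_
        (pat3d d₀ e₁ e₂ e₃ p q w)
      rw [hB']
      exact (h2.cons_cons q).append hpd
  apply hr
  rw [hB', hBr, hDr]
  have e1 : (w :: (A ++ p :: X₀ ++ [q])).reverse = (q :: X₀.reverse ++ p :: A.reverse) ++ [w] := by
    simp
  have e2 : w :: (q :: X₀.reverse ++ p :: A.reverse) = [w] ++ (q :: X₀.reverse ++ p :: A.reverse) :=
    rfl
  rw [e1, e2]
  exact List.isRotated_append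

theorem exists_rot {a : α} {l : List α} (h : a ∈ l) : ∃ r, l ~r a :: r := by
  obtain ⟨s, t, rfl⟩ := List.append_of_mem h
  exact ⟨t ++ s, List.isRotated_append⟩

/-- The key lemma. -/
theorem kl [DecidableEq α] {Z Q : List α} {p q : α} (hQ : Q.Nodup) (hp : Q ~ Z)
    (hc : ∀ a b, CAdj a b Q → ¬ CAdj a b Z) (hr : ¬ Z ~r Q.reverse) (hpm : p ∈ Q) (hqm : q ∈ Q)
    (hne : p ≠ q) (hpq : ∀ x, CAdj p x Z → ¬ CAdj q x Q) : Aim p q (Z, Q) := by
  obtain ⟨Q₁, Q₂, rfl⟩ := List.append_of_mem hqm
  have h1 : Q₁ ++ q :: Q₂ ~r (Q₂ ++ Q₁) ++ [q] := by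
    have : Q₁ ++ q :: Q₂ = (Q₁ ++ [q]) ++ Q₂ := by simp
    rw [this, List.append_assoc Q₂]
    exact List.isRotated_append
  have hpW : p ∈ Q₂ ++ Q₁ := by
    have := h1.perm.subset hpm
    rcases List.mem_append.mp this with h | h
    · exact h
    · exact absurd (List.mem_singleton.mp h) hne
  cases hW : Q₂ ++ Q₁ with
  | nil => rw [hW] at hpW; exact absurd hpW (by simp)
  | cons w W =>
    rw [hW] at h1 hpW
    by_cases hwp : w = p
    · subst hwp
      obtain ⟨Z', hZ'⟩ := exists_rot (hp.subset hpm)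
      exact ⟨Z', W, (Chn.single (Sw.rot hZ' h1)).mono (by omega)⟩
    · have hpW' : p ∈ W := by
        rcases List.mem_cons.mp hpW with h | h
        · exact absurd h.symm hwp
        · exact h
      obtain ⟨A, X₀, hA⟩ := List.append_of_mem hpW'
      have hwZ : w ∈ Z := hp.subset (h1.symm.perm.subset (by simp))
      obtain ⟨Z₃, hZ₃⟩ := exists_rot hwZ
      have hpZ : p ∈ Z₃ := by
        have := hZ₃.perm.subset (hp.subset hpm)
        rcases List.mem_cons.mp this with h | h
        · exact absurd h.symm hwp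
        · exact h
      obtain ⟨B, D, hB⟩ := List.append_of_mem hpZ
      rw [hA] at h1
      rw [hB] at hZ₃
      have e1 : w :: (A ++ p :: X₀) ++ [q] = w :: (A ++ p :: X₀ ++ [q]) := rfl
      rw [e1] at h1
      have hD : D ≠ [] := by
        rintro rfl
        refine hpq w (CAdj.of_rot hZ₃ (CAdj.ends _ _ _)) (CAdj.of_rot h1 (CAdj.ends _ _ _))
      obtain ⟨Z', R, h⟩ := kl_core (w := w) (p := p) (q := q) (A := A) (X₀ := X₀) (B := B) (D := D)
        (h1.perm.nodup_iff.mp hQ) ((h1.perm.symm.trans hp).trans hZ₃.perm) hD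
        (fun a b h h' => hc a b (CAdj.of_rot h1 h) (CAdj.of_rot hZ₃ h'))
        (fun h => hr ((hZ₃.trans h).trans h1.symm.reverse))
      exact ⟨Z', R, Chn.step (Sw.rot hZ₃ h1) h⟩

/-- The case of a common successor. -/
theorem aim_fixed {Z Q : List α} {p q x : α} (hQ : Q.Nodup) (hp : Q ~ Z) (h1 : CAdj p x Z)
    (h2 : CAdj p x Q) (hqm : q ∈ Q) (hne : p ≠ q) : Aim p q (Z, Q) := by
  obtain ⟨Z₃, hZ⟩ := h1
  obtain ⟨Q₃, hQ₃⟩ := h2
  have hq : q ∈ x :: Q₃ := by
    rcases List.mem_cons.mp (hQ₃.perm.subset hqm) with h | h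
    · exact absurd h.symm hne
    · exact h
  obtain ⟨U, V, hUV⟩ := List.append_of_mem hq
  cases V with
  | nil =>
    refine ⟨x :: Z₃, U, (Chn.single (Sw.rot hZ ?_)).mono (by omega)⟩
    rw [hUV] at hQ₃
    exact hQ₃
  | cons w V =>
    have hwx : w ≠ x := by
      have hn : (p :: x :: Q₃).Nodup := hQ₃.perm.nodup_iff.mp hQ
      rw [hUV] at hn
      rintro rfl
      cases U with
      | nil =>
        simp only [List.nil_append, List.cons.injEq] at hUV
        rw [hUV.1] at hn
        simp at hn
      | cons u U =>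
        simp only [List.cons_append, List.cons.injEq] at hUV
        rw [hUV.1] at hn
        simp at hn
    have hwp : w ≠ p := by
      have hn : (p :: x :: Q₃).Nodup := hQ₃.perm.nodup_iff.mp hQ
      rw [hUV] at hn
      rintro rfl
      simp at hn
    have hwZ : w ∈ Z₃ := by
      have h3 : w ∈ p :: x :: Q₃ := by rw [hUV]; simp
      have h4 := hZ.perm.subset (hp.subset (hQ₃.symm.perm.subset h3))
      simp only [List.mem_cons, hwx, hwp, false_or] at h4
      exact h4
    obtain ⟨Z₄, Z₅, hZ4⟩ := List.append_of_mem hwZ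
    cases U with
    | nil =>
      simp only [List.nil_append, List.cons.injEq] at hUV
      obtain ⟨hxq, hQV⟩ := hUV
      subst hxq
      refine ⟨w :: Z₅ ++ x :: Z₄, w :: V, (Chn.single (Sw.sw p x w (A₁ := []) (A₂ := Z₄)
        (A₃ := Z₅) (B₁ := []) (B₂ := []) (B₃ := V) ?_ ?_ ?_ ?_)).mono (by omega)⟩
      · rw [hZ4] at hZ; simpa using hZ
      · rw [hQV] at hQ₃; simpa using hQ₃
      · have : x :: Z₄ ++ [p] ++ w :: Z₅ = (x :: Z₄) ++ (p :: w :: Z₅) := by simp
        rw [this]
        have h5 : p :: (w :: Z₅ ++ x :: Z₄) = (p :: w :: Z₅) ++ (x :: Z₄) := by simp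
        rw [h5]
        exact List.isRotated_append
      · simpa using List.IsRotated.refl _
    | cons u U =>
      simp only [List.cons_append, List.cons.injEq] at hUV
      obtain ⟨rfl, hQV⟩ := hUV
      refine ⟨w :: Z₅ ++ x :: Z₄, w :: V ++ x :: U, (Chn.single (Sw.sw p x w (A₁ := [])
        (A₂ := Z₄) (A₃ := Z₅) (B₁ := []) (B₂ := U ++ [q]) (B₃ := V) ?_ ?_ ?_ ?_)).mono
        (by omega)⟩
      · rw [hZ4] at hZ; simpa using hZ
      · rw [hQV] at hQ₃; simpa using hQ₃
      · have : x :: Z₄ ++ [p] ++ w :: Z₅ = (x :: Z₄) ++ (p :: w :: Z₅) := by simp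
        rw [this]
        have h5 : p :: (w :: Z₅ ++ x :: Z₄) = (p :: w :: Z₅) ++ (x :: Z₄) := by simp
        rw [h5]
        exact List.isRotated_append
      · simpa using List.IsRotated.refl _

end Pool.Agent.QuadEq
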