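import Pool.Agent.Lib.MP_b7851d_lc.Few
import Pool.Agent.Lib.MP_b7851d_lc.Breaks

/-!
# Equations with a linear side
-/

namespace Pool.Agent.QuadEq

open List

variable {L : Type} [DecidableEq L] {D V : L → Bool} {E F : List L × List L}

theorem count_unp {P : List (L × List L)} (hP : Ok D P) {y : L} (hy : D y = true) :
    (unp P).count y = (itv P).count y := by
  induction P with
  | nil => simp [unp, itv]
  | cons s P ih =>
    have hs := hP s List.mem_cons_self
    have h1 : s.2.count y = 0 := List.count_eq_zero_of_not_mem fun h => by
      have := hs.2 y h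
      rw [hy] at this
      exact absurd this (by simp)
    have e : itv (s :: P) = s.1 :: itv P := rfl
    rw [unp_cons, e, List.count_cons, List.count_cons, List.count_append, h1,
      ih fun s hs => hP s (List.mem_cons_of_mem _ hs)]
    omega

omit [DecidableEq L] in
theorem length_unp (P : List (L × List L)) : P.length ≤ (unp P).length := by
  induction P with
  | nil => simp
  | cons s P ih =>
    rw [unp_cons, List.length_cons, List.length_cons, List.length_append]
    omega

theorem hs_of_ok {S : List (L × List L) × List (L × List L)} (h1 : Ok (dbl V (unpE S)) S.1)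
    (h2 : Ok (dbl V (unpE S)) S.2) : Hs (dbl V (unpE S)) S := by
  refine ⟨h1, h2, ?_⟩
  intro v hv
  have hd : dbl V (unpE S) v = true := by
    rcases List.mem_append.mp hv with h | h
    · obtain ⟨s, hs, rfl⟩ := List.mem_map.mp h
      exact (h1 s hs).1
    · obtain ⟨s, hs, rfl⟩ := List.mem_map.mp h
      exact (h2 s hs).1
  rw [← count_unp h1 hd, ← count_unp h2 hd]
  have := dbl_count hd
  unfold unpE at this
  simp only at this
  rwa [List.count_append] at this

/-- A word without repeated variables. -/
def Lin (V : L → Bool) (w : List L) : Prop := ∀ v, V v = true → w.count v ≤ 1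

/-- The bound for jumps. -/
def FJ (N : ℕ) : ℕ := (N + 1) * (FI N + 3)

theorem Chn.weaken {n : ℕ} (hDV : ∀ l, D l = true → V l = true) (h : Chn (Mv D) n E F) :
    Chn (Mv V) n E F := by
  have := h.map (S := Mv V) (f := id) fun a b h => h.weaken hDV
  exact this

theorem jump_lin (h : Jump V E F) (hl : Lin V E.2) {N : ℕ} (hN : len E ≤ N) :
    Chn (Mv V) (FJ N) E F := by
  obtain ⟨S, S', rfl, rfl, h3, h4, h5⟩ := h
  have hs := hs_of_ok h3 h4
  have hn : (itv S.2).Nodup := by
    rw [List.nodup_iff_count_le_one]
    intro v
    by_cases hv : v ∈ itv S.2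
    · obtain ⟨s, hs, rfl⟩ := List.mem_map.mp hv
      have hd := (h4 s hs).1
      rw [← count_unp h4 hd]
      exact hl _ (dbl_imp hd)
    · rw [List.count_eq_zero_of_not_mem hv]; omega
  have hp := onesided_pth _ S S' hs hn rfl h5
  have hlen : S.1.length + S.2.length ≤ N := by
    have h1 := length_unp S.1
    have h2 := length_unp S.2
    unfold len unpE at hN
    simp only [List.length_append] at hN
    omega
  have h6 := pth_short hp hs hlen
  refine (h6.weaken fun l hl => dbl_imp hl).mono ?_
  unfold FJ
  exact Nat.mul_le_mul_right _ (by omega)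

theorem Mv.lin (h : Mv V E F) (hq : Quad V E) (hl : Lin V E.2) : Lin V F.2 := by
  cases h with
  | @erase A B x hx hm =>
    intro v hv
    simp only
    rw [count_sub]
    have := hl v hv
    simp only at this
    split_ifs
    · simp
    · simp only [List.count_nil, mul_zero, add_zero]; exact this
  | cancel u A B =>
    intro v hv
    have := hl v hv
    simp only [List.count_append] at this ⊢
    omega
  | @run A B u x hx hu =>
    intro v hv
    have h1 := hl v hv
    have h2 := hq x hx
    simp only [List.count_append, List.cons_append, List.count_cons_self] at h1 h2 ⊢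
    have h3 : u.count x = 0 := List.count_eq_zero_of_not_mem hu
    have hl' := hl x hx
    simp only [List.count_append] at hl'
    rw [count_sub, List.count_append]
    by_cases hvx : v = x
    · subst hvx
      rw [if_pos rfl, h3, List.count_singleton_self]
      omega
    · rw [if_neg hvx, List.count_singleton, if_neg (by simpa using fun e : x = v => hvx e.symm)]
      rcases Nat.eq_zero_or_pos (B.count x) with h4 | h4
      · rw [h4]; omega
      · have h5 : B.count x = 1 := by omega
        rw [h5]; omega
  | @run' A B u x hx hu =>
    intro v hv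
    have h1 := hl v hv
    have h2 := hl x hx
    simp only [List.count_cons_self] at h1 h2 ⊢
    have h3 : x ∉ A := List.count_eq_zero.mp (by omega)
    rw [sub_eq_self h3]
    exact h1

theorem rtg_lin (h : Relation.ReflTransGen (Mv V) E F) (hq : Quad V E) (hl : Lin V E.2) :
    Lin V F.2 := by
  have key : Quad V F ∧ Lin V F.2 := by
    induction h with
    | refl => exact ⟨hq, hl⟩
    | tail _ h ih => exact ⟨h.quad ih.1, h.lin ih.1 ih.2⟩
  exact key.2

/-- Chains of links of equations with a linear side. -/
theorem chn_lin {n N : ℕ} (h : Chn (Lk V) n E F) (hq : Quad V E) (hl : Lin V E.2)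
    (hN : len E ≤ N) : Chn (Mv V) (n * (FJ N + 1)) E F := by
  induction h with
  | refl => exact Chn.refl _ _
  | @step n a b c h1 _ ih =>
    obtain ⟨p1, p2, p3⟩ := h1.pres hq
    have hlb : Lin V b.2 := by
      rcases h1 with h1 | h1
      · exact h1.lin hq hl
      · exact rtg_lin (h1.mv hq) hq hl
    have h2 := ih p1 hlb (p3.length_le.trans hN)
    have h3 : Chn (Mv V) (FJ N + 1) a b := by
      rcases h1 with h1 | h1
      · exact (Chn.single h1).mono (by omega)
      · exact (jump_lin h1 hl hN).mono (by omega)
    exact (h3.trans h2).mono (by rw [Nat.succ_mul]; omega)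

/-- Every solvable quadratic equation with a linear side has a short chain of elementary steps. -/
theorem exists_chain_lin (hq : Quad V E) (hl : Lin V E.1 ∨ Lin V E.2) {N : ℕ} (hN : len E ≤ N)
    (hs : ∃ h, Solves V h E) : Chn (Mv V) (4 * N * (FJ N + 1)) E ([], []) := by
  have key : ∀ {E : List L × List L}, Quad V E → Lin V E.2 → len E ≤ N → (∃ h, Solves V h E) →
      Chn (Mv V) (4 * N * (FJ N + 1)) E ([], []) := by
    intro E hq hl hN hs
    exact (chn_lin (exists_chain _ E rfl hq hs) hq hl hN).mono
      (Nat.mul_le_mul_right _ (Nat.mul_le_mul_left 4 hN))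
  rcases hl with hl | hl
  · obtain ⟨h, hs⟩ := hs
    exact chn_swap (E := E.swap) (F := ([], [])) (key hq.swap hl (by rw [len_swap]; exact hN)
      ⟨h, hs.swap⟩)
  · exact key hq hl hN hs

/-! ### Certificates -/

open Pool.Agent.PolyTime

/-- Completeness of the verifier for chains of elementary steps. -/
theorem verify_complete_mv {m : ℕ} {n : ℕ} {E F : List (List Bool) × List (List Bool)}
    (h : Chn (Mv isV) n E F) (hF : F = ([], [])) (hq : Quad isV E)
    (hlen : len E ≤ m) (hl : ∀ l ∈ E.1 ++ E.2, size l ≤ m) :
    ∃ c : Cert, verify E c = true ∧ c.length ≤ n ∧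
      ∀ p ∈ c, size p ≤ (2 * bW m + 1) + 22 := by
  induction h with
  | refl n E =>
    subst hF
    exact ⟨[], by rw [verify_nil]; rfl, by simp, by simp⟩
  | @step n E G F h1 _ ih =>
    obtain ⟨p1, p2, p3⟩ := (show Lk isV E G from Or.inl h1).pres hq
    have hlG : ∀ l ∈ G.1 ++ G.2, size l ≤ m := fun l hl' => hl l (p3.subset hl')
    have hlenG : len G ≤ m := p3.length_le.trans hlen
    obtain ⟨c, c1, c2, c3⟩ := ih hF p1 hlenG hlG
    have sG : size G ≤ 2 * bW m + 1 := by
      have k1 : size G.1 ≤ bW m := size_word_le
        ((by unfold len at hlenG; rw [List.length_append] at hlenG; omega))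
        fun l hl' => hlG l (List.mem_append_left _ hl')
      have k2 : size G.2 ≤ bW m := size_word_le
        ((by unfold len at hlenG; rw [List.length_append] at hlenG; omega))
        fun l hl' => hlG l (List.mem_append_right _ hl')
      obtain ⟨a, b⟩ := G
      simp only [size_prod] at k1 k2 ⊢
      omega
    refine ⟨(G, ([], [], [], (([], []), ([], [])))) :: c, ?_, by rw [List.length_cons]; omega, ?_⟩
    · rw [verify_cons, c1, Bool.and_true]
      unfold linkOK
      rw [Bool.or_eq_true]
      left
      exact List.any_eq_true.mpr ⟨G, mem_movesL.mpr h1, by simp⟩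
    · intro p hp
      rcases List.mem_cons.mp hp with rfl | hp
      · rw [size_prod]
        have : size (([], [], [], (([], []), ([], []))) : JData) ≤ 20 := by
          simp only [size_prod, size_list_nil]
          omega
        omega
      · exact c3 p hp

end Pool.Agent.QuadEq
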