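import Pool.Agent.Lib.MP_b7851d_lc.Linear

/-!
# Word equations with a linear side: certificates
-/

namespace Pool.Agent.QuadEq

open Pool.Agent.PolyTime

/-- One of the two sides contains no variable twice. -/
def WordEq.HasLinearSide (E : WordEq) : Prop :=
  (∀ x : ℕ, E.lhs.countP (fun l => decide (l = Sum.inr x)) ≤ 1) ∨
    ∀ x : ℕ, E.rhs.countP (fun l => decide (l = Sum.inr x)) ≤ 1

theorem lin_map {w : List Letter} (h : ∀ x : ℕ, w.countP (fun l => decide (l = Sum.inr x)) ≤ 1) :
    Lin isV (w.map WordEq.code) := by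
  intro v hv
  by_cases hm : v ∈ w.map WordEq.code
  · obtain ⟨l, hl, rfl⟩ := List.mem_map.mp hm
    obtain ⟨x, rfl⟩ := exists_of_isV hv
    rw [count_map_eq code_injective]
    exact h x
  · rw [count_eq_zero_of_not_mem hm]
    omega

theorem lin_tr {E : WordEq} (h : E.HasLinearSide) : Lin isV (tr E).1 ∨ Lin isV (tr E).2 :=
  h.imp lin_map lin_map

/-- The bound for the certificates. -/
def bM (g : ℕ → ℕ) (m : ℕ) : ℕ := g m * ((2 * bW m + 1) + 22 + 1) + 1

theorem PB.bM {g : ℕ → ℕ} (hg : PB g) : PB (QuadEq.bM g) := by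
  have hW : PB fun m => bW m := by
    unfold bW
    exact (PB.id.mul (PB.id.add (PB.const 1))).add (PB.const 1)
  unfold QuadEq.bM
  exact (hg.mul (((((PB.const 2).mul hW).add (PB.const 1)).add (PB.const 22)).add
    (PB.const 1))).add (PB.const 1)

theorem PB.FI : PB fun n => FI n := by
  unfold QuadEq.FI
  exact ((PB.id.mul PB.id).add (PB.const 2)).mul (((PB.const 44).mul PB.id).add (PB.const 6))

theorem PB.FJ : PB fun n => FJ n := by
  unfold QuadEq.FJ
  exact (PB.id.add (PB.const 1)).mul (PB.FI.add (PB.const 3))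

/-- If the solvable equations of a class have short chains of elementary steps, then they have
short certificates. -/
theorem verifyB_complete_mv {g : ℕ → ℕ} {E : WordEq} (hq : E.IsQuadratic)
    (hc : ∀ N, len (tr E) ≤ N → Chn (Mv isV) (g N) (tr E) ([], [])) :
    ∃ c : List Bool, verifyB (tr E) c = true ∧ c.length ≤ bM g (4 * E.encode.length + 1) := by
  have hlen : len (tr E) ≤ 4 * E.encode.length + 1 := by
    unfold len
    rw [length_tr]
    have := length_le_encode E
    omega
  have hl : ∀ l ∈ (tr E).1 ++ (tr E).2, size l ≤ 4 * E.encode.length + 1 := by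
    intro l hl
    unfold tr at hl
    rw [← List.map_append, List.mem_map] at hl
    obtain ⟨l', hl', rfl⟩ := hl
    have := encode_length_letter E hl'
    have := size_letter (WordEq.code l')
    omega
  obtain ⟨c, h1, h2, h3⟩ := verify_complete_mv (hc _ hlen) rfl (quad_tr hq) hlen hl
  refine ⟨bits c, ?_, ?_⟩
  · unfold verifyB
    rw [unbits_bits]
    exact h1
  · rw [bits_length]
    exact (size_list_le h3).trans (Nat.add_le_add_right (Nat.mul_le_mul_right _ h2) 1)

end Pool.Agent.QuadEq
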