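import Pool.Agent.Lib.MP_b7851d_lc.Blocks

/-!
# Word equations: completeness of short paths
-/

namespace Pool.Agent.QuadEq

variable {L : Type} [DecidableEq L] {V : L → Bool}

/-- Two steps lead to a solvable equation with fewer variables. -/
def Exit (V : L → Bool) (E : List L × List L) : Prop :=
  ∃ E', Rch V 2 E E' ∧ vars V E' ⊂ vars V E ∧ ∃ h, Solves V h E'

theorem Exit.swap {E : List L × List L} (h : Exit V E) : Exit V E.swap := by
  obtain ⟨E', h1, h2, h, h3⟩ := h
  have hv : ∀ E : List L × List L, vars V E.swap = vars V E := by
    intro E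
    unfold vars
    ext l
    simp [or_comm]
  refine ⟨E'.swap, h1.swap, ?_, h, h3.swap⟩
  rw [hv, hv]
  exact h2

theorem vars_swap (E : List L × List L) : vars V E.swap = vars V E := by
  unfold vars
  ext l
  simp [or_comm]

theorem mem_vars {E : List L × List L} {l : L} :
    l ∈ vars V E ↔ (l ∈ E.1 ∨ l ∈ E.2) ∧ V l = true := by
  unfold vars
  simp

variable {x : L} {u A B : List L} {h : L → List L}

theorem run_solves {r : List L} (hx : V x = true) (hu : x ∉ u) (hr : h x = ev V h u ++ r)
    (hs : Solves V h (x :: A, u ++ B)) :
    Solves V (Function.update h x r) (x :: sub x (u ++ [x]) A, sub x (u ++ [x]) B) := by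
  unfold Solves at hs ⊢
  simp only at hs ⊢
  rw [ev_cons, if_pos hx, Function.update_self, ev_run hx hu hr, ev_run hx hu hr]
  rw [ev_cons, if_pos hx, hr, List.append_assoc, ev_append (w := u)] at hs
  exact List.append_cancel_left hs

theorem exit_of_eq (hx : V x = true) (hu : x ∉ u) (hr : h x = ev V h u)
    (hs : Solves V h (x :: A, u ++ B)) (hE : Quad V (x :: A, u ++ B)) :
    Exit V (x :: A, u ++ B) := by
  have h1 := run_solves (r := []) hx hu (by rw [hr, List.append_nil]) hs
  have m1 : Mv V (x :: A, u ++ B) (x :: sub x (u ++ [x]) A, sub x (u ++ [x]) B) := Mv.run hx hu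
  have m2 := Mv.erase (V := V) (A := x :: sub x (u ++ [x]) A) (B := sub x (u ++ [x]) B) hx
    (by simp)
  refine ⟨_, (Rch.single m1).trans (Rch.single m2), ?_, Function.update h x [], ?_⟩
  · refine (Finset.ssubset_iff_of_subset ((m2.vars (m1.quad hE)).trans (m1.vars hE))).mpr
      ⟨x, mem_vars.mpr ⟨Or.inl List.mem_cons_self, hx⟩, fun h => ?_⟩
    rcases (mem_vars.mp h).1 with h | h
    · exact not_mem_sub_nil h
    · exact not_mem_sub_nil h
  · unfold Solves at h1 ⊢
    simp only at h1 ⊢
    rw [ev_erase hx (Function.update_self _ _ _), ev_erase hx (Function.update_self _ _ _), h1]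

omit [DecidableEq L] in
theorem ev_const {w : List L} (hw : ∀ c ∈ w, V c = false) : ev V h w = w := by
  induction w with
  | nil => rfl
  | cons l w ih =>
    rw [ev_cons, ih fun c hc => hw c (List.mem_cons_of_mem _ hc),
      if_neg (by rw [hw l List.mem_cons_self]; simp)]
    rfl

/-- Either the value of `x` ends in the word `w` of constants or it extends beyond it. -/
theorem absorb {p w r : List L} (hx : V x = true) (hp : x ∉ p) (hw : ∀ c ∈ w, V c = false)
    (hr : h x = ev V h p ++ r) (hs : Solves V h (x :: A, (p ++ w) ++ B))
    (hE : Quad V (x :: A, (p ++ w) ++ B)) :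
    Exit V (x :: A, (p ++ w) ++ B) ∨ ∃ r', r' ≠ [] ∧ h x = ev V h (p ++ w) ++ r' := by
  have hxw : x ∉ w := fun h => by
    have := hw x h
    rw [hx] at this
    exact absurd this (by simp)
  have hs' : r ++ ev V h A = w ++ ev V h B := by
    have := hs
    unfold Solves at this
    simp only at this
    rw [ev_cons, if_pos hx, hr, ev_append, ev_append, ev_const hw, List.append_assoc,
      List.append_assoc] at this
    exact List.append_cancel_left this
  rcases List.append_eq_append_iff.mp hs' with ⟨w', hw', -⟩ | ⟨r', hr', -⟩
  · left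
    subst hw'
    have e : p ++ (r ++ w') ++ B = (p ++ r) ++ (w' ++ B) := by simp
    rw [e] at hs hE ⊢
    refine exit_of_eq hx ?_ ?_ hs hE
    · intro h
      rcases List.mem_append.mp h with h | h
      · exact hp h
      · exact hxw (List.mem_append_left _ h)
    · rw [hr, ev_append, ev_const fun c hc => hw c (List.mem_append_left _ hc)]
  · by_cases h0 : r' = []
    · left
      refine exit_of_eq hx ?_ ?_ hs hE
      · intro h
        rcases List.mem_append.mp h with h | h
        · exact hp h
        · exact hxw h
      · rw [hr, ev_append, ev_const hw, hr', h0, List.append_nil]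
    · right
      exact ⟨r', h0, by rw [hr, ev_append, ev_const hw, hr', List.append_assoc]⟩

/-- A good block state: valid, quadratic, solved by a non-erasing solution, with different
variables in front. -/
structure Good (V : L → Bool) (h : L → List L) (S : List (L × List L) × List (L × List L)) :
    Prop where
  ok1 : Ok V S.1
  ok2 : Ok V S.2
  quad : Quad V (unpE S)
  solves : Solves V h (unpE S)
  ne : ∀ x ∈ vars V (unpE S), h x ≠ []
  front : ∃ x a P y w Q, S = ((x, a) :: P, (y, w) :: Q) ∧ x ≠ y

theorem Good.swap {S : List (L × List L) × List (L × List L)} (hS : Good V h S) :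
    Good V h S.swap := by
  obtain ⟨h1, h2, h3, h4, h5, x, a, P, y, w, Q, h6, h7⟩ := hS
  refine ⟨h2, h1, h3.swap, h4.swap, ?_, y, w, Q, x, a, P, by rw [h6]; rfl, h7.symm⟩
  have : unpE S.swap = (unpE S).swap := rfl
  rw [this, vars_swap]
  exact h5

theorem step_or_exit {x y : L} {a w : List L} {P Q : List (L × List L)}
    (hS : Good V h ((x, a) :: P, (y, w) :: Q)) (hle : (h y).length ≤ (h x).length) :
    Exit V (unpE ((x, a) :: P, (y, w) :: Q)) ∨
    ∃ S' h', TMove ((x, a) :: P, (y, w) :: Q) S' ∧ Good V h' S' ∧
      (ev V h' (unp S'.1)).length < (ev V h (unp ((x, a) :: P))).length := by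
  have hxy : x ≠ y := by
    obtain ⟨x', a', P', y', w', Q', h1, h2⟩ := hS.front
    rw [Prod.mk.injEq, List.cons.injEq, List.cons.injEq, Prod.mk.injEq, Prod.mk.injEq] at h1
    obtain ⟨⟨⟨rfl, _⟩, _⟩, ⟨⟨rfl, _⟩, _⟩⟩ := h1
    exact h2
  have hx : V x = true := (hS.ok1 _ List.mem_cons_self).1
  have hy : V y = true := (hS.ok2 _ List.mem_cons_self).1
  have hw : ∀ c ∈ w, V c = false := (hS.ok2 _ List.mem_cons_self).2
  have hE : unpE ((x, a) :: P, (y, w) :: Q) = (x :: (a ++ unp P), ([y] ++ w) ++ unp Q) := by
    unfold unpE
    simp [unp_cons]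
  have hs := hS.solves
  have hq := hS.quad
  rw [hE] at hs hq ⊢
  obtain ⟨r, hr⟩ : ∃ r, h x = h y ++ r := by
    have h1 := hs
    unfold Solves at h1
    simp only at h1
    rw [ev_cons, if_pos hx, ev_append (w := [y] ++ w), ev_append (w := [y]), ev_cons, if_pos hy, ev_nil,
      List.append_nil, List.append_assoc] at h1
    rcases List.append_eq_append_iff.mp h1 with ⟨r, hr, -⟩ | ⟨r, hr, -⟩
    · refine ⟨[], ?_⟩
      have := congrArg List.length hr
      rw [List.length_append] at this
      have h0 : r = [] := List.length_eq_zero_iff.mp (by omega)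
      rw [hr, h0]
      simp
    · exact ⟨r, hr⟩
  have hxp : x ∉ [y] := by simpa using hxy
  rcases absorb hx hxp hw (r := r) (by rw [ev_cons, if_pos hy, ev_nil, List.append_nil, hr])
    hs hq with h1 | ⟨r', hr0, hr'⟩
  · exact Or.inl h1
  · right
    have hxw : x ∉ [y] ++ w := by
      intro h
      rcases List.mem_append.mp h with h | h
      · exact hxp h
      · have := hw x h
        rw [hx] at this
        exact absurd this (by simp)
    have hm : TMove ((x, a) :: P, (y, w) :: Q) ((x, a) :: ins x (y, w) P, ins x (y, w) Q) :=
      TMove.mk hxy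
    have hP : Ok V P := fun s hs => hS.ok1 s (List.mem_cons_of_mem _ hs)
    have hQ : Ok V Q := fun s hs => hS.ok2 s (List.mem_cons_of_mem _ hs)
    have ha : x ∉ a := fun h => by
      have := (hS.ok1 _ List.mem_cons_self).2 x h
      rw [hx] at this
      exact absurd this (by simp)
    have hE' : unpE ((x, a) :: ins x (y, w) P, ins x (y, w) Q) =
        (x :: sub x ([y] ++ w ++ [x]) (a ++ unp P), sub x ([y] ++ w ++ [x]) (unp Q)) := by
      unfold unpE
      simp only
      rw [unp_cons, unp_ins hx _ hP, unp_ins hx _ hQ, sub_append, sub_eq_self ha]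
      rfl
    have hsol := run_solves hx hxw hr' hs
    have hinv := Move.inv (N := ((x, a) :: P).length + ((y, w) :: Q).length)
      (I := ((x, a) :: P) ++ ((y, w) :: Q)) (Or.inl hm)
      ⟨hS.ok1, hS.ok2, hS.quad, le_rfl, fun s hs => hs⟩
    have hmv := hm.mv hS.ok1 hS.ok2
    refine ⟨_, Function.update h x r', hm, ⟨hinv.1, hinv.2.1, hinv.2.2.1, ?_, ?_, ?_⟩, ?_⟩
    · rw [hE']; exact hsol
    · intro z hz
      by_cases hzx : z = x
      · subst hzx; rwa [Function.update_self]
      · rw [Function.update_of_ne hzx]
        exact hS.ne z (hmv.vars hS.quad hz)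
    · cases Q with
      | nil =>
        exfalso
        have h1 := hsol
        unfold Solves at h1
        simp only [unp, List.flatMap_nil, sub_nil, ev_nil] at h1
        rw [ev_cons, if_pos hx, Function.update_self] at h1
        exact hr0 (List.append_eq_nil_iff.mp h1).1
      | cons s Q =>
        by_cases hsx : s.1 = x
        · refine ⟨x, a, ins x (y, w) P, y, w, s :: ins x (y, w) Q, ?_, hxy⟩
          have : ins x (y, w) (s :: Q) = (y, w) :: s :: ins x (y, w) Q := by
            simp [ins, hsx]
          rw [this]
        · refine ⟨x, a, ins x (y, w) P, s.1, s.2, ins x (y, w) Q, ?_, fun e => hsx e.symm⟩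
          have : ins x (y, w) (s :: Q) = s :: ins x (y, w) Q := by
            simp [ins, hsx]
          rw [this]
    · have e1 : unp ((x, a) :: ins x (y, w) P) = x :: sub x ([y] ++ w ++ [x]) (a ++ unp P) :=
        congrArg Prod.fst hE'
      simp only
      rw [e1, ev_cons, if_pos hx, Function.update_self, ev_run hx hxw hr', unp_cons, ev_cons,
        if_pos hx, hr']
      simp only [List.length_append]
      rw [ev_append (w := [y]), List.length_append, ev_cons, if_pos hy, ev_nil, List.append_nil]
      have h0 : h y ≠ [] := hS.ne y (by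
        rw [hE]
        exact mem_vars.mpr ⟨Or.inr (by simp), hy⟩)
      have := List.length_pos_iff.mpr h0
      omega

/-- From a good block state, an exit can be reached. -/
theorem guided : ∀ (n : ℕ) (h : L → List L) (S : List (L × List L) × List (L × List L)),
    (ev V h (unp S.1)).length = n → Good V h S →
    ∃ S', Relation.ReflTransGen Move S S' ∧ Exit V (unpE S') := by
  intro n
  induction n using Nat.strong_induction_on with
  | _ n ih =>
    intro h S hn hS
    obtain ⟨x, a, P, y, w, Q, rfl, hxy⟩ := hS.front
    rcases le_total (h y).length (h x).length with hle | hle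
    · rcases step_or_exit hS hle with h1 | ⟨S', h', hm, hg, hlt⟩
      · exact ⟨_, Relation.ReflTransGen.refl, h1⟩
      · obtain ⟨S'', h2, h3⟩ := ih _ (by rw [← hn]; exact hlt) h' S' rfl hg
        exact ⟨S'', Relation.ReflTransGen.head (Or.inl hm) h2, h3⟩
    · rcases step_or_exit hS.swap hle with h1 | ⟨S', h', hm, hg, hlt⟩
      · exact ⟨_, Relation.ReflTransGen.refl, h1.swap⟩
      · have e1 : ev V h (unp ((x, a) :: P)) = ev V h (unp ((y, w) :: Q)) := hS.solves
        have e2 : ev V h' (unp S'.1) = ev V h' (unp S'.2) := hg.solves
        obtain ⟨S'', h2, h3⟩ := ih _ (by rw [← hn]; exact e1 ▸ hlt) h' S'.swap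
          (by rw [e2]; rfl) hg.swap
        refine ⟨S'', Relation.ReflTransGen.head (Or.inr ?_) h2, h3⟩
        rw [Prod.swap_swap]
        exact hm

/-- From a good block state, an exit can be reached in boundedly many steps. -/
theorem phase {N : ℕ} {S : List (L × List L) × List (L × List L)} (hS : Good V h S)
    (hN : 2 * (vars V (unpE S)).card ≤ N) :
    ∃ E', Rch V ((codes N).card + 2) (unpE S) E' ∧ vars V E' ⊂ vars V (unpE S) ∧
      ∃ h, Solves V h E' := by
  obtain ⟨S', h1, E', h2, h3, h4⟩ := guided _ h S rfl hS
  have hlen : S.1.length + S.2.length ≤ N := by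
    rw [← countP_unp hS.ok1, ← countP_unp hS.ok2, ← List.countP_append]
    exact hS.quad.countP_le.trans hN
  obtain ⟨m, hm, h5⟩ := short_block_path h1 hS.ok1 hS.ok2 hS.quad hlen
  have h6 := rch_of_iter h5 hS.ok1 hS.ok2 hS.quad
  exact ⟨E', (h6.mono hm.le).trans h2, h3.trans_subset (h6.vars hS.quad), h4⟩

/-- The number of steps. -/
noncomputable def bnd : ℕ → ℕ
  | 0 => 1
  | v + 1 => bnd v + (codes (2 * (v + 1))).card + 4

theorem exists_common_prefix : ∀ A B : List L, ∃ u A' B', A = u ++ A' ∧ B = u ++ B' ∧
    (A' = [] ∨ B' = [] ∨ ∃ a A'' b B'', A' = a :: A'' ∧ B' = b :: B'' ∧ a ≠ b)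
  | [], B => ⟨[], [], B, rfl, rfl, Or.inl rfl⟩
  | A, [] => ⟨[], A, [], rfl, rfl, Or.inr (Or.inl rfl)⟩
  | a :: A, b :: B => by
    by_cases h : a = b
    · obtain ⟨u, A', B', h1, h2, h3⟩ := exists_common_prefix A B
      exact ⟨a :: u, A', B', by rw [h1]; rfl, by rw [h2, h]; rfl, h3⟩
    · exact ⟨[], a :: A, b :: B, rfl, rfl, Or.inr (Or.inr ⟨a, A, b, B, rfl, rfl, h⟩)⟩

theorem ev_ne_nil {E : List L × List L} (hne : ∀ x ∈ vars V E, h x ≠ []) {l : L} {w : List L}
    (hl : l ∈ E.1 ∨ l ∈ E.2) : ev V h (l :: w) ≠ [] := by
  rw [ev_cons]
  by_cases hv : V l = true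
  · rw [if_pos hv]
    intro e
    exact hne l (mem_vars.mpr ⟨hl, hv⟩) (List.append_eq_nil_iff.mp e).1
  · rw [if_neg hv]
    simp

theorem phase1 {N : ℕ} {a g : List L} {P Q : List (L × List L)} (hP : Ok V ((x, a) :: P))
    (hQ : Ok V Q) (hg : ∀ c ∈ g, V c = false)
    (hq : Quad V (x :: (a ++ unp P), g ++ unp Q))
    (hN : 2 * (vars V (x :: (a ++ unp P), g ++ unp Q)).card ≤ N)
    (hfr : ∀ w Q', g = [] → Q ≠ (x, w) :: Q') :
    ∀ (n : ℕ) (h : L → List L), (ev V h (x :: (a ++ unp P))).length = n →
      Solves V h (x :: (a ++ unp P), g ++ unp Q) →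
      (∀ z ∈ vars V (x :: (a ++ unp P), g ++ unp Q), h z ≠ []) →
      ∃ E', Rch V ((codes N).card + 3) (x :: (a ++ unp P), g ++ unp Q) E' ∧
        vars V E' ⊂ vars V (x :: (a ++ unp P), g ++ unp Q) ∧ ∃ h, Solves V h E' := by
  intro n
  induction n using Nat.strong_induction_on with
  | _ n ih =>
    intro h hn hs hne
    have hx : V x = true := (hP _ List.mem_cons_self).1
    have hxc : ∀ w : List L, (∀ c ∈ w, V c = false) → x ∉ w := fun w hw h => by
      have := hw x h
      rw [hx] at this
      exact absurd this (by simp)
    rcases absorb (p := []) (w := g) (r := h x) (B := unp Q) hx (by simp) hg (by simp) hs hq with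
      hexit | ⟨r, hr0, hr⟩
    · obtain ⟨E', h1, h2, h3⟩ := hexit
      exact ⟨E', h1.mono (by omega), h2, h3⟩
    · rw [List.nil_append] at hr
      have hs1 := run_solves hx (hxc g hg) hr hs
      have hm : Mv V (x :: (a ++ unp P), g ++ unp Q)
        (x :: sub x (g ++ [x]) (a ++ unp P), sub x (g ++ [x]) (unp Q)) := Mv.run hx (hxc g hg)
      cases Q with
      | nil =>
        exfalso
        have h1 := hs1
        unfold Solves at h1
        simp only [unp, List.flatMap_nil, sub_nil, ev_nil] at h1
        rw [ev_cons, if_pos hx, Function.update_self] at h1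
        exact hr0 (List.append_eq_nil_iff.mp h1).1
      | cons s Q =>
        obtain ⟨y, w⟩ := s
        have hy : V y = true := (hQ _ List.mem_cons_self).1
        have hw : ∀ c ∈ w, V c = false := (hQ _ List.mem_cons_self).2
        by_cases hyx : y = x
        · subst hyx
          have hg0 : g ≠ [] := fun e => hfr w Q e rfl
          have hc := hq y hx
          simp only [unp_cons, List.count_append, List.count_cons_self, List.cons_append] at hc
          have h1 : y ∉ a ++ unp P := by
            rw [← List.count_eq_zero, List.count_append]; omega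
          have h2 : y ∉ w ++ unp Q := by
            rw [← List.count_eq_zero, List.count_append]; omega
          have e1 : sub y (g ++ [y]) (a ++ unp P) = a ++ unp P := sub_eq_self h1
          have e2 : sub y (g ++ [y]) (unp ((y, w) :: Q)) = g ++ unp ((y, w) :: Q) := by
            rw [unp_cons, sub_cons, if_pos rfl, sub_eq_self h2]
            simp
          rw [e1, e2] at hs1
          refine ih _ ?_ (Function.update h y r) rfl hs1 ?_
          · rw [← hn, ev_cons, if_pos hx, Function.update_self, ev_update h1, ev_cons, if_pos hx,
              hr, ev_const hg]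
            simp only [List.length_append]
            have := List.length_pos_iff.mpr hg0
            omega
          · intro z hz
            by_cases hzx : z = y
            · subst hzx; rwa [Function.update_self]
            · rw [Function.update_of_ne hzx]
              exact hne z hz
        · obtain ⟨a2, P2, ha2, hca, hP2⟩ := exists_parse V (sub x (g ++ [x]) (a ++ unp P))
          obtain ⟨w2, Q2, hw2, hcw, hQ2⟩ := exists_parse V (sub x (g ++ [x]) (w ++ unp Q))
          have e2 : sub x (g ++ [x]) (unp ((y, w) :: Q)) = y :: (w2 ++ unp Q2) := by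
            rw [unp_cons, sub_cons, if_neg hyx, hw2]
            rfl
          rw [ha2, e2] at hs1 hm
          have hE2 : unpE ((x, a2) :: P2, (y, w2) :: Q2) =
              (x :: (a2 ++ unp P2), y :: (w2 ++ unp Q2)) := by
            unfold unpE
            rw [unp_cons, unp_cons]
          have hgood : Good V (Function.update h x r) ((x, a2) :: P2, (y, w2) :: Q2) := by
            refine ⟨?_, ?_, ?_, ?_, ?_, x, a2, P2, y, w2, Q2, rfl, fun e => hyx e.symm⟩
            · intro t ht
              rcases List.mem_cons.mp ht with rfl | ht
              · exact ⟨hx, hca⟩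
              · exact hP2 t ht
            · intro t ht
              rcases List.mem_cons.mp ht with rfl | ht
              · exact ⟨hy, hcw⟩
              · exact hQ2 t ht
            · rw [hE2]; exact hm.quad hq
            · rw [hE2]; exact hs1
            · intro z hz
              rw [hE2] at hz
              by_cases hzx : z = x
              · subst hzx; rwa [Function.update_self]
              · rw [Function.update_of_ne hzx]
                exact hne z (hm.vars hq hz)
          obtain ⟨E', h1, h2, h3⟩ := phase (N := N) hgood (by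
            rw [hE2]
            exact (Nat.mul_le_mul_left 2 (Finset.card_le_card (hm.vars hq))).trans hN)
          rw [hE2] at h1 h2
          refine ⟨E', ?_, h2.trans_subset (hm.vars hq), h3⟩
          have := (Rch.single hm).trans h1
          rwa [show 1 + ((codes N).card + 2) = (codes N).card + 3 by omega] at this

theorem vars_cancel {u A B : List L} : vars V (A, B) ⊆ vars V (u ++ A, u ++ B) := by
  intro l hl
  rw [mem_vars] at hl ⊢
  simp only [List.mem_append] at hl ⊢
  tauto

/-- A solvable equation with at most `v` variables can be reduced in at most `bnd v` steps. -/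
theorem complete : ∀ (v : ℕ) (E : List L × List L), Quad V E → (vars V E).card ≤ v →
    (∃ h, Solves V h E) → Rch V (bnd v) E ([], []) := by
  intro v
  induction v with
  | zero =>
    rintro ⟨A, B⟩ _ hv ⟨h, hs⟩
    have h0 : vars V (A, B) = ∅ := Finset.card_eq_zero.mp (Nat.le_zero.mp hv)
    have hA : ∀ c ∈ A, V c = false := fun c hc => by
      by_contra hV
      have : c ∈ vars V (A, B) := mem_vars.mpr ⟨Or.inl hc, by simpa using hV⟩
      rw [h0] at this
      simp at this
    have hB : ∀ c ∈ B, V c = false := fun c hc => by
      by_contra hV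
      have : c ∈ vars V (A, B) := mem_vars.mpr ⟨Or.inr hc, by simpa using hV⟩
      rw [h0] at this
      simp at this
    have hAB : A = B := by
      have := hs
      unfold Solves at this
      simp only at this
      rwa [ev_const hA, ev_const hB] at this
    subst hAB
    have := Mv.cancel (V := V) A [] []
    rw [List.append_nil] at this
    exact Rch.single this
  | succ v ih =>
    rintro ⟨A0, B0⟩ hq hv ⟨h, hs⟩
    by_cases her : ∃ x ∈ vars V (A0, B0), h x = []
    · obtain ⟨x, hx, h0⟩ := her
      have hx' := mem_vars.mp hx
      have hm : Mv V (A0, B0) (sub x [] A0, sub x [] B0) :=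
        Mv.erase hx'.2 (by simpa using hx'.1)
      have hlt : vars V (sub x [] A0, sub x [] B0) ⊂ vars V (A0, B0) := by
        refine (Finset.ssubset_iff_of_subset (hm.vars hq)).mpr ⟨x, hx, fun h => ?_⟩
        rcases (mem_vars.mp h).1 with h | h
        · exact not_mem_sub_nil h
        · exact not_mem_sub_nil h
      have hcard := Finset.card_lt_card hlt
      have := ih _ (hm.quad hq) (by omega) ⟨h, by
        unfold Solves at hs ⊢
        simp only at hs ⊢
        rw [ev_erase hx'.2 h0, ev_erase hx'.2 h0, hs]⟩
      have h2 := (Rch.single hm).trans this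
      exact h2.mono (by simp only [bnd]; omega)
    · have hne : ∀ x ∈ vars V (A0, B0), h x ≠ [] := fun x hx e => her ⟨x, hx, e⟩
      obtain ⟨u, A, B, rfl, rfl, hAB⟩ := exists_common_prefix A0 B0
      have hm : Mv V (u ++ A, u ++ B) (A, B) := Mv.cancel u A B
      have hs1 : Solves V h (A, B) := by
        unfold Solves at hs ⊢
        simp only [ev_append] at hs
        exact List.append_cancel_left hs
      have hq1 := hm.quad hq
      have hne1 : ∀ x ∈ vars V (A, B), h x ≠ [] := fun x hx => hne x (hm.vars hq hx)
      have hv1 : (vars V (A, B)).card ≤ v + 1 := (Finset.card_le_card (hm.vars hq)).trans hv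
      rcases hAB with rfl | rfl | ⟨a, A', b, B', rfl, rfl, hab⟩
      · cases B with
        | nil => exact (Rch.single hm).mono (by simp only [bnd]; omega)
        | cons l B =>
          exfalso
          exact ev_ne_nil (w := B) hne1 (Or.inr (List.mem_cons_self (a := l))) hs1.symm
      · cases A with
        | nil => exact (Rch.single hm).mono (by simp only [bnd]; omega)
        | cons l A =>
          exfalso
          exact ev_ne_nil (w := A) hne1 (Or.inl (List.mem_cons_self (a := l))) hs1
      · suffices hsuff : ∃ E', Rch V ((codes (2 * (v + 1))).card + 3) (a :: A', b :: B') E' ∧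
            vars V E' ⊂ vars V (a :: A', b :: B') ∧ ∃ h, Solves V h E' by
          obtain ⟨E', h1, h2, h3⟩ := hsuff
          have hcard := Finset.card_lt_card h2
          have h4 := ih E' (h1.quad hq1) (by omega) h3
          have h5 := ((Rch.single hm).trans h1).trans h4
          exact h5.mono (by simp only [bnd]; omega)
        obtain ⟨g1, P, e1, hg1, hP⟩ := exists_parse V (a :: A')
        obtain ⟨g2, Q, e2, hg2, hQ⟩ := exists_parse V (b :: B')
        have hN : 2 * (vars V (a :: A', b :: B')).card ≤ 2 * (v + 1) := by omega
        cases g1 with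
        | nil =>
          cases P with
          | nil => simp [unp] at e1
          | cons s P =>
            obtain ⟨x, a'⟩ := s
            rw [List.nil_append, unp_cons] at e1
            rw [e1, e2] at hs1 hq1 hne1 hN ⊢
            refine phase1 hP hQ hg2 hq1 hN ?_ _ h rfl hs1 hne1
            rintro w Q' rfl rfl
            rw [List.nil_append, unp_cons] at e2
            rw [List.cons.injEq] at e1 e2
            exact hab (e1.1.trans e2.1.symm)
        | cons c g1 =>
          rw [List.cons_append, List.cons.injEq] at e1
          cases g2 with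
          | nil =>
            cases Q with
            | nil => simp [unp] at e2
            | cons s Q =>
              obtain ⟨x, b'⟩ := s
              rw [List.nil_append, unp_cons] at e2
              have e1' : a :: A' = (c :: g1) ++ unp P := by
                rw [List.cons_append, e1.1, e1.2]
              rw [e1', e2] at hs1 hq1 hne1 hN ⊢
              have hvs : ∀ E : List L × List L, vars V E.swap = vars V E := vars_swap
              obtain ⟨E', h1, h2, h3⟩ := phase1 (N := 2 * (v + 1)) hQ hP hg1 hq1.swap
                (by
                  have := hvs (c :: g1 ++ unp P, x :: (b' ++ unp Q))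
                  simp only [Prod.swap_prod_mk] at this
                  rw [this]; exact hN)
                (by intro w Q' e; simp at e) _ h rfl hs1.swap (by
                  have := hvs (c :: g1 ++ unp P, x :: (b' ++ unp Q))
                  simp only [Prod.swap_prod_mk] at this
                  rw [this]; exact hne1)
              refine ⟨E'.swap, h1.swap, ?_, ?_⟩
              · rw [hvs]
                have := hvs (c :: g1 ++ unp P, x :: (b' ++ unp Q))
                simp only [Prod.swap_prod_mk] at this
                rw [this] at h2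
                exact h2
              · obtain ⟨h', h3⟩ := h3
                exact ⟨h', h3.swap⟩
          | cons d g2 =>
            exfalso
            rw [List.cons_append, List.cons.injEq] at e2
            have hc := hg1 c List.mem_cons_self
            have hd := hg2 d List.mem_cons_self
            rw [← e1.1] at hc
            rw [← e2.1] at hd
            unfold Solves at hs1
            simp only at hs1
            rw [ev_cons, ev_cons, if_neg (by rw [hc]; simp), if_neg (by rw [hd]; simp),
              List.singleton_append, List.singleton_append, List.cons.injEq] at hs1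
            exact hab hs1.1

/-- Soundness of a path, with a bound for the lengths. -/
theorem Rch.sound {m v n : ℕ} {E : List L × List L} (h : Rch V m E ([], [])) (hE : Quad V E)
    (hv : (QuadEq.vars V E).card ≤ v) (hn : (E.1 ++ E.2).length ≤ n) :
    ∃ h, Solves V h E ∧ ∀ x, (h x).length ≤ n * (2 * v + 2) ^ m := by
  generalize hF : (([], []) : List L × List L) = F at h
  induction h with
  | refl m E =>
    subst hF
    exact ⟨fun _ => [], rfl, fun x => by simp⟩
  | @step m E F G h1 _ ih =>
    obtain ⟨h, h2, h3⟩ := ih (h1.quad hE) ((Finset.card_le_card (h1.vars hE)).trans hv)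
      ((h1.subperm hE).length_le.trans hn) hF
    obtain ⟨h', h4, h5⟩ := h1.sound hE h2 h3 hv
    refine ⟨h', h4, fun x => (h5 x).trans ?_⟩
    have h6 : 1 ≤ (2 * v + 2) ^ m := Nat.one_le_pow _ _ (by omega)
    have h7 : n ≤ n * (2 * v + 2) ^ m := Nat.le_mul_of_pos_right _ h6
    calc (E.1 ++ E.2).length + (2 * v + 1) * (n * (2 * v + 2) ^ m)
        ≤ n * (2 * v + 2) ^ m + (2 * v + 1) * (n * (2 * v + 2) ^ m) := by omega
      _ = n * (2 * v + 2) ^ (m + 1) := by ring

end Pool.Agent.QuadEq
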