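import Pool.Agent.Lib.MP_b7851d_lc.Stretch

/-!
# Block paths with few same-side wins are short
-/

namespace Pool.Agent.QuadEq

open List

variable {L : Type} [DecidableEq L] {D V : L → Bool}
variable {a₁ a₂ : L → List L} {t₁ t₂ : L → List (L × List L)} {p q : List L}

/-- The letters of the items. -/
def itv (P : List (L × List L)) : List L := P.map Prod.fst

theorem itv_ins (x : L) (c : L × List L) (P : List (L × List L)) :
    itv (ins x c P) = sub x [c.1, x] (itv P) := by
  unfold itv
  induction P with
  | nil => rfl
  | cons s P ih =>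
    have : ins x c (s :: P) = (if s.1 = x then [c, s] else [s]) ++ ins x c P := by simp [ins]
    rw [this, List.map_append, ih, List.map_cons, sub_cons]
    by_cases h : s.1 = x
    · rw [if_pos h, if_pos h, List.map_cons, List.map_cons, List.map_nil, h]
    · rw [if_neg h, if_neg h, List.map_cons, List.map_nil]

theorem length_ins (x : L) (c : L × List L) (P : List (L × List L)) :
    (ins x c P).length = P.length + (itv P).count x := by
  unfold itv
  induction P with
  | nil => rfl
  | cons s P ih =>
    have : ins x c (s :: P) = (if s.1 = x then [c, s] else [s]) ++ ins x c P := by simp [ins]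
    rw [this, List.length_append, ih, List.map_cons, List.count_cons, List.length_cons]
    by_cases h : s.1 = x
    · rw [if_pos h, if_pos (by simpa using h)]
      simp only [List.length_cons, List.length_nil]
      omega
    · rw [if_neg h, if_neg (by simpa using h)]
      simp only [List.length_cons, List.length_nil]
      omega

/-- The invariant of block states. -/
structure Hs (D : L → Bool) (S : List (L × List L) × List (L × List L)) : Prop where
  ok1 : Ok D S.1
  ok2 : Ok D S.2
  two : ∀ v, v ∈ itv S.1 ++ itv S.2 → (itv S.1).count v + (itv S.2).count v = 2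

theorem Hs.swap {S : List (L × List L) × List (L × List L)} (h : Hs D S) : Hs D S.swap :=
  ⟨h.ok2, h.ok1, fun v hv => by
    have := h.two v (by simpa [or_comm] using hv)
    simp only [Prod.fst_swap, Prod.snd_swap]
    omega⟩

theorem hs_tmove {S S' : List (L × List L) × List (L × List L)} (h : Hs D S) (hm : TMove S S') :
    Hs D S' ∧ S'.1.length + S'.2.length = S.1.length + S.2.length := by
  cases hm with
  | @mk x y a w P Q hxy =>
    have hok1 := h.ok1
    have hok2 := h.ok2
    have htwo := h.two
    simp only at hok1 hok2 htwo
    have e1 : itv ((x, a) :: P) = x :: itv P := rfl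
    have e2 : itv ((y, w) :: Q) = y :: itv Q := rfl
    rw [e1, e2] at htwo
    have hx := htwo x (by simp)
    have hy := htwo y (by simp)
    rw [List.count_cons_self, List.count_cons_of_ne hxy.symm] at hx
    rw [List.count_cons_self, List.count_cons_of_ne hxy] at hy
    have hins : ∀ P' : List (L × List L), Ok D P' → Ok D (ins x (y, w) P') := by
      intro P' hP' s hs
      rcases mem_ins hs with rfl | hs
      · exact hok2 _ List.mem_cons_self
      · exact hP' s hs
    refine ⟨⟨?_, ?_, ?_⟩, ?_⟩
    · intro s hs
      rcases List.mem_cons.mp hs with rfl | hs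
      · exact hok1 _ List.mem_cons_self
      · exact hins P (fun s hs => hok1 s (List.mem_cons_of_mem _ hs)) s hs
    · exact hins Q (fun s hs => hok2 s (List.mem_cons_of_mem _ hs))
    · have e3 : itv ((x, a) :: ins x (y, w) P) = x :: sub x [y, x] (itv P) := by
        rw [← itv_ins x (y, w) P]; rfl
      have e4 : itv (ins x (y, w) Q) = sub x [y, x] (itv Q) := itv_ins x (y, w) Q
      intro v hv
      simp only at hv ⊢
      rw [e3, e4] at hv ⊢
      rw [List.count_cons, count_sub, count_sub]
      by_cases hvx : v = x
      · subst hvx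
        simp only [beq_self_eq_true, if_true, List.count_cons, List.count_nil]
        rw [if_neg (by simpa using hxy.symm)]
        omega
      · by_cases hvy : v = y
        · subst hvy
          simp only [if_neg hvx, List.count_cons, List.count_nil, beq_self_eq_true, if_true]
          rw [if_neg (by simpa using hxy), Nat.mul_add, Nat.mul_add]
          simp only [mul_one, mul_zero, zero_add]
          omega
        · have h0 : List.count v [y, x] = 0 :=
            List.count_eq_zero_of_not_mem (by simp [hvx, hvy])
          have h1 : (x == v) = false := by simpa using fun e : x = v => hvx e.symm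
          simp only [if_neg hvx, h0, mul_zero, h1, add_zero]
          have h2 : v ∈ (x :: itv P) ++ (y :: itv Q) := by
            have hpos : v ∈ sub x [y, x] (itv P) ∨ v ∈ sub x [y, x] (itv Q) := by
              simp only [List.cons_append, List.mem_cons, List.mem_append] at hv
              rcases hv with hv | hv | hv
              · exact absurd hv hvx
              · exact Or.inl hv
              · exact Or.inr hv
            have key : ∀ W : List L, v ∈ sub x [y, x] W → v ∈ W := by
              intro W hW
              have := List.count_pos_iff.mpr hW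
              rw [count_sub, if_neg hvx, h0] at this
              exact List.count_pos_iff.mp (by omega)
            rcases hpos with h3 | h3
            · simp [key _ h3]
            · simp [key _ h3]
          have h3 := htwo v h2
          rw [List.count_cons_of_ne (fun e => hvx e.symm),
            List.count_cons_of_ne (fun e => hvy e.symm)] at h3
          simpa using h3
    · simp only [List.length_cons, length_ins]
      omega

theorem Hs.move {S S' : List (L × List L) × List (L × List L)} (h : Hs D S) (hm : Move S S') :
    Hs D S' ∧ S'.1.length + S'.2.length = S.1.length + S.2.length := by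
  rcases hm with hm | hm
  · exact hs_tmove h hm
  · obtain ⟨h1, h2⟩ := hs_tmove h.swap hm
    refine ⟨by simpa using h1.swap, ?_⟩
    simp only [Prod.fst_swap, Prod.snd_swap] at h2
    omega

/-- Mixed steps are steps. -/
theorem MM.move {S S' : List (L × List L) × List (L × List L)} (hm : MM S S') : Move S S' := by
  have key : ∀ {S S' : List (L × List L) × List (L × List L)}, MB S S' → TMove S.swap S'.swap := by
    intro S S' h
    cases h with
    | mk hxy hy => exact TMove.mk hxy.symm
  rcases hm with hm | hm
  · exact Or.inr (key hm)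
  · have := key hm
    rw [Prod.swap_swap, Prod.swap_swap] at this
    exact Or.inl this

/-- The decomposition of a list of items. -/
theorem decomp (m : L → Prop) : ∀ (P : List (L × List L)), (∀ v, m v → (itv P).count v ≤ 1) →
    ∃ (l : List (L × List L)) (p : List L) (a : L → List L) (t : L → List (L × List L)),
      P = l ++ tpI a t p ∧ (∀ s ∈ l, ¬ m s.1) ∧ p.Nodup ∧ (∀ v, v ∈ p ↔ m v ∧ v ∈ itv P) ∧
      ∀ v ∈ p, ∀ s ∈ t v, ¬ m s.1
  | [], _ => ⟨[], [], fun _ => [], fun _ => [], rfl, by simp, List.nodup_nil, by simp [itv],
      by simp⟩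
  | s :: P, h => by
    classical
    obtain ⟨l, p, a, t, h1, h2, h3, h4, h5⟩ := decomp m P fun v hv => by
      have := h v hv
      have e : itv (s :: P) = s.1 :: itv P := rfl
      rw [e, List.count_cons] at this
      omega
    have e : itv (s :: P) = s.1 :: itv P := rfl
    by_cases hm : m s.1
    · have hs : s.1 ∉ p := by
        intro hp
        have := h s.1 hm
        rw [e, List.count_cons_self] at this
        have h6 := List.count_pos_iff.mpr ((h4 s.1).mp hp).2
        omega
      refine ⟨[], s.1 :: p, Function.update a s.1 s.2, Function.update t s.1 l, ?_, by simp,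
        List.nodup_cons.mpr ⟨hs, h3⟩, ?_, ?_⟩
      · have e2 : tpI (Function.update a s.1 s.2) (Function.update t s.1 l) p = tpI a t p := by
          unfold tpI
          apply List.flatMap_congr
          intro v hv
          have : v ≠ s.1 := fun e => hs (e ▸ hv)
          rw [Function.update_of_ne this, Function.update_of_ne this]
        rw [List.nil_append, tpI_cons, Function.update_self, Function.update_self, e2, ← h1]
      · intro v
        rw [e, List.mem_cons, List.mem_cons, h4 v]
        constructor
        · rintro (rfl | ⟨h6, h7⟩)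
          · exact ⟨hm, Or.inl rfl⟩
          · exact ⟨h6, Or.inr h7⟩
        · rintro ⟨h6, h7 | h7⟩
          · exact Or.inl h7
          · exact Or.inr ⟨h6, h7⟩
      · intro v hv r hr
        by_cases hvs : v = s.1
        · subst hvs
          rw [Function.update_self] at hr
          exact h2 r hr
        · rw [Function.update_of_ne hvs] at hr
          rcases List.mem_cons.mp hv with h6 | h6
          · exact absurd h6 hvs
          · exact h5 v h6 r hr
    · refine ⟨s :: l, p, a, t, by rw [h1]; rfl, ?_, h3, ?_, h5⟩
      · intro r hr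
        rcases List.mem_cons.mp hr with rfl | hr
        · exact hm
        · exact h2 r hr
      · intro v
        rw [e, List.mem_cons, h4 v]
        constructor
        · rintro ⟨h6, h7⟩; exact ⟨h6, Or.inr h7⟩
        · rintro ⟨h6, h7 | h7⟩
          · subst h7; exact absurd h6 hm
          · exact ⟨h6, h7⟩

theorem no_mm {S S' : List (L × List L) × List (L × List L)} (h : S.2 = [])
    (hm : Relation.ReflTransGen MM S S') : S' = S := by
  have k2 : ∀ {A B : List (L × List L) × List (L × List L)}, MB A B → A.1 ≠ [] ∧ A.2 ≠ [] := by
    intro A B hm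
    cases hm with
    | mk => simp
  have key : ∀ T, ¬ MM S T := by
    rintro T (hm | hm)
    · exact (k2 hm).2 h
    · exact (k2 hm).1 h
  rcases Relation.ReflTransGen.cases_head hm with h1 | ⟨T, h1, -⟩
  · exact h1.symm
  · exact absurd h1 (key T)

/-- Stretches from states with a lead in the first list. -/
theorem lead_short {l : List (L × List L)} {S' : List (L × List L) × List (L × List L)}
    (h : RS D a₁ t₁ a₂ t₂ p q) (hl : Ok D l) (hl0 : l ≠ [])
    (hl2 : ∀ s ∈ l, s.1 ∉ itv (tpI a₂ t₂ q))
    (hm : Relation.ReflTransGen MM (l ++ tpI a₁ t₁ p, tpI a₂ t₂ q) S') :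
    Chn (Mv D) (FI p.length + 2) (unpE (l ++ tpI a₁ t₁ p, tpI a₂ t₂ q)) (unpE S') := by
  classical
  cases q with
  | nil =>
    rw [no_mm rfl hm]
    exact Chn.refl _ _
  | cons y q' =>
    have n1 := h.rg.n1
    have n2 := h.rg.n2
    have hpq := h.rg.p
    simp only at n1 n2 hpq
    have hyp : y ∈ p := hpq.symm.subset List.mem_cons_self
    obtain ⟨A, B, rfl⟩ := List.append_of_mem hyp
    have n3 := n1
    rw [List.nodup_append] at n3
    have m1 : y ∉ A := fun hm => n3.2.2 y hm y List.mem_cons_self rfl
    have m2 : y ∉ B := (List.nodup_cons.mp n3.2.1).1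
    have hyl : y ∉ l.map Prod.fst := by
      intro hm
      obtain ⟨s, hs, hsy⟩ := List.mem_map.mp hm
      apply hl2 s hs
      rw [hsy]
      exact fst_mem_tpI List.mem_cons_self
    have okA : Ok D (tpI a₁ t₁ A) := h.okP fun v hv => by simp [hv]
    have hyA : y ∉ (tpI a₁ t₁ A).map Prod.fst := h.not_tpI (fun v hv => by simp [hv]) hyp m1
    -- the steps over the lead
    have step0 : ∀ (u w : List (L × List L)) (T : List (L × List L) × List (L × List L)),
        l = u ++ w → w ≠ [] →
        MM (w ++ tpI a₁ t₁ A ++ u ++ tpI a₁ t₁ (y :: B), tpI a₂ t₂ (y :: q')) T →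
        ∃ u' w', l = u' ++ w' ∧
          T = (w' ++ tpI a₁ t₁ A ++ u' ++ tpI a₁ t₁ (y :: B), tpI a₂ t₂ (y :: q')) := by
      intro u w T hlu hw0 hm
      obtain ⟨c, w', rfl⟩ : ∃ c w', w = c :: w' := by
        cases w with
        | nil => exact absurd rfl hw0
        | cons c w' => exact ⟨c, w', rfl⟩
      have hcl : c ∈ l := by rw [hlu]; simp
      rcases hm with hm | hm
      · generalize hS : (c :: w' ++ tpI a₁ t₁ A ++ u ++ tpI a₁ t₁ (y :: B),
          tpI a₂ t₂ (y :: q')) = S0 at hm
        cases hm with
        | @mk x1 y1 a1 w1 P Q hxy1 hy1 =>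
          rw [Prod.mk.injEq] at hS
          obtain ⟨h1, h2⟩ := hS
          rw [tpI_cons, List.cons.injEq, Prod.mk.injEq] at h2
          obtain ⟨⟨rfl, rfl⟩, rfl⟩ := h2
          simp only [List.cons_append, List.cons.injEq] at h1
          obtain ⟨rfl, rfl⟩ := h1
          have hTy := hyl
          rw [hlu, List.map_append, List.mem_append, not_or, List.map_cons, List.mem_cons,
            not_or] at hTy
          have e1 : ins y (x1, a1) (t₂ y ++ tpI a₂ t₂ q') = t₂ y ++ tpI a₂ t₂ q' := by
            apply ins_self
            rw [List.map_append, List.mem_append, not_or]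
            exact ⟨h.swap.not_tail List.mem_cons_self List.mem_cons_self,
              h.swap.not_tpI (fun v hv => List.mem_cons_of_mem _ hv) List.mem_cons_self
                (List.nodup_cons.mp n2).1⟩
          have e2 : ins y (x1, a1) (w' ++ tpI a₁ t₁ A ++ u ++ tpI a₁ t₁ (y :: B)) =
              w' ++ tpI a₁ t₁ A ++ (u ++ [(x1, a1)]) ++ tpI a₁ t₁ (y :: B) := by
            have e3 : w' ++ tpI a₁ t₁ A ++ u ++ tpI a₁ t₁ (y :: B) =
                (w' ++ tpI a₁ t₁ A ++ u) ++ (y, a₁ y) :: (t₁ y ++ tpI a₁ t₁ B) := by
              rw [tpI_cons]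
            rw [e3, ins_one, tpI_cons]
            · simp
            · rw [List.map_append, List.map_append, List.mem_append, List.mem_append, not_or,
                not_or]
              exact ⟨⟨hTy.2.2, hyA⟩, hTy.1⟩
            · rw [List.map_append, List.mem_append, not_or]
              exact ⟨h.not_tail hyp hyp, h.not_tpI (fun v hv => by simp [hv]) hyp m2⟩
          rw [e1, e2, ← tpI_cons]
          exact ⟨u ++ [(x1, a1)], w', by rw [hlu]; simp, rfl⟩
      · exfalso
        generalize hS : Prod.swap (c :: w' ++ tpI a₁ t₁ A ++ u ++ tpI a₁ t₁ (y :: B),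
          tpI a₂ t₂ (y :: q')) = S0 at hm
        generalize hS' : Prod.swap T = S1' at hm
        cases hm with
        | @mk y1 x1 w1 a1 Q P hxy1 hx1 =>
          rw [Prod.swap_prod_mk, Prod.mk.injEq] at hS
          obtain ⟨h2, h1⟩ := hS
          simp only [List.cons_append, List.cons.injEq] at h1
          obtain ⟨rfl, rfl⟩ := h1
          apply hl2 _ hcl
          rw [h2]
          exact List.mem_cons_of_mem _ hx1
    have e0 : (l ++ tpI a₁ t₁ (A ++ y :: B), tpI a₂ t₂ (y :: q')) =
        (l ++ tpI a₁ t₁ A ++ [] ++ tpI a₁ t₁ (y :: B), tpI a₂ t₂ (y :: q')) := by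
      rw [tpI_append]; simp
    have near0 : ∀ u w : List (L × List L), l = u ++ w →
        Mv D (unpE (l ++ tpI a₁ t₁ (A ++ y :: B), tpI a₂ t₂ (y :: q')))
          (unpE (w ++ tpI a₁ t₁ A ++ u ++ tpI a₁ t₁ (y :: B), tpI a₂ t₂ (y :: q'))) := by
      intro u w hlu
      have hTy := hyl
      rw [hlu, List.map_append, List.mem_append, not_or] at hTy
      have := h.bulk (q' := q') (B := B) (X := u) (Y := w ++ tpI a₁ t₁ A) rfl
        (fun s hs => hl s (by rw [hlu]; exact List.mem_append_left _ hs))
        (fun s hs => by
          rcases List.mem_append.mp hs with hs | hs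
          · exact hl s (by rw [hlu]; exact List.mem_append_right _ hs)
          · exact okA s hs) hTy.1
        (by rw [List.map_append, List.mem_append, not_or]; exact ⟨hTy.2, hyA⟩)
        (fun v hv => by simp [hv]) m2
      have e1 : l ++ tpI a₁ t₁ (A ++ y :: B) = u ++ (w ++ tpI a₁ t₁ A) ++ tpI a₁ t₁ (y :: B) := by
        rw [tpI_append, hlu]; simp
      rw [e1]
      exact this
    rcases List.eq_nil_or_concat A with hA | ⟨A', z, hA⟩
    · -- only rotations of the lead
      subst hA
      have key : ∀ T, Relation.ReflTransGen MM
          (l ++ tpI a₁ t₁ ([] ++ y :: B), tpI a₂ t₂ (y :: q')) T →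
          ∃ u w, l = u ++ w ∧ w ≠ [] ∧
            T = (w ++ tpI a₁ t₁ [] ++ u ++ tpI a₁ t₁ (y :: B), tpI a₂ t₂ (y :: q')) := by
        intro T hT
        induction hT with
        | refl => exact ⟨[], l, rfl, hl0, e0⟩
        | @tail T T' _ hm ih =>
          obtain ⟨u, w, h1, h2, rfl⟩ := ih
          obtain ⟨u', w', h3, h4⟩ := step0 u w T' h1 h2 hm
          by_cases hw' : w' = []
          · subst hw'
            rw [List.append_nil] at h3
            exact ⟨[], l, rfl, hl0, by rw [h4, h3]; simp [tpI]⟩
          · exact ⟨u', w', h3, hw', h4⟩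
      obtain ⟨u, w, h1, -, h2⟩ := key S' hm
      rw [h2]
      exact (Chn.single (near0 u w h1)).mono (by omega)
    · rw [List.concat_eq_append] at hA
      subst hA
      have hzA : z ∉ A' := by
        have := n3.1
        rw [List.nodup_append] at this
        intro hm
        exact this.2.2 z hm z (by simp) rfl
      have hzy : z ≠ y := fun e => n3.2.2 z (by simp) y List.mem_cons_self e
      have hzB : z ∉ B := fun hm => n3.2.2 z (by simp) z (List.mem_cons_of_mem _ hm) rfl
      have hzp : z ∈ A' ++ [z] ++ y :: B := by simp
      set t' := Function.update t₁ z (t₁ z ++ l) with ht'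
      have et : ∀ P : List L, z ∉ P → tpI a₁ t' P = tpI a₁ t₁ P := by
        intro P hP
        unfold tpI
        apply List.flatMap_congr
        intro v hv
        rw [ht', Function.update_of_ne fun e : v = z => hP (e ▸ hv)]
      have ecomp : tpI a₁ t₁ (A' ++ [z]) ++ l ++ tpI a₁ t₁ (y :: B) =
          tpI a₁ t' (A' ++ [z] ++ y :: B) := by
        have e5 : tpI a₁ t' [z] = (z, a₁ z) :: (t₁ z ++ l) := by
          rw [tpI_cons, ht', Function.update_self]; simp [tpI]
        have e6 : tpI a₁ t₁ [z] = (z, a₁ z) :: t₁ z := by
          rw [tpI_cons]; simp [tpI]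
        rw [tpI_append A' [z], tpI_append (A' ++ [z]) (y :: B), tpI_append A' [z], et A' hzA,
          et (y :: B) (by simp [hzy, hzB]), e5, e6]
        simp
      have hmem : ∀ {s : L × List L} {P : List L}, s ∈ tpI a₁ t' P → s ∈ tpI a₁ t₁ P ∨ s ∈ l := by
        intro s P hs
        obtain ⟨v, hv, hs | hs⟩ := mem_tpI.mp hs
        · exact Or.inl (mem_tpI.mpr ⟨v, hv, Or.inl hs⟩)
        · by_cases hvz : v = z
          · subst hvz
            rw [ht', Function.update_self, List.mem_append] at hs
            rcases hs with hs | hs
            · exact Or.inl (mem_tpI.mpr ⟨v, hv, Or.inr hs⟩)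
            · exact Or.inr hs
          · rw [ht', Function.update_of_ne hvz] at hs
            exact Or.inl (mem_tpI.mpr ⟨v, hv, Or.inr hs⟩)
      have hRS : RS D a₁ t' a₂ t₂ (A' ++ [z] ++ y :: B) (y :: q') := by
        refine ⟨h.rg, ?_, h.ok2, ?_, ?_⟩
        · intro s hs
          rcases hmem hs with hs | hs
          · exact h.ok1 s hs
          · exact hl s hs
        · intro v hv s hs
          by_cases hvz : v = z
          · subst hvz
            rw [ht', Function.update_self, List.mem_append] at hs
            rcases hs with hs | hs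
            · exact h.tt1 v hv s hs
            · exact hl2 s hs
          · rw [ht', Function.update_of_ne hvz] at hs
            exact h.tt1 v hv s hs
        · intro v hv s hs hsm
          obtain ⟨r, hr, hrs⟩ := List.mem_map.mp hsm
          rcases hmem hr with hr | hr
          · exact h.tt2 v hv s hs (List.mem_map.mpr ⟨r, hr, hrs⟩)
          · apply hl2 r hr
            rw [hrs]
            exact List.mem_map.mpr ⟨s, mem_tpI.mpr ⟨v, hv, Or.inr hs⟩, rfl⟩
      have key : ∀ T, Relation.ReflTransGen MM
          (l ++ tpI a₁ t₁ (A' ++ [z] ++ y :: B), tpI a₂ t₂ (y :: q')) T →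
          (∃ u w, l = u ++ w ∧ w ≠ [] ∧
            T = (w ++ tpI a₁ t₁ (A' ++ [z]) ++ u ++ tpI a₁ t₁ (y :: B), tpI a₂ t₂ (y :: q'))) ∨
          ∃ p' q'', Relation.ReflTransGen Bk (A' ++ [z] ++ y :: B, y :: q') (p', q'') ∧
            St a₁ t' a₂ t₂ p' q'' T := by
        intro T hT
        induction hT with
        | refl => exact Or.inl ⟨[], l, rfl, hl0, e0⟩
        | @tail T T' _ hm ih =>
          rcases ih with ⟨u, w, h1, h2, rfl⟩ | ⟨p', q'', h1, h2⟩
          · obtain ⟨u', w', h3, h4⟩ := step0 u w T' h1 h2 hm
            by_cases hw' : w' = []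
            · subst hw'
              rw [List.append_nil] at h3
              right
              refine ⟨_, _, Relation.ReflTransGen.refl, Or.inl ?_⟩
              rw [h4, ← h3, ← ecomp]
              simp
            · exact Or.inl ⟨u', w', h3, hw', h4⟩
          · obtain ⟨p1, q1, h3, h4⟩ := h2.step (hRS.bk h1) hm
            exact Or.inr ⟨p1, q1, h1.trans h3, h4⟩
      rcases key S' hm with ⟨u, w, h1, -, h2⟩ | ⟨p', q'', h1, h2⟩
      · rw [h2]
        exact (Chn.single (near0 u w h1)).mono (by omega)
      · have h3 := near0 l [] (by simp)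
        have e3 : ([] : List (L × List L)) ++ tpI a₁ t₁ (A' ++ [z]) ++ l ++ tpI a₁ t₁ (y :: B) =
            tpI a₁ t' (A' ++ [z] ++ y :: B) := by
          rw [← ecomp]; simp
        rw [e3] at h3
        have h4 := (hRS.chn h1).trans (h2.chn (hRS.bk h1))
        exact (Chn.step h3 h4).mono (by omega)

end Pool.Agent.QuadEq
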