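import Pool.Agent.Lib.MP_b7851d_lc.KL

/-!
# The pigeonhole argument: labelled classes of pairs of cyclic words
-/

namespace Pool.Agent.QuadEq

open List Equiv

variable {α : Type*} [DecidableEq α]

theorem CAdj.formPerm {a b : α} {l : List α} (hl : l.Nodup) (h : CAdj a b l) :
    l.formPerm a = b := by
  obtain ⟨r, hr⟩ := h
  rw [List.formPerm_eq_of_isRotated hl hr]
  exact List.formPerm_apply_head _ _ _ (hr.perm.nodup_iff.mp hl)

theorem cadj_formPerm {a : α} {l : List α} (hl : l.Nodup) (ha : a ∈ l) (h2 : 2 ≤ l.length) :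
    CAdj a (l.formPerm a) l := by
  obtain ⟨r, hr⟩ := exists_rot ha
  have hlen := hr.perm.length_eq
  cases r with
  | nil => simp at hlen; omega
  | cons b r =>
    have h1 : CAdj a b l := ⟨r, hr⟩
    rwa [h1.formPerm hl]

/-- The permutation of a concatenation. -/
theorem formPerm_two {a b : α} : ∀ (A B : List α), ((a :: A) ++ (b :: B)).Nodup →
    formPerm ((a :: A) ++ (b :: B)) = swap a b * (formPerm (a :: A) * formPerm (b :: B))
  | [], B, _ => by
    simp
  | c :: A, B, h => by
    have h' : ((c :: A) ++ (b :: B)).Nodup := (List.nodup_cons.mp h).2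
    have ih := formPerm_two (a := c) (b := b) A B h'
    have hab : a ≠ b := by
      rintro rfl
      simp at h
    have hac : a ≠ c := by
      rintro rfl
      simp at h
    have hcb : c ≠ b := by
      rintro rfl
      simp at h
    have e1 : formPerm ((a :: c :: A) ++ (b :: B)) = swap a c * formPerm ((c :: A) ++ (b :: B)) := by
      simp only [List.cons_append, List.formPerm_cons_cons]
    have e2 : formPerm (a :: c :: A) = swap a c * formPerm (c :: A) := List.formPerm_cons_cons ..
    rw [e1, e2, ih, ← mul_assoc, ← mul_assoc, ← mul_assoc, ← mul_assoc]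
    congr 2
    ext x
    simp only [Perm.coe_mul, Function.comp_apply, swap_apply_def]
    split_ifs <;> simp_all

theorem formPerm_disj {x y : α} {l : List α} (hx : x ∉ l) (hy : y ∉ l) :
    formPerm l * swap x y = swap x y * formPerm l := by
  rw [Equiv.mul_swap_eq_swap_mul, List.formPerm_apply_of_notMem hx,
    List.formPerm_apply_of_notMem hy]

theorem formPerm_comm {l m : List α} (h : ∀ x ∈ l, x ∉ m) :
    formPerm l * formPerm m = formPerm m * formPerm l := by
  ext x
  simp only [Perm.coe_mul, Function.comp_apply]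
  by_cases hx : x ∈ l
  · rw [List.formPerm_apply_of_notMem (h x hx),
      List.formPerm_apply_of_notMem (h _ (List.formPerm_mem_iff_mem.mpr hx))]
  · rw [List.formPerm_apply_of_notMem hx]
    by_cases hm : x ∈ m
    · rw [List.formPerm_apply_of_notMem]
      intro h2
      exact h _ h2 (List.formPerm_mem_iff_mem.mpr hm)
    · rw [List.formPerm_apply_of_notMem hm, List.formPerm_apply_of_notMem hx]

theorem formPerm_three {a b c : α} {A B C : List α}
    (h : ((a :: A) ++ (b :: B) ++ (c :: C)).Nodup) :
    formPerm ((a :: A) ++ (b :: B) ++ (c :: C)) =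
      swap a b * swap b c * (formPerm (a :: A) * formPerm (b :: B) * formPerm (c :: C)) := by
  have h1 : ((a :: A) ++ (b :: (B ++ c :: C))).Nodup := by
    simpa using h
  have h2 : ((b :: B) ++ (c :: C)).Nodup := by
    have := h
    rw [List.append_assoc] at this
    exact (List.nodup_append.mp this).2.1
  have e1 : (a :: A) ++ (b :: B) ++ (c :: C) = (a :: A) ++ (b :: (B ++ c :: C)) := by simp
  have e2 : b :: (B ++ c :: C) = (b :: B) ++ (c :: C) := rfl
  rw [e1, formPerm_two A _ h1, e2, formPerm_two B C h2]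
  have hb : b ∉ a :: A := by
    intro hb
    rw [List.nodup_append] at h1
    exact h1.2.2 b hb b (by simp) rfl
  have hc : c ∉ a :: A := by
    intro hc
    rw [List.nodup_append] at h1
    exact h1.2.2 c hc c (by simp) rfl
  have h3 := formPerm_disj hb hc
  rw [mul_assoc, mul_assoc, ← mul_assoc (formPerm (a :: A)) (swap b c), h3]
  simp only [mul_assoc]

/-- The permutation of a pair of cyclic words. -/
def mu (s : List α × List α) : Perm α := s.2.formPerm⁻¹ * s.1.formPerm

theorem Sw.mu {s t : List α × List α} (h : Sw s t) (h1 : s.1.Nodup) (h2 : s.2.Nodup) :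
    mu t = mu s := by
  cases h with
  | @sw Z Q Z' Q' a b c A₁ A₂ A₃ B₁ B₂ B₃ e1 e2 e3 e4 =>
    simp only at h1 h2
    have n1 := e1.perm.nodup_iff.mp h1
    have n2 := e2.perm.nodup_iff.mp h2
    have p3 : (a :: A₁) ++ (b :: A₂) ++ (c :: A₃) ~ (b :: A₂) ++ (a :: A₁) ++ (c :: A₃) :=
      List.Perm.append_right _ List.perm_append_comm
    have p4 : (a :: B₁) ++ (b :: B₂) ++ (c :: B₃) ~ (a :: B₁) ++ (c :: B₃) ++ (b :: B₂) := by
      rw [List.append_assoc, List.append_assoc]
      exact List.Perm.append_left _ List.perm_append_comm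
    have n3 := p3.nodup_iff.mp n1
    have n4 := p4.nodup_iff.mp n2
    have hab : a ≠ b := by
      rintro rfl
      simp at n1
    have hac : a ≠ c := by
      rintro rfl
      simp at n1
    have hbc : b ≠ c := by
      rintro rfl
      rw [List.nodup_append] at n1
      exact n1.2.2 b (by simp) b (by simp) rfl
    unfold Pool.Agent.QuadEq.mu
    simp only
    rw [List.formPerm_eq_of_isRotated h1 e1, List.formPerm_eq_of_isRotated h2 e2,
      ← List.formPerm_eq_of_isRotated n3 e3, ← List.formPerm_eq_of_isRotated n4 e4,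
      formPerm_three n1, formPerm_three n2, formPerm_three n3, formPerm_three n4]
    have hA : formPerm (b :: A₂) * formPerm (a :: A₁) = formPerm (a :: A₁) * formPerm (b :: A₂) := by
      apply formPerm_comm
      intro x hx hx2
      rw [List.nodup_append, List.nodup_append] at n1
      exact n1.1.2.2 x hx2 x hx rfl
    have hB : formPerm (c :: B₃) * formPerm (b :: B₂) = formPerm (b :: B₂) * formPerm (c :: B₃) := by
      apply formPerm_comm
      intro x hx hx2
      rw [List.nodup_append, List.nodup_append] at n2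
      exact n2.2.2 x (List.mem_append_right _ hx2) x hx rfl
    rw [mul_assoc (formPerm (a :: B₁)) (formPerm (c :: B₃)), hB, ← mul_assoc (formPerm (a :: B₁)),
      hA]
    have k1 : swap b a * swap a c = swap a c * swap c b := by
      ext x
      simp only [Perm.coe_mul, Function.comp_apply, swap_apply_def]
      split_ifs <;> simp_all
    rw [k1]
    generalize formPerm (a :: A₁) * formPerm (b :: A₂) * formPerm (c :: A₃) = F
    generalize formPerm (a :: B₁) * formPerm (b :: B₂) * formPerm (c :: B₃) = G
    group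
  | rot e1 e2 =>
    unfold Pool.Agent.QuadEq.mu
    simp only
    rw [List.formPerm_eq_of_isRotated h1 e1, List.formPerm_eq_of_isRotated h2 e2]

theorem chn_mu {n : ℕ} {s t : List α × List α} (h : Chn Sw n s t) (h1 : s.1.Nodup)
    (h2 : s.2.Nodup) : mu t = mu s := by
  induction h with
  | refl => rfl
  | step h3 _ ih =>
    rw [ih (h3.perm.1.nodup_iff.mp h1) (h3.perm.2.nodup_iff.mp h2), h3.mu h1 h2]

theorem formPerm_del {p : α} {W : List α} (h : (p :: W).Nodup) (hW : W ≠ []) :
    formPerm W = formPerm (p :: W) * swap ((formPerm (p :: W))⁻¹ p) p := by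
  cases W with
  | nil => exact absurd rfl hW
  | cons y W =>
    have e : formPerm (p :: y :: W) ((formPerm (p :: y :: W))⁻¹ p) = p := by
      rw [← Perm.mul_apply, mul_inv_cancel, Perm.one_apply]
    rw [Equiv.mul_swap_eq_swap_mul, e, List.formPerm_apply_head _ _ _ h,
      List.formPerm_cons_cons, ← mul_assoc, swap_mul_self, one_mul]

theorem mu_last {p q : α} {Z R : List α} {μ : Perm α} (h : mu (p :: Z, p :: (R ++ [q])) = μ) :
    (formPerm (p :: Z))⁻¹ p = μ⁻¹ q := by
  rw [← h]
  unfold mu
  simp only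
  rw [mul_inv_rev, inv_inv, Perm.mul_apply, List.formPerm_cons_concat_apply_last]

theorem mu_del {p q : α} {Z R : List α} {μ : Perm α} (hZ : (p :: Z).Nodup) (hZ2 : Z ≠ [])
    (hR : (p :: (R ++ [q])).Nodup) (h : mu (p :: Z, p :: (R ++ [q])) = μ) :
    mu (Z, R ++ [q]) = swap q p * μ * swap (μ⁻¹ q) p := by
  have h1 := mu_last h
  have h2 : (formPerm (p :: (R ++ [q])))⁻¹ p = q := by
    rw [Perm.inv_eq_iff_eq, List.formPerm_cons_concat_apply_last]
  unfold mu
  simp only
  rw [formPerm_del hZ hZ2, formPerm_del hR (by simp), h1, h2, mul_inv_rev, swap_inv, ← h]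
  unfold mu
  simp only [mul_assoc]

omit [DecidableEq α] in
theorem mem_of_perm {A Z : List α} {x : α} (h : Z ~ A) (hx : x ∈ A) : x ∈ Z := h.symm.subset hx

theorem pow_hits {x₀ x : α} {Z : List α} (hZ : Z.Nodup) (h0 : x₀ ∈ Z) (hx : x ∈ Z) :
    ∃ k : ℕ, (formPerm Z ^ k) x₀ = x := by
  obtain ⟨r, hr⟩ := exists_rot h0
  have hn := hr.perm.nodup_iff.mp hZ
  have hx' := hr.perm.subset hx
  obtain ⟨k, hk, hk2⟩ := List.getElem_of_mem hx'
  refine ⟨k, ?_⟩
  rw [List.formPerm_eq_of_isRotated hZ hr, List.formPerm_pow_apply_head _ _ hn]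
  rw [← hk2]
  congr 1
  exact Nat.mod_eq_of_lt hk

theorem rev_eq {A Z Q Z₁ Q₁ : List α} (hA : A.Nodup) (hZ : Z ~ A) (hZ₁ : Z₁ ~ A)
    (hmu : mu (Z, Q) = mu (Z₁, Q₁)) (h : Z ~r Q.reverse) (h₁ : Z₁ ~r Q₁.reverse) {x₀ : α}
    (h0 : x₀ ∈ A) (hx : Z.formPerm x₀ = Z₁.formPerm x₀) (hlen : 2 ≤ A.length) :
    Z ~r Z₁ ∧ Q ~r Q₁ := by
  have nZ := hZ.nodup_iff.mpr hA
  have nZ₁ := hZ₁.nodup_iff.mpr hA
  have e : ∀ {Z Q : List α}, Z.Nodup → Z ~r Q.reverse → mu (Z, Q) = Z.formPerm * Z.formPerm := by
    intro Z Q hn h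
    unfold mu
    simp only
    rw [← List.formPerm_reverse, ← List.formPerm_eq_of_isRotated hn h]
  rw [e nZ h, e nZ₁ h₁] at hmu
  have key : ∀ k : ℕ, (Z.formPerm ^ k) x₀ = (Z₁.formPerm ^ k) x₀ := by
    intro k
    induction k using Nat.twoStepInduction with
    | zero => rfl
    | one => simpa using hx
    | more n ih _ =>
      have e2 : ∀ f : Perm α, f ^ (n + 2) = (f * f) * f ^ n := by
        intro f
        rw [pow_add, pow_two, (Commute.refl f).mul_left (Commute.refl f) |>.pow_right n |>.eq]
      rw [e2 Z.formPerm, e2 Z₁.formPerm, ← hmu]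
      exact congrArg (Z.formPerm * Z.formPerm) ih
  have heq : Z.formPerm = Z₁.formPerm := by
    ext x
    by_cases hxA : x ∈ A
    · obtain ⟨k, hk⟩ := pow_hits nZ (mem_of_perm hZ h0) (mem_of_perm hZ hxA)
      have h1 := key (k + 1)
      rw [pow_succ', pow_succ', Perm.mul_apply, Perm.mul_apply, hk, ← key k, hk] at h1
      exact h1
    · rw [List.formPerm_apply_of_notMem fun h => hxA (hZ.subset h),
        List.formPerm_apply_of_notMem fun h => hxA (hZ₁.subset h)]
  have hr : Z ~r Z₁ := by
    rcases (List.formPerm_eq_formPerm_iff nZ nZ₁).mp heq with h | ⟨h, -⟩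
    · exact h
    · rw [hZ.length_eq] at h
      omega
  refine ⟨hr, ?_⟩
  have h2 : Q ~r Z.reverse := by
    have := h.symm.reverse
    rwa [List.reverse_reverse] at this
  have h3 : Q₁ ~r Z₁.reverse := by
    have := h₁.symm.reverse
    rwa [List.reverse_reverse] at this
  exact (h2.trans hr.reverse).trans h3.symm

/-- Among many states of one labelled class two are near. -/
def PG (α : Type*) [DecidableEq α] (N : ℕ) : Prop :=
  ∀ (A : List α), A.Nodup → A.length = N → ∀ (μ : Perm α) (ι : Type) [Fintype ι]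
    (s : ι → List α × List α), (∀ i, (s i).1 ~ A ∧ (s i).2 ~ A ∧ mu (s i) = μ) →
    N * N + 1 < Fintype.card ι → ∃ i j, i ≠ j ∧ Chn Sw (10 * N + 1) (s i) (s j)

omit [DecidableEq α] in
theorem ex_none (l : List α) : ex (fun _ => []) l = l := by
  induction l with
  | nil => rfl
  | cons a l ih => rw [ex_cons, ih]; rfl

theorem ex_last {z p : α} {Y : List α} (h : z ∉ Y) :
    ex (Function.update (fun _ => []) z [p]) (Y ++ [z]) = Y ++ [z] ++ [p] := by
  rw [ex_append, ex_congr (σ := fun _ => []), ex_none, ex_cons, Function.update_self, ex_nil]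
  · simp
  · intro v hv
    rw [Function.update_of_ne]
    rintro rfl
    exact h hv

theorem pig_step {N : ℕ} (IH : PG α N) (hN : 1 ≤ N) {A : List α} (hA : A.Nodup)
    (hlen : A.length = N + 1) {μ : Perm α} {ι : Type} [Fintype ι] {s : ι → List α × List α}
    (hs : ∀ i, (s i).1 ~ A ∧ (s i).2 ~ A ∧ mu (s i) = μ) {p q : α} (hp : p ∈ A)
    (haim : ∀ i, Aim p q (s i)) (hcard : N * N + 1 < Fintype.card ι) :
    ∃ i j, i ≠ j ∧ Chn Sw (10 * (N + 1) + 1) (s i) (s j) := by
  choose Z' R hc using haim
  have pZ : ∀ i, p :: Z' i ~ A := fun i => (hc i).perm.1.symm.trans (hs i).1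
  have pR : ∀ i, p :: (R i ++ [q]) ~ A := fun i => (hc i).perm.2.symm.trans (hs i).2.1
  have nZ : ∀ i, (p :: Z' i).Nodup := fun i => (pZ i).nodup_iff.mpr hA
  have nR : ∀ i, (p :: (R i ++ [q])).Nodup := fun i => (pR i).nodup_iff.mpr hA
  have hmu : ∀ i, mu (p :: Z' i, p :: (R i ++ [q])) = μ := fun i => by
    rw [chn_mu (hc i) ((hs i).1.nodup_iff.mpr hA) ((hs i).2.1.nodup_iff.mpr hA), (hs i).2.2]
  have hZne : ∀ i, Z' i ≠ [] := by
    intro i h
    have := (pZ i).length_eq
    rw [h, hlen] at this
    simp at this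
    omega
  have hlast : ∀ i, ∃ Y, Z' i = Y ++ [μ⁻¹ q] := by
    intro i
    rcases List.eq_nil_or_concat (Z' i) with h | ⟨Y, z, h⟩
    · exact absurd h (hZne i)
    · rw [List.concat_eq_append] at h
      refine ⟨Y, ?_⟩
      have h1 := mu_last (hmu i)
      rw [Perm.inv_eq_iff_eq] at h1
      have h2 : formPerm (p :: Z' i) z = p := by
        rw [h]
        exact List.formPerm_cons_concat_apply_last p z Y
      have h3 : z = μ⁻¹ q := by
        apply (formPerm (p :: Z' i)).injective
        rw [h2, ← h1]
      rw [h, h3]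
  choose Y hY using hlast
  have hd : ∀ i, (Z' i, R i ++ [q]).1 ~ A.erase p ∧ (Z' i, R i ++ [q]).2 ~ A.erase p ∧
      mu (Z' i, R i ++ [q]) = swap q p * μ * swap (μ⁻¹ q) p := fun i =>
    ⟨(List.cons_perm_iff_perm_erase.mp (pZ i)).2, (List.cons_perm_iff_perm_erase.mp (pR i)).2,
      mu_del (nZ i) (hZne i) (nR i) (hmu i)⟩
  obtain ⟨i, j, hij, hch⟩ := IH (A.erase p) (hA.erase p)
    (by rw [List.length_erase_of_mem hp, hlen]; rfl) (swap q p * μ * swap (μ⁻¹ q) p) ι
    (fun i => (Z' i, R i ++ [q])) hd hcard
  · refine ⟨i, j, hij, ?_⟩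
    have h1 := chn_lift (Function.update (fun _ => []) (μ⁻¹ q) [p])
      (Function.update (fun _ => []) q [p]) hch
    simp only at h1
    have gZ : ∀ i, ex (Function.update (fun _ => []) (μ⁻¹ q) [p]) (Z' i) = Z' i ++ [p] := by
      intro i
      rw [hY i]
      apply ex_last
      intro hm
      have := nZ i
      rw [hY i] at this
      simp only [List.nodup_cons, List.nodup_append] at this
      exact this.2.2.2 _ hm _ (List.mem_singleton_self _) rfl
    have gR : ∀ i, ex (Function.update (fun _ => []) q [p]) (R i ++ [q]) = R i ++ [q] ++ [p] := by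
      intro i
      apply ex_last
      intro hm
      have := nR i
      simp only [List.nodup_cons, List.nodup_append] at this
      exact this.2.2.2 _ hm _ (List.mem_singleton_self _) rfl
    rw [gZ, gZ, gR, gR] at h1
    have h2 : ∀ i, Sw (p :: Z' i, p :: (R i ++ [q])) (Z' i ++ [p], R i ++ [q] ++ [p]) := by
      intro i
      refine Sw.rot ?_ ?_
      · have : p :: Z' i = [p] ++ Z' i := rfl
        rw [this]
        exact List.isRotated_append
      · have : p :: (R i ++ [q]) = [p] ++ (R i ++ [q]) := rfl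
        rw [this]
        exact List.isRotated_append
    have h3 := (hc i).trans ((Chn.single (h2 i)).trans (h1.trans
      ((Chn.single (h2 j).symm).trans ((hc j).symm fun _ _ h => h.symm))))
    exact h3.mono (by omega)

omit [DecidableEq α] in
theorem rot_small {A Z Z' : List α} (hA : A.length ≤ 2) (h : Z ~ A) (h' : Z' ~ A) : Z ~r Z' := by
  have h1 := h.length_eq
  have h2 : Z ~ Z' := h.trans h'.symm
  match Z, Z' with
  | [], Z' =>
    rw [List.nil_perm.mp h2]
  | [x], Z' =>
    rw [List.perm_singleton.mp h2.symm]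
  | [x, y], [x', y'] =>
    have h3 : x ∈ [x', y'] := h2.subset (by simp)
    simp only [List.mem_cons, List.not_mem_nil, or_false] at h3
    rcases h3 with rfl | rfl
    · have := (List.perm_cons x).mp h2
      rw [List.perm_singleton.mp this]
    · have h4 : [x, y] ~ [x, x'] := h2.trans (List.Perm.swap _ _ _)
      have := (List.perm_cons x).mp h4
      have := List.perm_singleton.mp this
      simp only [List.cons.injEq, and_true] at this
      rw [this]
      exact ⟨1, rfl⟩
  | [x, y], [] => exact absurd h2.length_eq (by simp)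
  | [x, y], [x'] => exact absurd h2.length_eq (by simp)
  | [x, y], x' :: y' :: z' :: W => exact absurd h2.length_eq (by simp)
  | x :: y :: z :: W, _ => simp at h1; omega

theorem pigeon : ∀ N : ℕ, PG α N := by
  classical
  have small : ∀ N : ℕ, N ≤ 2 → PG α N := by
    intro N hN A hA hlen μ ι _ s hs hcard
    obtain ⟨i, j, hij⟩ := Fintype.one_lt_card_iff.mp (show 1 < Fintype.card ι by omega)
    refine ⟨i, j, hij, (Chn.single ?_).mono (by omega)⟩
    have h1 : (s i).1 ~r (s j).1 := rot_small (hlen ▸ hN) (hs i).1 (hs j).1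
    have h2 : (s i).2 ~r (s j).2 := rot_small (hlen ▸ hN) (hs i).2.1 (hs j).2.1
    exact Sw.rot h1 h2
  intro N
  induction N with
  | zero => exact small 0 (by omega)
  | succ N IH =>
    by_cases hN : N ≤ 1
    · exact small (N + 1) (by omega)
    intro A hA hlen μ ι _ s hs hcard
    have nd1 : ∀ i, (s i).1.Nodup := fun i => (hs i).1.nodup_iff.mpr hA
    have nd2 : ∀ i, (s i).2.Nodup := fun i => (hs i).2.1.nodup_iff.mpr hA
    have hsq : (N + 1) * (N + 1) + 1 = N * N + 1 + (N + 1) + N := by ring
    have hmu : ∀ i x, (s i).2.formPerm⁻¹ ((s i).1.formPerm x) = μ x := fun i x => by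
      rw [← (hs i).2.2]; rfl
    by_cases hfix : ∃ p ∈ A, μ p = p
    · obtain ⟨p, hp, hpf⟩ := hfix
      obtain ⟨q, hq, hqp⟩ : ∃ q ∈ A, q ≠ p := by
        by_contra hno
        push Not at hno
        have h1 : A ⊆ [p] := fun a ha => by simp [hno a ha]
        have h2 := (hA.subperm h1).length_le
        rw [hlen, List.length_singleton] at h2
        omega
      refine pig_step IH (by omega) hA hlen hs (p := p) (q := q) hp (fun i => ?_) (by omega)
      have h1 := cadj_formPerm (nd1 i) ((hs i).1.symm.subset hp)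
        (by rw [(hs i).1.length_eq, hlen]; omega)
      have h2 := cadj_formPerm (nd2 i) ((hs i).2.1.symm.subset hp)
        (by rw [(hs i).2.1.length_eq, hlen]; omega)
      have h3 := hmu i p
      rw [hpf, Perm.inv_eq_iff_eq] at h3
      rw [← h3] at h2
      exact aim_fixed (nd2 i) ((hs i).2.1.trans (hs i).1.symm) h1 h2
        ((hs i).2.1.symm.subset hq) hqp.symm
    · push Not at hfix
      obtain ⟨p, hp⟩ : ∃ p, p ∈ A := by
        cases A with
        | nil => simp at hlen
        | cons a A => exact ⟨a, List.mem_cons_self⟩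
      obtain ⟨q, hq, hqp, hqm⟩ : ∃ q ∈ A, q ≠ p ∧ q ≠ μ p := by
        by_contra hno
        push Not at hno
        have h1 : A ⊆ [p, μ p] := fun a ha => by
          by_cases h : a = p
          · simp [h]
          · simp [hno a ha h]
        have h2 := (hA.subperm h1).length_le
        rw [hlen] at h2
        simp only [List.length_cons, List.length_nil] at h2
        omega
      let Rv : ι → Prop := fun i => (s i).1 ~r (s i).2.reverse
      by_cases hc1 : N * N + 1 < Fintype.card {i // ¬ Rv i}
      · have haim : ∀ i : {i // ¬ Rv i}, Aim p q (s i.1) := by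
          intro i
          have hi := hs i.1
          refine kl (nd2 i.1) (hi.2.1.trans hi.1.symm) ?_ i.2 (hi.2.1.symm.subset hp)
            (hi.2.1.symm.subset hq) hqp.symm ?_
          · intro a b ha hb
            have h1 := ha.formPerm (nd2 i.1)
            have h2 := hb.formPerm (nd1 i.1)
            have haA : a ∈ A := by
              obtain ⟨r, hr⟩ := ha
              exact hi.2.1.subset (hr.symm.perm.subset (by simp))
            apply hfix a haA
            rw [← hmu i.1 a, Perm.inv_eq_iff_eq, h1, h2]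
          · intro x hx1 hx2
            have h1 := hx1.formPerm (nd1 i.1)
            have h2 := hx2.formPerm (nd2 i.1)
            apply hqm
            rw [← hmu i.1 p, eq_comm, Perm.inv_eq_iff_eq, h1, h2]
        obtain ⟨i, j, hij, h⟩ := pig_step IH (by omega) hA hlen (s := fun i : {i // ¬ Rv i} => s i.1)
          (fun i => hs i.1) (p := p) (q := q) hp haim hc1
        exact ⟨i.1, j.1, fun e => hij (Subtype.ext e), h⟩
      · have hcc : Fintype.card {i // ¬ Rv i} = Fintype.card ι - Fintype.card {i // Rv i} :=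
          Fintype.card_subtype_compl _
        have hc2 : Fintype.card {x // x ∈ A} < Fintype.card {i // Rv i} := by
          have h1 : Fintype.card {x // x ∈ A} = A.length := by
            rw [← List.toFinset_card_of_nodup hA, ← Fintype.card_coe]
            exact Fintype.card_congr (Equiv.subtypeEquivRight fun x => by simp)
          rw [h1, hlen]
          omega
        let f : {i // Rv i} → {x // x ∈ A} := fun i => ⟨(s i.1).1.formPerm p,
          (hs i.1).1.subset (List.formPerm_mem_iff_mem.mpr ((hs i.1).1.symm.subset hp))⟩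
        obtain ⟨i, j, hij, hf⟩ := Fintype.exists_ne_map_eq_of_card_lt f hc2
        have hf' : (s i.1).1.formPerm p = (s j.1).1.formPerm p := congrArg Subtype.val hf
        refine ⟨i.1, j.1, fun e => hij (Subtype.ext e), ?_⟩
        have h1 : mu ((s i.1).1, (s i.1).2) = mu ((s j.1).1, (s j.1).2) :=
          (hs i.1).2.2.trans (hs j.1).2.2.symm
        obtain ⟨r1, r2⟩ := rev_eq hA (hs i.1).1 (hs j.1).1 h1 i.2 j.2 hp hf' (by omega)
        exact (Chn.single (Sw.rot r1 r2)).mono (by omega)

end Pool.Agent.QuadEq
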