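import Pool.Agent.Lib.MP_b7851d_lc.Small
import Pool.Agent.Lib.MP_b7851d_lc.Main

/-!
# Progress: solvable equations reach shorter solvable equations by few links
-/

namespace Pool.Agent.QuadEq

/-- Chains with at most `n` links. -/
inductive Chn {α : Type*} (R : α → α → Prop) : ℕ → α → α → Prop
  | refl (n : ℕ) (a : α) : Chn R n a a
  | step {n : ℕ} {a b c : α} (h : R a b) (h' : Chn R n b c) : Chn R (n + 1) a c

theorem Chn.trans {α : Type*} {R : α → α → Prop} {m n : ℕ} {a b c : α} (h : Chn R m a b)
    (h' : Chn R n b c) : Chn R (m + n) a c := by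
  induction h with
  | refl m a =>
    cases h' with
    | refl n a => exact Chn.refl _ _
    | @step n a b c h1 h2 =>
      have : ∀ {k l : ℕ} {a b : α}, Chn R k a b → k ≤ l → Chn R l a b := by
        intro k l a b h
        induction h generalizing l with
        | refl => exact fun _ => Chn.refl _ _
        | @step n a b c h1 _ ih =>
          intro hl
          obtain ⟨l', rfl⟩ := Nat.exists_eq_add_of_le hl
          rw [show n + 1 + l' = (n + l') + 1 by omega]
          exact Chn.step h1 (ih (by omega))
      exact this (Chn.step h1 h2) (by omega)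
  | @step m a b c h1 _ ih =>
    rw [Nat.add_right_comm]
    exact Chn.step h1 (ih h')

theorem Chn.mono {α : Type*} {R : α → α → Prop} {m n : ℕ} {a b : α} (h : Chn R m a b)
    (hmn : m ≤ n) : Chn R n a b := by
  obtain ⟨k, rfl⟩ := Nat.exists_eq_add_of_le hmn
  exact h.trans (Chn.refl k b)

theorem Chn.single {α : Type*} {R : α → α → Prop} {a b : α} (h : R a b) : Chn R 1 a b :=
  Chn.step h (Chn.refl 0 b)

theorem Chn.map {α β : Type*} {R : α → α → Prop} {S : β → β → Prop} {f : α → β}
    (hf : ∀ a b, R a b → S (f a) (f b)) {n : ℕ} {a b : α} (h : Chn R n a b) :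
    Chn S n (f a) (f b) := by
  induction h with
  | refl => exact Chn.refl _ _
  | step h1 _ ih => exact Chn.step (hf _ _ h1) ih

variable {L : Type} [DecidableEq L] (V : L → Bool)

/-- A jump: a sequence of block steps. -/
def Jump (E F : List L × List L) : Prop :=
  ∃ S S', unpE S = E ∧ unpE S' = F ∧ Ok (dbl V E) S.1 ∧ Ok (dbl V E) S.2 ∧
    Relation.ReflTransGen Move S S'

/-- The links of the certificates. -/
def Lk (E F : List L × List L) : Prop := Mv V E F ∨ Jump V E F

variable {V} {E F : List L × List L} {x : L} {u A B : List L} {h : L → List L}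

theorem dbl_swap (E : List L × List L) : dbl V E.swap = dbl V E := by
  funext l
  apply dbl_eq_of_count
  simp only [Prod.fst_swap, Prod.snd_swap, List.count_append]
  omega

theorem move_swap_rtg {S S' : List (L × List L) × List (L × List L)}
    (h : Relation.ReflTransGen Move S S') : Relation.ReflTransGen Move S.swap S'.swap := by
  induction h with
  | refl => exact Relation.ReflTransGen.refl
  | tail _ h ih => exact ih.tail h.swap

theorem Jump.swap (h : Jump V E F) : Jump V E.swap F.swap := by
  obtain ⟨S, S', h1, h2, h3, h4, h5⟩ := h
  refine ⟨S.swap, S'.swap, by rw [← h1]; rfl, by rw [← h2]; rfl, ?_, ?_, move_swap_rtg h5⟩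
  · rw [dbl_swap]; exact h4
  · rw [dbl_swap]; exact h3

theorem Lk.swap (h : Lk V E F) : Lk V E.swap F.swap := by
  rcases h with h | h
  · exact Or.inl h.swap
  · exact Or.inr h.swap

/-- The length of an equation. -/
def len (E : List L × List L) : ℕ := (E.1 ++ E.2).length

omit [DecidableEq L] in
theorem len_swap (E : List L × List L) : len E.swap = len E := by
  unfold len
  simp only [Prod.fst_swap, Prod.snd_swap, List.length_append]
  omega

theorem Rch.chn {n : ℕ} (h : Rch V n E F) : Chn (Lk V) n E F := by
  induction h with
  | refl => exact Chn.refl _ _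
  | step h1 _ ih => exact Chn.step (Or.inl h1) ih

/-- Few links lead to a shorter solvable equation. -/
def Prog (V : L → Bool) (n : ℕ) (E : List L × List L) : Prop :=
  ∃ E', Chn (Lk V) n E E' ∧ len E' < len E ∧ ∃ h, Solves V h E'

theorem Prog.swap {n : ℕ} (h : Prog V n E) : Prog V n E.swap := by
  obtain ⟨E', h1, h2, h, h3⟩ := h
  refine ⟨E'.swap, h1.map fun _ _ => Lk.swap, ?_, h, h3.swap⟩
  rw [len_swap, len_swap]
  exact h2

theorem Prog.mono {m n : ℕ} (h : Prog V m E) (hmn : m ≤ n) : Prog V n E := by
  obtain ⟨E', h1, h2⟩ := h
  exact ⟨E', h1.mono hmn, h2⟩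

/-- The counts of the letters after a run of a variable which occurs twice. -/
theorem count_run (hu : x ∉ u) (hx1 : A.count x + B.count x = 1) (l : L) :
    (x :: sub x (u ++ [x]) A ++ sub x (u ++ [x]) B).count l = (x :: A ++ (u ++ B)).count l := by
  have hu0 : u.count x = 0 := List.count_eq_zero_of_not_mem hu
  simp only [List.count_append, List.count_cons, count_sub, List.cons_append, List.count_nil]
  by_cases hl : l = x
  · subst hl
    simp only [beq_self_eq_true, if_true, hu0]
    omega
  · have hl' : (x == l) = false := by simpa using fun e : x = l => hl e.symm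
    simp only [hl', if_neg hl, Bool.false_eq_true, if_false, Nat.add_zero]
    have : A.count x * u.count l + B.count x * u.count l = u.count l := by
      rw [← Nat.add_mul, hx1, one_mul]
    omega

omit [DecidableEq L] in
/-- The cut of a word at a given length of the value. -/
theorem exists_cut (h : L → List L) : ∀ (w : List L) (n : ℕ), n ≤ (ev V h w).length →
    ∃ w₁ w₂, w = w₁ ++ w₂ ∧ (ev V h w₁).length ≤ n ∧ ((ev V h w₁).length = n ∨
      ∃ l w₃, w₂ = l :: w₃ ∧ n < (ev V h w₁).length + (ev V h [l]).length)
  | [], n, hn => ⟨[], [], rfl, by simp, Or.inl (by simp at hn; simp [hn])⟩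
  | l :: w, n, hn => by
    have hl : ev V h (l :: w) = ev V h [l] ++ ev V h w := by
      rw [ev_cons, ev_cons, ev_nil, List.append_nil]
    rcases Nat.lt_or_ge n (ev V h [l]).length with h1 | h1
    · exact ⟨[], l :: w, rfl, by simp, Or.inr ⟨l, w, rfl, by simpa using h1⟩⟩
    · rw [hl, List.length_append] at hn
      obtain ⟨w₁, w₂, h2, h3, h4⟩ := exists_cut h w (n - (ev V h [l]).length) (by omega)
      have hl' : ev V h (l :: w₁) = ev V h [l] ++ ev V h w₁ := by
        rw [ev_cons, ev_cons, ev_nil, List.append_nil]
      refine ⟨l :: w₁, w₂, by rw [h2]; rfl, by rw [hl', List.length_append]; omega, ?_⟩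
      rcases h4 with h4 | ⟨l', w₃, h5, h6⟩
      · left; rw [hl', List.length_append]; omega
      · right
        refine ⟨l', w₃, h5, ?_⟩
        rw [hl', List.length_append]
        omega

theorem len_erase (hx : x ∈ A ++ B) : len (sub x [] A, sub x [] B) < len (A, B) := by
  unfold len
  simp only
  rw [← sub_append]
  have : ∀ w : List L, (sub x [] w).length + w.count x = w.length := by
    intro w
    induction w with
    | nil => rfl
    | cons l w ih =>
      by_cases hl : l = x
      · subst hl
        rw [erase_cons_self, List.count_cons_self, List.length_cons]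
        omega
      · rw [erase_cons_ne hl, List.count_cons_of_ne hl, List.length_cons, List.length_cons]
        omega
  have h1 := this (A ++ B)
  have h2 := List.count_pos_iff.mpr hx
  omega

/-- The exit when the value of `x` is exhausted at the end of the word `u`. -/
theorem exit_end (hx : V x = true) (hu : x ∉ u) (hr : h x = ev V h u)
    (hs : Solves V h (x :: A, u ++ B)) (hE : Quad V (x :: A, u ++ B)) :
    Prog V 2 (x :: A, u ++ B) := by
  have h1 := run_solves (r := []) hx hu (by rw [hr, List.append_nil]) hs
  have m1 : Mv V (x :: A, u ++ B) (x :: sub x (u ++ [x]) A, sub x (u ++ [x]) B) := Mv.run hx hu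
  have m2 := Mv.erase (V := V) (A := x :: sub x (u ++ [x]) A) (B := sub x (u ++ [x]) B) hx
    (by simp)
  refine ⟨_, ((Rch.single m1).trans (Rch.single m2)).chn, ?_, Function.update h x [], ?_⟩
  · exact (len_erase (by simp)).trans_le (m1.subperm hE).length_le
  · unfold Solves at h1 ⊢
    simp only at h1 ⊢
    rw [ev_erase hx (Function.update_self _ _ _), ev_erase hx (Function.update_self _ _ _), h1]

/-- The exit when the value of `x` is exhausted within a letter which occurs only once. -/
theorem exit_mid {l : L} {r : List L} (hx : V x = true) (hu : x ∉ u) (hlx : l ≠ x)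
    (hl : V l = true) (hl1 : (x :: A ++ (u ++ l :: B)).count l ≤ 1)
    (hr : h x = ev V h u ++ r) (hlen : r.length < (h l).length)
    (hs : Solves V h (x :: A, u ++ l :: B)) (hE : Quad V (x :: A, u ++ l :: B)) :
    Prog V 2 (x :: A, u ++ l :: B) := by
  have h1 := run_solves hx hu hr hs
  have m1 : Mv V (x :: A, u ++ l :: B)
    (x :: sub x (u ++ [x]) A, sub x (u ++ [x]) (l :: B)) := Mv.run hx hu
  have hsub : sub x (u ++ [x]) (l :: B) = l :: sub x (u ++ [x]) B := by
    rw [sub_cons, if_neg hlx]; rfl
  rw [hsub] at h1 m1
  have hcl := (m1.subperm hE).count_le l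
  simp only at hcl
  have hcl1 := hcl.trans hl1
  simp only [List.count_append, List.cons_append, List.count_cons_self,
    List.count_cons_of_ne hlx.symm] at hcl1
  have hA : l ∉ sub x (u ++ [x]) A := List.count_eq_zero.mp (by omega)
  have hB : l ∉ sub x (u ++ [x]) B := List.count_eq_zero.mp (by omega)
  have hlu : l ∉ [x] := by simpa using hlx
  have m2 : Mv V (x :: sub x (u ++ [x]) A, l :: sub x (u ++ [x]) B)
      (sub x (u ++ [x]) A, l :: sub x (u ++ [x]) B) := by
    have := Mv.run' (V := V) (A := sub x (u ++ [x]) B) (B := sub x (u ++ [x]) A) (u := [x]) hl hlu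
    rw [sub_eq_self hA, sub_eq_self hB] at this
    exact this
  set h' := Function.update h x r with hh'
  obtain ⟨s, hs'⟩ : ∃ s, h' l = ev V h' [x] ++ s := by
    have e1 : h' l = h l := Function.update_of_ne hlx _ _
    have e2 : ev V h' [x] = r := by
      rw [ev_cons, if_pos hx, ev_nil, List.append_nil, hh', Function.update_self]
    have h2 := h1
    unfold Solves at h2
    simp only at h2
    rw [ev_cons, if_pos hx, ev_cons, if_pos hl, e1] at h2
    rw [e1, e2]
    rw [hh', Function.update_self] at h2
    rcases List.append_eq_append_iff.mp h2 with ⟨s, h3, -⟩ | ⟨s, h3, -⟩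
    · exact ⟨s, h3⟩
    · exfalso
      rw [h3, List.length_append] at hlen
      omega
  have h3 := run_solves (A := sub x (u ++ [x]) B) (B := sub x (u ++ [x]) A) hl hlu hs' h1.swap
  rw [sub_eq_self hA, sub_eq_self hB] at h3
  refine ⟨_, ((Rch.single m1).trans (Rch.single m2)).chn, ?_, _, h3.swap⟩
  have h4 := (m1.subperm hE).length_le
  unfold len
  simp only [List.length_append, List.length_cons] at h4 ⊢
  omega

/-- Either there is an exit, or the value of `x` extends beyond the word `w` of passive letters. -/
theorem absorb2 {p w r : List L} (hx : V x = true) (hp : x ∉ p) (hxw : x ∉ w)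
    (hw : ∀ l ∈ w, V l = true → (x :: A ++ ((p ++ w) ++ B)).count l ≤ 1)
    (hr : h x = ev V h p ++ r) (hs : Solves V h (x :: A, (p ++ w) ++ B))
    (hE : Quad V (x :: A, (p ++ w) ++ B)) :
    Prog V 2 (x :: A, (p ++ w) ++ B) ∨ ∃ r', r' ≠ [] ∧ h x = ev V h (p ++ w) ++ r' := by
  have hs' : r ++ ev V h A = ev V h w ++ ev V h B := by
    have := hs
    unfold Solves at this
    simp only at this
    rw [ev_cons, if_pos hx, hr, ev_append, ev_append, List.append_assoc,
      List.append_assoc] at this
    exact List.append_cancel_left this
  rcases Nat.lt_or_ge (ev V h w).length r.length with hlt | hle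
  · right
    rcases List.append_eq_append_iff.mp hs' with ⟨w', hw', -⟩ | ⟨r', hr', -⟩
    · exfalso
      rw [hw', List.length_append] at hlt
      omega
    · refine ⟨r', ?_, by rw [hr, ev_append, hr', List.append_assoc]⟩
      rintro rfl
      rw [hr', List.append_nil] at hlt
      omega
  · left
    obtain ⟨w₁, w₂, h1, h2, h3⟩ := exists_cut h w r.length hle
    subst h1
    have hxw1 : x ∉ w₁ := fun e => hxw (List.mem_append_left _ e)
    have hpw : x ∉ p ++ w₁ := fun e => by
      rcases List.mem_append.mp e with e | e
      · exact hp e
      · exact hxw1 e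
    obtain ⟨r₂, hr₂⟩ : ∃ r₂, r = ev V h w₁ ++ r₂ := by
      rw [ev_append, List.append_assoc] at hs'
      rcases List.append_eq_append_iff.mp hs' with ⟨w', hw', -⟩ | ⟨r', hr', -⟩
      · have := congrArg List.length hw'
        rw [List.length_append] at this
        have h0 : w' = [] := List.length_eq_zero_iff.mp (by omega)
        exact ⟨[], by rw [hw', h0]; simp⟩
      · exact ⟨r', hr'⟩
    have hr' : h x = ev V h (p ++ w₁) ++ r₂ := by
      rw [hr, hr₂, ev_append, List.append_assoc]
    have e1 : (p ++ (w₁ ++ w₂)) ++ B = (p ++ w₁) ++ (w₂ ++ B) := by simp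
    rw [e1] at hs hE ⊢
    rcases h3 with h3 | ⟨l, w₃, rfl, h4⟩
    · have h0 : r₂ = [] := by
        have := congrArg List.length hr₂
        rw [List.length_append] at this
        exact List.length_eq_zero_iff.mp (by omega)
      rw [h0, List.append_nil] at hr'
      exact exit_end hx hpw hr' hs hE
    · by_cases h0 : r₂ = []
      · rw [h0, List.append_nil] at hr'
        exact exit_end hx hpw hr' hs hE
      · have hlen := congrArg List.length hr₂
        rw [List.length_append] at hlen
        have hpos := List.length_pos_iff.mpr h0
        have hl : V l = true := by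
          by_contra hl
          rw [ev_cons, if_neg hl] at h4
          simp at h4
          omega
        rw [ev_cons, if_pos hl, ev_nil, List.append_nil] at h4
        have hlx : l ≠ x := fun e => hxw (e ▸ by simp)
        have h5 := hw l (by simp) hl
        rw [e1] at h5
        exact exit_mid hx hpw hlx hl h5 hr' (by omega) hs hE

/-! ### Block states -/

theorem Mv.weaken {V' : L → Bool} (hV : ∀ l, V' l = true → V l = true) (h : Mv V' E F) :
    Mv V E F := by
  cases h with
  | erase hx hm => exact Mv.erase (hV _ hx) hm
  | cancel u A B => exact Mv.cancel u A B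
  | run hx hu => exact Mv.run (hV _ hx) hu
  | run' hx hu => exact Mv.run' (hV _ hx) hu

theorem dbl_imp {l : L} (h : dbl V E l = true) : V l = true := by
  unfold dbl at h
  rw [Bool.and_eq_true] at h
  exact h.1

theorem dbl_count {l : L} (h : dbl V E l = true) : (E.1 ++ E.2).count l = 2 := by
  unfold dbl at h
  rw [Bool.and_eq_true, decide_eq_true_eq] at h
  exact h.2

theorem count_le_one {l : L} (hq : Quad V E) (h : dbl V E l = false) (hV : V l = true) :
    (E.1 ++ E.2).count l ≤ 1 := by
  unfold dbl at h
  rw [hV, Bool.true_and, decide_eq_false_iff_not] at h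
  have := hq l hV
  omega

/-- Good block states of equations in which some variables may occur only once. -/
structure Good2 (V : L → Bool) (h : L → List L) (S : List (L × List L) × List (L × List L)) :
    Prop where
  ok1 : Ok (dbl V (unpE S)) S.1
  ok2 : Ok (dbl V (unpE S)) S.2
  quad : Quad V (unpE S)
  solves : Solves V h (unpE S)
  ne : ∀ x ∈ vars V (unpE S), h x ≠ []
  front : ∃ x a P y w Q, S = ((x, a) :: P, (y, w) :: Q) ∧ x ≠ y

omit [DecidableEq L] in
theorem unpE_swap (S : List (L × List L) × List (L × List L)) : unpE S.swap = (unpE S).swap := rfl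

theorem Good2.swap {S : List (L × List L) × List (L × List L)} (hS : Good2 V h S) :
    Good2 V h S.swap := by
  obtain ⟨h1, h2, h3, h4, h5, x, a, P, y, w, Q, h6, h7⟩ := hS
  refine ⟨?_, ?_, h3.swap, h4.swap, ?_, y, w, Q, x, a, P, by rw [h6]; rfl, h7.symm⟩
  · rw [unpE_swap, dbl_swap]; exact h2
  · rw [unpE_swap, dbl_swap]; exact h1
  · rw [unpE_swap, vars_swap]
    exact h5

theorem step_or_exit2 {x y : L} {a w : List L} {P Q : List (L × List L)}
    (hS : Good2 V h ((x, a) :: P, (y, w) :: Q)) (hle : (h y).length ≤ (h x).length) :
    Prog V 2 (unpE ((x, a) :: P, (y, w) :: Q)) ∨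
    ∃ S' h', TMove ((x, a) :: P, (y, w) :: Q) S' ∧ Good2 V h' S' ∧
      (ev V h' (unp S'.1)).length < (ev V h (unp ((x, a) :: P))).length := by
  have hxy : x ≠ y := by
    obtain ⟨x', a', P', y', w', Q', h1, h2⟩ := hS.front
    rw [Prod.mk.injEq, List.cons.injEq, List.cons.injEq, Prod.mk.injEq, Prod.mk.injEq] at h1
    obtain ⟨⟨⟨rfl, _⟩, _⟩, ⟨⟨rfl, _⟩, _⟩⟩ := h1
    exact h2
  set V' := dbl V (unpE ((x, a) :: P, (y, w) :: Q)) with hV'
  have hx' : V' x = true := (hS.ok1 _ List.mem_cons_self).1
  have hy' : V' y = true := (hS.ok2 _ List.mem_cons_self).1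
  have hx : V x = true := dbl_imp hx'
  have hy : V y = true := dbl_imp hy'
  have hw : ∀ c ∈ w, V' c = false := (hS.ok2 _ List.mem_cons_self).2
  have hE : unpE ((x, a) :: P, (y, w) :: Q) = (x :: (a ++ unp P), ([y] ++ w) ++ unp Q) := by
    unfold unpE
    simp [unp_cons]
  have hs := hS.solves
  have hq := hS.quad
  have hxp : x ∉ [y] := by simpa using hxy
  have hxw0 : x ∉ w := fun e => by
    have := hw x e
    rw [hx'] at this
    exact absurd this (by simp)
  have hxw : x ∉ [y] ++ w := by
    intro h
    rcases List.mem_append.mp h with h | h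
    · exact hxp h
    · exact hxw0 h
  have hpass : ∀ l ∈ w, V l = true → (x :: (a ++ unp P) ++ (([y] ++ w) ++ unp Q)).count l ≤ 1 := by
    intro l hl hVl
    have := count_le_one hq (hw l hl) hVl
    rwa [hE] at this
  have hcx := dbl_count hx'
  rw [hE] at hs hq hcx ⊢
  have hcx1 : (a ++ unp P).count x + (unp Q).count x = 1 := by
    have h0 : ([y] ++ w).count x = 0 := List.count_eq_zero_of_not_mem hxw
    change ((x :: (a ++ unp P)) ++ (([y] ++ w) ++ unp Q)).count x = 2 at hcx
    rw [List.count_append, List.count_cons_self, List.count_append (l₁ := [y] ++ w), h0] at hcx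
    omega
  obtain ⟨r, hr⟩ : ∃ r, h x = h y ++ r := by
    have h1 := hs
    unfold Solves at h1
    simp only at h1
    rw [ev_cons, if_pos hx, ev_append (w := [y] ++ w), ev_append (w := [y]), ev_cons, if_pos hy,
      ev_nil, List.append_nil, List.append_assoc] at h1
    rcases List.append_eq_append_iff.mp h1 with ⟨r, hr, -⟩ | ⟨r, hr, -⟩
    · refine ⟨[], ?_⟩
      have := congrArg List.length hr
      rw [List.length_append] at this
      have h0 : r = [] := List.length_eq_zero_iff.mp (by omega)
      rw [hr, h0]
      simp
    · exact ⟨r, hr⟩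
  rcases absorb2 hx hxp hxw0 hpass (r := r)
    (by rw [ev_cons, if_pos hy, ev_nil, List.append_nil, hr]) hs hq with h1 | ⟨r', hr0, hr'⟩
  · exact Or.inl h1
  · right
    have hm : TMove ((x, a) :: P, (y, w) :: Q) ((x, a) :: ins x (y, w) P, ins x (y, w) Q) :=
      TMove.mk hxy
    have hP : Ok V' P := fun s hs => hS.ok1 s (List.mem_cons_of_mem _ hs)
    have hQ : Ok V' Q := fun s hs => hS.ok2 s (List.mem_cons_of_mem _ hs)
    have ha : x ∉ a := fun h => by
      have := (hS.ok1 _ List.mem_cons_self).2 x h
      rw [← hV', hx'] at this
      exact absurd this (by simp)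
    have hE' : unpE ((x, a) :: ins x (y, w) P, ins x (y, w) Q) =
        (x :: sub x ([y] ++ w ++ [x]) (a ++ unp P), sub x ([y] ++ w ++ [x]) (unp Q)) := by
      unfold unpE
      simp only
      rw [unp_cons, unp_ins hx' _ hP, unp_ins hx' _ hQ, sub_append, sub_eq_self ha]
      rfl
    have hsol := run_solves hx hxw hr' hs
    have hinv := Move.inv (N := ((x, a) :: P).length + ((y, w) :: Q).length)
      (I := ((x, a) :: P) ++ ((y, w) :: Q)) (V := V') (Or.inl hm)
      ⟨hS.ok1, hS.ok2, by
        intro z hz
        exact hS.quad z (dbl_imp hz), le_rfl, fun s hs => hs⟩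
    have hmv : Mv V (unpE ((x, a) :: P, (y, w) :: Q))
        (unpE ((x, a) :: ins x (y, w) P, ins x (y, w) Q)) :=
      (hm.mv hS.ok1 hS.ok2).weaken fun l hl => dbl_imp hl
    have hd : dbl V (unpE ((x, a) :: ins x (y, w) P, ins x (y, w) Q)) = V' := by
      funext l
      rw [hV']
      apply dbl_eq_of_count
      rw [hE, hE']
      exact count_run hxw hcx1 l
    refine ⟨_, Function.update h x r', hm, ⟨?_, ?_, hmv.quad hS.quad, ?_, ?_, ?_⟩, ?_⟩
    · rw [hd]; exact hinv.1
    · rw [hd]; exact hinv.2.1
    · rw [hE']; exact hsol
    · intro z hz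
      by_cases hzx : z = x
      · subst hzx; rwa [Function.update_self]
      · rw [Function.update_of_ne hzx]
        exact hS.ne z (hmv.vars hS.quad hz)
    · cases Q with
      | nil =>
        exfalso
        have h1 := hsol
        unfold Solves at h1
        simp only [unp, List.flatMap_nil, sub_nil, ev_nil] at h1
        rw [ev_cons, if_pos hx, Function.update_self] at h1
        exact hr0 (List.append_eq_nil_iff.mp h1).1
      | cons s Q =>
        by_cases hsx : s.1 = x
        · refine ⟨x, a, ins x (y, w) P, y, w, s :: ins x (y, w) Q, ?_, hxy⟩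
          have : ins x (y, w) (s :: Q) = (y, w) :: s :: ins x (y, w) Q := by
            simp [ins, hsx]
          rw [this]
        · refine ⟨x, a, ins x (y, w) P, s.1, s.2, ins x (y, w) Q, ?_, fun e => hsx e.symm⟩
          have : ins x (y, w) (s :: Q) = s :: ins x (y, w) Q := by
            simp [ins, hsx]
          rw [this]
    · have e1 : unp ((x, a) :: ins x (y, w) P) = x :: sub x ([y] ++ w ++ [x]) (a ++ unp P) :=
        congrArg Prod.fst hE'
      simp only
      rw [e1, ev_cons, if_pos hx, Function.update_self, ev_run hx hxw hr', unp_cons, ev_cons,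
        if_pos hx, hr']
      simp only [List.length_append]
      rw [ev_append (w := [y]), List.length_append, ev_cons, if_pos hy, ev_nil, List.append_nil]
      have h0 : h y ≠ [] := hS.ne y (by
        rw [hE]
        exact mem_vars.mpr ⟨Or.inr (by simp), hy⟩)
      have := List.length_pos_iff.mpr h0
      omega

/-- From a good block state, an exit can be reached. -/
theorem guided2 : ∀ (n : ℕ) (h : L → List L) (S : List (L × List L) × List (L × List L)),
    (ev V h (unp S.1)).length = n → Good2 V h S →
    ∃ S', Relation.ReflTransGen Move S S' ∧ Prog V 2 (unpE S') ∧ len (unpE S') ≤ len (unpE S) := by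
  intro n
  induction n using Nat.strong_induction_on with
  | _ n ih =>
    intro h S hn hS
    obtain ⟨x, a, P, y, w, Q, rfl, hxy⟩ := hS.front
    have hlen : ∀ {S S' : List (L × List L) × List (L × List L)} {h : L → List L},
        Good2 V h S → TMove S S' → len (unpE S') ≤ len (unpE S) := by
      intro S S' h hS hm
      exact (((hm.mv hS.ok1 hS.ok2).weaken fun l hl => dbl_imp hl).subperm hS.quad).length_le
    rcases le_total (h y).length (h x).length with hle | hle
    · rcases step_or_exit2 hS hle with h1 | ⟨S', h', hm, hg, hlt⟩
      · exact ⟨_, Relation.ReflTransGen.refl, h1, le_rfl⟩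
      · obtain ⟨S'', h2, h3, h4⟩ := ih _ (by rw [← hn]; exact hlt) h' S' rfl hg
        exact ⟨S'', Relation.ReflTransGen.head (Or.inl hm) h2, h3, h4.trans (hlen hS hm)⟩
    · rcases step_or_exit2 hS.swap hle with h1 | ⟨S', h', hm, hg, hlt⟩
      · exact ⟨_, Relation.ReflTransGen.refl, h1.swap, le_rfl⟩
      · have e1 : ev V h (unp ((x, a) :: P)) = ev V h (unp ((y, w) :: Q)) := hS.solves
        have e2 : ev V h' (unp S'.1) = ev V h' (unp S'.2) := hg.solves
        obtain ⟨S'', h2, h3, h4⟩ := ih _ (by rw [← hn]; exact e1 ▸ hlt) h' S'.swap
          (by rw [e2]; rfl) hg.swap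
        refine ⟨S'', Relation.ReflTransGen.head (Or.inr ?_) h2, h3, h4.trans ?_⟩
        · rw [Prod.swap_swap]
          exact hm
        · have := hlen hS.swap hm
          rw [unpE_swap, len_swap]
          rw [unpE_swap, len_swap] at this
          exact this

/-- From a good block state, a jump and two more links lead to a shorter solvable equation. -/
theorem Good2.prog {S : List (L × List L) × List (L × List L)} (hS : Good2 V h S) :
    Prog V 3 (unpE S) := by
  obtain ⟨S', h1, ⟨E', h2, h3, h4⟩, h5⟩ := guided2 _ h S rfl hS
  have hj : Lk V (unpE S) (unpE S') := Or.inr ⟨S, S', rfl, rfl, hS.ok1, hS.ok2, h1⟩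
  exact ⟨E', Chn.step hj h2, h3.trans_le h5, h4⟩

/-- The phase with a variable in front which occurs twice. -/
theorem phase2 {B : List L} (hq : Quad V (x :: A, B)) (hx : dbl V (x :: A, B) x = true)
    (hfr : B.head? ≠ some x) (hs : Solves V h (x :: A, B))
    (hne : ∀ z ∈ vars V (x :: A, B), h z ≠ []) :
    Prog V 4 (x :: A, B) ∨ ∃ h', Solves V h' (x :: A, B) ∧
      (ev V h' (x :: A)).length < (ev V h (x :: A)).length := by
  obtain ⟨g, Q, rfl, hg, hQ⟩ := exists_parse (dbl V (x :: A, B)) B
  set E := (x :: A, g ++ unp Q) with hEdef
  have hVx : V x = true := dbl_imp hx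
  have hcx := dbl_count hx
  have hxg : x ∉ g := fun e => by
    have := hg x e
    rw [hx] at this
    exact absurd this (by simp)
  have hcx1 : A.count x + (unp Q).count x = 1 := by
    have h0 : g.count x = 0 := List.count_eq_zero_of_not_mem hxg
    rw [hEdef] at hcx
    simp only [List.cons_append, List.count_cons_self, List.count_append] at hcx
    omega
  have hpass : ∀ l ∈ g, V l = true → (x :: A ++ (([] ++ g) ++ unp Q)).count l ≤ 1 := by
    intro l hl hVl
    exact count_le_one hq (hg l hl) hVl
  rcases absorb2 (p := []) (w := g) (r := h x) (B := unp Q) hVx (by simp) hxg hpass (by simp) hs hq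
    with hexit | ⟨r, hr0, hr⟩
  · exact Or.inl (hexit.mono (by omega))
  · rw [List.nil_append] at hr
    have hs1 := run_solves hVx hxg hr hs
    have hm : Mv V E (x :: sub x (g ++ [x]) A, sub x (g ++ [x]) (unp Q)) := Mv.run hVx hxg
    have hd : dbl V (x :: sub x (g ++ [x]) A, sub x (g ++ [x]) (unp Q)) = dbl V E := by
      funext l
      apply dbl_eq_of_count
      exact count_run hxg hcx1 l
    cases Q with
    | nil =>
      exfalso
      have h1 := hs1
      unfold Solves at h1
      simp only [unp, List.flatMap_nil, sub_nil, ev_nil] at h1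
      rw [ev_cons, if_pos hVx, Function.update_self] at h1
      exact hr0 (List.append_eq_nil_iff.mp h1).1
    | cons s Q =>
      obtain ⟨y, w⟩ := s
      have hy : dbl V E y = true := (hQ _ List.mem_cons_self).1
      by_cases hyx : y = x
      · right
        subst hyx
        have hg0 : g ≠ [] := by
          rintro rfl
          rw [List.nil_append, unp_cons] at hfr
          exact hfr rfl
        rw [unp_cons, List.count_cons_self, List.count_append] at hcx1
        simp only at hcx1
        have h1 : y ∉ A := List.count_eq_zero.mp (by omega)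
        have h2 : y ∉ w ++ unp Q := by
          rw [← List.count_eq_zero, List.count_append]; omega
        have e1 : sub y (g ++ [y]) A = A := sub_eq_self h1
        have e2 : sub y (g ++ [y]) (unp ((y, w) :: Q)) = g ++ unp ((y, w) :: Q) := by
          rw [unp_cons, sub_cons, if_pos rfl, sub_eq_self h2]
          simp
        rw [e1, e2] at hs1
        refine ⟨Function.update h y r, hs1, ?_⟩
        rw [ev_cons, if_pos hVx, Function.update_self, ev_update h1, ev_cons, if_pos hVx, hr]
        simp only [List.length_append]
        have hpos : ev V h g ≠ [] := by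
          cases g with
          | nil => exact absurd rfl hg0
          | cons c g => exact ev_ne_nil hne (Or.inr (by rw [hEdef]; simp))
        have := List.length_pos_iff.mpr hpos
        omega
      · left
        obtain ⟨a2, P2, ha2, hca, hP2⟩ := exists_parse (dbl V E) (sub x (g ++ [x]) A)
        obtain ⟨w2, Q2, hw2, hcw, hQ2⟩ := exists_parse (dbl V E) (sub x (g ++ [x]) (w ++ unp Q))
        have e2 : sub x (g ++ [x]) (unp ((y, w) :: Q)) = y :: (w2 ++ unp Q2) := by
          rw [unp_cons, sub_cons, if_neg hyx, hw2]
          rfl
        rw [ha2, e2] at hs1 hm hd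
        have hE2 : unpE ((x, a2) :: P2, (y, w2) :: Q2) =
            (x :: (a2 ++ unp P2), y :: (w2 ++ unp Q2)) := by
          unfold unpE
          rw [unp_cons, unp_cons]
        have hgood : Good2 V (Function.update h x r) ((x, a2) :: P2, (y, w2) :: Q2) := by
          refine ⟨?_, ?_, ?_, ?_, ?_, x, a2, P2, y, w2, Q2, rfl, fun e => hyx e.symm⟩
          · rw [hE2, hd]
            intro t ht
            rcases List.mem_cons.mp ht with rfl | ht
            · exact ⟨hx, hca⟩
            · exact hP2 t ht
          · rw [hE2, hd]
            intro t ht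
            rcases List.mem_cons.mp ht with rfl | ht
            · exact ⟨hy, hcw⟩
            · exact hQ2 t ht
          · rw [hE2]; exact hm.quad hq
          · rw [hE2]; exact hs1
          · intro z hz
            rw [hE2] at hz
            by_cases hzx : z = x
            · subst hzx; rwa [Function.update_self]
            · rw [Function.update_of_ne hzx]
              exact hne z (hm.vars hq hz)
        obtain ⟨E', h1, h2, h3⟩ := hgood.prog
        rw [hE2] at h1 h2
        exact ⟨E', Chn.step (Or.inl hm) h1, h2.trans_le (hm.subperm hq).length_le, h3⟩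

/-- A variable in front which occurs only once and which is not shorter than the other first
letter. -/
theorem prog_single {l : L} {B : List L} (hq : Quad V (x :: A, l :: B)) (hx : V x = true)
    (hx1 : dbl V (x :: A, l :: B) x = false) (hlx : l ≠ x) (hs : Solves V h (x :: A, l :: B))
    (hle : (ev V h [l]).length ≤ (h x).length) : Prog V 4 (x :: A, l :: B) := by
  have hc := count_le_one hq hx1 hx
  simp only [List.cons_append, List.count_append, List.count_cons_self,
    List.count_cons_of_ne hlx] at hc
  have hA : x ∉ A := List.count_eq_zero.mp (by omega)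
  have hB : x ∉ B := List.count_eq_zero.mp (by omega)
  have hu : x ∉ [l] := by simpa using hlx.symm
  have hm : Mv V (x :: A, l :: B) (x :: A, B) := by
    have := Mv.run (V := V) (A := A) (B := B) (u := [l]) hx hu
    rw [sub_eq_self hA, sub_eq_self hB] at this
    exact this
  obtain ⟨r, hr⟩ : ∃ r, h x = ev V h [l] ++ r := by
    have h1 := hs
    unfold Solves at h1
    simp only at h1
    have e : ev V h (l :: B) = ev V h [l] ++ ev V h B := by
      rw [ev_cons, ev_cons, ev_nil, List.append_nil]
    rw [e, ev_cons, if_pos hx] at h1
    rcases List.append_eq_append_iff.mp h1 with ⟨r, hr, -⟩ | ⟨r, hr, -⟩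
    · refine ⟨[], ?_⟩
      have := congrArg List.length hr
      rw [List.length_append] at this
      have h0 : r = [] := List.length_eq_zero_iff.mp (by omega)
      rw [hr, h0]
      simp
    · exact ⟨r, hr⟩
  have h2 := run_solves (A := A) (B := B) hx hu hr hs
  rw [sub_eq_self hA, sub_eq_self hB] at h2
  refine ⟨_, (Chn.single (R := Lk V) (Or.inl hm)).mono (by omega), ?_, _, h2⟩
  unfold len
  simp only [List.length_append, List.length_cons]
  omega

/-- Every solvable quadratic equation reaches a shorter solvable one by at most four links. -/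
theorem progress (hq : Quad V E) (hE : E ≠ ([], [])) : ∀ (n : ℕ) (h : L → List L),
    (ev V h E.1).length = n → Solves V h E → Prog V 4 E := by
  intro n
  induction n using Nat.strong_induction_on with
  | _ n ih =>
    intro h hn hs
    by_cases her : ∃ x ∈ vars V E, h x = []
    · obtain ⟨x, hx, h0⟩ := her
      have hx' := mem_vars.mp hx
      have hxm : x ∈ E.1 ++ E.2 := List.mem_append.mpr hx'.1
      have hm : Mv V E (sub x [] E.1, sub x [] E.2) := Mv.erase hx'.2 hxm
      refine ⟨_, (Chn.single (R := Lk V) (Or.inl hm)).mono (by omega), len_erase hxm, h, ?_⟩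
      unfold Solves at hs ⊢
      simp only
      rw [ev_erase hx'.2 h0, ev_erase hx'.2 h0, hs]
    · have hne : ∀ x ∈ vars V E, h x ≠ [] := fun x hx e => her ⟨x, hx, e⟩
      obtain ⟨A0, B0⟩ := E
      cases A0 with
      | nil =>
        cases B0 with
        | nil => exact absurd rfl hE
        | cons l B =>
          exfalso
          exact ev_ne_nil (w := B) hne (Or.inr (List.mem_cons_self (a := l))) hs.symm
      | cons l₁ A =>
        cases B0 with
        | nil =>
          exfalso
          exact ev_ne_nil (w := A) hne (Or.inl (List.mem_cons_self (a := l₁))) hs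
        | cons l₂ B =>
          by_cases h12 : l₁ = l₂
          · subst h12
            refine ⟨(A, B), (Chn.single (R := Lk V) (Or.inl (Mv.cancel [l₁] A B))).mono (by omega), ?_, h, ?_⟩
            · unfold len
              simp only [List.length_append, List.length_cons]
              omega
            · unfold Solves at hs ⊢
              simp only at hs ⊢
              rw [ev_cons, ev_cons] at hs
              exact List.append_cancel_left hs
          · have hsingle : ∀ {l₁ l₂ : L} {A B : List L}, Quad V (l₁ :: A, l₂ :: B) →
                Solves V h (l₁ :: A, l₂ :: B) → l₁ ≠ l₂ →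
                (V l₁ = true ∧ dbl V (l₁ :: A, l₂ :: B) l₁ = false ∧
                  (ev V h [l₂]).length ≤ (h l₁).length) → Prog V 4 (l₁ :: A, l₂ :: B) :=
              fun hq hs hne h => prog_single hq h.1 h.2.1 hne.symm hs h.2.2
            by_cases c1 : V l₁ = true ∧ dbl V (l₁ :: A, l₂ :: B) l₁ = false ∧
                  (ev V h [l₂]).length ≤ (h l₁).length
            · exact hsingle hq hs h12 c1
            by_cases c2 : V l₂ = true ∧ dbl V (l₂ :: B, l₁ :: A) l₂ = false ∧
                  (ev V h [l₁]).length ≤ (h l₂).length
            · exact (hsingle hq.swap hs.swap (Ne.symm h12) c2).swap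
            have hdsw : dbl V (l₂ :: B, l₁ :: A) = dbl V (l₁ :: A, l₂ :: B) :=
              dbl_swap (l₁ :: A, l₂ :: B)
            rw [hdsw] at c2
            by_cases d1 : dbl V (l₁ :: A, l₂ :: B) l₁ = true
            · rcases phase2 hq d1 (by simpa using Ne.symm h12) hs hne with h1 | ⟨h', h1, h2⟩
              · exact h1
              · exact ih _ (by rw [← hn]; exact h2) h' rfl h1
            · by_cases d2 : dbl V (l₁ :: A, l₂ :: B) l₂ = true
              · have hne' : ∀ z ∈ vars V (l₂ :: B, l₁ :: A), h z ≠ [] := by
                  have := vars_swap (V := V) (l₁ :: A, l₂ :: B)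
                  simp only [Prod.swap_prod_mk] at this
                  rw [this]
                  exact hne
                rcases phase2 (x := l₂) (A := B) (B := l₁ :: A) hq.swap (by rw [hdsw]; exact d2)
                  (by simpa using h12) hs.swap hne' with h1 | ⟨h', h1, h2⟩
                · exact h1.swap
                · have e1 : ev V h (l₁ :: A) = ev V h (l₂ :: B) := hs
                  have e2 : ev V h' (l₂ :: B) = ev V h' (l₁ :: A) := h1
                  refine ih _ ?_ h' rfl h1.swap
                  rw [← hn]
                  simp only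
                  rw [← e2, e1]
                  exact h2
              · exfalso
                have d1' : dbl V (l₁ :: A, l₂ :: B) l₁ = false := by simpa using d1
                have d2' : dbl V (l₁ :: A, l₂ :: B) l₂ = false := by simpa using d2
                have hev : ∀ l, (V l = true → (ev V h [l]).length = (h l).length) ∧
                    (V l = false → ev V h [l] = [l]) := by
                  intro l
                  constructor
                  · intro hl; rw [ev_cons, if_pos hl, ev_nil, List.append_nil]
                  · intro hl; rw [ev_cons, if_neg (by rw [hl]; simp), ev_nil, List.append_nil]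
                have hpos : ∀ l, (l ∈ (l₁ :: A) ∨ l ∈ (l₂ :: B)) → 1 ≤ (ev V h [l]).length := by
                  intro l hl
                  exact List.length_pos_iff.mpr (ev_ne_nil hne hl)
                have p1 := hpos l₁ (Or.inl List.mem_cons_self)
                have p2 := hpos l₂ (Or.inr List.mem_cons_self)
                cases v1 : V l₁ with
                | true =>
                  have h3 := (hev l₁).1 v1
                  cases v2 : V l₂ with
                  | true =>
                    have h4 := (hev l₂).1 v2
                    rcases le_total (h l₂).length (h l₁).length with h5 | h5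
                    · exact c1 ⟨v1, d1', by omega⟩
                    · exact c2 ⟨v2, d2', by omega⟩
                  | false =>
                    have h4 := congrArg List.length ((hev l₂).2 v2)
                    rw [List.length_singleton] at h4
                    exact c1 ⟨v1, d1', by omega⟩
                | false =>
                  have h3 := congrArg List.length ((hev l₁).2 v1)
                  rw [List.length_singleton] at h3
                  cases v2 : V l₂ with
                  | true =>
                    have h4 := (hev l₂).1 v2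
                    exact c2 ⟨v2, d2', by omega⟩
                  | false =>
                    unfold Solves at hs
                    simp only at hs
                    rw [ev_cons, ev_cons, if_neg (by rw [v1]; simp), if_neg (by rw [v2]; simp),
                      List.singleton_append, List.singleton_append, List.cons.injEq] at hs
                    exact h12 hs.1

end Pool.Agent.QuadEq
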