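import Pool.Agent.Lib.MP_b7851d_lc.Stand

/-!
# Realisation of block transpositions by bulk moves, and short paths of regular states
-/

namespace Pool.Agent.QuadEq

open List

variable {α : Type*}

/-- A rotation of three blocks, cut inside the last block after a cyclic renaming. -/
theorem cut_three {a b c : α} {A₁ A₂ A₃ B₁ B₂ B₃ Z Q Z' Q' : List α}
    (h1 : Z ~r (a :: A₁) ++ (b :: A₂) ++ (c :: A₃))
    (h2 : Q ~r (a :: B₁) ++ (b :: B₂) ++ (c :: B₃))
    (h3 : (b :: A₂) ++ (a :: A₁) ++ (c :: A₃) ~r Z')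
    (h4 : (a :: B₁) ++ (c :: B₃) ++ (b :: B₂) ~r Q') :
    ∃ (a b c : α) (z A B C B₁ B₂ B₃ : List α), Z = z ++ (a :: A) ++ (b :: B) ++ (c :: C) ∧
      Q ~r (c :: B₃) ++ (a :: B₁) ++ (b :: B₂) ∧ z ++ (b :: B) ++ (a :: A) ++ (c :: C) ~r Z' ∧
      (a :: B₁) ++ (c :: B₃) ++ (b :: B₂) ~r Q' := by
  have rot3 : ∀ X Y W : List α, X ++ Y ++ W ~r Y ++ W ++ X := by
    intro X Y W
    rw [List.append_assoc]
    exact List.isRotated_append
  obtain ⟨n, hn⟩ := h1.symm
  rw [List.rotate_eq_drop_append_take_mod] at hn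
  set L := (a :: A₁) ++ (b :: A₂) ++ (c :: A₃) with hL
  have hcut := List.take_append_drop (n % L.length) L
  generalize hL1 : List.take (n % L.length) L = L₁ at hn hcut
  generalize hL2 : List.drop (n % L.length) L = L₂ at hn hcut
  rw [hL] at hcut
  rw [← hn]
  clear_value L
  clear hL1 hL2 hn h1
  rw [List.append_assoc (a :: A₁)] at hcut
  rcases List.append_eq_append_iff.mp hcut with ⟨R, h5, h6⟩ | ⟨R, h5, h6⟩
  · -- the cut is in the first block: a :: A₁ = L₁ ++ R
    cases L₁ with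
    | nil =>
      rw [List.nil_append] at h5
      refine ⟨a, b, c, [], A₁, A₂, A₃, B₁, B₂, B₃, ?_, h2.trans ?_, ?_, h4⟩
      · rw [h6, ← h5]; simp
      · exact (rot3 _ _ _).trans (rot3 _ _ _)
      · simpa using h3
    | cons a' A₀ =>
      simp only [List.cons_append, List.cons.injEq] at h5
      obtain ⟨rfl, h5⟩ := h5
      refine ⟨b, c, a, R, A₂, A₃, A₀, B₂, B₃, B₁, ?_, h2, ?_, ?_⟩
      · rw [h6]; simp
      · refine List.IsRotated.trans ?_ h3
        rw [h5]
        have : R ++ c :: A₃ ++ b :: A₂ ++ a :: A₀ = R ++ (c :: A₃) ++ ((b :: A₂) ++ (a :: A₀)) := by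
          simp
        rw [this]
        have e2 : (b :: A₂) ++ (a :: (A₀ ++ R)) ++ (c :: A₃) =
            ((b :: A₂) ++ (a :: A₀)) ++ (R ++ (c :: A₃)) := by simp
        rw [e2]
        exact List.isRotated_append
      · refine List.IsRotated.trans ?_ h4
        exact (rot3 _ _ _)
  · -- L₁ = a :: A₁ ++ R
    rcases List.append_eq_append_iff.mp h6.symm with ⟨S, h7, h8⟩ | ⟨S, h7, h8⟩
    · -- b :: A₂ = R ++ S
      cases R with
      | nil =>
        rw [List.nil_append] at h7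
        rw [List.append_nil] at h5
        refine ⟨b, c, a, [], A₂, A₃, A₁, B₂, B₃, B₁, ?_, h2, ?_, ?_⟩
        · rw [h8, ← h7, h5]; simp
        · refine List.IsRotated.trans ?_ h3
          have := rot3 (c :: A₃) (b :: A₂) (a :: A₁)
          simpa using this
        · exact (rot3 _ _ _).trans h4
      | cons b' A₀ =>
        simp only [List.cons_append, List.cons.injEq] at h7
        obtain ⟨rfl, h7⟩ := h7
        refine ⟨c, a, b, S, A₃, A₁, A₀, B₃, B₁, B₂, ?_, h2.trans (rot3 _ _ _), ?_, ?_⟩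
        · rw [h8, h5]; simp
        · refine List.IsRotated.trans ?_ h3
          rw [h7]
          have : S ++ a :: A₁ ++ c :: A₃ ++ b :: A₀ = S ++ ((a :: A₁) ++ (c :: A₃)) ++ (b :: A₀) := by
            simp
          rw [this]
          have e2 : (b :: (A₀ ++ S)) ++ (a :: A₁) ++ (c :: A₃) =
              (b :: A₀) ++ S ++ ((a :: A₁) ++ (c :: A₃)) := by simp
          rw [e2]
          exact (rot3 _ _ _).trans (rot3 _ _ _)
        · exact ((rot3 _ _ _).trans (rot3 _ _ _)).trans h4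
    · -- R = b :: A₂ ++ S
      cases S with
      | nil =>
        rw [List.append_nil] at h7
        refine ⟨c, a, b, [], A₃, A₁, A₂, B₃, B₁, B₂, ?_, h2.trans (rot3 _ _ _), ?_, ?_⟩
        · rw [h5, h7]
          simp only [List.nil_append] at h8
          rw [← h8]; simp
        · refine List.IsRotated.trans ?_ h3
          have := rot3 (a :: A₁) (c :: A₃) (b :: A₂)
          have h9 := (rot3 (a :: A₁) (c :: A₃) (b :: A₂)).trans (rot3 _ _ _)
          simpa using h9
        · exact ((rot3 _ _ _).trans (rot3 _ _ _)).trans h4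
      | cons c' A₀ =>
        simp only [List.cons_append, List.cons.injEq] at h8
        obtain ⟨rfl, h8⟩ := h8
        refine ⟨a, b, c, L₂, A₁, A₂, A₀, B₁, B₂, B₃, ?_, h2.trans ?_, ?_, h4⟩
        · rw [h5, h7]; simp
        · exact (rot3 _ _ _).trans (rot3 _ _ _)
        · refine List.IsRotated.trans ?_ h3
          rw [h8]
          have : L₂ ++ b :: A₂ ++ a :: A₁ ++ c :: A₀ = L₂ ++ ((b :: A₂) ++ (a :: A₁) ++ (c :: A₀)) := by
            simp
          rw [this]
          have e2 : (b :: A₂) ++ (a :: A₁) ++ (c :: (A₀ ++ L₂)) =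
              ((b :: A₂) ++ (a :: A₁) ++ (c :: A₀)) ++ L₂ := by simp
          rw [e2]
          exact List.isRotated_append

theorem bk_rot {f : α} {Z Q Q' : List α} (h : Q ~r Q') : Bk (f :: Z, Q ++ [f]) (f :: Z, Q' ++ [f]) := by
  obtain ⟨n, rfl⟩ := h
  rw [List.rotate_eq_drop_append_take_mod]
  have := Bk.top f Z (List.take (n % Q.length) Q) (List.drop (n % Q.length) Q) []
  rwa [List.take_append_drop] at this

/-- A block transposition of a standard state is realised by four bulk moves. -/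
theorem realise {f : α} {Z Q Z' Q' : List α} (h : Sw (Z, Q) (Z', Q')) :
    ∃ Z'' Q'', Chn Bk 4 (f :: Z, Q ++ [f]) (f :: Z'', Q'' ++ [f]) ∧ Z'' ~r Z' ∧ Q'' ~r Q' := by
  cases h with
  | sw a b c h1 h2 h3 h4 =>
    obtain ⟨a, b, c, z, A, B, C, B₁, B₂, B₃, rfl, e1, e2, e3⟩ := cut_three h1 h2 h3 h4
    refine ⟨z ++ (b :: B) ++ (a :: A) ++ (c :: C), (a :: B₁) ++ (c :: B₃) ++ (b :: B₂), ?_, e2, e3⟩
    have m1 := bk_rot (f := f) (Z := z ++ (a :: A) ++ (b :: B) ++ (c :: C)) e1
    have m2 : Bk (f :: (z ++ (a :: A) ++ (b :: B) ++ (c :: C)),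
        (c :: B₃) ++ (a :: B₁) ++ (b :: B₂) ++ [f])
        ((b :: B) ++ (f :: z ++ (a :: A)) ++ (c :: C),
        (c :: B₃) ++ (a :: B₁) ++ (b :: B₂) ++ [f]) := by
      have := Bk.bot c C (f :: z ++ (a :: A)) (b :: B) (B₃ ++ (a :: B₁) ++ (b :: B₂) ++ [f])
      simpa using this
    have m3 : Bk ((b :: B) ++ (f :: z ++ (a :: A)) ++ (c :: C),
        (c :: B₃) ++ (a :: B₁) ++ (b :: B₂) ++ [f])
        ((b :: B) ++ (f :: z ++ (a :: A)) ++ (c :: C),
        (a :: B₁) ++ (c :: B₃) ++ (b :: B₂) ++ [f]) := by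
      have := Bk.top b (B ++ (f :: z ++ (a :: A)) ++ (c :: C)) (c :: B₃) (a :: B₁) (B₂ ++ [f])
      simpa using this
    have m4 : Bk ((b :: B) ++ (f :: z ++ (a :: A)) ++ (c :: C),
        (a :: B₁) ++ (c :: B₃) ++ (b :: B₂) ++ [f])
        (f :: (z ++ (b :: B) ++ (a :: A) ++ (c :: C)),
        (a :: B₁) ++ (c :: B₃) ++ (b :: B₂) ++ [f]) := by
      have := Bk.bot a (A ++ (c :: C)) (b :: B) (f :: z) (B₁ ++ (c :: B₃) ++ (b :: B₂) ++ [f])
      simpa using this
    exact Chn.step m1 (Chn.step m2 (Chn.step m3 (Chn.step m4 (Chn.refl 0 _))))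
  | rot h1 h2 =>
    exact ⟨Z, Q', (Chn.single (bk_rot h2)).mono (by omega), h1, List.IsRotated.refl _⟩

theorem Sw.rot_left {Z Q Z' Q' : List α} {t : List α × List α} (h : Sw (Z, Q) t) (h1 : Z' ~r Z)
    (h2 : Q' ~r Q) : Sw (Z', Q') t := by
  cases h with
  | sw a b c e1 e2 e3 e4 => exact Sw.sw a b c (h1.trans e1) (h2.trans e2) e3 e4
  | rot e1 e2 => exact Sw.rot (h1.trans e1) (h2.trans e2)

theorem realise_chn {f : α} {n : ℕ} {s t : List α × List α} (h : Chn Sw n s t) :
    ∀ {Z Q : List α}, Z ~r s.1 → Q ~r s.2 →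
    ∃ Z'' Q'', Chn Bk (4 * n) (f :: Z, Q ++ [f]) (f :: Z'', Q'' ++ [f]) ∧ Z'' ~r t.1 ∧
      Q'' ~r t.2 := by
  induction h with
  | refl n a =>
    intro Z Q h1 h2
    exact ⟨Z, Q, Chn.refl _ _, h1, h2⟩
  | @step n a b c h1 _ ih =>
    intro Z Q h3 h4
    obtain ⟨Z₁, Q₁, h5, h6, h7⟩ := realise (f := f) (Sw.rot_left (Z := a.1) (Q := a.2)
      (t := (b.1, b.2)) h1 h3 h4)
    obtain ⟨Z₂, Q₂, h8, h9, h10⟩ := ih h6 h7
    exact ⟨Z₂, Q₂, (h5.trans h8).mono (by omega), h9, h10⟩

theorem rot_last {Z Z' : List α} (hn : Z.Nodup) (h : Z ~r Z') (hl : Z.getLast? = Z'.getLast?) :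
    Z = Z' := by
  obtain ⟨n, rfl⟩ := h
  rw [List.rotate_eq_drop_append_take_mod] at hl ⊢
  have hcut := List.take_append_drop (n % Z.length) Z
  generalize List.take (n % Z.length) Z = L₁ at hl hcut ⊢
  generalize List.drop (n % Z.length) Z = L₂ at hl hcut ⊢
  subst hcut
  rcases List.eq_nil_or_concat L₁ with rfl | ⟨A, a, rfl⟩
  · simp
  · rcases List.eq_nil_or_concat L₂ with rfl | ⟨B, b, rfl⟩
    · simp
    · exfalso
      rw [List.concat_eq_append, List.concat_eq_append] at *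
      have e1 : (A ++ [a] ++ (B ++ [b])).getLast? = some b := by
        rw [← List.append_assoc, List.getLast?_concat]
      have e2 : (B ++ [b] ++ (A ++ [a])).getLast? = some a := by
        rw [← List.append_assoc, List.getLast?_concat]
      rw [e1, e2, Option.some.injEq] at hl
      subst hl
      rw [List.nodup_append] at hn
      exact hn.2.2 b (by simp) b (by simp) rfl

theorem chn_last {n : ℕ} {s t : List α × List α} (h : Chn Bk n s t) :
    t.1.getLast? = s.1.getLast? ∧ t.2.getLast? = s.2.getLast? := by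
  induction h with
  | refl => exact ⟨rfl, rfl⟩
  | step h1 _ ih => exact ⟨ih.1.trans h1.last.1, ih.2.trans h1.last.2⟩

theorem chn_rg {n : ℕ} {s t : List α × List α} (h : Chn Bk n s t) (hs : Rg s) : Rg t := by
  induction h with
  | refl => exact hs
  | step h1 _ ih => exact ih (h1.rg hs)

/-- Near standard states. -/
theorem std_near {f : α} {n : ℕ} {Z Q Z' Q' : List α} (h : Chn Sw n (Z, Q) (Z', Q'))
    (hs : Rg (f :: Z, Q ++ [f])) (hl : (f :: Z).getLast? = (f :: Z').getLast?) :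
    Chn Bk (4 * n + 1) (f :: Z, Q ++ [f]) (f :: Z', Q' ++ [f]) := by
  obtain ⟨Z'', Q'', h1, h2, h3⟩ := realise_chn (f := f) h (List.IsRotated.refl Z)
    (List.IsRotated.refl Q)
  have h4 := (chn_last h1).1
  have h5 := chn_rg h1 hs
  have h6 : Z'' = Z' := by
    refine rot_last (List.nodup_cons.mp h5.n1).2 h2 ?_
    simp only at h2
    simp only at h4
    rw [hl] at h4
    cases Z' with
    | nil =>
      rw [List.isRotated_nil_iff.mp h2]
    | cons z' Z' =>
      cases Z'' with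
      | nil => exact absurd (List.isRotated_nil_iff'.mp h2) (by simp)
      | cons z'' Z'' =>
        rw [List.getLast?_cons_cons, List.getLast?_cons_cons] at h4
        exact h4
  rw [h6] at h1
  exact h1.trans (Chn.single (bk_rot h3))

end Pool.Agent.QuadEq
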