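import Pool.Agent.Lib.MP_b7851d_lc.Real

/-!
# Short paths of regular states
-/

namespace Pool.Agent.QuadEq

open List Equiv

theorem Chn.iter {σ : Type*} {r : σ → σ → Prop} {n : ℕ} {a b : σ} (h : Chn r n a b) :
    ∃ m ≤ n, Iter r m a b := by
  induction h with
  | refl n a => exact ⟨0, Nat.zero_le _, rfl⟩
  | step h1 _ ih =>
    obtain ⟨m, hm, h2⟩ := ih
    exact ⟨m + 1, by omega, _, h1, h2⟩

theorem Iter.chn {σ : Type*} {r : σ → σ → Prop} : ∀ {n : ℕ} {a b : σ}, Iter r n a b → Chn r n a b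
  | 0, a, b, h => by
    obtain rfl : a = b := h
    exact Chn.refl _ _
  | n + 1, a, b, h => by
    obtain ⟨c, h1, h2⟩ := h
    exact Chn.step h1 h2.chn

theorem Chn.rtg {σ : Type*} {r : σ → σ → Prop} {n : ℕ} {a b : σ} (h : Chn r n a b) :
    Relation.ReflTransGen r a b := by
  induction h with
  | refl => exact Relation.ReflTransGen.refl
  | step h1 _ ih => exact Relation.ReflTransGen.head h1 ih

/-- A path is short if among any `K` reachable points two are near. -/
theorem net {σ : Type*} {r : σ → σ → Prop} (hsym : ∀ a b, r a b → r b a) {a b : σ}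
    (h : Relation.ReflTransGen r a b) (K D : ℕ)
    (hnet : ∀ c : Fin K → σ, (∀ i, Relation.ReflTransGen r a (c i)) →
      ∃ i j, i ≠ j ∧ Chn r D (c i) (c j)) : Chn r (K * (D + 1)) a b := by
  classical
  have hex := exists_iter h
  obtain ⟨m, hm, hmin⟩ : ∃ m, Iter r m a b ∧ ∀ k, Iter r k a b → m ≤ k :=
    ⟨Nat.find hex, Nat.find_spec hex, fun k hk => Nat.find_min' hex hk⟩
  by_cases hle : m ≤ K * (D + 1)
  · exact hm.chn.mono hle
  exfalso
  have hc : ∀ i : Fin K, ∃ c, Iter r (i.val * (D + 1)) a c ∧ Iter r (m - i.val * (D + 1)) c b := by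
    intro i
    apply Iter.split
    have h1 : i.val * (D + 1) ≤ K * (D + 1) := Nat.mul_le_mul_right _ i.isLt.le
    rw [Nat.add_sub_cancel' (by omega)]
    exact hm
  choose c hc1 hc2 using hc
  obtain ⟨i, j, hij, hch⟩ := hnet c fun i => (hc1 i).chn.rtg
  have key : ∀ i j : Fin K, i.val < j.val → Chn r D (c i) (c j) → False := by
    intro i j hlt hch
    obtain ⟨k, hk, hit⟩ := hch.iter
    have h1 := hmin _ (((hc1 i).trans hit).trans (hc2 j))
    have h2 : (i.val + 1) * (D + 1) ≤ j.val * (D + 1) := Nat.mul_le_mul_right _ hlt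
    have h3 : j.val * (D + 1) ≤ K * (D + 1) := Nat.mul_le_mul_right _ j.isLt.le
    have h4 : (i.val + 1) * (D + 1) = i.val * (D + 1) + (D + 1) := by ring
    omega
  rcases Nat.lt_or_gt_of_ne (fun h => hij (Fin.ext h)) with h | h
  · exact key i j h hch
  · exact key j i h (hch.symm hsym)

variable {α : Type*}

theorem rtg_inv {σ : Type*} {r : σ → σ → Prop} {I : σ → Prop} (hI : ∀ s t, I s → r s t → I t)
    {s t : σ} (hs : I s) (h : Relation.ReflTransGen r s t) : I t := by
  induction h with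
  | refl => exact hs
  | tail _ h ih => exact hI _ _ ih h

theorem rtg_bk [DecidableEq α] {s t : List α × List α} (h : Relation.ReflTransGen Bk s t)
    (hs : Rg s) (hi : Irr s) : Rg t ∧ Irr t ∧ Lam t = Lam s ∧ t.1.getLast? = s.1.getLast? ∧
      t.2.getLast? = s.2.getLast? ∧ s.1 ~ t.1 ∧ s.2 ~ t.2 := by
  induction h with
  | refl => exact ⟨hs, hi, rfl, rfl, rfl, List.Perm.refl _, List.Perm.refl _⟩
  | tail _ h ih =>
    obtain ⟨h1, h2, h3, h4, h5, h6, h7⟩ := ih
    exact ⟨h.rg h1, h.irr h1 h2, (h.lam h1).trans h3, h.last.1.trans h4, h.last.2.trans h5,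
      h6.trans h.perm.1, h7.trans h.perm.2⟩

/-- The bound for irreducible states. -/
def FI (n : ℕ) : ℕ := (n * n + 2) * (44 * n + 6)

theorem regular_irr [DecidableEq α] {s t : List α × List α}
    (h : Relation.ReflTransGen Bk s t) (hs : Rg s) (hi : Irr s) (hne : s.1 ≠ []) :
    Chn Bk (FI s.1.length) s t := by
  set n := s.1.length with hn
  have hnet : ∀ c : Fin (n * n + 2) → List α × List α,
      (∀ i, Relation.ReflTransGen Bk s (c i)) → ∃ i j, i ≠ j ∧ Chn Bk (44 * n + 5) (c i) (c j) := by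
    intro c hc
    have hc' := fun i => rtg_bk (hc i) hs hi
    have hlen : ∀ i, (c i).1.length = n := fun i => (hc' i).2.2.2.2.2.1.length_eq.symm
    have hstd : ∀ i, ∃ t, Chn Bk (2 * n) (c i) t ∧ Std t := by
      intro i
      have := exists_std (hc' i).1 (hc' i).2.1 (by
        intro h0
        have h1 := hlen i
        rw [h0] at h1
        exact hne (List.length_eq_zero_iff.mp h1.symm))
      rw [hlen i] at this
      exact this
    choose d hd hdstd using hstd
    have hd' := fun i => rtg_bk (hd i).rtg (hc' i).1 (hc' i).2.1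
    -- the data of the standard states
    obtain ⟨f, hf⟩ : ∃ f, s.2.getLast? = some f := by
      cases h2 : s.2.getLast? with
      | none =>
        have h3 : s.2 = [] := List.getLast?_eq_none_iff.mp h2
        have := hs.length
        rw [h3] at this
        exact absurd (List.length_eq_zero_iff.mp this) hne
      | some f => exact ⟨f, rfl⟩
    have hform : ∀ i, ∃ Z Q, d i = (f :: Z, Q ++ [f]) := by
      intro i
      obtain ⟨f', Z, Q, he⟩ := hdstd i
      have h1 := (hd' i).2.2.2.2.1.trans (hc' i).2.2.2.2.1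
      rw [he, hf] at h1
      simp only [List.getLast?_concat, Option.some.injEq] at h1
      subst h1
      exact ⟨Z, Q, he⟩
    choose Z Q hZQ using hform
    have hrg : ∀ i, Rg (f :: Z i, Q i ++ [f]) := fun i => hZQ i ▸ (hd' i).1
    have hlast : ∀ i, (f :: Z i).getLast? = s.1.getLast? := fun i => by
      have := (hd' i).2.2.2.1.trans (hc' i).2.2.2.1
      rw [hZQ i] at this
      exact this
    have hlam : ∀ i, Lam (f :: Z i, Q i ++ [f]) = Lam s := fun i => by
      have := (hd' i).2.2.1.trans (hc' i).2.2.1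
      rw [hZQ i] at this
      exact this
    have hpermZ : ∀ i, f :: Z i ~ s.1 := fun i => by
      have := (hc' i).2.2.2.2.2.1.trans (hd' i).2.2.2.2.2.1
      rw [hZQ i] at this
      exact this.symm
    have hlenZ : ∀ i, (Z i).length + 1 = n := fun i => by
      have := (hpermZ i).length_eq
      rw [List.length_cons] at this
      omega
    have i₀ : Fin (n * n + 2) := ⟨0, by omega⟩
    have hpZ : ∀ i, Z i ~ Z i₀ := fun i =>
      (List.perm_cons f).mp ((hpermZ i).trans (hpermZ i₀).symm)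
    have hpQ : ∀ i, Q i ~ Z i₀ := fun i => by
      have h1 : Q i ++ [f] ~ f :: Z i := (hrg i).p.symm
      have h2 : f :: Q i ~ f :: Z i := (List.perm_append_singleton f (Q i)).symm.trans h1
      exact ((List.perm_cons f).mp h2).trans (hpZ i)
    have hmu : ∀ i, mu (Z i, Q i) = mu (Z i₀, Q i₀) := by
      intro i
      rcases List.eq_nil_or_concat (Z i₀) with h0 | ⟨Y₀, e, h0⟩
      · have h1 : ∀ i, Z i = [] := fun i => List.perm_nil.mp (h0 ▸ hpZ i)
        have h2 : ∀ i, Q i = [] := fun i => List.perm_nil.mp (h0 ▸ hpQ i)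
        rw [h1 i, h1 i₀, h2 i, h2 i₀]
      · rw [List.concat_eq_append] at h0
        have hsl : s.1.getLast? = some e := by
          rw [← hlast i₀, h0]
          have : f :: (Y₀ ++ [e]) = (f :: Y₀) ++ [e] := rfl
          rw [this, List.getLast?_concat]
        have hall : ∀ i, mu (Z i, Q i) = Lam s * Equiv.swap e f := by
          intro i
          rcases List.eq_nil_or_concat (Z i) with h1 | ⟨Y, e', h1⟩
          · exfalso
            have h2 := hlenZ i
            have h3 := hlenZ i₀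
            rw [h1] at h2
            rw [h0] at h3
            simp at h2 h3
            omega
          · rw [List.concat_eq_append] at h1
            have h2 := hlast i
            rw [hsl, h1] at h2
            have : f :: (Y ++ [e']) = (f :: Y) ++ [e'] := rfl
            rw [this, List.getLast?_concat, Option.some.injEq] at h2
            subst h2
            have h3 := hrg i
            rw [h1] at h3 ⊢
            rw [lam_std h3, ← h1, hlam i]
        rw [hall i, hall i₀]
    obtain ⟨i, j, hij, hch⟩ := pigeon (α := α) (n - 1) (Z i₀)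
      (List.nodup_cons.mp (hrg i₀).n1).2 (by have := hlenZ i₀; omega) (mu (Z i₀, Q i₀))
      (Fin (n * n + 2)) (fun i => (Z i, Q i)) (fun i => ⟨hpZ i, hpQ i, hmu i⟩) (by
        rw [Fintype.card_fin]
        have : (n - 1) * (n - 1) ≤ n * n := Nat.mul_le_mul (Nat.sub_le _ _) (Nat.sub_le _ _)
        omega)
    refine ⟨i, j, hij, ?_⟩
    have h1 := std_near hch (hrg i) (by rw [hlast i, hlast j])
    rw [← hZQ i, ← hZQ j] at h1
    have h2 := (hd i).trans (h1.trans ((hd j).symm fun _ _ h => h.symm))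
    have h3 := hlenZ i
    exact h2.mono (by omega)
  have := net (fun a b h => Bk.symm h) h (n * n + 2) (44 * n + 5) hnet
  exact this

theorem Bk.append {s t : List α × List α} (h : Bk s t) (P Q : List α) :
    Bk (s.1 ++ P, s.2 ++ Q) (t.1 ++ P, t.2 ++ Q) := by
  cases h with
  | top x P' U W Q' =>
    have := Bk.top x (P' ++ P) U W (Q' ++ Q)
    simpa using this
  | bot y P' U W Q' =>
    have := Bk.bot y (P' ++ P) U W (Q' ++ Q)
    simpa using this

theorem bk_prefix_top {x : α} {P U W Q P₁ P₂ Q₁ Q₂ : List α} (hs : Rg (x :: P, U ++ W ++ x :: Q))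
    (h1 : x :: P = P₁ ++ P₂) (h2 : U ++ W ++ x :: Q = Q₁ ++ Q₂) (hne : P₁ ≠ []) (hp : P₁ ~ Q₁) :
    ∃ Q₁', W ++ U ++ x :: Q = Q₁' ++ Q₂ ∧ Bk (P₁, Q₁) (P₁, Q₁') := by
  cases P₁ with
  | nil => exact absurd rfl hne
  | cons a P₁ =>
    simp only [List.cons_append, List.cons.injEq] at h1
    obtain ⟨rfl, h1⟩ := h1
    have hx : x ∈ Q₁ := hp.subset (by simp)
    have hn : x ∉ U ++ W := by
      intro hm
      have n2 := hs.n2
      simp only at n2
      rw [List.nodup_append] at n2
      exact n2.2.2 x hm x List.mem_cons_self rfl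
    rcases List.append_eq_append_iff.mp h2 with ⟨R, h5, h6⟩ | ⟨R, h5, h6⟩
    · cases R with
      | nil =>
        rw [List.append_nil] at h5
        rw [h5] at hx
        exact absurd hx hn
      | cons r R =>
        simp only [List.cons_append, List.cons.injEq] at h6
        obtain ⟨rfl, h6⟩ := h6
        refine ⟨W ++ U ++ x :: R, by rw [h6]; simp, ?_⟩
        rw [h5]
        exact Bk.top x P₁ U W R
    · exact absurd (by rw [h5]; exact List.mem_append_left _ hx) hn

theorem bk_prefix {P₁ P₂ Q₁ Q₂ : List α} {t : List α × List α}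
    (h : Bk (P₁ ++ P₂, Q₁ ++ Q₂) t) (hs : Rg (P₁ ++ P₂, Q₁ ++ Q₂)) (hne : P₁ ≠ [])
    (hp : P₁ ~ Q₁) : ∃ s', Bk (P₁, Q₁) s' ∧ t = (s'.1 ++ P₂, s'.2 ++ Q₂) := by
  generalize he : (P₁ ++ P₂, Q₁ ++ Q₂) = s at h hs
  cases h with
  | top x P U W Q =>
    simp only [Prod.mk.injEq] at he
    obtain ⟨Q₁', h1, h2⟩ := bk_prefix_top hs he.1.symm he.2.symm hne hp
    exact ⟨(P₁, Q₁'), h2, by rw [h1, he.1]⟩
  | bot y P U W Q =>
    simp only [Prod.mk.injEq] at he
    obtain ⟨P₁', h1, h2⟩ := bk_prefix_top hs.swap he.2.symm he.1.symm (by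
      rintro rfl
      exact hne (List.perm_nil.mp hp)) hp.symm
    exact ⟨(P₁', Q₁), h2.swap, by rw [h1, he.2]⟩

theorem rtg_prefix {P₁ P₂ Q₁ Q₂ : List α} {t : List α × List α}
    (h : Relation.ReflTransGen Bk (P₁ ++ P₂, Q₁ ++ Q₂) t) (hs : Rg (P₁ ++ P₂, Q₁ ++ Q₂))
    (hne : P₁ ≠ []) (hp : P₁ ~ Q₁) :
    ∃ s', Relation.ReflTransGen Bk (P₁, Q₁) s' ∧ t = (s'.1 ++ P₂, s'.2 ++ Q₂) := by
  induction h with
  | refl => exact ⟨_, Relation.ReflTransGen.refl, rfl⟩
  | @tail b c h1 h2 ih =>
    obtain ⟨s', h3, rfl⟩ := ih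
    have hb : Rg (s'.1 ++ P₂, s'.2 ++ Q₂) := rtg_inv (fun _ _ hs h => h.rg hs) hs h1
    have hper : P₁ ~ s'.1 ∧ Q₁ ~ s'.2 := by
      have : ∀ {s t : List α × List α}, Relation.ReflTransGen Bk s t → s.1 ~ t.1 ∧ s.2 ~ t.2 := by
        intro s t h
        induction h with
        | refl => exact ⟨List.Perm.refl _, List.Perm.refl _⟩
        | tail _ h ih => exact ⟨ih.1.trans h.perm.1, ih.2.trans h.perm.2⟩
      exact this h3
    obtain ⟨s'', h4, h5⟩ := bk_prefix h2 hb (by
      intro h0
      rw [h0] at hper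
      exact hne (List.perm_nil.mp hper.1)) ((hper.1.symm.trans hp).trans hper.2)
    exact ⟨s'', h3.tail h4, h5⟩

theorem exists_irr : ∀ (n : ℕ) (P Q : List α), P.length = n → P ≠ [] → Rg (P, Q) →
    ∃ P₁ P₂ Q₁ Q₂, P = P₁ ++ P₂ ∧ Q = Q₁ ++ Q₂ ∧ P₁ ≠ [] ∧ P₁ ~ Q₁ ∧ Irr (P₁, Q₁) := by
  intro n
  induction n using Nat.strong_induction_on with
  | _ n ih =>
    intro P Q hn hne hs
    by_cases hi : Irr (P, Q)
    · exact ⟨P, [], Q, [], by simp, by simp, hne, hs.p, hi⟩
    · unfold Irr at hi
      push Not at hi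
      obtain ⟨P₁, P₂, Q₁, Q₂, h1, h2, h3, h4, h5⟩ := hi
      simp only at h1 h2
      have hlt : P₁.length < n := by
        rw [← hn, h1, List.length_append]
        have := List.length_pos_iff.mpr h5
        omega
      have hs1 : Rg (P₁, Q₁) := by
        have n1 := hs.n1
        have n2 := hs.n2
        simp only at n1 n2
        rw [h1] at n1
        rw [h2] at n2
        exact ⟨(List.nodup_append.mp n1).1, (List.nodup_append.mp n2).1, h4⟩
      obtain ⟨P₁', P₂', Q₁', Q₂', e1, e2, e3, e4, e5⟩ := ih _ hlt P₁ Q₁ rfl h3 hs1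
      exact ⟨P₁', P₂' ++ P₂, Q₁', Q₂' ++ Q₂, by rw [h1, e1]; simp, by rw [h2, e2]; simp, e3, e4,
        e5⟩

theorem FI_mono {m n : ℕ} (h : m ≤ n) : FI m ≤ FI n := by
  unfold FI
  have h1 : m * m ≤ n * n := Nat.mul_le_mul h h
  exact Nat.mul_le_mul (by omega) (by omega)

/-- Reachable regular states can be reached by polynomially many bulk moves. -/
theorem regular_short [DecidableEq α] {s t : List α × List α}
    (h : Relation.ReflTransGen Bk s t) (hs : Rg s) : Chn Bk (FI s.1.length) s t := by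
  obtain ⟨P, Q⟩ := s
  by_cases hne : P = []
  · subst hne
    have hQ : Q = [] := List.nil_perm.mp hs.p
    subst hQ
    have : t = ([], []) := by
      refine rtg_inv (I := fun s => s = ([], [])) ?_ rfl h
      rintro s t rfl h
      have h1 := h.perm
      exact Prod.ext (List.nil_perm.mp h1.1) (List.nil_perm.mp h1.2)
    rw [this]
    exact Chn.refl _ _
  · obtain ⟨P₁, P₂, Q₁, Q₂, rfl, rfl, h3, h4, h5⟩ := exists_irr _ P Q rfl hne hs
    obtain ⟨s', h6, rfl⟩ := rtg_prefix h hs h3 h4
    have hs1 : Rg (P₁, Q₁) := by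
      have n1 := hs.n1
      have n2 := hs.n2
      simp only at n1 n2
      exact ⟨(List.nodup_append.mp n1).1, (List.nodup_append.mp n2).1, h4⟩
    have h7 := regular_irr h6 hs1 h5 h3
    have h8 := h7.map (S := Bk) (f := fun s => (s.1 ++ P₂, s.2 ++ Q₂))
      (fun a b h => Bk.append h P₂ Q₂)
    refine h8.mono (FI_mono ?_)
    simp only [List.length_append]
    omega

end Pool.Agent.QuadEq
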