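import Pool.Agent.Lib.MP_b7851d_lc.Blocks

/-!
# Short derivations of reachability for equivariant relations
-/

namespace Pool.Agent.QuadEq

section defs

variable {X : Type*} (G : Type*) [Group G] [MulAction G X] (r : X → X → Prop)

/-- The fact that `b` is reachable from `a` follows from the facts in `D` by one rule. -/
def Just (D : List (X × X)) (a b : X) : Prop :=
  r a b ∨ a = b ∨ (∃ c, (a, c) ∈ D ∧ (c, b) ∈ D) ∨
    (∃ (g : G) (c d : X), (c, d) ∈ D ∧ a = g • c ∧ b = g • d) ∨ ∃ g : G, (b, a) ∈ D ∧ a = g • b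

/-- A derivation; the later facts of the list come first in the derivation. -/
def Val : List (X × X) → Prop
  | [] => True
  | p :: D => Just G r D p.1 p.2 ∧ Val D

/-- The fact `(a, b)` can be added to the derivation `D` with at most `k` new facts. -/
def Ext (D : List (X × X)) (k : ℕ) (a b : X) : Prop :=
  ∃ D', D'.length ≤ k ∧ Val G r (D' ++ D) ∧ (a, b) ∈ D' ++ D

end defs

variable {X : Type*} {G : Type*} [Group G] [MulAction G X] {r : X → X → Prop}
variable {D D' : List (X × X)} {a b c : X} {k l : ℕ}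

theorem Just.mono (h : Just G r D a b) (hs : D ⊆ D') : Just G r D' a b := by
  rcases h with h | h | ⟨c, h1, h2⟩ | ⟨g, c, d, h1, h2⟩ | ⟨g, h1, h2⟩
  · exact Or.inl h
  · exact Or.inr (Or.inl h)
  · exact Or.inr (Or.inr (Or.inl ⟨c, hs h1, hs h2⟩))
  · exact Or.inr (Or.inr (Or.inr (Or.inl ⟨g, c, d, hs h1, h2⟩)))
  · exact Or.inr (Or.inr (Or.inr (Or.inr ⟨g, hs h1, h2⟩)))

theorem Val.rebase : ∀ {D₁ D D' : List (X × X)}, Val G r (D₁ ++ D) → Val G r D' → D ⊆ D' →
    Val G r (D₁ ++ D')
  | [], _, _, _, h', _ => h'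
  | p :: D₁, D, D', h, h', hs => by
    rw [List.cons_append] at h ⊢
    refine ⟨h.1.mono ?_, Val.rebase h.2 h' hs⟩
    intro q hq
    rcases List.mem_append.mp hq with hq | hq
    · exact List.mem_append_left _ hq
    · exact List.mem_append_right _ (hs hq)

theorem Val.of_append : ∀ {D₁ D : List (X × X)}, Val G r (D₁ ++ D) → Val G r D
  | [], _, h => h
  | _ :: D₁, _, h => Val.of_append (D₁ := D₁) h.2

theorem Ext.mono (h : Ext G r D k a b) (hkl : k ≤ l) : Ext G r D l a b := by
  obtain ⟨D', h1, h2⟩ := h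
  exact ⟨D', h1.trans hkl, h2⟩

theorem Ext.of_mem (hD : Val G r D) (h : (a, b) ∈ D) : Ext G r D 0 a b :=
  ⟨[], le_rfl, hD, h⟩

theorem Ext.add {D₁ : List (X × X)} (hD : Val G r (D₁ ++ D)) (hk : D₁.length ≤ k)
    (h : Just G r (D₁ ++ D) a b) : Ext G r D (k + 1) a b :=
  ⟨(a, b) :: D₁, by simpa using hk, ⟨h, hD⟩, by simp⟩

theorem Ext.step (hD : Val G r D) (h : r a b) : Ext G r D 1 a b :=
  Ext.add (D₁ := []) hD (Nat.zero_le 0) (Or.inl h)

theorem Ext.rfl' (hD : Val G r D) : Ext G r D 1 a a :=
  Ext.add (D₁ := []) hD (Nat.zero_le 0) (Or.inr (Or.inl rfl))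

theorem Ext.both {a' b' : X} (h : Ext G r D k a b) (h' : Ext G r D l a' b') :
    ∃ D', D'.length ≤ k + l ∧ Val G r (D' ++ D) ∧ (a, b) ∈ D' ++ D ∧ (a', b') ∈ D' ++ D := by
  obtain ⟨D₁, h1, h2, h3⟩ := h
  obtain ⟨D₂, h4, h5, h6⟩ := h'
  refine ⟨D₁ ++ D₂, by rw [List.length_append]; omega, ?_, ?_, ?_⟩
  · rw [List.append_assoc]
    exact h2.rebase h5 (List.subset_append_right _ _)
  · rw [List.append_assoc]
    rcases List.mem_append.mp h3 with h3 | h3
    · exact List.mem_append_left _ h3
    · exact List.mem_append_right _ (List.mem_append_right _ h3)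
  · rw [List.append_assoc]
    exact List.mem_append_right _ h6

theorem Ext.trans (h : Ext G r D k a b) (h' : Ext G r D l b c) : Ext G r D (k + l + 1) a c := by
  obtain ⟨D', h1, h2, h3, h4⟩ := h.both h'
  exact Ext.add h2 h1 (Or.inr (Or.inr (Or.inl ⟨b, h3, h4⟩)))

theorem Ext.ren (g : G) (h : Ext G r D k a b) : Ext G r D (k + 1) (g • a) (g • b) := by
  obtain ⟨D', h1, h2, h3⟩ := h
  exact Ext.add h2 h1 (Or.inr (Or.inr (Or.inr (Or.inl ⟨g, a, b, h3, rfl, rfl⟩))))

theorem Ext.rev {g : G} (h : Ext G r D k a (g • a)) : Ext G r D (k + 1) (g • a) a := by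
  obtain ⟨D', h1, h2, h3⟩ := h
  exact Ext.add h2 h1 (Or.inr (Or.inr (Or.inr (Or.inr ⟨g, h3, rfl⟩))))

theorem Ext.val (h : Ext G r D k a b) : Val G r D := by
  obtain ⟨D', _, h2, _⟩ := h
  exact h2.of_append

theorem Ext.iter (hD : Val G r D) : ∀ {m : ℕ} {a b : X}, Iter r m a b →
    Ext G r D (2 * m + 1) a b
  | 0, a, b, h => by
    obtain rfl : a = b := h
    exact Ext.rfl' hD
  | m + 1, a, b, ⟨c, h1, h2⟩ => by
    have := (Ext.step hD h1).trans (Ext.iter hD h2)
    exact this.mono (by omega)

/-- The setting: an equivariant relation, an invariant, and codes of the orbits. -/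
structure Setting (G : Type*) {X : Type*} {T : Type*} [Group G] [MulAction G X]
    (r : X → X → Prop) (inv : X → Prop) (code : X → T) (F : Finset T) : Prop where
  equiv : ∀ (g : G) a b, r a b → r (g • a) (g • b)
  invr : ∀ a b, inv a → r a b → inv b
  invg : ∀ (g : G) a, inv a → inv (g • a)
  mem : ∀ a, inv a → code a ∈ F
  orb : ∀ a b, inv a → inv b → code a = code b → ∃ g : G, a = g • b

variable {T : Type*} {inv : X → Prop} {code : X → T} {F : Finset T}

theorem Setting.iter (hS : Setting G r inv code F) (g : G) : ∀ {m : ℕ} {a b : X}, Iter r m a b →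
    Iter r m (g • a) (g • b)
  | 0, a, b, h => by
    obtain rfl : a = b := h
    exact rfl
  | m + 1, a, b, ⟨c, h1, h2⟩ => ⟨g • c, hS.equiv g _ _ h1, hS.iter g h2⟩

theorem Setting.inv_iter (hS : Setting G r inv code F) : ∀ {m : ℕ} {a b : X}, inv a →
    Iter r m a b → inv b
  | 0, a, b, ha, h => by
    obtain rfl : a = b := h
    exact ha
  | m + 1, a, b, ha, ⟨c, h1, h2⟩ => hS.inv_iter (hS.invr _ _ ha h1) h2

theorem Setting.inv_rtg (hS : Setting G r inv code F) (ha : inv a)
    (h : Relation.ReflTransGen r a b) : inv b := by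
  obtain ⟨m, hm⟩ := exists_iter h
  exact hS.inv_iter ha hm

theorem Setting.rtg (hS : Setting G r inv code F) (g : G)
    (h : Relation.ReflTransGen r a b) : Relation.ReflTransGen r (g • a) (g • b) := by
  induction h with
  | refl => exact Relation.ReflTransGen.refl
  | tail _ h ih => exact ih.tail (hS.equiv g _ _ h)

/-- A short path to the orbit of `b`. -/
theorem Setting.short (hS : Setting G r inv code F) (ha : inv a)
    (h : Relation.ReflTransGen r a b) : ∃ m < F.card, ∃ g : G, Iter r m a (g • b) := by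
  classical
  have hex : ∃ m, ∃ g : G, Iter r m a (g • b) := by
    obtain ⟨m, hm⟩ := exists_iter h
    exact ⟨m, 1, by rwa [one_smul]⟩
  refine ⟨Nat.find hex, ?_, Nat.find_spec hex⟩
  obtain ⟨g, hg⟩ := Nat.find_spec hex
  set m := Nat.find hex with hm
  have hmin : ∀ k, (∃ g : G, Iter r k a (g • b)) → m ≤ k := fun k hk => Nat.find_min' hex hk
  have hc : ∀ i : Fin (m + 1), ∃ c, Iter r i.val a c ∧ Iter r (m - i.val) c (g • b) := by
    intro i
    apply Iter.split
    rw [Nat.add_sub_cancel' (Nat.lt_succ_iff.mp i.isLt)]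
    exact hg
  choose c hc1 hc2 using hc
  have hci : Function.Injective fun i => code (c i) := by
    have key : ∀ i j : Fin (m + 1), i.val < j.val → code (c i) ≠ code (c j) := by
      intro i j hij e
      obtain ⟨g', hg'⟩ := hS.orb _ _ (hS.inv_iter ha (hc1 i)) (hS.inv_iter ha (hc1 j)) e
      have h1 := hS.iter g' (hc2 j)
      rw [← hg', ← mul_smul] at h1
      have h2 := hmin _ ⟨_, (hc1 i).trans h1⟩
      have := j.isLt
      omega
    intro i j e
    by_contra hne
    rcases Nat.lt_or_gt_of_ne (fun h => hne (Fin.ext h)) with h | h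
    · exact key i j h e
    · exact key j i h e.symm
  have hcard : (Finset.univ : Finset (Fin (m + 1))).card ≤ F.card :=
    Finset.card_le_card_of_injOn (fun i => code (c i))
      (fun i _ => hS.mem _ (hS.inv_iter ha (hc1 i))) (fun i _ j _ e => hci e)
  rw [Finset.card_univ, Fintype.card_fin] at hcard
  omega

/-! ### Cubes -/

/-- The cube generated by a list of group elements. -/
noncomputable def cube [DecidableEq G] : List G → Finset G
  | [] => {1}
  | g :: gs => cube gs ∪ (cube gs).image (· * g)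

/-- The derivation contains the facts for the generators. -/
def Gens (G : Type*) [Group G] [MulAction G X] (D : List (X × X)) (a : X) (gs : List G) : Prop :=
  ∀ g ∈ gs, (a, g • a) ∈ D ∧ (a, g⁻¹ • a) ∈ D

theorem cube_cost [DecidableEq G] (hD : Val G r D) : ∀ {gs : List G}, Gens G D a gs →
    ∀ k ∈ cube gs, Ext G r D (2 * gs.length + 1) a (k • a) ∧
      Ext G r D (2 * gs.length + 1) a (k⁻¹ • a)
  | [], _, k, hk => by
    rw [cube, Finset.mem_singleton] at hk
    subst hk
    rw [inv_one, one_smul]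
    exact ⟨Ext.rfl' hD, Ext.rfl' hD⟩
  | g :: gs, hgs, k, hk => by
    have ih := cube_cost hD (gs := gs) fun g hg => hgs g (List.mem_cons_of_mem _ hg)
    have hg := hgs g List.mem_cons_self
    rw [cube, Finset.mem_union, Finset.mem_image] at hk
    rcases hk with hk | ⟨c, hc, rfl⟩
    · obtain ⟨h1, h2⟩ := ih k hk
      exact ⟨h1.mono (by simp), h2.mono (by simp)⟩
    · obtain ⟨h1, h2⟩ := ih c hc
      have h3 := h1.trans ((Ext.of_mem hD hg.1).ren c)
      have h4 := (Ext.of_mem hD hg.2).trans (h2.ren g⁻¹)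
      rw [← mul_smul] at h3 h4
      rw [← mul_inv_rev] at h4
      exact ⟨h3.mono (by rw [List.length_cons]; omega), h4.mono (by rw [List.length_cons]; omega)⟩

theorem diff_cost [DecidableEq G] (hD : Val G r D) {gs : List G} (hgs : Gens G D a gs) {k l : G}
    (hk : k ∈ cube gs) (hl : l ∈ cube gs) : Ext G r D (4 * gs.length + 4) a ((k⁻¹ * l) • a) := by
  have h := (cube_cost hD hgs k hk).2.trans ((cube_cost hD hgs l hl).1.ren k⁻¹)
  rw [← mul_smul] at h
  exact h.mono (by omega)

/-- A new point of the orbit. -/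
theorem find_new [DecidableEq G] (hS : Setting G r inv code F) (ha : inv a) (hD : Val G r D)
    {gs : List G} (hgs : Gens G D a gs) {h : G} (hh : Relation.ReflTransGen r a (h • a))
    (hnot : ¬ ∃ k ∈ cube gs, ∃ l ∈ cube gs, (k⁻¹ * l) • a = h • a) :
    ∃ g : G, Ext G r D (4 * gs.length + 8 * F.card + 16) a (g • a) ∧
      ¬ ∃ k ∈ cube gs, ∃ l ∈ cube gs, (k⁻¹ * l) • a = g • a := by
  by_contra hcon
  push Not at hcon
  have hall : ∀ g : G, Ext G r D (4 * gs.length + 8 * F.card + 16) a (g • a) →
      ∃ k ∈ cube gs, ∃ l ∈ cube gs, (k⁻¹ * l) • a = g • a := by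
    intro g hg
    obtain ⟨k, hk, l, hl, e⟩ := hcon g hg
    exact ⟨k, hk, l, hl, e⟩
  have key : ∀ x, Relation.ReflTransGen r a x → (∃ h' : G, Relation.ReflTransGen r x (h' • a)) →
      ∀ (g k : G) (z : X) (m m' : ℕ), x = g • z → m < F.card → Iter r m a z → m' < F.card →
        Iter r m' z (k • a) → ∃ k₁ ∈ cube gs, ∃ k₂ ∈ cube gs, (k₁⁻¹ * k₂) • a = (g * k) • a := by
    intro x hx
    induction hx with
    | refl =>
      intro _ g k z m m' hxz hm h1 hm' h2
      apply hall
      have h3 := hS.iter g h2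
      rw [← hxz, ← mul_smul] at h3
      exact (Ext.iter hD h3).mono (by omega)
    | @tail x y hx hxy ih =>
      rintro ⟨h', hret⟩ g k z m m' hyz hm h1 hm' h2
      have hretx : ∃ h' : G, Relation.ReflTransGen r x (h' • a) :=
        ⟨h', Relation.ReflTransGen.head hxy hret⟩
      obtain ⟨m₁, hm₁, g₁, hg₁⟩ := hS.short ha hx
      have hz : inv (g₁ • x) := hS.inv_iter ha hg₁
      obtain ⟨hx', hxr⟩ := hretx
      obtain ⟨m₂, hm₂, g₂, hg₂⟩ := hS.short hz (hS.rtg g₁ hxr)
      rw [← mul_smul, ← mul_smul] at hg₂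
      have hxx : x = g₁⁻¹ • (g₁ • x) := by rw [inv_smul_smul]
      obtain ⟨k₁, hk₁, k₂, hk₂, e⟩ := ih ⟨hx', hxr⟩ g₁⁻¹ _ (g₁ • x) m₁ m₂ hxx hm₁ hg₁ hm₂ hg₂
      apply hall
      set κ := g₂ * (g₁ * hx') with hκ
      have e1 : g₂ * g₁ * hx' = κ := by rw [hκ, mul_assoc]
      have p1 : Ext G r D (4 * gs.length + 4) a ((g₁⁻¹ * κ) • a) := by
        have := diff_cost hD hgs hk₁ hk₂
        rw [e] at this
        first
          | exact this
          | (rw [e1] at this; exact this)
      have q1 : Ext G r D (2 * m₁ + 1) a (g₁ • x) := Ext.iter hD hg₁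
      have q2 : Ext G r D (2 * m₂ + 1) (g₁ • x) (κ • a) := by
        have := Ext.iter (G := G) hD hg₂
        first
          | exact this
          | (rw [e1] at this; exact this)
      have q3 := ((q1.trans q2).rev).ren g₁⁻¹
      rw [← mul_smul] at q3
      have q4 := q1.ren g₁⁻¹
      rw [inv_smul_smul] at q4
      have q5 : Ext G r D 1 x y := Ext.step hD hxy
      have q6 := (Ext.iter (G := G) hD h2).ren g
      rw [← hyz, ← mul_smul] at q6
      have := (((p1.trans q3).trans q4).trans q5).trans q6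
      exact this.mono (by omega)
  have hpos : 0 < F.card := Finset.card_pos.mpr ⟨_, hS.mem a ha⟩
  obtain ⟨k₁, hk₁, k₂, hk₂, e⟩ := key (h • a) hh ⟨h, Relation.ReflTransGen.refl⟩ h 1 a 0 0 rfl hpos
    rfl hpos (by rw [one_smul]; exact rfl)
  rw [mul_one] at e
  exact hnot ⟨k₁, hk₁, k₂, hk₂, e⟩

/-- All points of the orbit which can be reached are reached by short derivations. -/
theorem covering [DecidableEq G] (hS : Setting G r inv code F) (ha : inv a) {t : ℕ}
    (ht : ∀ s : Finset G, s.card ≤ 2 ^ t) : ∀ (n : ℕ) (gs : List G) (D : List (X × X)),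
    gs.length + n = t + 1 → (cube gs).card = 2 ^ gs.length → Val G r D → Gens G D a gs →
    ∃ D', D'.length ≤ D.length + n * (8 * t + 16 * F.card + 34) ∧ Val G r D' ∧
      ∀ h : G, Relation.ReflTransGen r a (h • a) → Ext G r D' (4 * t + 4) a (h • a) := by
  intro n
  induction n with
  | zero =>
    intro gs D hn hc _ _
    exfalso
    have := ht (cube gs)
    rw [hc, show gs.length = t + 1 by omega, pow_succ] at this
    have := Nat.one_le_two_pow (n := t)
    omega
  | succ n ih =>
    intro gs D hn hc hD hgs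
    by_cases hcov : ∀ h : G, Relation.ReflTransGen r a (h • a) →
        ∃ k ∈ cube gs, ∃ l ∈ cube gs, (k⁻¹ * l) • a = h • a
    · refine ⟨D, by omega, hD, fun h hh => ?_⟩
      obtain ⟨k, hk, l, hl, e⟩ := hcov h hh
      rw [← e]
      exact (diff_cost hD hgs hk hl).mono (by omega)
    · push Not at hcov
      obtain ⟨h, hh, hnot⟩ := hcov
      obtain ⟨g, hg, hgn⟩ := find_new hS ha hD hgs hh (by
        rintro ⟨k, hk, l, hl, e⟩
        exact hnot k hk l hl e)
      have hg' := hg.rev.ren g⁻¹
      rw [inv_smul_smul] at hg'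
      obtain ⟨D₁, h1, h2, h3, h4⟩ := hg.both hg'
      have hcard : (cube (g :: gs)).card = 2 ^ (g :: gs).length := by
        rw [cube, Finset.card_union_of_disjoint, Finset.card_image_of_injective _
          (mul_left_injective g), hc, List.length_cons, pow_succ]
        · ring
        · rw [Finset.disjoint_left]
          intro x hx hx'
          obtain ⟨y, hy, e⟩ := Finset.mem_image.mp hx'
          refine hgn ⟨y, hy, x, hx, ?_⟩
          rw [← e, inv_mul_cancel_left]
      obtain ⟨D', h5, h6, h7⟩ := ih (g :: gs) (D₁ ++ D) (by rw [List.length_cons]; omega) hcard h2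
        (by
          intro g' hg'
          rcases List.mem_cons.mp hg' with rfl | hg'
          · exact ⟨h3, h4⟩
          · exact ⟨List.mem_append_right _ (hgs g' hg').1, List.mem_append_right _ (hgs g' hg').2⟩)
      refine ⟨D', h5.trans ?_, h6, h7⟩
      have hlen : gs.length ≤ t := by omega
      rw [List.length_append, Nat.add_mul, one_mul]
      omega

/-- Points of the orbit. -/
theorem orbit_cost [DecidableEq G] (hS : Setting G r inv code F) (ha : inv a) {t : ℕ}
    (ht : ∀ s : Finset G, s.card ≤ 2 ^ t) {h : G} (hh : Relation.ReflTransGen r a (h • a)) :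
    Ext G r [] ((t + 1) * (8 * t + 16 * F.card + 34) + (4 * t + 4)) a (h • a) := by
  obtain ⟨D', h1, h2, h3⟩ := covering hS ha ht (t + 1) [] [] (by simp) (by simp [cube]) trivial
    (by intro g hg; simp at hg)
  obtain ⟨D'', h4, h5, h6⟩ := h3 h hh
  refine ⟨D'' ++ D', ?_, ?_, ?_⟩
  · rw [List.length_append]
    rw [List.length_nil] at h1
    omega
  · rwa [List.append_nil]
  · rwa [List.append_nil]

/-- The last visit of a path to the set of points with the code `w`. -/
theorem last_visit [DecidableEq T] {W : Finset T} (ha : code a ∈ W)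
    (h : Relation.ReflTransGen (fun x y => r x y ∧ code y ∈ W) a b) :
    ∃ x, code x = code a ∧ Relation.ReflTransGen r a x ∧ (x = b ∨ ∃ y, r x y ∧
      code y ∈ W.erase (code a) ∧
        Relation.ReflTransGen (fun x y => r x y ∧ code y ∈ W.erase (code a)) y b) := by
  induction h with
  | refl => exact ⟨a, rfl, Relation.ReflTransGen.refl, Or.inl rfl⟩
  | @tail b c hab hbc ih =>
    by_cases hc : code c = code a
    · refine ⟨c, hc, ?_, Or.inl rfl⟩
      have : Relation.ReflTransGen r a b := by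
        clear ih hbc
        induction hab with
        | refl => exact Relation.ReflTransGen.refl
        | tail _ h ih => exact ih.tail h.1
      exact this.tail hbc.1
    · have hc' : code c ∈ W.erase (code a) := Finset.mem_erase.mpr ⟨hc, hbc.2⟩
      obtain ⟨x, h1, h2, h3⟩ := ih
      refine ⟨x, h1, h2, Or.inr ?_⟩
      rcases h3 with rfl | ⟨y, hy1, hy2, hy3⟩
      · exact ⟨c, hbc.1, hc', Relation.ReflTransGen.refl⟩
      · exact ⟨y, hy1, hy2, hy3.tail ⟨hbc.1, hc'⟩⟩

/-- The cost of the points of an orbit. -/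
def ocost (t U : ℕ) : ℕ := (t + 1) * (8 * t + 16 * U + 34) + (4 * t + 4)

theorem reach_cost' [DecidableEq G] [DecidableEq T] (hS : Setting G r inv code F) {t : ℕ}
    (ht : ∀ s : Finset G, s.card ≤ 2 ^ t) : ∀ (n : ℕ) (W : Finset T) (a : X), W.card ≤ n →
    inv a → code a ∈ W → Relation.ReflTransGen (fun x y => r x y ∧ code y ∈ W) a b →
    Ext G r [] (n * (ocost t F.card + 3)) a b := by
  intro n
  induction n with
  | zero =>
    intro W a hW _ ha
    rw [Nat.le_zero, Finset.card_eq_zero] at hW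
    rw [hW] at ha
    simp at ha
  | succ n ih =>
    intro W a hW hinv ha h
    obtain ⟨x, h1, h2, h3⟩ := last_visit (r := r) ha h
    have hx : inv x := hS.inv_rtg hinv h2
    obtain ⟨g, rfl⟩ := hS.orb _ _ hx hinv h1
    have h4 : Ext G r [] (ocost t F.card) a (g • a) := orbit_cost hS hinv ht h2
    have hle : ocost t F.card ≤ (n + 1) * (ocost t F.card + 3) := by
      rw [Nat.succ_mul]; omega
    rcases h3 with rfl | ⟨y, hy1, hy2, hy3⟩
    · exact h4.mono hle
    · have hcard : (W.erase (code a)).card ≤ n := by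
        rw [Finset.card_erase_of_mem ha]; omega
      have h5 := ih _ y hcard (hS.invr _ _ hx hy1) hy2 hy3
      have h6 := (h4.trans (Ext.step trivial hy1)).trans h5
      exact h6.mono (by rw [Nat.succ_mul]; omega)

/-- The main result: every reachable pair has a short derivation. -/
theorem reach_cost [DecidableEq G] [DecidableEq T] (hS : Setting G r inv code F) {t : ℕ}
    (ht : ∀ s : Finset G, s.card ≤ 2 ^ t) (ha : inv a) (h : Relation.ReflTransGen r a b) :
    Ext G r [] (F.card * (ocost t F.card + 3)) a b := by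
  refine reach_cost' hS ht F.card F a le_rfl ha (hS.mem a ha) ?_
  induction h with
  | refl => exact Relation.ReflTransGen.refl
  | tail h1 h2 ih => exact ih.tail ⟨h2, hS.mem _ (hS.invr _ _ (hS.inv_rtg ha h1) h2)⟩

end Pool.Agent.QuadEq
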