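import Pool.Agent.Lib.MP_b7851d_lc.Skeleton

/-!
# Small steps and the skeleton of an equation
-/

namespace Pool.Agent.QuadEq

variable {L : Type} [DecidableEq L] (V : L → Bool)

/-- The letter `l` is a variable which occurs twice in the equation. -/
def dbl (E : List L × List L) (l : L) : Bool := V l && decide ((E.1 ++ E.2).count l = 2)

/-- The number of bad letters of the skeleton of the equation: the word of the variables which
occur twice. -/
noncomputable def badE (E : List L × List L) : ℕ :=
  (badS (E.1.filter (dbl V E)) (E.2.filter (dbl V E))).card

/-- The small steps. -/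
inductive Sm : List L × List L → List L × List L → Prop
  | erase {A B : List L} {x : L} (hx : V x = true) (hm : x ∈ A ++ B) :
      Sm (A, B) (sub x [] A, sub x [] B)
  | cancel (a : L) (A B : List L) : Sm (a :: A, a :: B) (A, B)
  | run {A B : List L} {x a : L} (hx : V x = true) (ha : a ≠ x) :
      Sm (x :: A, a :: B) (x :: sub x [a, x] A, sub x [a, x] B)
  | run' {A B : List L} {x a : L} (hx : V x = true) (ha : a ≠ x) :
      Sm (a :: B, x :: A) (sub x [a, x] B, x :: sub x [a, x] A)

variable {V} {E F : List L × List L} {x a : L}

theorem Sm.swap (h : Sm V E F) : Sm V E.swap F.swap := by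
  cases h with
  | erase hx hm => exact Sm.erase hx (by simpa [or_comm] using hm)
  | cancel u A B => exact Sm.cancel u B A
  | run hx hu => exact Sm.run' hx hu
  | run' hx hu => exact Sm.run hx hu

theorem sub_singleton_self (w : List L) : sub x [x] w = w := by
  induction w with
  | nil => rfl
  | cons l w ih =>
    rw [sub_cons, ih]
    by_cases h : l = x
    · subst h; rw [if_pos rfl]; rfl
    · rw [if_neg h]; rfl

theorem sub_sub (ha : a ≠ x) (v w : List L) : sub x v (sub x [a, x] w) = sub x (a :: v) w := by
  induction w with
  | nil => rfl
  | cons l w ih =>
    rw [sub_cons, sub_append, ih, sub_cons (u := a :: v)]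
    congr 1
    by_cases h : l = x
    · rw [if_pos h, if_pos h, sub_cons, if_neg ha, sub_cons, if_pos rfl]
      simp
    · rw [if_neg h, if_neg h, sub_cons, if_neg h]
      rfl

theorem Sm.mv (h : Sm V E F) : Mv V E F := by
  cases h with
  | erase hx hm => exact Mv.erase hx hm
  | cancel a A B => exact Mv.cancel [a] A B
  | @run A B x a hx ha => exact Mv.run (u := [a]) hx (by simpa using ha.symm)
  | @run' A B x a hx ha => exact Mv.run' (u := [a]) hx (by simpa using ha.symm)

theorem run_small (hx : V x = true) : ∀ (u A B : List L), x ∉ u →
    Relation.ReflTransGen (Sm V) (x :: A, u ++ B) (x :: sub x (u ++ [x]) A, sub x (u ++ [x]) B)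
  | [], A, B, _ => by
    rw [List.nil_append, List.nil_append, sub_singleton_self, sub_singleton_self]
  | a :: u, A, B, hu => by
    have ha : a ≠ x := fun e => hu (e ▸ List.mem_cons_self)
    have hu' : x ∉ u := fun e => hu (List.mem_cons_of_mem _ e)
    have h1 : Sm V (x :: A, a :: (u ++ B)) (x :: sub x [a, x] A, sub x [a, x] (u ++ B)) :=
      Sm.run hx ha
    rw [sub_append, sub_eq_self hu'] at h1
    have h2 := run_small hx u (sub x [a, x] A) (sub x [a, x] B) hu'
    rw [sub_sub ha, sub_sub ha] at h2
    exact Relation.ReflTransGen.head h1 h2

omit [DecidableEq L] in
theorem rtg_swap {r : List L × List L → List L × List L → Prop}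
    (hr : ∀ E F, r E F → r E.swap F.swap) (h : Relation.ReflTransGen r E F) :
    Relation.ReflTransGen r E.swap F.swap := by
  induction h with
  | refl => exact Relation.ReflTransGen.refl
  | tail _ h ih => exact ih.tail (hr _ _ h)

theorem Mv.small (h : Mv V E F) : Relation.ReflTransGen (Sm V) E F := by
  cases h with
  | erase hx hm => exact Relation.ReflTransGen.single (Sm.erase hx hm)
  | cancel u A B =>
    induction u with
    | nil => exact Relation.ReflTransGen.refl
    | cons a u ih => exact Relation.ReflTransGen.head (Sm.cancel a (u ++ A) (u ++ B)) ih
  | @run A B u x hx hu => exact run_small hx u A B hu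
  | @run' A B u x hx hu => exact rtg_swap (fun _ _ h => h.swap) (run_small hx u A B hu)

/-! ### The skeleton -/

omit [DecidableEq L] in
theorem filter_congr' {p q : L → Bool} {w : List L} (h : ∀ l ∈ w, p l = q l) :
    w.filter p = w.filter q := by
  induction w with
  | nil => rfl
  | cons l w ih =>
    rw [List.filter_cons, List.filter_cons, h l List.mem_cons_self,
      ih fun a ha => h a (List.mem_cons_of_mem _ ha)]

theorem filter_erase (p : L → Bool) (w : List L) :
    (sub x [] w).filter p = sub x [] (w.filter p) := by
  induction w with
  | nil => rfl
  | cons l w ih =>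
    by_cases h : l = x
    · subst h
      rw [erase_cons_self, ih, List.filter_cons]
      split_ifs
      · rw [erase_cons_self]
      · rfl
    · rw [erase_cons_ne h, List.filter_cons, ih, List.filter_cons]
      split_ifs
      · rw [erase_cons_ne h]
      · rfl

theorem filter_erase_neg {p : L → Bool} (hp : p x = false) (w : List L) :
    (sub x [] w).filter p = w.filter p := by
  rw [filter_erase, sub_eq_self]
  intro h
  rw [List.mem_filter] at h
  rw [hp] at h
  exact absurd h.2 (by simp)

theorem filter_ins {p : L → Bool} (hp : p x = true) (ha : a ≠ x) (w : List L) :
    (sub x [a, x] w).filter p = if p a then sub x [a, x] (w.filter p) else w.filter p := by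
  induction w with
  | nil => simp
  | cons l w ih =>
    rw [sub_cons, List.filter_append, ih, List.filter_cons]
    by_cases h : l = x
    · subst h
      rw [if_pos rfl, if_pos hp]
      by_cases h2 : p a = true
      · rw [if_pos h2, if_pos h2, sub_cons, if_pos rfl]
        congr 1
        simp [h2, hp]
      · rw [if_neg h2, if_neg h2]
        simp [h2, hp]
    · rw [if_neg h]
      by_cases h2 : p l = true
      · rw [if_pos h2]
        by_cases h3 : p a = true
        · rw [if_pos h3, if_pos h3, sub_cons, if_neg h]
          simp [h2]
        · rw [if_neg h3, if_neg h3]
          simp [h2]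
      · rw [if_neg h2]
        simp [h2]

theorem count_filter_dbl (E : List L × List L) {l : L} (hl : dbl V E l = true) :
    (E.1.filter (dbl V E) ++ E.2.filter (dbl V E)).count l = 2 := by
  rw [← List.filter_append, List.count_filter hl]
  unfold dbl at hl
  rw [Bool.and_eq_true, decide_eq_true_eq] at hl
  exact hl.2

theorem full_skel (V : L → Bool) (E : List L × List L) :
    Full (E.1.filter (dbl V E)) (E.2.filter (dbl V E)) := by
  intro z hz
  rw [← List.filter_append, List.mem_filter] at hz
  exact count_filter_dbl E hz.2

theorem dbl_eq_of_count {l : L} (h : (E.1 ++ E.2).count l = (F.1 ++ F.2).count l) :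
    dbl V E l = dbl V F l := by
  unfold dbl
  rw [h]

theorem dbl_false_of_count {l : L} (h : V l = true → (E.1 ++ E.2).count l < 2) :
    dbl V E l = false := by
  unfold dbl
  cases hV : V l with
  | false => rfl
  | true =>
    have := h hV
    simp only [Bool.true_and, decide_eq_false_iff_not]
    omega

theorem badE_swap (E : List L × List L) : badE V E.swap = badE V E := by
  unfold badE
  have h : dbl V E.swap = dbl V E := by
    funext l
    apply dbl_eq_of_count
    simp only [Prod.fst_swap, Prod.snd_swap, List.count_append]
    omega
  rw [h, Prod.fst_swap, Prod.snd_swap, badS_swap]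

theorem Sm.bad_run {A B : List L} (hx : V x = true) (ha : a ≠ x) (hq : Quad V (x :: A, a :: B)) :
    badE V (x :: sub x [a, x] A, sub x [a, x] B) ≤ badE V (x :: A, a :: B) := by
  have hqx := hq x hx
  have hcx : (x :: A ++ a :: B).count x = 1 + (A.count x + B.count x) := by
    simp only [List.count_append, List.cons_append, List.count_cons_self, List.count_cons_of_ne ha]
    omega
  simp only at hqx
  rw [hcx] at hqx
  have hcount : ∀ l, (x :: sub x [a, x] A ++ sub x [a, x] B).count l +
      (if l = a then 1 else 0) = (x :: A ++ a :: B).count l +
        (if l = a then A.count x + B.count x else 0) := by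
    intro l
    simp only [List.count_append, List.cons_append, List.count_cons, count_sub, List.count_nil]
    by_cases hl : l = x
    · subst hl
      rw [if_neg ha.symm]
      have h1 : (a == l) = false := by simpa using ha
      simp only [h1, beq_self_eq_true, if_true, Bool.false_eq_true, if_false]
      rw [if_neg ha.symm]
      ring
    · have h1 : (x == l) = false := by simpa using fun e : x = l => hl e.symm
      simp only [h1, Bool.false_eq_true, if_false, if_neg hl]
      by_cases hla : l = a
      · subst hla
        simp only [beq_self_eq_true, if_true]
        ring
      · have h2 : (a == l) = false := by simpa using fun e : a = l => hla e.symm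
        simp only [h2, Bool.false_eq_true, if_false, if_neg hla]
        ring
  rcases Nat.eq_zero_or_pos (A.count x + B.count x) with h0 | h0
  · -- `x` occurs only once
    have hxA : x ∉ A := List.count_eq_zero.mp (by omega)
    have hxB : x ∉ B := List.count_eq_zero.mp (by omega)
    rw [sub_eq_self hxA, sub_eq_self hxB] at hcount ⊢
    have hdx : ∀ E : List L × List L, (E.1 ++ E.2).count x < 2 → dbl V E x = false := fun E h =>
      dbl_false_of_count fun _ => h
    have hd1 : dbl V (x :: A, a :: B) x = false := hdx _ (by simp only; rw [hcx]; omega)
    have hd2 : dbl V (x :: A, B) x = false := hdx _ (by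
      have := hcount x
      rw [if_neg ha.symm, if_neg ha.symm, hcx] at this
      simp only
      omega)
    have hda : dbl V (x :: A, B) a = false := dbl_false_of_count fun hV => by
      have h1 := hcount a
      have h2 := hq a hV
      rw [if_pos rfl, if_pos rfl] at h1
      simp only at h2 ⊢
      omega
    have hdo : ∀ l, l ≠ a → dbl V (x :: A, B) l = dbl V (x :: A, a :: B) l := by
      intro l hl
      apply dbl_eq_of_count
      have h1 := hcount l
      rw [if_neg hl, if_neg hl] at h1
      simpa using h1
    unfold badE
    simp only
    rw [List.filter_cons, hd2, List.filter_cons, hd1]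
    simp only [Bool.false_eq_true, if_false]
    cases hae : dbl V (x :: A, a :: B) a with
    | false =>
      have hall : dbl V (x :: A, B) = dbl V (x :: A, a :: B) := by
        funext l
        by_cases hl : l = a
        · subst hl; rw [hda, hae]
        · exact hdo l hl
      rw [List.filter_cons, hae, hall]
      simp
    | true =>
      have hfil : ∀ w : List L, w.filter (dbl V (x :: A, B)) =
          sub a [] (w.filter (dbl V (x :: A, a :: B))) := by
        intro w
        induction w with
        | nil => rfl
        | cons l w ih =>
          rw [List.filter_cons, List.filter_cons, ih]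
          by_cases hl : l = a
          · subst hl
            rw [hda, hae]
            simp only [Bool.false_eq_true, if_false, if_true]
            rw [erase_cons_self]
          · rw [hdo l hl]
            split_ifs
            · rw [erase_cons_ne hl]
            · rfl
      have h3 := bad_erase (x := a) (full_skel V (x :: A, a :: B)) (by
        rw [← List.filter_append, List.mem_filter]
        exact ⟨by simp, hae⟩)
      simp only at h3
      rw [List.filter_cons, hd1] at h3
      simp only [Bool.false_eq_true, if_false] at h3
      rw [hfil A, hfil B]
      have h4 : sub a [] ((a :: B).filter (dbl V (x :: A, a :: B))) =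
          sub a [] (B.filter (dbl V (x :: A, a :: B))) := by
        rw [List.filter_cons, hae, if_pos rfl, erase_cons_self]
      rw [h4] at h3
      exact h3
  · -- `x` occurs twice
    have h1 : A.count x + B.count x = 1 := by omega
    have hd : dbl V (x :: sub x [a, x] A, sub x [a, x] B) = dbl V (x :: A, a :: B) := by
      funext l
      apply dbl_eq_of_count
      have := hcount l
      rw [h1] at this
      simp only
      omega
    have hdx : dbl V (x :: A, a :: B) x = true := by
      unfold dbl
      simp only
      rw [hx, hcx, h1]
      rfl
    unfold badE
    rw [hd]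
    simp only
    rw [List.filter_cons, hdx, if_pos rfl, filter_ins hdx ha, filter_ins hdx ha,
      List.filter_cons, hdx, if_pos rfl]
    cases hae : dbl V (x :: A, a :: B) a with
    | false =>
      rw [List.filter_cons, hae]
      simp
    | true =>
      rw [List.filter_cons, hae]
      simp only [if_true]
      have hF := full_skel V (x :: A, a :: B)
      simp only at hF
      rw [List.filter_cons, hdx, if_pos rfl, List.filter_cons, hae, if_pos rfl] at hF
      exact bad_tmove ha.symm hF

theorem Sm.bad (h : Sm V E F) (hq : Quad V E) : badE V F ≤ badE V E := by
  cases h with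
  | @erase A B x hx hm =>
    have hcx : ∀ l, l ≠ x → (sub x [] A ++ sub x [] B).count l = (A ++ B).count l := by
      intro l hl
      rw [List.count_append, List.count_append, count_sub, count_sub, if_neg hl, if_neg hl]
      simp
    have hdx : dbl V (sub x [] A, sub x [] B) x = false := dbl_false_of_count fun _ => by
      simp only
      rw [← sub_append, List.count_eq_zero_of_not_mem not_mem_sub_nil]
      omega
    have hfil : ∀ w : List L, (sub x [] w).filter (dbl V (sub x [] A, sub x [] B)) =
        sub x [] (w.filter (dbl V (A, B))) := by
      intro w
      rw [← filter_erase]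
      apply filter_congr'
      intro l hl
      apply dbl_eq_of_count
      exact hcx l fun e => not_mem_sub_nil (e ▸ hl)
    unfold badE
    simp only
    rw [hfil, hfil]
    cases hd : dbl V (A, B) x with
    | true =>
      refine bad_erase (full_skel V (A, B)) ?_
      rw [← List.filter_append, List.mem_filter]
      exact ⟨hm, hd⟩
    | false =>
      rw [← filter_erase, ← filter_erase, filter_erase_neg hd, filter_erase_neg hd]
  | cancel a A B =>
    cases hV : V a with
    | true =>
      have h1 := hq a hV
      have hca : (a :: A ++ a :: B).count a = 2 + (A.count a + B.count a) := by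
        simp only [List.count_append, List.cons_append, List.count_cons_self]
        omega
      simp only at h1
      rw [hca] at h1
      have haA : a ∉ A := List.count_eq_zero.mp (by omega)
      have haB : a ∉ B := List.count_eq_zero.mp (by omega)
      have hd : ∀ l, l ≠ a → dbl V (A, B) l = dbl V (a :: A, a :: B) l := by
        intro l hl
        apply dbl_eq_of_count
        simp only [List.count_append, List.count_cons_of_ne (Ne.symm hl)]
      have hda : dbl V (a :: A, a :: B) a = true := by
        unfold dbl
        simp only
        rw [hV, hca, decide_eq_true (show 2 + (A.count a + B.count a) = 2 by omega)]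
        rfl
      have hfil : ∀ w : List L, a ∉ w → w.filter (dbl V (A, B)) =
          sub a [] ((a :: w).filter (dbl V (a :: A, a :: B))) := by
        intro w hw
        rw [List.filter_cons, hda, if_pos rfl, erase_cons_self, ← filter_erase, sub_eq_self hw]
        apply filter_congr'
        intro l hl
        exact hd l fun e => hw (e ▸ hl)
      unfold badE
      simp only
      rw [hfil A haA, hfil B haB]
      refine bad_erase (full_skel V (a :: A, a :: B)) ?_
      rw [← List.filter_append, List.mem_filter]
      exact ⟨by simp, hda⟩
    | false =>
      have hd : dbl V (A, B) = dbl V (a :: A, a :: B) := by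
        funext l
        by_cases hl : l = a
        · subst hl
          unfold dbl
          rw [hV]
          rfl
        · apply dbl_eq_of_count
          simp only [List.count_append, List.count_cons_of_ne (Ne.symm hl)]
      have hda : dbl V (a :: A, a :: B) a = false := by
        unfold dbl
        rw [hV]
        rfl
      unfold badE
      rw [hd]
      simp only
      rw [List.filter_cons, hda, List.filter_cons, hda]
      simp
  | @run A B x a hx ha => exact Sm.bad_run hx ha hq
  | @run' A B x a hx ha =>
    have h1 := Sm.bad_run hx ha hq.swap
    rw [← badE_swap (a :: B, x :: A), ← badE_swap (sub x [a, x] B, x :: sub x [a, x] A)]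
    exact h1

theorem Mv.bad (h : Mv V E F) (hq : Quad V E) : badE V F ≤ badE V E := by
  have key : ∀ {E F}, Relation.ReflTransGen (Sm V) E F → Quad V E →
      Quad V F ∧ badE V F ≤ badE V E := by
    intro E F h hq
    induction h with
    | refl => exact ⟨hq, le_rfl⟩
    | tail _ h ih => exact ⟨h.mv.quad ih.1, (h.bad ih.1).trans ih.2⟩
  exact (key h.small hq).2

end Pool.Agent.QuadEq
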