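import Pool.Agent.Lib.MP_b7851d_lc.Bulk

/-!
# Standardization, and realisation of block transpositions by bulk moves
-/

namespace Pool.Agent.QuadEq

open List

variable {α : Type*}

/-- There is no proper closed prefix. -/
def Irr (s : List α × List α) : Prop :=
  ∀ P₁ P₂ Q₁ Q₂, s.1 = P₁ ++ P₂ → s.2 = Q₁ ++ Q₂ → P₁ ≠ [] → P₁ ~ Q₁ → P₂ = []

theorem Rg.length {s : List α × List α} (hs : Rg s) : s.1.length = s.2.length := hs.p.length_eq

theorem Irr.swap {s : List α × List α} (hs : Rg s) (h : Irr s) : Irr s.swap := by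
  intro P₁ P₂ Q₁ Q₂ h1 h2 h3 h4
  have h5 := h Q₁ Q₂ P₁ P₂ h2 h1 (by
    rintro rfl
    exact h3 (List.perm_nil.mp h4)) h4.symm
  have h6 := hs.length
  simp only [Prod.fst_swap, Prod.snd_swap] at h1 h2
  rw [h1, h2, h5] at h6
  simp only [List.length_append, List.length_nil] at h6
  have h7 := h4.length_eq
  exact List.length_eq_zero_iff.mp (by omega)

theorem irr_top {x : α} {P U W Q : List α} (hs : Rg (x :: P, U ++ W ++ x :: Q))
    (h : Irr (x :: P, U ++ W ++ x :: Q)) : Irr (x :: P, W ++ U ++ x :: Q) := by
  intro P₁ P₂ Q₁ Q₂ h1 h2 h3 h4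
  simp only at h1 h2
  have hx : x ∈ Q₁ := by
    cases P₁ with
    | nil => exact absurd rfl h3
    | cons a P₁ =>
      simp only [List.cons_append, List.cons.injEq] at h1
      rw [h1.1]
      exact h4.subset (by simp)
  have hn : x ∉ W ++ U := by
    intro hm
    have n2 := hs.n2
    simp only at n2
    rw [List.nodup_append] at n2
    exact n2.2.2 x (by simpa [or_comm] using hm) x List.mem_cons_self rfl
  rcases List.append_eq_append_iff.mp h2 with ⟨R, h5, h6⟩ | ⟨R, h5, h6⟩
  · -- Q₁ = W ++ U ++ R
    cases R with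
    | nil =>
      rw [List.append_nil] at h5
      rw [h5] at hx
      exact absurd hx hn
    | cons r R =>
      simp only [List.cons_append, List.cons.injEq] at h6
      obtain ⟨rfl, h6⟩ := h6
      refine h P₁ P₂ (U ++ W ++ x :: R) Q₂ h1 (by rw [h6]; simp) h3 (h4.trans ?_)
      rw [h5]
      exact List.Perm.append_right _ List.perm_append_comm
  · exact absurd (by rw [h5]; exact List.mem_append_left _ hx) hn

theorem Bk.irr {s t : List α × List α} (h : Bk s t) (hs : Rg s) (hi : Irr s) : Irr t := by
  cases h with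
  | top x P U W Q => exact irr_top hs hi
  | bot y P U W Q =>
    have h1 := irr_top (x := y) (P := Q) (U := U) (W := W) (Q := P) hs.swap (hi.swap hs)
    exact h1.swap (Bk.rg (Bk.top y Q U W P) hs.swap)

theorem exists_last {p : α → Prop} : ∀ (l : List α), (∃ a ∈ l, p a) →
    ∃ A y B, l = A ++ y :: B ∧ p y ∧ ∀ b ∈ B, ¬ p b
  | [], h => by obtain ⟨a, ha, -⟩ := h; exact absurd ha (by simp)
  | a :: l, h => by
    by_cases hl : ∃ b ∈ l, p b
    · obtain ⟨A, y, B, h1, h2, h3⟩ := exists_last l hl
      exact ⟨a :: A, y, B, by rw [h1]; rfl, h2, h3⟩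
    · push Not at hl
      obtain ⟨b, hb, hpb⟩ := h
      rcases List.mem_cons.mp hb with rfl | hb
      · exact ⟨[], b, l, rfl, hpb, hl⟩
      · exact absurd hpb (hl b hb)

/-- Standard states. -/
def Std (s : List α × List α) : Prop := ∃ f Z Q, s = (f :: Z, Q ++ [f])

theorem standardize : ∀ (m : ℕ) (x : α) (P Q₁ Q₂ : List α), Q₂.length = m →
    Rg (x :: P, Q₁ ++ x :: Q₂) → Irr (x :: P, Q₁ ++ x :: Q₂) →
    ∃ t, Chn Bk (2 * m) (x :: P, Q₁ ++ x :: Q₂) t ∧ Std t := by
  intro m
  induction m using Nat.strong_induction_on with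
  | _ m ih =>
    intro x P Q₁ Q₂ hm hs hi
    cases hQ2 : Q₂ with
    | nil => exact ⟨_, Chn.refl _ _, x, P, Q₁, rfl⟩
    | cons z Q₃ =>
      rw [← hQ2]
      have n1 := hs.n1
      have n2 := hs.n2
      simp only at n1 n2
      have hxP : x ∉ P := (List.nodup_cons.mp n1).1
      have hxQ1 : x ∉ Q₁ := by
        intro h
        rw [List.nodup_append] at n2
        exact n2.2.2 x h x List.mem_cons_self rfl
      have hxQ2 : x ∉ Q₂ := (List.nodup_cons.mp (List.nodup_append.mp n2).2.1).1
      have hdis : ∀ a ∈ Q₁, a ∉ Q₂ := by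
        intro a ha ha2
        rw [List.nodup_append] at n2
        exact n2.2.2 a ha a (List.mem_cons_of_mem _ ha2) rfl
      have hmem : ∀ a, a ∈ P ↔ a ∈ Q₁ ∨ a ∈ Q₂ := by
        intro a
        have h1 := hs.p.mem_iff (a := a)
        simp only [List.mem_cons, List.mem_append] at h1
        by_cases hax : a = x
        · subst hax; tauto
        · tauto
      have hQ1 : Q₁ ≠ [] := by
        rintro rfl
        have h1 := hi [x] P [x] Q₂ rfl rfl (by simp) (List.Perm.refl _)
        have h2 := hs.length
        rw [h1, hQ2] at h2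
        simp at h2
      obtain ⟨A, y, B, hP, hy, hB⟩ := exists_last (p := fun a => a ∈ Q₁) P (by
        obtain ⟨a, ha⟩ := List.exists_mem_of_ne_nil Q₁ hQ1
        exact ⟨a, (hmem a).mpr (Or.inl ha), ha⟩)
      have hx' : ∃ x' ∈ A, x' ∈ Q₂ := by
        by_contra hno
        push Not at hno
        have h1 : (x :: (A ++ [y])) ~ (Q₁ ++ [x]) := by
          have nn1 : (x :: (A ++ [y])).Nodup := by
            refine n1.sublist ?_
            rw [hP]
            exact (List.Sublist.append (List.Sublist.refl A) (by simp : [y] <+ y :: B)).cons_cons x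
          have nn2 : (Q₁ ++ [x]).Nodup := by
            refine n2.sublist ?_
            exact List.Sublist.append (List.Sublist.refl _) (by simp)
          refine (List.perm_ext_iff_of_nodup nn1 nn2).mpr fun a => ?_
          simp only [List.mem_cons, List.mem_append, List.not_mem_nil, or_false]
          constructor
          · rintro (h | h | h)
            · exact Or.inr h
            · have := (hmem a).mp (by rw [hP]; simp [h])
              rcases this with h2 | h2
              · exact Or.inl h2
              · exact absurd h2 (hno a h)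
            · exact Or.inl (h ▸ hy)
          · rintro (h | h)
            · have := (hmem a).mpr (Or.inl h)
              rw [hP] at this
              simp only [List.mem_append, List.mem_cons] at this
              rcases this with h2 | h2 | h2
              · exact Or.inr (Or.inl h2)
              · exact Or.inr (Or.inr h2)
              · exact absurd h (hB a h2)
            · exact Or.inl h
        have h2 := hi (x :: (A ++ [y])) B (Q₁ ++ [x]) Q₂ (by rw [hP]; simp) (by simp) (by simp) h1
        have h3 := (hmem z).mpr (Or.inr (by rw [hQ2]; exact List.mem_cons_self))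
        rw [hP, h2] at h3
        simp only [List.mem_append, List.mem_cons, List.not_mem_nil, or_false] at h3
        have hzQ : z ∈ Q₂ := by rw [hQ2]; exact List.mem_cons_self
        rcases h3 with h3 | h3
        · exact hno z h3 hzQ
        · exact hdis z (h3 ▸ hy) hzQ
      obtain ⟨x', hxA, hxQ⟩ := hx'
      obtain ⟨A₁, A₂, hA⟩ := List.append_of_mem hxA
      obtain ⟨U, W, hUW⟩ := List.append_of_mem hy
      obtain ⟨C, C₂, hC⟩ := List.append_of_mem hxQ
      have b1 : Bk (x :: P, Q₁ ++ x :: Q₂) (x :: P, (y :: W) ++ U ++ x :: Q₂) := by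
        rw [hUW]
        exact Bk.top x P U (y :: W) Q₂
      have b2 : Bk (x :: P, (y :: W) ++ U ++ x :: Q₂)
          ((x' :: A₂) ++ (x :: A₁) ++ y :: B, y :: (W ++ U ++ x :: Q₂)) := by
        have e1 : x :: P = (x :: A₁) ++ (x' :: A₂) ++ y :: B := by rw [hP, hA]; simp
        have e2 : (y :: W) ++ U ++ x :: Q₂ = y :: (W ++ U ++ x :: Q₂) := by simp
        rw [e1, e2]
        exact Bk.bot y B (x :: A₁) (x' :: A₂) _
      have e3 : ((x' :: A₂) ++ (x :: A₁) ++ y :: B, y :: (W ++ U ++ x :: Q₂)) =
          (x' :: (A₂ ++ (x :: A₁) ++ y :: B), (y :: (W ++ U ++ x :: C)) ++ x' :: C₂) := by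
        rw [hC]; simp
      have hrg := b2.rg (b1.rg hs)
      have hir := b2.irr (b1.rg hs) (b1.irr hs hi)
      rw [e3] at hrg hir b2
      have hlt : C₂.length < m := by
        rw [← hm, hC]
        simp only [List.length_append, List.length_cons]
        omega
      obtain ⟨t, ht, ht2⟩ := ih C₂.length hlt x' _ _ C₂ rfl hrg hir
      exact ⟨t, (Chn.step b1 (Chn.step b2 ht)).mono (by omega), ht2⟩

/-- Every irreducible state is near a standard state. -/
theorem exists_std {s : List α × List α} (hs : Rg s) (hi : Irr s) (hne : s.1 ≠ []) :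
    ∃ t, Chn Bk (2 * s.1.length) s t ∧ Std t := by
  obtain ⟨P, Q⟩ := s
  cases P with
  | nil => exact absurd rfl hne
  | cons x P =>
    have hx : x ∈ Q := hs.p.subset List.mem_cons_self
    obtain ⟨Q₁, Q₂, rfl⟩ := List.append_of_mem hx
    obtain ⟨t, h1, h2⟩ := standardize _ x P Q₁ Q₂ rfl hs hi
    refine ⟨t, h1.mono ?_, h2⟩
    have := hs.length
    simp only [List.length_append, List.length_cons] at this ⊢
    omega

end Pool.Agent.QuadEq
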