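import Mathlib

/-!
# Word equations: substitutions and the elementary steps
-/

namespace Pool.Agent.QuadEq

section

variable {L : Type} (V : L → Bool)

/-- The value of a word; `V` tells which letters are variables. -/
def ev (h : L → List L) (w : List L) : List L := w.flatMap fun l => if V l then h l else [l]

variable {V} {w w' : List L} {h : L → List L}

@[simp] theorem ev_nil : ev V h [] = [] := rfl

theorem ev_cons (l : L) : ev V h (l :: w) = (if V l then h l else [l]) ++ ev V h w := by
  simp [ev]

theorem ev_append : ev V h (w ++ w') = ev V h w ++ ev V h w' := by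
  simp [ev]

theorem length_ev_le {H : ℕ} (hH : ∀ x, (h x).length ≤ H) :
    (ev V h w).length ≤ w.length + w.countP V * H := by
  induction w with
  | nil => simp
  | cons l w ih =>
    rw [ev_cons, List.length_append, List.length_cons, List.countP_cons]
    have := hH l
    by_cases hl : V l = true
    · simp only [if_pos hl, Nat.add_mul, one_mul]
      omega
    · simp only [if_neg hl, List.length_singleton, Nat.add_zero]
      omega

variable (V)

/-- The equation is solved by `h`. -/
def Solves (h : L → List L) (E : List L × List L) : Prop := ev V h E.1 = ev V h E.2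

theorem Solves.swap {E : List L × List L} (h' : Solves V h E) : Solves V h E.swap := Eq.symm h'

end

variable {L : Type} [DecidableEq L] (V : L → Bool)

/-- The substitution of the word `u` for the letter `x`. -/
def sub (x : L) (u : List L) (w : List L) : List L := w.flatMap fun l => if l = x then u else [l]

variable {V} {x : L} {u w w' : List L} {h : L → List L}

@[simp] theorem sub_nil : sub x u [] = [] := rfl

theorem sub_cons (l : L) : sub x u (l :: w) = (if l = x then u else [l]) ++ sub x u w := by
  simp [sub]

theorem sub_append : sub x u (w ++ w') = sub x u w ++ sub x u w' := by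
  simp [sub]

theorem ev_sub (hx : V x = true) :
    ev V h (sub x u w) = ev V (Function.update h x (ev V h u)) w := by
  induction w with
  | nil => rfl
  | cons l w ih =>
    rw [sub_cons, ev_append, ev_cons, ih]
    congr 1
    by_cases hl : l = x
    · subst hl
      simp [hx]
    · rw [if_neg hl, Function.update_of_ne hl]
      simp [ev]

omit [DecidableEq L] in
theorem ev_congr {h' : L → List L} (hh : ∀ l ∈ w, V l = true → h l = h' l) :
    ev V h w = ev V h' w := by
  induction w with
  | nil => rfl
  | cons l w ih =>
    rw [ev_cons, ev_cons, ih fun a ha => hh a (List.mem_cons_of_mem _ ha)]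
    by_cases hl : V l = true
    · rw [if_pos hl, if_pos hl, hh l List.mem_cons_self hl]
    · rw [if_neg hl, if_neg hl]

theorem ev_update (hx : x ∉ w) {r : List L} : ev V (Function.update h x r) w = ev V h w :=
  ev_congr fun _ hl _ => Function.update_of_ne (ne_of_mem_of_not_mem hl hx) _ _

/-- The transformation of the solution in the main step. -/
theorem ev_run {r : List L} (hx : V x = true) (hu : x ∉ u) (hr : h x = ev V h u ++ r) :
    ev V (Function.update h x r) (sub x (u ++ [x]) w) = ev V h w := by
  rw [ev_sub hx, ev_append, ev_update hu, ev_cons, if_pos hx, Function.update_self, ev_nil,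
    List.append_nil, Function.update_idem, ← hr, Function.update_eq_self]

theorem ev_erase (hx : V x = true) (hr : h x = []) : ev V h (sub x [] w) = ev V h w := by
  rw [ev_sub hx, ev_nil, ← hr, Function.update_eq_self]

theorem sub_eq_self (hx : x ∉ w) : sub x u w = w := by
  induction w with
  | nil => rfl
  | cons l w ih =>
    rw [sub_cons, if_neg (ne_of_mem_of_not_mem List.mem_cons_self hx),
      ih fun e => hx (List.mem_cons_of_mem _ e)]
    rfl

theorem not_mem_sub_nil : x ∉ sub x [] w := by
  induction w with
  | nil => simp
  | cons l w ih =>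
    rw [sub_cons]
    by_cases hl : l = x
    · simpa [hl] using ih
    · rw [if_neg hl]
      simp only [List.mem_append, List.mem_singleton, not_or]
      exact ⟨fun e => hl e.symm, ih⟩

theorem count_sub (l : L) : (sub x u w).count l =
    (if l = x then 0 else w.count l) + w.count x * u.count l := by
  induction w with
  | nil => simp
  | cons a w ih =>
    rw [sub_cons, List.count_append, ih]
    by_cases ha : a = x
    · subst ha
      rw [if_pos rfl, List.count_cons_self]
      by_cases hl : l = a
      · subst hl; simp; ring
      · rw [if_neg hl, if_neg hl, List.count_cons_of_ne (fun e => hl e.symm)]; ring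
    · rw [if_neg ha, List.count_cons_of_ne ha]
      by_cases hl : l = x
      · subst hl
        rw [if_pos rfl, if_pos rfl, List.count_singleton, if_neg (by simpa using ha)]
        ring
      · rw [if_neg hl, if_neg hl, List.count_cons, List.count_cons, List.count_nil]
        ring

variable (V)

/-- The equation is quadratic. -/
def Quad (E : List L × List L) : Prop := ∀ x, V x = true → (E.1 ++ E.2).count x ≤ 2

/-- The set of variables of the equation. -/
def vars (E : List L × List L) : Finset L := (E.1 ++ E.2).toFinset.filter fun l => V l = true

/-- The elementary steps. -/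
inductive Mv : List L × List L → List L × List L → Prop
  | erase {A B : List L} {x : L} (hx : V x = true) (hm : x ∈ A ++ B) :
      Mv (A, B) (sub x [] A, sub x [] B)
  | cancel (u A B : List L) : Mv (u ++ A, u ++ B) (A, B)
  | run {A B u : List L} {x : L} (hx : V x = true) (hu : x ∉ u) :
      Mv (x :: A, u ++ B) (x :: sub x (u ++ [x]) A, sub x (u ++ [x]) B)
  | run' {A B u : List L} {x : L} (hx : V x = true) (hu : x ∉ u) :
      Mv (u ++ B, x :: A) (sub x (u ++ [x]) B, x :: sub x (u ++ [x]) A)

variable {V} {E F G : List L × List L}

theorem Mv.swap (h : Mv V E F) : Mv V E.swap F.swap := by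
  cases h with
  | erase hx hm => exact Mv.erase hx (by simpa [or_comm] using hm)
  | cancel u A B => exact Mv.cancel u B A
  | run hx hu => exact Mv.run' hx hu
  | run' hx hu => exact Mv.run hx hu

theorem Mv.refl (E : List L × List L) : Mv V E E := Mv.cancel [] E.1 E.2

theorem Quad.swap (h' : Quad V E) : Quad V E.swap := fun x hx => by
  have := h' x hx
  simp only [Prod.fst_swap, Prod.snd_swap, List.count_append] at this ⊢
  omega

/-- A step in a quadratic equation does not create letters. -/
theorem Mv.subperm (h : Mv V E F) (hE : Quad V E) : (F.1 ++ F.2).Subperm (E.1 ++ E.2) := by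
  rw [List.subperm_ext_iff]
  intro l _
  have key : ∀ {A B u : List L} {x : L}, V x = true → x ∉ u → Quad V (x :: A, u ++ B) →
      (x :: sub x (u ++ [x]) A ++ sub x (u ++ [x]) B).count l ≤ (x :: A ++ (u ++ B)).count l := by
    intro A B u x hx hu hq
    have h1 := hq x hx
    have hu0 : u.count x = 0 := List.count_eq_zero_of_not_mem hu
    simp only [List.count_append, List.count_cons_self, List.cons_append] at h1
    simp only [List.count_append, List.count_cons, count_sub, List.cons_append, List.count_nil]
    by_cases hl : l = x
    · subst hl
      simp only [beq_self_eq_true, if_true, hu0]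
      omega
    · have hl' : (x == l) = false := by simpa using fun e : x = l => hl e.symm
      simp only [hl', if_neg hl, Bool.false_eq_true, if_false]
      have h2 : A.count x + B.count x ≤ 1 := by omega
      have h3 : A.count x * u.count l + B.count x * u.count l ≤ u.count l := by
        rw [← Nat.add_mul]
        calc _ ≤ 1 * u.count l := Nat.mul_le_mul_right _ h2
          _ = _ := one_mul _
      simp only [Nat.add_zero]
      omega
  cases h with
  | erase hx hm =>
    simp only [List.count_append, count_sub, List.count_nil]
    split_ifs <;> omega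
  | cancel u A B =>
    simp only [List.count_append]
    omega
  | run hx hu => exact key hx hu hE
  | run' hx hu =>
    have := key hx hu hE.swap
    simp only [List.count_append] at this ⊢
    omega

theorem Mv.quad (h : Mv V E F) (hE : Quad V E) : Quad V F := fun x hx =>
  ((h.subperm hE).count_le x).trans (hE x hx)

theorem Mv.vars (h : Mv V E F) (hE : Quad V E) : vars V F ⊆ vars V E := by
  intro l hl
  unfold QuadEq.vars at hl ⊢
  rw [Finset.mem_filter, List.mem_toFinset] at hl ⊢
  exact ⟨(h.subperm hE).subset hl.1, hl.2⟩

theorem Quad.countP_le (hE : Quad V E) : (E.1 ++ E.2).countP V ≤ 2 * (QuadEq.vars V E).card := by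
  have h1 := List.sum_map_count_dedup_filter_eq_countP V (E.1 ++ E.2)
  have h2 : (QuadEq.vars V E).card = ((E.1 ++ E.2).dedup.filter V).length := by
    unfold QuadEq.vars
    rw [← List.toFinset_card_of_nodup ((List.nodup_dedup _).filter _)]
    congr 1
    ext l
    simp
  rw [← h1, h2, ← List.length_map (f := fun x => (E.1 ++ E.2).count x), mul_comm, ← smul_eq_mul]
  refine List.sum_le_card_nsmul _ _ fun c hc => ?_
  rw [List.mem_map] at hc
  obtain ⟨x, hx, rfl⟩ := hc
  exact hE x (List.mem_filter.mp hx).2

/-- Soundness of the steps, with a bound for the lengths. -/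
theorem Mv.sound (h' : Mv V E F) (hE : Quad V E) {h : L → List L} (hh : Solves V h F) {H v : ℕ}
    (hH : ∀ x, (h x).length ≤ H) (hv : (QuadEq.vars V E).card ≤ v) :
    ∃ h₁ : L → List L, Solves V h₁ E ∧
      ∀ x, (h₁ x).length ≤ (E.1 ++ E.2).length + (2 * v + 1) * H := by
  have hH' : ∀ x, (h x).length ≤ (E.1 ++ E.2).length + (2 * v + 1) * H := fun x => by
    have := hH x
    have h2 : H ≤ (2 * v + 1) * H := Nat.le_mul_of_pos_left _ (by omega)
    omega
  have hup : ∀ (x : L) (r : List L), r.length ≤ (E.1 ++ E.2).length + (2 * v + 1) * H →
      ∀ y, (Function.update h x r y).length ≤ (E.1 ++ E.2).length + (2 * v + 1) * H := by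
    intro x r hr y
    by_cases hy : y = x
    · subst hy; rwa [Function.update_self]
    · rw [Function.update_of_ne hy]; exact hH' y
  have hrun : ∀ {A B u : List L} {x : L}, V x = true → x ∉ u →
      Solves V h (x :: sub x (u ++ [x]) A, sub x (u ++ [x]) B) →
      Solves V (Function.update h x (ev V h (u ++ [x]))) (x :: A, u ++ B) := by
    intro A B u x hx hu hs
    unfold Solves at hs ⊢
    simp only at hs ⊢
    rw [ev_cons, if_pos hx, ev_sub hx] at hs
    rw [ev_cons, if_pos hx, Function.update_self, ev_append (w := u) (w' := B), ev_update hu]
    rw [ev_sub hx] at hs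
    rw [← hs, ev_append (w := u) (w' := [x]), ev_cons, if_pos hx, ev_nil, List.append_nil,
      List.append_assoc]
  have hlen : ∀ {u : List L} {x : L}, V x = true → u.length ≤ (E.1 ++ E.2).length →
      u.countP V ≤ (E.1 ++ E.2).countP V →
      (ev V h (u ++ [x])).length ≤ (E.1 ++ E.2).length + (2 * v + 1) * H := by
    intro u x hx h1 h2
    rw [ev_append, List.length_append, ev_cons, if_pos hx, ev_nil, List.append_nil]
    have h3 := length_ev_le (V := V) (w := u) hH
    have h4 := hH x
    have h5 : u.countP V * H ≤ 2 * v * H :=
      Nat.mul_le_mul_right _ (h2.trans (hE.countP_le.trans (Nat.mul_le_mul_left _ hv)))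
    rw [Nat.add_mul, one_mul]
    omega
  cases h' with
  | @erase A B x hx hm =>
    refine ⟨Function.update h x [], ?_, hup x [] (by simp)⟩
    have := hh
    unfold Solves at this ⊢
    simp only [ev_sub hx, ev_nil] at this
    exact this
  | cancel u A B =>
    refine ⟨h, ?_, hH'⟩
    have := hh
    unfold Solves at this ⊢
    simp only [ev_append]
    rw [this]
  | @run A B u x hx hu =>
    refine ⟨_, hrun hx hu hh, hup _ _ (hlen hx ?_ ?_)⟩
    · simp only [List.length_append, List.length_cons]; omega
    · simp only [List.countP_append, List.countP_cons]; omega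
  | @run' A B u x hx hu =>
    refine ⟨_, (hrun hx hu hh.swap).swap, hup _ _ (hlen hx ?_ ?_)⟩
    · simp only [List.length_append, List.length_cons]; omega
    · simp only [List.countP_append, List.countP_cons]; omega

/-- `Rch m E F`: the equation `F` is reachable from `E` in at most `m` steps. -/
inductive Rch (V : L → Bool) : ℕ → List L × List L → List L × List L → Prop
  | refl (m : ℕ) (E : List L × List L) : Rch V m E E
  | step {m : ℕ} {E F G : List L × List L} (h : Mv V E F) (h' : Rch V m F G) : Rch V (m + 1) E G

theorem Rch.trans {m n : ℕ} (h : Rch V m E F) (h' : Rch V n F G) : Rch V (m + n) E G := by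
  induction h with
  | refl m E =>
    induction m with
    | zero => rwa [Nat.zero_add]
    | succ m ih => rw [Nat.add_right_comm]; exact Rch.step (Mv.refl E) ih
  | @step m E F G h1 _ ih =>
    rw [Nat.add_right_comm]
    exact Rch.step h1 (ih h')

theorem Rch.mono {m n : ℕ} (hmn : m ≤ n) (h : Rch V m E F) : Rch V n E F := by
  obtain ⟨k, rfl⟩ := Nat.exists_eq_add_of_le hmn
  exact h.trans (Rch.refl k F)

theorem Rch.swap {m : ℕ} (h : Rch V m E F) : Rch V m E.swap F.swap := by
  induction h with
  | refl m E => exact Rch.refl m _
  | step h1 _ ih => exact Rch.step h1.swap ih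

theorem Rch.single (h : Mv V E F) : Rch V 1 E F := Rch.step h (Rch.refl 0 F)

theorem Rch.quad {m : ℕ} (h : Rch V m E F) (hE : Quad V E) : Quad V F := by
  induction h with
  | refl m E => exact hE
  | step h1 _ ih => exact ih (h1.quad hE)

theorem Rch.vars {m : ℕ} (h : Rch V m E F) (hE : Quad V E) :
    QuadEq.vars V F ⊆ QuadEq.vars V E := by
  induction h with
  | refl m E => exact subset_rfl
  | step h1 _ ih => exact (ih (h1.quad hE)).trans (h1.vars hE)

theorem Rch.subperm {m : ℕ} (h : Rch V m E F) (hE : Quad V E) :
    (F.1 ++ F.2).Subperm (E.1 ++ E.2) := by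
  induction h with
  | refl m E => exact List.Subperm.refl _
  | step h1 _ ih => exact (ih (h1.quad hE)).trans (h1.subperm hE)

end Pool.Agent.QuadEq
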