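import Pool.Agent.Lib.MP_b7851d_lc.Items

/-!
# Stretches: sequences of block steps in which the winners have their occurrences in both words
-/

namespace Pool.Agent.QuadEq

open List

variable {L : Type} [DecidableEq L] {D V : L → Bool}
variable {a₁ a₂ : L → List L} {t₁ t₂ : L → List (L × List L)} {p q : List L}

/-- A block step in which the second list wins, the winner has its other occurrence in the
first list. -/
inductive MB : List (L × List L) × List (L × List L) → List (L × List L) × List (L × List L) →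
    Prop
  | mk {x y : L} {a w : List L} {P Q : List (L × List L)} (hxy : x ≠ y)
      (hy : y ∈ P.map Prod.fst) :
      MB ((x, a) :: P, (y, w) :: Q) (ins y (x, a) P, (y, w) :: ins y (x, a) Q)

/-- A mixed step. -/
def MM (S S' : List (L × List L) × List (L × List L)) : Prop :=
  MB S S' ∨ MB S.swap S'.swap

theorem MM.swap {S S' : List (L × List L) × List (L × List L)} (h : MM S S') :
    MM S.swap S'.swap := by
  rcases h with h | h
  · exact Or.inr h
  · exact Or.inl h

/-- The partial states: the first item of the second list is moving over the items of the first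
letter of the first word. -/
inductive Pt (a₁ : L → List L) (t₁ : L → List (L × List L)) (a₂ : L → List L)
    (t₂ : L → List (L × List L)) :
    List L → List L → List (L × List L) × List (L × List L) → Prop
  | mk {x y : L} {A B q : List L} {u w : List (L × List L)} (hxy : x ≠ y)
      (hu : (x, a₁ x) :: t₁ x = u ++ w) (hu0 : u ≠ []) (hw0 : w ≠ []) :
      Pt a₁ t₁ a₂ t₂ (x :: (A ++ y :: B)) (y :: q)
        (w ++ tpI a₁ t₁ A ++ u ++ tpI a₁ t₁ (y :: B), tpI a₂ t₂ (y :: q))

theorem Pt.chn {S : List (L × List L) × List (L × List L)} (hS : Pt a₁ t₁ a₂ t₂ p q S)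
    (h : RS D a₁ t₁ a₂ t₂ p q) :
    Chn (Mv D) 1 (unpE (tpI a₁ t₁ p, tpI a₂ t₂ q)) (unpE S) := by
  cases hS with
  | @mk x y A B q u w hxy hu hu0 hw0 =>
    refine Chn.single ?_
    have n1 := h.rg.n1
    simp only at n1
    have hxp : x ∈ x :: (A ++ y :: B) := List.mem_cons_self
    have hyp : y ∈ x :: (A ++ y :: B) := by simp
    have m1 : y ∉ A := fun hm => by
      have := (List.nodup_cons.mp n1).2
      rw [List.nodup_append] at this
      exact this.2.2 y hm y List.mem_cons_self rfl
    have m3 : y ∉ B := by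
      have := (List.nodup_cons.mp n1).2
      rw [List.nodup_append] at this
      exact (List.nodup_cons.mp this.2.1).1
    have hT : Ok D (u ++ w) := by
      rw [← hu]
      intro s hs
      rcases List.mem_cons.mp hs with hs | hs
      · subst hs
        exact h.ok1 _ (mem_tpI.mpr ⟨x, hxp, Or.inl rfl⟩)
      · exact h.okT hxp s hs
    have hTy : y ∉ (u ++ w).map Prod.fst := by
      rw [← hu, List.map_cons, List.mem_cons, not_or]
      exact ⟨fun e => hxy e.symm, h.not_tail hxp hyp⟩
    rw [List.map_append, List.mem_append, not_or] at hTy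
    have hA : Ok D (w ++ tpI a₁ t₁ A) := by
      intro s hs
      rcases List.mem_append.mp hs with hs | hs
      · exact hT s (List.mem_append_right _ hs)
      · exact h.okP (fun v hv => by simp [hv]) s hs
    have hAy : y ∉ (w ++ tpI a₁ t₁ A).map Prod.fst := by
      rw [List.map_append, List.mem_append, not_or]
      exact ⟨hTy.2, h.not_tpI (fun v hv => by simp [hv]) hyp m1⟩
    have := h.bulk (q' := q) (B := B) (X := u) (Y := w ++ tpI a₁ t₁ A) rfl
      (fun s hs => hT s (List.mem_append_left _ hs)) hA hTy.1 hAy (fun v hv => by simp [hv]) m3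
    have e1 : tpI a₁ t₁ (x :: (A ++ y :: B)) =
        u ++ (w ++ tpI a₁ t₁ A) ++ tpI a₁ t₁ (y :: B) := by
      rw [tpI_cons, tpI_append, ← List.cons_append, hu]
      simp
    rw [e1]
    exact this

/-- A step from a regular state, the second list wins. -/
theorem reg_step {S : List (L × List L) × List (L × List L)} (h : RS D a₁ t₁ a₂ t₂ p q)
    (hm : MB (tpI a₁ t₁ p, tpI a₂ t₂ q) S) :
    ∃ p' q', Relation.ReflTransGen Bk (p, q) (p', q') ∧
      (S = (tpI a₁ t₁ p', tpI a₂ t₂ q') ∨ Pt a₁ t₁ a₂ t₂ p' q' S) := by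
  have n1 := h.rg.n1
  have n2 := h.rg.n2
  have hpq := h.rg.p
  simp only at n1 n2 hpq
  generalize hS : (tpI a₁ t₁ p, tpI a₂ t₂ q) = S0 at hm
  cases hm with
  | @mk x y a w P Q hxy hyP =>
    rw [Prod.mk.injEq] at hS
    obtain ⟨h1, h2⟩ := hS
    cases p with
    | nil => exact absurd h1 (by simp [tpI])
    | cons x' p =>
      cases q with
      | nil => exact absurd h2 (by simp [tpI])
      | cons y' q =>
        rw [tpI_cons, List.cons.injEq, Prod.mk.injEq] at h1 h2
        obtain ⟨⟨rfl, rfl⟩, rfl⟩ := h1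
        obtain ⟨⟨rfl, rfl⟩, rfl⟩ := h2
        have hy : y' ∈ p := by
          rcases List.mem_cons.mp (hpq.symm.subset (List.mem_cons_self (a := y'))) with h3 | h3
          · exact absurd h3.symm hxy
          · exact h3
        obtain ⟨A, B, rfl⟩ := List.append_of_mem hy
        have n3 := (List.nodup_cons.mp n1).2
        rw [List.nodup_append] at n3
        have m1 : y' ∉ A := fun hm => n3.2.2 y' hm y' List.mem_cons_self rfl
        have m2 : y' ∉ B := (List.nodup_cons.mp n3.2.1).1
        have hyp : y' ∈ x' :: (A ++ y' :: B) := by simp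
        have e1 : ins y' (x', a₁ x') (t₂ y' ++ tpI a₂ t₂ q) = t₂ y' ++ tpI a₂ t₂ q := by
          apply ins_self
          rw [List.map_append, List.mem_append, not_or]
          exact ⟨h.swap.not_tail List.mem_cons_self List.mem_cons_self,
            h.swap.not_tpI (fun v hv => List.mem_cons_of_mem _ hv) List.mem_cons_self
              (List.nodup_cons.mp n2).1⟩
        have e2 : ins y' (x', a₁ x') (t₁ x' ++ tpI a₁ t₁ (A ++ y' :: B)) =
            t₁ x' ++ tpI a₁ t₁ A ++ [(x', a₁ x')] ++ tpI a₁ t₁ (y' :: B) := by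
          have e3 : t₁ x' ++ tpI a₁ t₁ (A ++ y' :: B) =
              (t₁ x' ++ tpI a₁ t₁ A) ++ (y', a₁ y') :: (t₁ y' ++ tpI a₁ t₁ B) := by
            rw [tpI_append, tpI_cons]; simp
          rw [e3, ins_one, tpI_cons]
          · simp
          · rw [List.map_append, List.mem_append, not_or]
            exact ⟨h.not_tail List.mem_cons_self hyp,
              h.not_tpI (fun v hv => by simp [hv]) hyp m1⟩
          · rw [List.map_append, List.mem_append, not_or]
            exact ⟨h.not_tail hyp hyp,
              h.not_tpI (fun v hv => by simp [hv]) hyp m2⟩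
        rw [e1, e2, ← tpI_cons]
        by_cases ht : t₁ x' = []
        · refine ⟨A ++ x' :: y' :: B, y' :: q, Relation.ReflTransGen.single ?_, Or.inl ?_⟩
          · have := Bk.bot y' B [x'] A q
            simpa using this
          · have e4 : t₁ x' ++ tpI a₁ t₁ A ++ [(x', a₁ x')] ++ tpI a₁ t₁ (y' :: B) =
                tpI a₁ t₁ (A ++ x' :: y' :: B) := by
              rw [tpI_append, tpI_cons x', ht]
              simp
            rw [e4]
        · exact ⟨_, _, Relation.ReflTransGen.refl, Or.inr (Pt.mk (u := [(x', a₁ x')]) (w := t₁ x')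
            hxy rfl (by simp) ht)⟩

/-- A step from a partial state. -/
theorem Pt.step {S S' : List (L × List L) × List (L × List L)} (hS : Pt a₁ t₁ a₂ t₂ p q S)
    (h : RS D a₁ t₁ a₂ t₂ p q) (hm : MM S S') :
    ∃ p' q', Relation.ReflTransGen Bk (p, q) (p', q') ∧
      (S' = (tpI a₁ t₁ p', tpI a₂ t₂ q') ∨ Pt a₁ t₁ a₂ t₂ p' q' S') := by
  have n1 := h.rg.n1
  have n2 := h.rg.n2
  have hpq := h.rg.p
  simp only at n1 n2 hpq
  cases hS with
  | @mk x y A B q u w hxy hu hu0 hw0 =>
    obtain ⟨c, w', rfl⟩ : ∃ c w', w = c :: w' := by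
      cases w with
      | nil => exact absurd rfl hw0
      | cons c w' => exact ⟨c, w', rfl⟩
    have hxp : x ∈ x :: (A ++ y :: B) := List.mem_cons_self
    have hyp : y ∈ x :: (A ++ y :: B) := by simp
    have hc : c ∈ t₁ x := by
      cases u with
      | nil => exact absurd rfl hu0
      | cons s u =>
        rw [List.cons_append, List.cons.injEq] at hu
        rw [hu.2]
        simp
    have hcp := h.tt1 x hxp c hc
    rcases hm with hm | hm
    · -- the second list wins
      generalize hS : (c :: w' ++ tpI a₁ t₁ A ++ u ++ tpI a₁ t₁ (y :: B), tpI a₂ t₂ (y :: q)) = S0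
        at hm
      cases hm with
      | @mk x1 y1 a1 w1 P Q hxy1 hy1 =>
        rw [Prod.mk.injEq] at hS
        obtain ⟨h1, h2⟩ := hS
        rw [tpI_cons, List.cons.injEq, Prod.mk.injEq] at h2
        obtain ⟨⟨rfl, rfl⟩, rfl⟩ := h2
        simp only [List.cons_append, List.cons.injEq] at h1
        obtain ⟨rfl, rfl⟩ := h1
        have n3 := (List.nodup_cons.mp n1).2
        rw [List.nodup_append] at n3
        have m1 : y ∉ A := fun hm => n3.2.2 y hm y List.mem_cons_self rfl
        have m2 : y ∉ B := (List.nodup_cons.mp n3.2.1).1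
        have hTy : y ∉ (u ++ (x1, a1) :: w').map Prod.fst := by
          rw [← hu, List.map_cons, List.mem_cons, not_or]
          exact ⟨fun e => hxy e.symm, h.not_tail hxp hyp⟩
        rw [List.map_append, List.mem_append, not_or, List.map_cons, List.mem_cons, not_or] at hTy
        have e1 : ins y (x1, a1) (t₂ y ++ tpI a₂ t₂ q) = t₂ y ++ tpI a₂ t₂ q := by
          apply ins_self
          rw [List.map_append, List.mem_append, not_or]
          exact ⟨h.swap.not_tail List.mem_cons_self List.mem_cons_self,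
            h.swap.not_tpI (fun v hv => List.mem_cons_of_mem _ hv) List.mem_cons_self
              (List.nodup_cons.mp n2).1⟩
        have e2 : ins y (x1, a1) (w' ++ tpI a₁ t₁ A ++ u ++ tpI a₁ t₁ (y :: B)) =
            w' ++ tpI a₁ t₁ A ++ (u ++ [(x1, a1)]) ++ tpI a₁ t₁ (y :: B) := by
          have e3 : w' ++ tpI a₁ t₁ A ++ u ++ tpI a₁ t₁ (y :: B) =
              (w' ++ tpI a₁ t₁ A ++ u) ++ (y, a₁ y) :: (t₁ y ++ tpI a₁ t₁ B) := by
            rw [tpI_cons]
          rw [e3, ins_one, tpI_cons]
          · simp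
          · rw [List.map_append, List.map_append, List.mem_append, List.mem_append, not_or, not_or]
            exact ⟨⟨hTy.2.2, h.not_tpI (fun v hv => by simp [hv]) hyp m1⟩, hTy.1⟩
          · rw [List.map_append, List.mem_append, not_or]
            exact ⟨h.not_tail hyp hyp,
              h.not_tpI (fun v hv => by simp [hv]) hyp m2⟩
        rw [e1, e2, ← tpI_cons]
        by_cases hw' : w' = []
        · subst hw'
          refine ⟨A ++ x :: y :: B, y :: q, Relation.ReflTransGen.single ?_, Or.inl ?_⟩
          · have := Bk.bot y B [x] A q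
            simpa using this
          · have e4 : [] ++ tpI a₁ t₁ A ++ (u ++ [(x1, a1)]) ++ tpI a₁ t₁ (y :: B) =
                tpI a₁ t₁ (A ++ x :: y :: B) := by
              rw [tpI_append, tpI_cons x, ← hu]
              simp
            rw [e4]
        · refine ⟨_, _, Relation.ReflTransGen.refl, Or.inr (Pt.mk (u := u ++ [(x1, a1)]) (w := w')
            hxy ?_ (by simp) hw')⟩
          rw [hu]
          simp
    · -- the first list wins: impossible
      exfalso
      generalize hS : Prod.swap (c :: w' ++ tpI a₁ t₁ A ++ u ++ tpI a₁ t₁ (y :: B),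
        tpI a₂ t₂ (y :: q)) = S0 at hm
      generalize hS' : Prod.swap S' = S1' at hm
      cases hm with
      | @mk y1 x1 w1 a1 Q P hxy1 hx1 =>
        rw [Prod.swap_prod_mk, Prod.mk.injEq] at hS
        obtain ⟨h2, h1⟩ := hS
        simp only [List.cons_append, List.cons.injEq] at h1
        obtain ⟨rfl, rfl⟩ := h1
        apply hcp
        rw [h2, List.map_cons]
        exact List.mem_cons_of_mem _ hx1

/-- The states near a regular state. -/
def St (a₁ : L → List L) (t₁ : L → List (L × List L)) (a₂ : L → List L)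
    (t₂ : L → List (L × List L)) (p q : List L) (S : List (L × List L) × List (L × List L)) :
    Prop :=
  S = (tpI a₁ t₁ p, tpI a₂ t₂ q) ∨ Pt a₁ t₁ a₂ t₂ p q S ∨ Pt a₂ t₂ a₁ t₁ q p S.swap

omit [DecidableEq L] in
theorem rtg_bk_swap {s t : List L × List L} (h : Relation.ReflTransGen Bk s t) :
    Relation.ReflTransGen Bk s.swap t.swap := by
  induction h with
  | refl => exact Relation.ReflTransGen.refl
  | tail _ h ih => exact ih.tail h.swap

theorem chn_swap {n : ℕ} {E F : List L × List L} (h : Chn (Mv D) n E F) :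
    Chn (Mv D) n E.swap F.swap := h.map (f := Prod.swap) fun _ _ h => h.swap

theorem St.chn {S : List (L × List L) × List (L × List L)} (hS : St a₁ t₁ a₂ t₂ p q S)
    (h : RS D a₁ t₁ a₂ t₂ p q) :
    Chn (Mv D) 1 (unpE (tpI a₁ t₁ p, tpI a₂ t₂ q)) (unpE S) := by
  rcases hS with hS | hS | hS
  · rw [hS]; exact Chn.refl _ _
  · exact hS.chn h
  · exact chn_swap (hS.chn h.swap)

theorem St.step {S S' : List (L × List L) × List (L × List L)} (hS : St a₁ t₁ a₂ t₂ p q S)
    (h : RS D a₁ t₁ a₂ t₂ p q) (hm : MM S S') :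
    ∃ p' q', Relation.ReflTransGen Bk (p, q) (p', q') ∧ St a₁ t₁ a₂ t₂ p' q' S' := by
  have sw : ∀ {S S' : List (L × List L) × List (L × List L)} {a₁ a₂ : L → List L}
      {t₁ t₂ : L → List (L × List L)} {p q : List L},
      (∃ p' q', Relation.ReflTransGen Bk (q, p) (p', q') ∧
        (S'.swap = (tpI a₂ t₂ p', tpI a₁ t₁ q') ∨ Pt a₂ t₂ a₁ t₁ p' q' S'.swap)) →
      ∃ p' q', Relation.ReflTransGen Bk (p, q) (p', q') ∧ St a₁ t₁ a₂ t₂ p' q' S' := by
    rintro S S' a₁ a₂ t₁ t₂ p q ⟨p', q', h1, h2⟩
    refine ⟨q', p', rtg_bk_swap h1, ?_⟩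
    rcases h2 with h2 | h2
    · left
      have := congrArg Prod.swap h2
      rwa [Prod.swap_swap, Prod.swap_prod_mk] at this
    · exact Or.inr (Or.inr h2)
  rcases hS with hS | hS | hS
  · subst hS
    rcases hm with hm | hm
    · obtain ⟨p', q', h1, h2⟩ := reg_step h hm
      exact ⟨p', q', h1, h2.elim Or.inl fun h => Or.inr (Or.inl h)⟩
    · exact sw (S := S') (reg_step h.swap hm)
  · obtain ⟨p', q', h1, h2⟩ := hS.step h hm
    exact ⟨p', q', h1, h2.elim Or.inl fun h => Or.inr (Or.inl h)⟩
  · exact sw (S := S') (hS.step h.swap hm.swap)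

theorem St.rtg {S S' : List (L × List L) × List (L × List L)} (hS : St a₁ t₁ a₂ t₂ p q S)
    (h : RS D a₁ t₁ a₂ t₂ p q) (hm : Relation.ReflTransGen MM S S') :
    ∃ p' q', Relation.ReflTransGen Bk (p, q) (p', q') ∧ St a₁ t₁ a₂ t₂ p' q' S' := by
  induction hm with
  | refl => exact ⟨p, q, Relation.ReflTransGen.refl, hS⟩
  | tail _ hm ih =>
    obtain ⟨p', q', h1, h2⟩ := ih
    obtain ⟨p'', q'', h3, h4⟩ := h2.step (h.bk h1) hm
    exact ⟨p'', q'', h1.trans h3, h4⟩

/-- Stretches from regular states are short. -/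
theorem reg_short {S' : List (L × List L) × List (L × List L)}
    (h : RS D a₁ t₁ a₂ t₂ p q)
    (hm : Relation.ReflTransGen MM (tpI a₁ t₁ p, tpI a₂ t₂ q) S') :
    Chn (Mv D) (FI p.length + 1) (unpE (tpI a₁ t₁ p, tpI a₂ t₂ q)) (unpE S') := by
  obtain ⟨p', q', h1, h2⟩ := St.rtg (Or.inl rfl) h hm
  exact (h.chn h1).trans (h2.chn (h.bk h1))

end Pool.Agent.QuadEq
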