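import Pool.Agent.Lib.MP_b7851d_lc.JumpD
import Pool.Agent.Lib.PolyTime.Codec

/-!
# The verifier
-/

namespace Pool.Agent.QuadEq

section generic

variable {L : Type} [DecidableEq L] {V : L → Bool} {E F : List L × List L}

/-- Soundness of the steps, for all equations. -/
theorem Mv.solvable (h' : Mv V E F) {h : L → List L} (hh : Solves V h F) :
    ∃ h₁ : L → List L, Solves V h₁ E := by
  have hrun : ∀ {A B u : List L} {x : L}, V x = true → x ∉ u →
      Solves V h (x :: sub x (u ++ [x]) A, sub x (u ++ [x]) B) →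
      Solves V (Function.update h x (ev V h (u ++ [x]))) (x :: A, u ++ B) := by
    intro A B u x hx hu hs
    unfold Solves at hs ⊢
    simp only at hs ⊢
    rw [ev_cons, if_pos hx, ev_sub hx] at hs
    rw [ev_cons, if_pos hx, Function.update_self, ev_append (w := u) (w' := B), ev_update hu]
    rw [ev_sub hx] at hs
    rw [← hs, ev_append (w := u) (w' := [x]), ev_cons, if_pos hx, ev_nil, List.append_nil,
      List.append_assoc]
  cases h' with
  | @erase A B x hx hm =>
    refine ⟨Function.update h x [], ?_⟩
    have := hh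
    unfold Solves at this ⊢
    simp only [ev_sub hx, ev_nil] at this
    exact this
  | cancel u A B =>
    refine ⟨h, ?_⟩
    have := hh
    unfold Solves at this ⊢
    simp only [ev_append]
    rw [this]
  | @run A B u x hx hu => exact ⟨_, hrun hx hu hh⟩
  | @run' A B u x hx hu => exact ⟨_, (hrun hx hu hh.swap).swap⟩

theorem rtg_solvable (h' : Relation.ReflTransGen (Mv V) E F) (hh : ∃ h, Solves V h F) :
    ∃ h, Solves V h E := by
  induction h' using Relation.ReflTransGen.head_induction_on with
  | refl => exact hh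
  | head h1 _ ih =>
    obtain ⟨h, ih⟩ := ih
    exact h1.solvable ih

/-- Jumps are sequences of steps. -/
theorem Jump.mv (h : Jump V E F) (hq : Quad V E) : Relation.ReflTransGen (Mv V) E F := by
  obtain ⟨S, S', rfl, rfl, h3, h4, h5⟩ := h
  set V' := dbl V (unpE S) with hV'
  have hq' : Quad V' (unpE S) := fun z hz => hq z (dbl_imp hz)
  have key : ∀ T, Relation.ReflTransGen Move S T → Ok V' T.1 ∧ Ok V' T.2 ∧ Quad V' (unpE T) ∧
      Relation.ReflTransGen (Mv V) (unpE S) (unpE T) := by
    intro T hT
    induction hT with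
    | refl => exact ⟨h3, h4, hq', Relation.ReflTransGen.refl⟩
    | @tail T T' _ hm ih =>
      obtain ⟨i1, i2, i3, i4⟩ := ih
      obtain ⟨j1, j2, j3, -, -⟩ := Move.inv (N := T.1.length + T.2.length) (I := T.1 ++ T.2) hm
        ⟨i1, i2, i3, le_rfl, fun s hs => hs⟩
      exact ⟨j1, j2, j3, i4.tail ((hm.mv i1 i2).weaken fun l hl => dbl_imp hl)⟩
  exact (key S' h5).2.2.2

theorem rtg_pres (h : Relation.ReflTransGen (Mv V) E F) (hq : Quad V E) :
    Quad V F ∧ badE V F ≤ badE V E ∧ (F.1 ++ F.2).Subperm (E.1 ++ E.2) := by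
  induction h with
  | refl => exact ⟨hq, le_rfl, List.Subperm.refl _⟩
  | tail _ h ih =>
    exact ⟨h.quad ih.1, (h.bad ih.1).trans ih.2.1, (h.subperm ih.1).trans ih.2.2⟩

theorem Lk.pres (h : Lk V E F) (hq : Quad V E) :
    Quad V F ∧ badE V F ≤ badE V E ∧ (F.1 ++ F.2).Subperm (E.1 ++ E.2) := by
  rcases h with h | h
  · exact rtg_pres (Relation.ReflTransGen.single h) hq
  · exact rtg_pres (h.mv hq) hq

theorem Chn.pres {n : ℕ} (h : Chn (Lk V) n E F) (hq : Quad V E) : Quad V F := by
  induction h with
  | refl => exact hq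
  | step h1 _ ih => exact ih (h1.pres hq).1

/-- Every solvable quadratic equation has a chain of links. -/
theorem exists_chain : ∀ (n : ℕ) (E : List L × List L), len E = n → Quad V E →
    (∃ h, Solves V h E) → Chn (Lk V) (4 * n) E ([], []) := by
  intro n
  induction n using Nat.strong_induction_on with
  | _ n ih =>
    rintro E hn hq ⟨h, hs⟩
    by_cases hE : E = ([], [])
    · rw [hE]; exact Chn.refl _ _
    · obtain ⟨E', h1, h2, h3⟩ := progress hq hE _ h rfl hs
      have h4 := ih (len E') (by omega) E' rfl (h1.pres hq) h3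
      exact (h1.trans h4).mono (by omega)

end generic

/-! ### The verifier -/

/-- A certificate: the list of the equations of a chain, each with the data of a jump. -/
abbrev Cert : Type := List ((List (List Bool) × List (List Bool)) × JData)

/-- The check of a link. -/
def linkOK (E : List (List Bool) × List (List Bool))
    (p : (List (List Bool) × List (List Bool)) × JData) : Bool :=
  ((movesL E).any fun F => decide (F = p.1)) || jumpOK E p.1 p.2

/-- The verifier. -/
def verify (E : List (List Bool) × List (List Bool)) (c : Cert) : Bool :=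
  (((E :: c.map fun p => p.1).zip c).all fun q => linkOK q.1 q.2) &&
    decide ((E :: c.map fun p => p.1).reverse.headD ([], []) = ([], []))

theorem verify_nil (E : List (List Bool) × List (List Bool)) :
    verify E [] = decide (E = ([], [])) := by
  unfold verify
  simp

theorem verify_cons (E : List (List Bool) × List (List Bool))
    (p : (List (List Bool) × List (List Bool)) × JData) (c : Cert) :
    verify E (p :: c) = (linkOK E p && verify p.1 c) := by
  unfold verify
  rw [List.map_cons, List.zip_cons_cons, List.all_cons, Bool.and_assoc]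
  have : (E :: p.1 :: c.map fun p => p.1).reverse.headD ([], []) =
      (p.1 :: c.map fun p => p.1).reverse.headD ([], []) := by
    rw [List.headD_eq_head?_getD, List.headD_eq_head?_getD, List.head?_reverse, List.head?_reverse,
      List.getLast?_cons_cons]
  rw [this]

theorem verify_sound {c : Cert} : ∀ {E : List (List Bool) × List (List Bool)},
    verify E c = true → ∃ h, Solves isV h E := by
  induction c with
  | nil =>
    intro E h
    rw [verify_nil, decide_eq_true_eq] at h
    rw [h]
    exact ⟨fun _ => [], rfl⟩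
  | cons p c ih =>
    intro E h
    rw [verify_cons, Bool.and_eq_true] at h
    obtain ⟨h1, h2⟩ := h
    unfold linkOK at h1
    rw [Bool.or_eq_true] at h1
    rcases h1 with h1 | h1
    · obtain ⟨F, hF, hF'⟩ := List.any_eq_true.mp h1
      rw [decide_eq_true_eq] at hF'
      subst hF'
      obtain ⟨h, ih⟩ := ih h2
      exact (mem_movesL.mp hF).solvable ih
    · exact rtg_solvable (jumpOK_sound h1) (ih h2)

open Pool.Agent.PolyTime

/-- A bound for words. -/
def bW (m : ℕ) : ℕ := m * (m + 1) + 1

/-- A bound for lists of numbers. -/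
def bL (m : ℕ) : ℕ := m * (2 * m + 1 + 1) + 1

/-- A bound for the data of a jump. -/
def bJ (D m : ℕ) : ℕ := (m * (bW m + 1) + 1) + ((bL m) + ((dcost m D * ((5 * bL m + 4) + 1) + 1) +
  (4 * bL m + 3) + 1) + 1) + 1

theorem size_word_le {m : ℕ} {w : List (List Bool)} (h1 : w.length ≤ m)
    (h2 : ∀ l ∈ w, size l ≤ m) : size w ≤ bW m :=
  (size_list_le h2).trans (Nat.add_le_add_right (Nat.mul_le_mul_right _ h1) 1)

theorem size_nums_le {m N : ℕ} (hN : N ≤ m) {l : List ℕ} (h1 : l.length ≤ N)
    (h2 : ∀ t ∈ l, t < N) : size l ≤ bL m := by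
  refine (size_list_le (B := 2 * m + 1) fun t ht => ?_).trans
    (Nat.add_le_add_right (Nat.mul_le_mul_right _ (h1.trans hN)) 1)
  have := h2 t ht
  rw [size_nat]
  omega

theorem PB.dcost (D : ℕ) : PB fun m => dcost m D := by
  have hn : PB fun m => ncodes m D := by
    unfold ncodes
    exact (PB.id.add (PB.const 1)).mul (((PB.id.mul PB.id).add (PB.const 1)).pow _)
  have ho : PB fun m => ocost (m * m) (ncodes m D) := by
    unfold ocost
    exact (((PB.id.mul PB.id).add (PB.const 1)).mul ((((PB.const 8).mul (PB.id.mul PB.id)).add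
      ((PB.const 16).mul hn)).add (PB.const 34))).add (((PB.const 4).mul (PB.id.mul PB.id)).add
        (PB.const 4))
  unfold QuadEq.dcost
  exact hn.mul (ho.add (PB.const 3))

theorem jump_size {E F : List (List Bool) × List (List Bool)} (h : Jump isV E F) {D m : ℕ}
    (hb : badE isV E ≤ D) (hlen : len E ≤ m) (hl : ∀ l ∈ E.1 ++ E.2, size l ≤ m) :
    ∃ J : JData, jumpOK E F J = true ∧ size J ≤ bJ D m := by
  obtain ⟨J, h1, h2, h3, h4, h5, h6, h7⟩ := jump_cert h hb
  refine ⟨J, h1, ?_⟩
  obtain ⟨f, τ, D', G⟩ := J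
  simp only at h2 h3 h4 h5 h6 h7
  have hN : f.length ≤ m := h2.trans hlen
  have s1 : size f ≤ m * (bW m + 1) + 1 :=
    (size_list_le (B := bW m) fun w hw => size_word_le ((h3 w hw).1.trans hlen)
      fun l hl' => hl l ((h3 w hw).2 l hl')).trans
      (Nat.add_le_add_right (Nat.mul_le_mul_right _ hN) 1)
  have s2 : size τ ≤ bL m := size_nums_le hN h4.1 h4.2
  have s3 : ∀ e ∈ D', size e.1 ≤ 4 * bL m + 3 ∧ size e ≤ 5 * bL m + 4 := by
    rintro ⟨⟨⟨a, b⟩, ⟨c, d⟩⟩, φ⟩ he
    obtain ⟨hφ, hll⟩ := h6 _ he
    have k1 := size_nums_le hN (hll a (by simp)).1 (hll a (by simp)).2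
    have k2 := size_nums_le hN (hll b (by simp)).1 (hll b (by simp)).2
    have k3 := size_nums_le hN (hll c (by simp)).1 (hll c (by simp)).2
    have k4 := size_nums_le hN (hll d (by simp)).1 (hll d (by simp)).2
    have k5 : size φ ≤ bL m := size_nums_le hN hφ.1 hφ.2
    simp only [size_prod]
    constructor <;> omega
  have s4 : size D' ≤ dcost m D * ((5 * bL m + 4) + 1) + 1 :=
    (size_list_le (B := 5 * bL m + 4) fun e he => (s3 e he).2).trans
      (Nat.add_le_add_right (Nat.mul_le_mul_right _ (h5.trans ((PB.dcost D).mono hN))) 1)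
  have s5 : size G ≤ 4 * bL m + 3 := by
    obtain ⟨e, he, he'⟩ := h7
    rw [← he']
    exact (s3 e he).1
  unfold bJ
  simp only [size_prod]
  omega

/-- Completeness of the verifier. -/
theorem verify_complete {D m : ℕ} {n : ℕ} {E F : List (List Bool) × List (List Bool)}
    (h : Chn (Lk isV) n E F) (hF : F = ([], [])) (hq : Quad isV E) (hb : badE isV E ≤ D)
    (hlen : len E ≤ m) (hl : ∀ l ∈ E.1 ++ E.2, size l ≤ m) :
    ∃ c : Cert, verify E c = true ∧ c.length ≤ n ∧
      ∀ p ∈ c, size p ≤ (2 * bW m + 1) + bJ D m + 1 := by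
  induction h with
  | refl n E =>
    subst hF
    exact ⟨[], by rw [verify_nil]; rfl, by simp, by simp⟩
  | @step n E G F h1 _ ih =>
    obtain ⟨p1, p2, p3⟩ := h1.pres hq
    have hlG : ∀ l ∈ G.1 ++ G.2, size l ≤ m := fun l hl' => hl l (p3.subset hl')
    have hlenG : len G ≤ m := p3.length_le.trans hlen
    obtain ⟨c, c1, c2, c3⟩ := ih hF p1 (p2.trans hb) hlenG hlG
    have sG : size G ≤ 2 * bW m + 1 := by
      have k1 : size G.1 ≤ bW m := size_word_le
        ((by unfold len at hlenG; rw [List.length_append] at hlenG; omega))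
        fun l hl' => hlG l (List.mem_append_left _ hl')
      have k2 : size G.2 ≤ bW m := size_word_le
        ((by unfold len at hlenG; rw [List.length_append] at hlenG; omega))
        fun l hl' => hlG l (List.mem_append_right _ hl')
      obtain ⟨a, b⟩ := G
      simp only [size_prod] at k1 k2 ⊢
      omega
    have fin : ∀ J : JData, size J ≤ bJ D m → linkOK E (G, J) = true →
        ∃ c : Cert, verify E c = true ∧ c.length ≤ n + 1 ∧
          ∀ p ∈ c, size p ≤ (2 * bW m + 1) + bJ D m + 1 := by
      intro J hJ hlk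
      refine ⟨(G, J) :: c, by rw [verify_cons, hlk, c1]; rfl, by rw [List.length_cons]; omega, ?_⟩
      intro p hp
      rcases List.mem_cons.mp hp with rfl | hp
      · rw [size_prod]; omega
      · exact c3 p hp
    rcases h1 with h1 | h1
    · refine fin ([], [], [], (([], []), ([], []))) ?_ ?_
      · unfold bJ
        simp only [size_prod, size_list_nil]
        have : 1 ≤ bL m := by unfold bL; omega
        omega
      · unfold linkOK
        rw [Bool.or_eq_true]
        left
        exact List.any_eq_true.mpr ⟨G, mem_movesL.mpr h1, by simp⟩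
    · obtain ⟨J, hJ1, hJ2⟩ := jump_size h1 hb hlen hl
      refine fin J hJ2 ?_
      unfold linkOK
      rw [Bool.or_eq_true]
      exact Or.inr hJ1

/-- A bound for the certificates. -/
def bC (D m : ℕ) : ℕ := 4 * m * ((2 * bW m + 1) + bJ D m + 1 + 1) + 1

theorem exists_cert {D m : ℕ} {E : List (List Bool) × List (List Bool)} (hq : Quad isV E)
    (hb : badE isV E ≤ D) (hlen : len E ≤ m) (hl : ∀ l ∈ E.1 ++ E.2, size l ≤ m)
    (hs : ∃ h, Solves isV h E) : ∃ c : Cert, verify E c = true ∧ size c ≤ bC D m := by
  obtain ⟨c, c1, c2, c3⟩ := verify_complete (exists_chain _ E rfl hq hs) rfl hq hb hlen hl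
  refine ⟨c, c1, (size_list_le c3).trans (Nat.add_le_add_right (Nat.mul_le_mul_right _ ?_) 1)⟩
  exact c2.trans (Nat.mul_le_mul_left 4 hlen)

theorem PB.bC (D : ℕ) : PB fun m => bC D m := by
  have hW : PB fun m => bW m := by
    unfold bW
    exact (PB.id.mul (PB.id.add (PB.const 1))).add (PB.const 1)
  have hL : PB fun m => bL m := by
    unfold bL
    exact (PB.id.mul ((((PB.const 2).mul PB.id).add (PB.const 1)).add (PB.const 1))).add
      (PB.const 1)
  have hJ : PB fun m => bJ D m := by
    unfold bJ
    exact (((PB.id.mul (hW.add (PB.const 1))).add (PB.const 1)).add ((hL.add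
      ((((PB.dcost D).mul ((((PB.const 5).mul hL).add (PB.const 4)).add (PB.const 1))).add
        (PB.const 1)).add (((PB.const 4).mul hL).add (PB.const 3)) |>.add (PB.const 1))).add
        (PB.const 1))).add (PB.const 1)
  unfold QuadEq.bC
  exact (((PB.const 4).mul PB.id).mul ((((((PB.const 2).mul hW).add (PB.const 1)).add hJ).add
    (PB.const 1)).add (PB.const 1))).add (PB.const 1)

end Pool.Agent.QuadEq
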