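import Pool.Agent.Lib.MP_b7851d_lc.Verify

/-!
# The verifier in polynomial time
-/

namespace Pool.Agent.QuadEq

open Pool.Agent.PolyTime

variable {γ : Type} [Enc γ]

theorem poly_insN {u s : γ → ℕ} {l : γ → List ℕ} (hu : PolyFn u) (hs : PolyFn s)
    (hl : PolyFn l) : PolyFn fun c => insN (u c) (s c) (l c) :=
  PolyFn.flatMap (f := fun c r => if r = u c then [s c, r] else [r])
    (PolyFn.ite (PolyFn.decide_eq_nat PolyFn.snd (hu.comp PolyFn.fst))
      (PolyFn.cons (hs.comp PolyFn.fst) (PolyFn.cons PolyFn.snd (PolyFn.const [])))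
      (PolyFn.cons PolyFn.snd (PolyFn.const []))) hl

theorem poly_stepN {τ : γ → List ℕ} {A : γ → NSt} (hτ : PolyFn τ) (hA : PolyFn A) :
    PolyFn fun c => stepN (τ c) (A c) := by
  have h0 : PolyFn (fun p : List ℕ × NSt => stepN p.1 p.2) := by
    refine PolyFn.listCase (l := fun p : List ℕ × NSt => p.2.1) (f := fun _ => [])
      (g := fun p t P => match p.2.2 with
        | [] => []
        | s :: Q => if s = p.1.getD t 0 then [] else
          [(t :: insN (p.1.getD t 0) s P, insN (p.1.getD t 0) s Q)])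
      (PolyFn.fst.comp PolyFn.snd) (PolyFn.const []) ?_
      (fun p h => by obtain ⟨τ, A, B⟩ := p; simp only at h; subst h; rfl)
      (fun p t P h => by obtain ⟨τ, A, B⟩ := p; simp only at h; subst h; rfl)
    refine PolyFn.listCase (l := fun q : (List ℕ × NSt) × ℕ × List ℕ => q.1.2.2)
      (f := fun _ => [])
      (g := fun q s Q => if s = q.1.1.getD q.2.1 0 then [] else
          [(q.2.1 :: insN (q.1.1.getD q.2.1 0) s q.2.2, insN (q.1.1.getD q.2.1 0) s Q)])
      (PolyFn.snd.comp (PolyFn.snd.comp PolyFn.fst)) (PolyFn.const []) ?_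
      (fun q h => by simp only [h]) (fun q s Q h => by simp only [h])
    have hτ : PolyFn (fun r : ((List ℕ × NSt) × ℕ × List ℕ) × ℕ × List ℕ => r.1.1.1) :=
      PolyFn.fst.comp (PolyFn.fst.comp PolyFn.fst)
    have ht : PolyFn (fun r : ((List ℕ × NSt) × ℕ × List ℕ) × ℕ × List ℕ => r.1.2.1) :=
      PolyFn.fst.comp (PolyFn.snd.comp PolyFn.fst)
    have hP : PolyFn (fun r : ((List ℕ × NSt) × ℕ × List ℕ) × ℕ × List ℕ => r.1.2.2) :=
      PolyFn.snd.comp (PolyFn.snd.comp PolyFn.fst)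
    have hs : PolyFn (fun r : ((List ℕ × NSt) × ℕ × List ℕ) × ℕ × List ℕ => r.2.1) :=
      PolyFn.fst.comp PolyFn.snd
    have hQ : PolyFn (fun r : ((List ℕ × NSt) × ℕ × List ℕ) × ℕ × List ℕ => r.2.2) :=
      PolyFn.snd.comp PolyFn.snd
    have hg := PolyFn.getD hτ ht (PolyFn.const 0)
    exact PolyFn.ite (PolyFn.decide_eq_nat hs hg) (PolyFn.const [])
      (PolyFn.cons ((PolyFn.cons ht (poly_insN hg hs hP)).pair (poly_insN hg hs hQ))
        (PolyFn.const []))
  exact h0.comp (hτ.pair hA)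

theorem poly_stepsN {τ : γ → List ℕ} {A : γ → NSt} (hτ : PolyFn τ) (hA : PolyFn A) :
    PolyFn fun c => stepsN (τ c) (A c) :=
  PolyFn.append (poly_stepN hτ hA) (PolyFn.map (f := fun _ (B : NSt) => (B.2, B.1))
    ((PolyFn.snd.comp PolyFn.snd).pair (PolyFn.fst.comp PolyFn.snd))
    (poly_stepN hτ ((PolyFn.snd.comp hA).pair (PolyFn.fst.comp hA))))

theorem poly_mapN {φ : γ → List ℕ} {A : γ → NSt} (hφ : PolyFn φ) (hA : PolyFn A) :
    PolyFn fun c => mapN (φ c) (A c) :=
  (PolyFn.map (f := fun c t => (φ c).getD t 0)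
    (PolyFn.getD (hφ.comp PolyFn.fst) PolyFn.snd (PolyFn.const 0)) (PolyFn.fst.comp hA)).pair
  (PolyFn.map (f := fun c t => (φ c).getD t 0)
    (PolyFn.getD (hφ.comp PolyFn.fst) PolyFn.snd (PolyFn.const 0)) (PolyFn.snd.comp hA))

theorem poly_wfN {N : γ → ℕ} {A : γ → NSt} (hN : PolyFn N) (hA : PolyFn A) :
    PolyFn fun c => wfN (N c) (A c) :=
  PolyFn.and (PolyFn.all (p := fun c t => decide (t < N c))
      (PolyFn.decide_lt PolyFn.snd (hN.comp PolyFn.fst)) (PolyFn.fst.comp hA))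
    (PolyFn.all (p := fun c t => decide (t < N c))
      (PolyFn.decide_lt PolyFn.snd (hN.comp PolyFn.fst)) (PolyFn.snd.comp hA))

theorem poly_nodupN {l : γ → List ℕ} (hl : PolyFn l) : PolyFn fun c => nodupN (l c) :=
  PolyFn.all (p := fun c a => decide (((l c).filter fun b => decide (b = a)).length = 1))
    (PolyFn.decide_eq_nat (PolyFn.length (PolyFn.filter
      (p := fun (q : γ × ℕ) b => decide (b = q.2))
      (PolyFn.decide_eq_nat PolyFn.snd (PolyFn.snd.comp PolyFn.fst)) (hl.comp PolyFn.fst)))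
      (PolyFn.const 1)) hl

theorem poly_permOK {N : γ → ℕ} {τ φ : γ → List ℕ} (hN : PolyFn N) (hτ : PolyFn τ)
    (hφ : PolyFn φ) : PolyFn fun c => permOK (N c) (τ c) (φ c) := by
  refine PolyFn.and (PolyFn.decide_eq_nat (PolyFn.length hφ) hN) (PolyFn.and (poly_nodupN hφ)
    (PolyFn.all (p := fun c t => decide ((φ c).getD t 0 < N c) &&
      decide ((φ c).getD ((τ c).getD t 0) 0 = (τ c).getD ((φ c).getD t 0) 0)) ?_
      (PolyFn.range hN)))
  have hφ' : PolyFn (fun q : γ × ℕ => φ q.1) := hφ.comp PolyFn.fst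
  have hτ' : PolyFn (fun q : γ × ℕ => τ q.1) := hτ.comp PolyFn.fst
  exact PolyFn.and (PolyFn.decide_lt (PolyFn.getD hφ' PolyFn.snd (PolyFn.const 0))
    (hN.comp PolyFn.fst)) (PolyFn.decide_eq_nat
      (PolyFn.getD hφ' (PolyFn.getD hτ' PolyFn.snd (PolyFn.const 0)) (PolyFn.const 0))
      (PolyFn.getD hτ' (PolyFn.getD hφ' PolyFn.snd (PolyFn.const 0)) (PolyFn.const 0)))

theorem poly_justOK {N : γ → ℕ} {τ : γ → List ℕ} {D : γ → List Entry} {e : γ → Entry}
    (hN : PolyFn N) (hτ : PolyFn τ) (hD : PolyFn D) (he : PolyFn e) :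
    PolyFn fun c => justOK (N c) (τ c) (D c) (e c) := by
  have h11 : PolyFn fun c => (e c).1.1 := PolyFn.fst.comp (PolyFn.fst.comp he)
  have h12 : PolyFn fun c => (e c).1.2 := PolyFn.snd.comp (PolyFn.fst.comp he)
  have h2 : PolyFn fun c => (e c).2 := PolyFn.snd.comp he
  have hm12 : PolyFn fun c => mapN (e c).2 (e c).1.2 := poly_mapN h2 h12
  refine PolyFn.and (PolyFn.and (poly_wfN hN h11) (poly_wfN hN h12)) (PolyFn.or ?_ (PolyFn.or ?_
    (PolyFn.or ?_ (PolyFn.and (poly_permOK hN hτ h2) (PolyFn.or ?_ (PolyFn.and ?_ ?_))))))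
  · exact PolyFn.any (p := fun c B => decide (B = (e c).1.2))
      (PolyFn.decide_eq PolyFn.snd (h12.comp PolyFn.fst)) (poly_stepsN hτ h11)
  · exact PolyFn.decide_eq h11 h12
  · refine PolyFn.any (p := fun c (e₁ : Entry) => (D c).any fun e₂ =>
      decide (e₁.1.1 = (e c).1.1) && (decide (e₁.1.2 = e₂.1.1) &&
        decide (e₂.1.2 = (e c).1.2))) ?_ hD
    refine PolyFn.any (p := fun (q : γ × Entry) (e₂ : Entry) =>
      decide (q.2.1.1 = (e q.1).1.1) && (decide (q.2.1.2 = e₂.1.1) &&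
        decide (e₂.1.2 = (e q.1).1.2))) ?_ (hD.comp PolyFn.fst)
    have a1 : PolyFn fun r : (γ × Entry) × Entry => r.1.2.1.1 :=
      PolyFn.fst.comp (PolyFn.fst.comp (PolyFn.snd.comp PolyFn.fst))
    have a2 : PolyFn fun r : (γ × Entry) × Entry => r.1.2.1.2 :=
      PolyFn.snd.comp (PolyFn.fst.comp (PolyFn.snd.comp PolyFn.fst))
    have a3 : PolyFn fun r : (γ × Entry) × Entry => r.2.1.1 :=
      PolyFn.fst.comp (PolyFn.fst.comp PolyFn.snd)
    have a4 : PolyFn fun r : (γ × Entry) × Entry => r.2.1.2 :=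
      PolyFn.snd.comp (PolyFn.fst.comp PolyFn.snd)
    have a5 : PolyFn fun r : (γ × Entry) × Entry => (e r.1.1).1.1 :=
      h11.comp (PolyFn.fst.comp PolyFn.fst)
    have a6 : PolyFn fun r : (γ × Entry) × Entry => (e r.1.1).1.2 :=
      h12.comp (PolyFn.fst.comp PolyFn.fst)
    exact PolyFn.and (PolyFn.decide_eq a1 a5) (PolyFn.and (PolyFn.decide_eq a2 a3)
      (PolyFn.decide_eq a4 a6))
  · refine PolyFn.any (p := fun c (e₁ : Entry) => decide (mapN (e c).2 e₁.1.1 = (e c).1.1) &&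
      decide (mapN (e c).2 e₁.1.2 = (e c).1.2)) ?_ hD
    have a1 : PolyFn fun r : γ × Entry => r.2.1.1 := PolyFn.fst.comp (PolyFn.fst.comp PolyFn.snd)
    have a2 : PolyFn fun r : γ × Entry => r.2.1.2 := PolyFn.snd.comp (PolyFn.fst.comp PolyFn.snd)
    have a3 : PolyFn fun r : γ × Entry => (e r.1).2 := h2.comp PolyFn.fst
    exact PolyFn.and (PolyFn.decide_eq (poly_mapN a3 a1) (h11.comp PolyFn.fst))
      (PolyFn.decide_eq (poly_mapN a3 a2) (h12.comp PolyFn.fst))
  · exact PolyFn.decide_eq hm12 h11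
  · refine PolyFn.any (p := fun c (e₁ : Entry) => decide (e₁.1.1 = (e c).1.2) &&
      decide (e₁.1.2 = (e c).1.1)) ?_ hD
    have a1 : PolyFn fun r : γ × Entry => r.2.1.1 := PolyFn.fst.comp (PolyFn.fst.comp PolyFn.snd)
    have a2 : PolyFn fun r : γ × Entry => r.2.1.2 := PolyFn.snd.comp (PolyFn.fst.comp PolyFn.snd)
    exact PolyFn.and (PolyFn.decide_eq a1 (h12.comp PolyFn.fst))
      (PolyFn.decide_eq a2 (h11.comp PolyFn.fst))

theorem poly_valOK {N : γ → ℕ} {τ : γ → List ℕ} {D : γ → List Entry}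
    (hN : PolyFn N) (hτ : PolyFn τ) (hD : PolyFn D) :
    PolyFn fun c => valOK (N c) (τ c) (D c) :=
  PolyFn.all (p := fun c i => justOK (N c) (τ c) ((D c).drop (i + 1))
      ((D c).getD i ((([], []), ([], [])), [])))
    (poly_justOK (hN.comp PolyFn.fst) (hτ.comp PolyFn.fst)
      (PolyFn.drop (PolyFn.succ PolyFn.snd) (hD.comp PolyFn.fst))
      (PolyFn.getD (hD.comp PolyFn.fst) PolyFn.snd (PolyFn.const _)))
    (PolyFn.range (PolyFn.length hD))

theorem poly_hdT {f : γ → List (List (List Bool))} {t : γ → ℕ} (hf : PolyFn f) (ht : PolyFn t) :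
    PolyFn fun c => hdT (f c) (t c) :=
  PolyFn.headD (PolyFn.getD hf ht (PolyFn.const [])) (PolyFn.const [])

theorem poly_itemsOK {f : γ → List (List (List Bool))} {τ : γ → List ℕ} (hf : PolyFn f)
    (hτ : PolyFn τ) : PolyFn fun c => itemsOK (f c) (τ c) := by
  refine PolyFn.all (p := fun c t => (isV (hdT (f c) t) &&
      decide ((τ c).getD t 0 < (f c).length)) &&
      (decide (hdT (f c) ((τ c).getD t 0) = hdT (f c) t) &&
      (List.range (f c).length).all fun s =>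
        (!decide (hdT (f c) s = hdT (f c) t) || (decide (s = t) || decide (s = (τ c).getD t 0))) &&
          !(((f c).getD s []).tail.any fun l => decide (l = hdT (f c) t)))) ?_
    (PolyFn.range (PolyFn.length hf))
  have hf1 : PolyFn (fun q : γ × ℕ => f q.1) := hf.comp PolyFn.fst
  have hτ1 : PolyFn (fun q : γ × ℕ => τ q.1) := hτ.comp PolyFn.fst
  have hg1 : PolyFn (fun q : γ × ℕ => (τ q.1).getD q.2 0) :=
    PolyFn.getD hτ1 PolyFn.snd (PolyFn.const 0)
  have hh1 : PolyFn (fun q : γ × ℕ => hdT (f q.1) q.2) := poly_hdT hf1 PolyFn.snd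
  refine PolyFn.and (PolyFn.and (poly_isV hh1) (PolyFn.decide_lt hg1 (PolyFn.length hf1)))
    (PolyFn.and (PolyFn.decide_eq (poly_hdT hf1 hg1) hh1)
    (PolyFn.all (p := fun (q : γ × ℕ) s => (!decide (hdT (f q.1) s = hdT (f q.1) q.2) ||
      (decide (s = q.2) || decide (s = (τ q.1).getD q.2 0))) &&
          !(((f q.1).getD s []).tail.any fun l => decide (l = hdT (f q.1) q.2))) ?_
      (PolyFn.range (PolyFn.length hf1))))
  have hf2 : PolyFn (fun r : (γ × ℕ) × ℕ => f r.1.1) := hf1.comp PolyFn.fst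
  have hh2 : PolyFn (fun r : (γ × ℕ) × ℕ => hdT (f r.1.1) r.1.2) := hh1.comp PolyFn.fst
  have ht2 : PolyFn (fun r : (γ × ℕ) × ℕ => r.1.2) := PolyFn.snd.comp PolyFn.fst
  have hg2 : PolyFn (fun r : (γ × ℕ) × ℕ => (τ r.1.1).getD r.1.2 0) := hg1.comp PolyFn.fst
  refine PolyFn.and (PolyFn.or (PolyFn.not (PolyFn.decide_eq (poly_hdT hf2 PolyFn.snd) hh2))
    (PolyFn.or (PolyFn.decide_eq_nat PolyFn.snd ht2) (PolyFn.decide_eq_nat PolyFn.snd hg2)))
    (PolyFn.not (PolyFn.any (p := fun (r : (γ × ℕ) × ℕ) l => decide (l = hdT (f r.1.1) r.1.2))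
      (PolyFn.decide_eq PolyFn.snd (hh2.comp PolyFn.fst))
      (PolyFn.tail (PolyFn.getD hf2 PolyFn.snd (PolyFn.const [])))))

theorem poly_instE {f : γ → List (List (List Bool))} {A : γ → NSt} (hf : PolyFn f)
    (hA : PolyFn A) : PolyFn fun c => instE (f c) (A c) :=
  (PolyFn.flatMap (f := fun c t => (f c).getD t [])
    (PolyFn.getD (hf.comp PolyFn.fst) PolyFn.snd (PolyFn.const [])) (PolyFn.fst.comp hA)).pair
  (PolyFn.flatMap (f := fun c t => (f c).getD t [])
    (PolyFn.getD (hf.comp PolyFn.fst) PolyFn.snd (PolyFn.const [])) (PolyFn.snd.comp hA))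

theorem poly_jumpOK {E F : γ → List (List Bool) × List (List Bool)} {J : γ → JData}
    (hE : PolyFn E) (hF : PolyFn F) (hJ : PolyFn J) :
    PolyFn fun c => jumpOK (E c) (F c) (J c) := by
  have j1 : PolyFn fun c => (J c).1 := PolyFn.fst.comp hJ
  have j2 : PolyFn fun c => (J c).2.1 := PolyFn.fst.comp (PolyFn.snd.comp hJ)
  have j3 : PolyFn fun c => (J c).2.2.1 := PolyFn.fst.comp (PolyFn.snd.comp (PolyFn.snd.comp hJ))
  have j4 : PolyFn fun c => (J c).2.2.2 := PolyFn.snd.comp (PolyFn.snd.comp (PolyFn.snd.comp hJ))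
  have j5 : PolyFn fun c => (J c).2.2.2.1 := PolyFn.fst.comp j4
  have j6 : PolyFn fun c => (J c).2.2.2.2 := PolyFn.snd.comp j4
  refine PolyFn.and (PolyFn.and (poly_itemsOK j1 j2) (poly_nodupN (PolyFn.append
    (PolyFn.fst.comp j5) (PolyFn.snd.comp j5)))) (PolyFn.and (PolyFn.and
      (poly_valOK (PolyFn.length j1) j2 j3) (PolyFn.any
        (p := fun c (e : Entry) => decide (e.1 = (J c).2.2.2)) ?_ j3))
      (PolyFn.and (PolyFn.decide_eq hE (poly_instE j1 j5))
        (PolyFn.decide_eq hF (poly_instE j1 j6))))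
  exact PolyFn.decide_eq (PolyFn.fst.comp PolyFn.snd) (j4.comp PolyFn.fst)

theorem poly_linkOK {E : γ → List (List Bool) × List (List Bool)}
    {p : γ → (List (List Bool) × List (List Bool)) × JData} (hE : PolyFn E) (hp : PolyFn p) :
    PolyFn fun c => linkOK (E c) (p c) :=
  PolyFn.or (PolyFn.any (p := fun c (F : List (List Bool) × List (List Bool)) =>
      decide (F = (p c).1))
    (PolyFn.decide_eq PolyFn.snd ((PolyFn.fst.comp hp).comp PolyFn.fst)) (poly_movesL.comp hE))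
    (poly_jumpOK hE (PolyFn.fst.comp hp) (PolyFn.snd.comp hp))

theorem poly_verify {E : γ → List (List Bool) × List (List Bool)} {k : γ → Cert}
    (hE : PolyFn E) (hk : PolyFn k) : PolyFn fun c => verify (E c) (k c) := by
  have hm : PolyFn fun c => E c :: (k c).map fun p => p.1 :=
    PolyFn.cons hE (PolyFn.map (f := fun _ (p : (List (List Bool) × List (List Bool)) × JData) =>
      p.1) (PolyFn.fst.comp PolyFn.snd) hk)
  exact PolyFn.and (PolyFn.all (p := fun _ (q : (List (List Bool) × List (List Bool)) ×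
      ((List (List Bool) × List (List Bool)) × JData)) => linkOK q.1 q.2)
      (poly_linkOK (PolyFn.fst.comp PolyFn.snd) (PolyFn.snd.comp PolyFn.snd))
      (PolyFn.zip hm hk))
    (PolyFn.decide_eq (PolyFn.headD (PolyFn.reverse hm) (PolyFn.const _)) (PolyFn.const _))

end Pool.Agent.QuadEq
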